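import Pool.Agent.Frd.Gl

/-!
# The resolvent `(l - Δ)^(-1)` on Schwartz functions
-/

open MeasureTheory Set Filter Topology NDG
open scoped SchwartzMap LineDeriv Laplacian FourierTransform

namespace Pool.Agent.Frd

/-- MODULE ra. The symbol has temperate growth: it equals
`l⁻¹ * (1 + ‖(2π/√l) • ξ‖^2)^(-1)`, use `hasTemperateGrowth_one_add_norm_sq_rpow` and composition with a linear map. -/
theorem sym_temp (d : ℕ) {l : ℝ} (hl : 0 < l) :
    Function.HasTemperateGrowth (fun ξ : E d => (l + (2 * Real.pi) ^ 2 * ‖ξ‖ ^ 2)⁻¹) := by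
  have h1 : Function.HasTemperateGrowth (fun ξ : E d => (1 + ‖ξ‖ ^ 2) ^ (-1 : ℝ)) :=
    Function.hasTemperateGrowth_one_add_norm_sq_rpow (E d) (-1)
  have h2 : Function.HasTemperateGrowth
      (fun ξ : E d => ((2 * Real.pi / √l) • ContinuousLinearMap.id ℝ (E d)) ξ) :=
    ((2 * Real.pi / √l) • ContinuousLinearMap.id ℝ (E d)).hasTemperateGrowth
  have h3 := (Function.HasTemperateGrowth.const (E := E d) (l⁻¹ : ℝ)).mul (h1.comp h2)
  have e : (fun ξ : E d => (l + (2 * Real.pi) ^ 2 * ‖ξ‖ ^ 2)⁻¹) = (fun _ : E d => (l⁻¹ : ℝ)) *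
      ((fun ξ : E d => (1 + ‖ξ‖ ^ 2) ^ (-1 : ℝ)) ∘
        fun ξ : E d => ((2 * Real.pi / √l) • ContinuousLinearMap.id ℝ (E d)) ξ) := by
    funext ξ
    have hs : √l ^ 2 = l := Real.sq_sqrt hl.le
    have h5 : ‖((2 * Real.pi / √l) • ContinuousLinearMap.id ℝ (E d)) ξ‖ ^ 2 =
        (2 * Real.pi) ^ 2 / l * ‖ξ‖ ^ 2 := by
      rw [_root_.smul_apply, ContinuousLinearMap.id_apply, norm_smul, mul_pow,
        Real.norm_eq_abs, sq_abs, div_pow, hs]
    simp only [Pi.mul_apply, Function.comp, h5, Real.rpow_neg_one, ← mul_inv]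
    congr 1
    field_simp
  rw [e]
  exact h3

/-- MODULE rb. `w = m(D) f` solves `l w - Δ w = f` (complex valued). Use
`SchwartzMap.laplacian_eq_fourierMultiplierCLM`, `fourierMultiplierCLM_fourierMultiplierCLM_apply`,
`fourierMultiplierCLM_const`, and `(l + (2π)^2 |ξ|^2) * (l + (2π)^2 |ξ|^2)⁻¹ = 1`. -/
theorem res_eq (d : ℕ) {l : ℝ} (hl : 0 < l) (f : 𝓢(E d, ℂ)) :
    (l : ℂ) • SchwartzMap.fourierMultiplierCLM ℂ (fun ξ : E d => (l + (2 * Real.pi) ^ 2 * ‖ξ‖ ^ 2)⁻¹) f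
      - Δ (SchwartzMap.fourierMultiplierCLM ℂ (fun ξ : E d => (l + (2 * Real.pi) ^ 2 * ‖ξ‖ ^ 2)⁻¹) f) = f := by
  have hg := sym_temp d hl
  have hn : Function.HasTemperateGrowth (fun ξ : E d => ‖ξ‖ ^ 2) :=
    Function.hasTemperateGrowth_norm_sq (E d)
  rw [SchwartzMap.laplacian_eq_fourierMultiplierCLM,
    SchwartzMap.fourierMultiplierCLM_fourierMultiplierCLM_apply hn hg,
    SchwartzMap.fourierMultiplierCLM_apply, SchwartzMap.fourierMultiplierCLM_apply]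
  have e2 : (-(2 * Real.pi) ^ 2) • 𝓕⁻ (SchwartzMap.smulLeftCLM ℂ
      ((fun ξ : E d => ‖ξ‖ ^ 2) * fun ξ : E d => (l + (2 * Real.pi) ^ 2 * ‖ξ‖ ^ 2)⁻¹) (𝓕 f)) =
      𝓕⁻ ((-(2 * Real.pi) ^ 2) • SchwartzMap.smulLeftCLM ℂ
      ((fun ξ : E d => ‖ξ‖ ^ 2) * fun ξ : E d => (l + (2 * Real.pi) ^ 2 * ‖ξ‖ ^ 2)⁻¹) (𝓕 f)) := by
    rw [FourierTransform.fourierInv_smul]
  have e1 : (l : ℂ) • 𝓕⁻ (SchwartzMap.smulLeftCLM ℂ
      (fun ξ : E d => (l + (2 * Real.pi) ^ 2 * ‖ξ‖ ^ 2)⁻¹) (𝓕 f)) =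
      𝓕⁻ ((l : ℂ) • SchwartzMap.smulLeftCLM ℂ
      (fun ξ : E d => (l + (2 * Real.pi) ^ 2 * ‖ξ‖ ^ 2)⁻¹) (𝓕 f)) := by
    rw [FourierTransform.fourierInv_smul]
  rw [e1, e2, sub_eq_add_neg, ← FourierTransform.fourierInv_neg, ← FourierTransform.fourierInv_add]
  have e3 : ((l : ℂ) • SchwartzMap.smulLeftCLM ℂ
      (fun ξ : E d => (l + (2 * Real.pi) ^ 2 * ‖ξ‖ ^ 2)⁻¹) (𝓕 f)) +
      -((-(2 * Real.pi) ^ 2) • SchwartzMap.smulLeftCLM ℂ
      ((fun ξ : E d => ‖ξ‖ ^ 2) * fun ξ : E d => (l + (2 * Real.pi) ^ 2 * ‖ξ‖ ^ 2)⁻¹) (𝓕 f)) =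
      𝓕 f := by
    ext ξ
    have hpos : (0 : ℝ) < l + (2 * Real.pi) ^ 2 * ‖ξ‖ ^ 2 := by positivity
    have h1 : SchwartzMap.smulLeftCLM ℂ
      (fun ξ : E d => (l + (2 * Real.pi) ^ 2 * ‖ξ‖ ^ 2)⁻¹) (𝓕 f) ξ =
      (l + (2 * Real.pi) ^ 2 * ‖ξ‖ ^ 2)⁻¹ • (𝓕 f) ξ := SchwartzMap.smulLeftCLM_apply_apply hg _ _
    have h2 : SchwartzMap.smulLeftCLM ℂ
      ((fun ξ : E d => ‖ξ‖ ^ 2) * fun ξ : E d => (l + (2 * Real.pi) ^ 2 * ‖ξ‖ ^ 2)⁻¹) (𝓕 f) ξ =
      (‖ξ‖ ^ 2 * (l + (2 * Real.pi) ^ 2 * ‖ξ‖ ^ 2)⁻¹) • (𝓕 f) ξ :=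
      SchwartzMap.smulLeftCLM_apply_apply (hn.mul hg) _ _
    rw [_root_.add_apply, _root_.neg_apply, _root_.smul_apply, _root_.smul_apply, h1, h2]
    have h3 : (l : ℂ) • ((l + (2 * Real.pi) ^ 2 * ‖ξ‖ ^ 2)⁻¹ • (𝓕 f) ξ) =
        (l * (l + (2 * Real.pi) ^ 2 * ‖ξ‖ ^ 2)⁻¹ : ℝ) • (𝓕 f) ξ := by
      rw [mul_smul, Complex.coe_smul]
    rw [h3, ← neg_smul, ← mul_smul, ← add_smul]
    have h4 : (l * (l + (2 * Real.pi) ^ 2 * ‖ξ‖ ^ 2)⁻¹ +
        -(-(2 * Real.pi) ^ 2) * (‖ξ‖ ^ 2 * (l + (2 * Real.pi) ^ 2 * ‖ξ‖ ^ 2)⁻¹) : ℝ) = 1 := by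
      field_simp
    rw [h4, one_smul]
  rw [e3, FourierTransform.fourierInv_fourier_eq]

private theorem rc_gauss (d : ℕ) {t : ℝ} (ht : 0 < t) :
    Integrable (fun ξ : E d => Real.exp (-(t * ((2 * Real.pi) ^ 2 * ‖ξ‖ ^ 2)))) := by
  have hb : (0 : ℝ) < t * (2 * Real.pi) ^ 2 := by positivity
  have h := GaussianFourier.integrable_cexp_neg_mul_sq_norm_add (V := E d)
    (b := ((t * (2 * Real.pi) ^ 2 : ℝ) : ℂ)) (by rw [Complex.ofReal_re]; exact hb) 0 0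
  have h2 := h.norm
  refine h2.congr (Eventually.of_forall fun ξ => ?_)
  simp only [Complex.norm_exp]
  congr 1
  simp only [inner_zero_left, Complex.ofReal_zero, mul_zero, add_zero, ← Complex.ofReal_pow,
    ← Complex.ofReal_neg, ← Complex.ofReal_mul, Complex.ofReal_re]
  ring

/-- MODULE rc. The heat kernel on the Fourier side: for `t > 0`,
`∫ e^(2πi⟨ξ,x⟩) e^(-t (2π)^2 |ξ|^2) (𝓕 f)(ξ) dξ = ∫ (4πt)^(-d/2) e^(-|x-y|^2/4t) f(y) dy`.
Proof: write `𝓕 f ξ = ∫ e^(-2πi⟨y,ξ⟩) f y dy`, Fubini (the integrand is bounded by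
`e^(-t(2π)^2|ξ|^2) |f y|`), and `GaussianFourier.integral_cexp_neg_mul_sq_norm_add` with `b = (2π)^2 t`, `c = 2πi`,
`w = x - y` (`finrank ℝ (E d) = d`). -/
theorem heat_fourier (d : ℕ) {t : ℝ} (ht : 0 < t) (f : 𝓢(E d, ℂ)) (x : E d) :
    ∫ ξ : E d, Complex.exp (2 * Real.pi * Complex.I * (inner ℝ ξ x : ℝ)) *
      Complex.exp (-((t * ((2 * Real.pi) ^ 2 * ‖ξ‖ ^ 2) : ℝ) : ℂ)) * (𝓕 f) ξ =
    ∫ y : E d, (((4 * Real.pi * t) ^ (-((d : ℝ) / 2)) * Real.exp (-(‖x - y‖ ^ 2 / (4 * t))) : ℝ) : ℂ) * f y := by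
  have hb : (0 : ℝ) < t * (2 * Real.pi) ^ 2 := by positivity
  set G : E d → E d → ℂ := fun ξ y =>
    Complex.exp (2 * Real.pi * Complex.I * (inner ℝ ξ x : ℝ)) *
      Complex.exp (-((t * ((2 * Real.pi) ^ 2 * ‖ξ‖ ^ 2) : ℝ) : ℂ)) *
      (Complex.exp (((-2 * Real.pi * inner ℝ y ξ : ℝ) : ℂ) * Complex.I) * f y) with hG
  have hcont : Continuous (Function.uncurry G) := by
    have hf : Continuous (f : E d → ℂ) := f.continuous
    simp only [hG, Function.uncurry_def]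
    fun_prop
  have hnorm : ∀ p : E d × E d, ‖Function.uncurry G p‖ =
      Real.exp (-(t * ((2 * Real.pi) ^ 2 * ‖p.1‖ ^ 2))) * ‖f p.2‖ := by
    rintro ⟨ξ, y⟩
    simp only [hG, Function.uncurry_apply_pair, norm_mul, Complex.norm_exp]
    have h1 : (2 * Real.pi * Complex.I * (inner ℝ ξ x : ℝ) : ℂ).re = 0 := by
      simp
    have h2 : ((((-2 * Real.pi * inner ℝ y ξ : ℝ) : ℂ) * Complex.I)).re = 0 := by
      rw [Complex.re_ofReal_mul, Complex.I_re, mul_zero]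
    rw [h1, h2, ← Complex.ofReal_neg, Complex.ofReal_re, Real.exp_zero]
    ring
  have hint : Integrable (Function.uncurry G) (volume.prod volume) := by
    have h3 := (rc_gauss d ht).mul_prod (f.integrable (μ := volume)).norm
    refine h3.mono' hcont.aestronglyMeasurable (Eventually.of_forall fun p => ?_)
    rw [hnorm]
  have hL : ∀ ξ : E d, Complex.exp (2 * Real.pi * Complex.I * (inner ℝ ξ x : ℝ)) *
      Complex.exp (-((t * ((2 * Real.pi) ^ 2 * ‖ξ‖ ^ 2) : ℝ) : ℂ)) * (𝓕 f) ξ = ∫ y, G ξ y := by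
    intro ξ
    rw [SchwartzMap.fourier_coe, Real.fourier_eq', ← integral_const_mul]
    rfl
  rw [integral_congr_ae (Eventually.of_forall hL), integral_integral_swap hint]
  refine integral_congr_ae (Eventually.of_forall fun y => ?_)
  have h4 : ∀ ξ : E d, G ξ y = Complex.exp (-((t * (2 * Real.pi) ^ 2 : ℝ) : ℂ) * ‖ξ‖ ^ 2 +
      (2 * Real.pi * Complex.I) * (inner ℝ (x - y) ξ : ℝ)) * f y := by
    intro ξ
    simp only [hG]
    rw [← mul_assoc, ← Complex.exp_add, ← Complex.exp_add]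
    congr 2
    rw [inner_sub_left, real_inner_comm ξ x]
    push_cast
    ring
  show ∫ ξ, G ξ y = _
  rw [integral_congr_ae (Eventually.of_forall h4), integral_mul_const,
    GaussianFourier.integral_cexp_neg_mul_sq_norm_add (by rw [Complex.ofReal_re]; exact hb)]
  congr 1
  rw [finrank_euclideanSpace_fin]
  have h5 : ((Real.pi : ℂ) / ((t * (2 * Real.pi) ^ 2 : ℝ) : ℂ)) = (((4 * Real.pi * t)⁻¹ : ℝ) : ℂ) := by
    rw [← Complex.ofReal_div]
    congr 1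
    field_simp
    ring
  have h6 : (2 * Real.pi * Complex.I) ^ 2 * ‖x - y‖ ^ 2 / (4 * ((t * (2 * Real.pi) ^ 2 : ℝ) : ℂ)) =
      ((-(‖x - y‖ ^ 2 / (4 * t)) : ℝ) : ℂ) := by
    have hpi : (Real.pi : ℂ) ≠ 0 := by exact_mod_cast Real.pi_ne_zero
    have htc : (t : ℂ) ≠ 0 := by exact_mod_cast ht.ne'
    push_cast
    rw [mul_pow, Complex.I_sq]
    field_simp
  rw [h5, h6, ← Complex.ofReal_exp]
  have h7 : ((((4 * Real.pi * t)⁻¹ : ℝ) : ℂ)) ^ ((d : ℂ) / 2) =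
      (((4 * Real.pi * t) ^ (-((d : ℝ) / 2)) : ℝ) : ℂ) := by
    have h8 : ((d : ℂ) / 2) = (((d : ℝ) / 2 : ℝ) : ℂ) := by push_cast; ring
    rw [h8, ← Complex.ofReal_cpow (by positivity), Real.inv_rpow (by positivity),
      Real.rpow_neg (by positivity)]
  rw [h7, ← Complex.ofReal_mul]

private theorem rd_exp {l : ℝ} (hl : 0 < l) :
    Integrable (fun t : ℝ => Real.exp (-(l * t))) (volume.restrict (Ioi (0 : ℝ))) := by
  have h := integrableOn_exp_mul_Ioi (a := -l) (by linarith) 0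
  refine h.congr (Eventually.of_forall fun t => ?_)
  show Real.exp (-l * t) = Real.exp (-(l * t))
  rw [neg_mul]

private theorem rd_int (d : ℕ) {l : ℝ} (hl : 0 < l) (x : E d) :
    Integrable (fun p : ℝ × E d => Real.exp (-(l * p.1)) * (4 * Real.pi * p.1) ^ (-((d : ℝ) / 2)) *
      Real.exp (-(‖x - p.2‖ ^ 2 / (4 * p.1)))) ((volume.restrict (Ioi (0 : ℝ))).prod volume) := by
  have hmeas : Measurable (fun p : ℝ × E d => Real.exp (-(l * p.1)) *
      (4 * Real.pi * p.1) ^ (-((d : ℝ) / 2)) * Real.exp (-(‖x - p.2‖ ^ 2 / (4 * p.1)))) := by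
    fun_prop
  rw [integrable_prod_iff hmeas.aestronglyMeasurable]
  have hslice : ∀ t : ℝ, 0 < t →
      Integrable (fun y : E d => Real.exp (-(l * t)) * (4 * Real.pi * t) ^ (-((d : ℝ) / 2)) *
        Real.exp (-(‖x - y‖ ^ 2 / (4 * t)))) ∧
      ∫ y : E d, Real.exp (-(l * t)) * (4 * Real.pi * t) ^ (-((d : ℝ) / 2)) *
        Real.exp (-(‖x - y‖ ^ 2 / (4 * t))) = Real.exp (-(l * t)) := by
    intro t ht
    obtain ⟨h1, h2⟩ := heat_int d ht
    have h3 := (h1.comp_sub_left x).const_mul (Real.exp (-(l * t)))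
    have h4 := integral_sub_left_eq_self (fun h : E d => (4 * Real.pi * t) ^ (-((d : ℝ) / 2)) *
      Real.exp (-(‖h‖ ^ 2 / (4 * t)))) volume x
    constructor
    · refine h3.congr (Eventually.of_forall fun y => ?_)
      simp only [mul_assoc]
    · simp only [mul_assoc] at h4 h2 ⊢
      rw [integral_const_mul, h4, h2, mul_one]
  constructor
  · filter_upwards [ae_restrict_mem measurableSet_Ioi] with t ht
    exact (hslice t ht).1
  · refine (rd_exp hl).congr ?_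
    filter_upwards [ae_restrict_mem measurableSet_Ioi] with t ht
    have ht0 : (0 : ℝ) < t := ht
    have h5 : ∀ y : E d, ‖Real.exp (-(l * t)) * (4 * Real.pi * t) ^ (-((d : ℝ) / 2)) *
        Real.exp (-(‖x - y‖ ^ 2 / (4 * t)))‖ = Real.exp (-(l * t)) *
        (4 * Real.pi * t) ^ (-((d : ℝ) / 2)) * Real.exp (-(‖x - y‖ ^ 2 / (4 * t))) := by
      intro y
      rw [Real.norm_of_nonneg (by positivity)]
    simp only [h5]
    exact (hslice t ht0).2.symm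

/-- MODULE rd. Kernel representation of the resolvent. Proof: `m(D)f (x) = ∫ e^(2πi⟨ξ,x⟩) m(ξ) (𝓕 f)(ξ) dξ`
(`SchwartzMap.fourierMultiplierCLM_apply`, `fourierInv_coe`, `Real.fourierInv_eq'`),
`m(ξ) = ∫_0^∞ e^(-t(l + (2π)^2|ξ|^2)) dt`; Fubini on `(0,∞) × E d` (integrand bounded by `e^(-lt) |𝓕 f ξ|`);
`heat_fourier`; Fubini again (bounded by `e^(-lt) (heat kernel)(x-y) · sup|f|`). -/
theorem res_ker (d : ℕ) {l : ℝ} (hl : 0 < l) (f : 𝓢(E d, ℂ)) (x : E d) :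
    SchwartzMap.fourierMultiplierCLM ℂ (fun ξ : E d => (l + (2 * Real.pi) ^ 2 * ‖ξ‖ ^ 2)⁻¹) f x =
      ∫ y : E d, ((Gl d l (x - y) : ℝ) : ℂ) * f y := by
  have hg := sym_temp d hl
  set μ : Measure ℝ := volume.restrict (Ioi (0 : ℝ)) with hμ
  -- the function on the Fourier side
  set H : E d → ℝ → ℂ := fun ξ t =>
    Complex.exp (2 * Real.pi * Complex.I * (inner ℝ ξ x : ℝ)) *
      Complex.exp (-((t * ((2 * Real.pi) ^ 2 * ‖ξ‖ ^ 2) : ℝ) : ℂ)) * (𝓕 f) ξ *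
        ((Real.exp (-(l * t)) : ℝ) : ℂ) with hH
  have hHc : Continuous (Function.uncurry H) := by
    have hf : Continuous ((𝓕 f : 𝓢(E d, ℂ)) : E d → ℂ) := (𝓕 f).continuous
    simp only [hH, Function.uncurry_def]
    fun_prop
  have hHn : ∀ p : E d × ℝ, ‖Function.uncurry H p‖ =
      Real.exp (-(p.2 * ((2 * Real.pi) ^ 2 * ‖p.1‖ ^ 2))) * ‖(𝓕 f) p.1‖ * Real.exp (-(l * p.2)) := by
    rintro ⟨ξ, t⟩
    simp only [hH, Function.uncurry_apply_pair, norm_mul, Complex.norm_exp, Complex.norm_real,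
      Real.norm_eq_abs, Real.abs_exp]
    have h1 : (2 * Real.pi * Complex.I * (inner ℝ ξ x : ℝ) : ℂ).re = 0 := by simp
    rw [h1, ← Complex.ofReal_neg, Complex.ofReal_re, Real.exp_zero, one_mul]
  have hHi : Integrable (Function.uncurry H) (volume.prod μ) := by
    have h3 := ((𝓕 f).integrable (μ := volume)).norm.mul_prod (rd_exp hl)
    refine h3.mono' hHc.aestronglyMeasurable ?_
    have hae : ∀ᵐ p ∂((volume : Measure (E d)).prod μ), (0 : ℝ) < p.2 := by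
      have h4 : ∀ᵐ t ∂μ, (0 : ℝ) < t := ae_restrict_mem measurableSet_Ioi
      exact Measure.quasiMeasurePreserving_snd.ae h4
    filter_upwards [hae] with p hp
    rw [hHn]
    have h5 : Real.exp (-(p.2 * ((2 * Real.pi) ^ 2 * ‖p.1‖ ^ 2))) ≤ 1 := by
      rw [Real.exp_le_one_iff]
      have : 0 ≤ p.2 * ((2 * Real.pi) ^ 2 * ‖p.1‖ ^ 2) := by positivity
      linarith
    calc _ ≤ 1 * ‖(𝓕 f) p.1‖ * Real.exp (-(l * p.2)) := by gcongr
      _ = _ := by rw [one_mul]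
  have hinner : ∀ ξ : E d, ∫ t, H ξ t ∂μ =
      Complex.exp (2 * Real.pi * Complex.I * (inner ℝ ξ x : ℝ)) *
        (((l + (2 * Real.pi) ^ 2 * ‖ξ‖ ^ 2)⁻¹ : ℝ) : ℂ) * (𝓕 f) ξ := by
    intro ξ
    have hpos : (0 : ℝ) < l + (2 * Real.pi) ^ 2 * ‖ξ‖ ^ 2 := by positivity
    have h6 : ∀ t : ℝ, H ξ t = (Complex.exp (2 * Real.pi * Complex.I * (inner ℝ ξ x : ℝ)) * (𝓕 f) ξ) *
        ((Real.exp (-(l + (2 * Real.pi) ^ 2 * ‖ξ‖ ^ 2) * t) : ℝ) : ℂ) := by
      intro t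
      have h7 : Real.exp (-(l + (2 * Real.pi) ^ 2 * ‖ξ‖ ^ 2) * t) =
          Real.exp (-(t * ((2 * Real.pi) ^ 2 * ‖ξ‖ ^ 2))) * Real.exp (-(l * t)) := by
        rw [← Real.exp_add]
        congr 1
        ring
      simp only [hH, h7]
      push_cast
      ring
    simp only [h6]
    rw [integral_const_mul, integral_complex_ofReal, hμ,
      integral_exp_mul_Ioi (a := -(l + (2 * Real.pi) ^ 2 * ‖ξ‖ ^ 2)) (by linarith) 0]
    have h8 : (-Real.exp (-(l + (2 * Real.pi) ^ 2 * ‖ξ‖ ^ 2) * 0) /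
        -(l + (2 * Real.pi) ^ 2 * ‖ξ‖ ^ 2)) = (l + (2 * Real.pi) ^ 2 * ‖ξ‖ ^ 2)⁻¹ := by
      rw [mul_zero, Real.exp_zero, neg_div_neg_eq, one_div]
    rw [h8]
    ring
  have hL : SchwartzMap.fourierMultiplierCLM ℂ (fun ξ : E d => (l + (2 * Real.pi) ^ 2 * ‖ξ‖ ^ 2)⁻¹) f x =
      ∫ ξ, ∫ t, H ξ t ∂μ := by
    rw [SchwartzMap.fourierMultiplierCLM_apply, SchwartzMap.fourierInv_coe, Real.fourierInv_eq']
    refine integral_congr_ae (Eventually.of_forall fun ξ => ?_)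
    simp only [hinner]
    rw [SchwartzMap.smulLeftCLM_apply_apply hg, smul_eq_mul, Complex.real_smul]
    rw [← mul_assoc]
    congr 3
    push_cast
    ring
  rw [hL, integral_integral_swap hHi]
  -- the heat kernel
  have hheat : ∀ᵐ t ∂μ, ∫ ξ, H ξ t = ∫ y : E d, ((Real.exp (-(l * t)) *
      (4 * Real.pi * t) ^ (-((d : ℝ) / 2)) * Real.exp (-(‖x - y‖ ^ 2 / (4 * t))) : ℝ) : ℂ) * f y := by
    filter_upwards [ae_restrict_mem measurableSet_Ioi] with t ht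
    simp only [hH]
    rw [integral_mul_const, heat_fourier d ht f x, mul_comm, ← integral_const_mul]
    refine integral_congr_ae (Eventually.of_forall fun y => ?_)
    show _ = _
    push_cast
    ring
  rw [integral_congr_ae hheat]
  -- Fubini again
  obtain ⟨C, hC⟩ : ∃ C : ℝ, ∀ y : E d, ‖f y‖ ≤ C := by
    refine ⟨SchwartzMap.seminorm ℝ 0 0 f, fun y => ?_⟩
    simpa using f.norm_pow_mul_le_seminorm ℝ 0 y
  have hJm : AEStronglyMeasurable (fun p : ℝ × E d => ((Real.exp (-(l * p.1)) *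
      (4 * Real.pi * p.1) ^ (-((d : ℝ) / 2)) * Real.exp (-(‖x - p.2‖ ^ 2 / (4 * p.1))) : ℝ) : ℂ) * f p.2)
      (μ.prod volume) := by
    have hf : Measurable (f : E d → ℂ) := f.continuous.measurable
    have h1 : Measurable (fun p : ℝ × E d => Real.exp (-(l * p.1)) *
      (4 * Real.pi * p.1) ^ (-((d : ℝ) / 2)) * Real.exp (-(‖x - p.2‖ ^ 2 / (4 * p.1)))) := by fun_prop
    exact ((Complex.measurable_ofReal.comp h1).mul (hf.comp measurable_snd)).aestronglyMeasurable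
  have hJi : Integrable (Function.uncurry fun (t : ℝ) (y : E d) => ((Real.exp (-(l * t)) *
      (4 * Real.pi * t) ^ (-((d : ℝ) / 2)) * Real.exp (-(‖x - y‖ ^ 2 / (4 * t))) : ℝ) : ℂ) * f y)
      (μ.prod volume) := by
    have h2 := (rd_int d hl x).norm.mul_const C
    refine h2.mono' hJm (Eventually.of_forall fun p => ?_)
    rw [Function.uncurry_def, norm_mul, Complex.norm_real]
    exact mul_le_mul_of_nonneg_left (hC p.2) (norm_nonneg _)
  rw [integral_integral_swap hJi]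
  refine integral_congr_ae (Eventually.of_forall fun y => ?_)
  show ∫ t, _ ∂μ = _
  rw [integral_mul_const, integral_complex_ofReal]
  rfl

/-- MODULE re. The coercion of the Schwartz line derivative is `pd i`. -/
theorem pd_coe {d : ℕ} (i : Fin d) (w : 𝓢(E d, ℝ)) : pd i (w : E d → ℝ) = ((∂_{bv i} w : 𝓢(E d, ℝ)) : E d → ℝ) := by
  funext x
  rw [SchwartzMap.lineDerivOp_apply_eq_fderiv]
  rfl

private theorem rf_deriv {d : ℕ} (g : 𝓢(E d, ℂ)) (m : E d) :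
    ∂_{m} (g.postcompCLM Complex.reCLM) = (∂_{m} g).postcompCLM Complex.reCLM := by
  ext x
  rw [SchwartzMap.lineDerivOp_apply_eq_fderiv, SchwartzMap.postcompCLM_apply,
    SchwartzMap.lineDerivOp_apply_eq_fderiv]
  have h1 : (g.postcompCLM Complex.reCLM : E d → ℝ) = fun y => Complex.reCLM (g y) := by
    funext y
    exact SchwartzMap.postcompCLM_apply _ _ _
  rw [h1]
  have h2 : HasFDerivAt (g : E d → ℂ) (fderiv ℝ g x) x :=
    (g.differentiableAt (x := x)).hasFDerivAt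
  have h3 : HasFDerivAt (fun y => Complex.reCLM (g y)) (Complex.reCLM.comp (fderiv ℝ g x)) x :=
    Complex.reCLM.hasFDerivAt.comp x h2
  rw [h3.fderiv]
  rfl

/-- MODULE rf. Real resolvent. Proof: `fc := f` viewed as complex valued (`SchwartzMap.postcompCLM` with
`Complex.ofRealCLM`), `wc := m(D) fc`, `w := re wc` (`postcompCLM Complex.reCLM`): `wc x = ∫ G_l(x-y) f y` is real by
`res_ker`; take real parts in `res_eq` (`Δ` is the sum of the `∂_{bv i} ∂_{bv i}`, `SchwartzMap.laplacian_eq_sum` with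
`EuclideanSpace.basisFun`; `postcompCLM` commutes with line derivatives). -/
theorem exists_res (d : ℕ) {l : ℝ} (hl : 0 < l) (f : 𝓢(E d, ℝ)) :
    ∃ w : 𝓢(E d, ℝ), (∀ x, l * w x - ∑ i, pd i (pd i (w : E d → ℝ)) x = f x) ∧
      ∀ x, w x = ∫ y : E d, Gl d l (x - y) * f y := by
  set fc : 𝓢(E d, ℂ) := f.postcompCLM Complex.ofRealCLM with hfc
  have hfcx : ∀ x, fc x = ((f x : ℝ) : ℂ) := fun x => SchwartzMap.postcompCLM_apply _ _ _
  set wc : 𝓢(E d, ℂ) := SchwartzMap.fourierMultiplierCLM ℂ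
    (fun ξ : E d => (l + (2 * Real.pi) ^ 2 * ‖ξ‖ ^ 2)⁻¹) fc with hwc
  refine ⟨wc.postcompCLM Complex.reCLM, fun x => ?_, fun x => ?_⟩
  · have h1 := congrArg (fun g : 𝓢(E d, ℂ) => (g x).re) (res_eq d hl fc)
    simp only [← hwc] at h1
    rw [SchwartzMap.laplacian_eq_sum (EuclideanSpace.basisFun (Fin d) ℝ)] at h1
    have h2 : ∀ i : Fin d, pd i (pd i ((wc.postcompCLM Complex.reCLM : 𝓢(E d, ℝ)) : E d → ℝ)) x =
        ((∂_{EuclideanSpace.basisFun (Fin d) ℝ i} (∂_{EuclideanSpace.basisFun (Fin d) ℝ i} wc)) x).re := by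
      intro i
      rw [pd_coe, pd_coe, rf_deriv, rf_deriv, SchwartzMap.postcompCLM_apply,
        EuclideanSpace.basisFun_apply]
      rfl
    simp only [h2]
    rw [hfcx, Complex.ofReal_re] at h1
    rw [← h1, _root_.sub_apply, _root_.smul_apply, SchwartzMap.postcompCLM_apply,
      Complex.sub_re, _root_.sum_apply, Complex.re_sum]
    simp
  · have h1 := res_ker d hl fc x
    rw [SchwartzMap.postcompCLM_apply]
    have h2 : ∫ y : E d, ((Gl d l (x - y) : ℝ) : ℂ) * fc y =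
        ((∫ y : E d, Gl d l (x - y) * f y : ℝ) : ℂ) := by
      rw [← integral_complex_ofReal]
      refine integral_congr_ae (Eventually.of_forall fun y => ?_)
      simp only [hfcx, Complex.ofReal_mul]
    show (wc x).re = _
    rw [hwc, h1, h2, Complex.ofReal_re]

/-- MODULE la. Integration by parts (`SchwartzMap.integral_mul_lineDerivOp_right_eq_neg_left`). -/
theorem ibp1 {d : ℕ} (f g : 𝓢(E d, ℝ)) (i : Fin d) :
    ∫ x, f x * pd i (g : E d → ℝ) x = - ∫ x, pd i (f : E d → ℝ) x * g x := by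
  rw [pd_coe, pd_coe]
  exact SchwartzMap.integral_mul_lineDerivOp_right_eq_neg_left f g (bv i)

private theorem lb_int {d : ℕ} (f g : 𝓢(E d, ℝ)) : Integrable (fun x => f x * g x) :=
  g.integrable.bdd_mul (c := SchwartzMap.seminorm ℝ 0 0 f) f.continuous.aestronglyMeasurable
    (Eventually.of_forall (fun x => SchwartzMap.norm_le_seminorm ℝ f x))

private theorem lb_key {d : ℕ} (l : ℝ) (w v : 𝓢(E d, ℝ)) :
    ∫ x, (l * w x - ∑ i, pd i (pd i (w : E d → ℝ)) x) * v x =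
      l * (∫ x, w x * v x) + ∑ i, ∫ x, pd i (w : E d → ℝ) x * pd i (v : E d → ℝ) x := by
  have h1 : ∀ x, (l * w x - ∑ i, pd i (pd i (w : E d → ℝ)) x) * v x =
      l * (w x * v x) - ∑ i, v x * pd i (pd i (w : E d → ℝ)) x := by
    intro x
    rw [sub_mul, Finset.sum_mul]
    congr 1
    · ring
    · exact Finset.sum_congr rfl (fun i _ => mul_comm _ _)
  simp only [h1]
  have h2 : ∀ i : Fin d, Integrable (fun x => v x * pd i (pd i (w : E d → ℝ)) x) := by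
    intro i
    rw [pd_coe i w, pd_coe]
    exact lb_int _ _
  rw [integral_sub ((lb_int w v).const_mul l) (integrable_finsetSum _ (fun i _ => h2 i)),
    integral_const_mul, integral_finsetSum _ (fun i _ => h2 i), sub_eq_add_neg, ← Finset.sum_neg_distrib]
  congr 1
  refine Finset.sum_congr rfl (fun i _ => ?_)
  rw [pd_coe i w, ibp1 v (∂_{bv i} w) i, neg_neg]
  refine integral_congr_ae (Eventually.of_forall (fun x => ?_))
  exact mul_comm _ _

/-- MODULE lb. Legendre inequality. Proof: `w` from `exists_res` with `f = h`. The right side is `∫ h w` (Fubini, `int_Gl`).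
With `h = l w - ∑ ∂_i ∂_i w` and `ibp1`: `∫ h w = l ∫ w^2 + ∑ ∫ (∂_i w)^2`, `∫ h g = l ∫ w g + ∑ ∫ ∂_i w ∂_i g`, so
RHS - LHS `= l ∫ (w - g)^2 + ∑ ∫ (∂_i w - ∂_i g)^2 ≥ 0`. -/
theorem legendre (d : ℕ) {l : ℝ} (hl : 0 < l) (h g : 𝓢(E d, ℝ)) :
    2 * (∫ x, h x * g x) - (∫ x, ∑ i, (pd i (g : E d → ℝ) x) ^ 2) - l * (∫ x, g x ^ 2) ≤
      ∫ p : E d × E d, Gl d l (p.1 - p.2) * (h p.1 * h p.2) := by
  obtain ⟨w, hw1, hw2⟩ := exists_res d hl h
  have hPI : Integrable (fun p : E d × E d => Gl d l (p.1 - p.2) * (h p.1 * h p.2)) := by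
    refine int_Gl d hl (fun p => h p.1 * h p.2) ?_ (fun x => |h x| * SchwartzMap.seminorm ℝ 0 0 h) ?_ ?_
    · exact ((h.continuous.comp continuous_fst).mul (h.continuous.comp continuous_snd)).aestronglyMeasurable
    · exact h.integrable.abs.mul_const _
    · intro p
      rw [abs_mul]
      exact mul_le_mul_of_nonneg_left (SchwartzMap.norm_le_seminorm ℝ h p.2) (abs_nonneg _)
  have hR : ∫ p : E d × E d, Gl d l (p.1 - p.2) * (h p.1 * h p.2) = ∫ x, h x * w x := by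
    have := integral_prod (μ := (volume : Measure (E d))) (ν := (volume : Measure (E d)))
      (fun p : E d × E d => Gl d l (p.1 - p.2) * (h p.1 * h p.2)) hPI
    refine this.trans ?_
    refine integral_congr_ae (Eventually.of_forall (fun x => ?_))
    beta_reduce
    rw [hw2 x, ← integral_const_mul]
    refine integral_congr_ae (Eventually.of_forall (fun y => ?_))
    ring
  have hA : ∫ x, h x * w x = l * (∫ x, w x * w x) + ∑ i, ∫ x, pd i (w : E d → ℝ) x * pd i (w : E d → ℝ) x := by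
    rw [← lb_key]
    simp only [hw1]
  have hB : ∫ x, h x * g x = l * (∫ x, w x * g x) + ∑ i, ∫ x, pd i (w : E d → ℝ) x * pd i (g : E d → ℝ) x := by
    rw [← lb_key]
    simp only [hw1]
  have hC : ∫ x, ∑ i, (pd i (g : E d → ℝ) x) ^ 2 = ∑ i, ∫ x, pd i (g : E d → ℝ) x * pd i (g : E d → ℝ) x := by
    rw [← integral_finsetSum]
    · simp only [sq]
    · intro i _
      rw [pd_coe]
      exact lb_int _ _
  have hD : ∀ u v : 𝓢(E d, ℝ), 0 ≤ (∫ x, u x * u x) - 2 * (∫ x, u x * v x) + ∫ x, v x * v x := by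
    intro u v
    have hs : Integrable (fun x => u x * u x - 2 * (u x * v x)) := (lb_int u u).sub ((lb_int u v).const_mul 2)
    have h1 : (∫ x, u x * u x) - 2 * (∫ x, u x * v x) + (∫ x, v x * v x) = ∫ x, (u x - v x) ^ 2 := by
      rw [← integral_const_mul, ← integral_sub (lb_int u u) ((lb_int u v).const_mul 2),
        ← integral_add hs (lb_int v v)]
      refine integral_congr_ae (Eventually.of_forall (fun x => ?_))
      ring
    rw [h1]
    exact integral_nonneg (fun x => sq_nonneg _)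
  have hE := hD w g
  have hF : 0 ≤ ∑ i : Fin d, ((∫ x, pd i (w : E d → ℝ) x * pd i (w : E d → ℝ) x) -
      2 * (∫ x, pd i (w : E d → ℝ) x * pd i (g : E d → ℝ) x) +
      ∫ x, pd i (g : E d → ℝ) x * pd i (g : E d → ℝ) x) := by
    refine Finset.sum_nonneg (fun i _ => ?_)
    rw [pd_coe, pd_coe]
    exact hD _ _
  rw [Finset.sum_add_distrib, Finset.sum_sub_distrib, ← Finset.mul_sum] at hF
  rw [hR, hA, hB, hC]
  have hG : ∫ x, g x ^ 2 = ∫ x, g x * g x := by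
    simp only [sq]
  rw [hG]
  nlinarith [mul_nonneg hl.le hE]

/-- MODULE za. Basic facts on the weight `zt b = (1+|x|^2)^(-b/2)`. -/
theorem zt_pos {d : ℕ} (b : ℝ) (x : E d) : 0 < zt b x := by
  unfold zt
  positivity

/-- MODULE za -/
theorem zt_le_one {d : ℕ} {b : ℝ} (hb : 0 ≤ b) (x : E d) : zt b x ≤ 1 := by
  unfold zt
  refine Real.rpow_le_one_of_one_le_of_nonpos ?_ (by linarith)
  nlinarith [sq_nonneg ‖x‖]

/-- MODULE za -/
theorem contDiff_zt {d : ℕ} (b : ℝ) (n : WithTop ℕ∞) : ContDiff ℝ n (zt b : E d → ℝ) := by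
  unfold zt
  refine ContDiff.rpow_const_of_ne ?_ (fun x => ?_)
  · exact contDiff_const.add (contDiff_norm_sq ℝ)
  · positivity

/-- MODULE za (`hasTemperateGrowth_one_add_norm_sq_rpow`) -/
theorem zt_temp {d : ℕ} (b : ℝ) : Function.HasTemperateGrowth (zt b : E d → ℝ) :=
  Function.hasTemperateGrowth_one_add_norm_sq_rpow (E d) (-(b / 2))

/-- MODULE zb. `∂_i zt = -b x_i (1+|x|^2)^(-b/2-1)`. -/
theorem pd_zt {d : ℕ} (b : ℝ) (x : E d) (i : Fin d) :
    pd i (zt b) x = -b * x i * (1 + ‖x‖ ^ 2) ^ (-(b / 2) - 1) := by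
  have h1 : HasFDerivAt (fun y : E d => 1 + ‖y‖ ^ 2) (2 • (innerSL ℝ x)) x :=
    (hasStrictFDerivAt_norm_sq x).hasFDerivAt.const_add 1
  have h0 : (1 + ‖x‖ ^ 2 : ℝ) ≠ 0 := by positivity
  have h2 := h1.rpow_const (p := -(b / 2)) (Or.inl h0)
  have h3 : fderiv ℝ (zt b : E d → ℝ) x = (-(b / 2) * (1 + ‖x‖ ^ 2) ^ (-(b / 2) - 1)) • (2 • (innerSL ℝ x)) := h2.fderiv
  unfold pd
  rw [h3]
  simp only [smul_apply, innerSL_apply_apply, bv, EuclideanSpace.inner_single_right]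
  simp
  ring

private theorem lc_diff {d : ℕ} (b : ℝ) : Differentiable ℝ (zt b : E d → ℝ) :=
  (contDiff_zt b 1).differentiable one_ne_zero

/-- MODULE lc. For a real Schwartz function `w`: multiply the resolvent equation by `ζ^2 w`. Proof: `ζ w` is Schwartz
(`SchwartzMap.smulLeftCLM`, `zt_temp`), `∫ ζ^2 w (-∂_i∂_i w) = ∫ ∂_i(ζ^2 w) ∂_i w` (`ibp1`) and
`∂_i(ζ^2 w) ∂_i w = (∂_i(ζ w))^2 - (∂_i ζ)^2 w^2`. -/
theorem zt_ibp {d : ℕ} (b l : ℝ) (w : 𝓢(E d, ℝ)) :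
    ∫ x, zt b x ^ 2 * w x * (l * w x - ∑ i, pd i (pd i (w : E d → ℝ)) x) =
      ∫ x, ((∑ i, (pd i (fun z => zt b z * w z) x) ^ 2) - (∑ i, (pd i (zt b) x) ^ 2) * w x ^ 2
        + l * (zt b x ^ 2 * w x ^ 2)) := by
  obtain ⟨u, hu⟩ : ∃ u : 𝓢(E d, ℝ), ∀ x, u x = zt b x ^ 2 * w x := by
    refine ⟨SchwartzMap.smulLeftCLM ℝ (zt b : E d → ℝ) (SchwartzMap.smulLeftCLM ℝ (zt b : E d → ℝ) w), fun x => ?_⟩
    rw [SchwartzMap.smulLeftCLM_apply_apply (zt_temp b), SchwartzMap.smulLeftCLM_apply_apply (zt_temp b)]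
    simp only [smul_eq_mul]
    ring
  have hw : ∀ x, DifferentiableAt ℝ (w : E d → ℝ) x := fun x => w.differentiableAt
  have hz : ∀ x, DifferentiableAt ℝ (zt b : E d → ℝ) x := fun x => lc_diff b x
  have h1 : ∫ x, zt b x ^ 2 * w x * (l * w x - ∑ i, pd i (pd i (w : E d → ℝ)) x) =
      ∫ x, (l * w x - ∑ i, pd i (pd i (w : E d → ℝ)) x) * u x := by
    refine integral_congr_ae (Eventually.of_forall (fun x => ?_))
    beta_reduce
    rw [hu x]
    ring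
  have hI : ∀ i : Fin d, Integrable (fun x => pd i (w : E d → ℝ) x * pd i (u : E d → ℝ) x) := by
    intro i
    rw [pd_coe, pd_coe]
    exact lb_int _ _
  rw [h1, lb_key, ← integral_const_mul, ← integral_finsetSum _ (fun i _ => hI i),
    ← integral_add ((lb_int w u).const_mul l) (integrable_finsetSum _ (fun i _ => hI i))]
  refine integral_congr_ae (Eventually.of_forall (fun x => ?_))
  beta_reduce
  have hu' : (u : E d → ℝ) = fun x => zt b x ^ 2 * w x := funext hu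
  have h2 : ∀ i : Fin d, pd i (u : E d → ℝ) x = 2 * zt b x * pd i (zt b) x * w x + zt b x ^ 2 * pd i (w : E d → ℝ) x := by
    intro i
    rw [hu']
    unfold pd
    have h3 : HasFDerivAt (fun x : E d => zt b x ^ 2 * w x) _ x :=
      ((hz x).hasFDerivAt.pow 2).mul (hw x).hasFDerivAt
    rw [h3.fderiv]
    simp only [add_apply, smul_apply, smul_eq_mul]
    simp
    ring
  have h4 : ∀ i : Fin d, pd i (fun z => zt b z * w z) x = pd i (zt b) x * w x + zt b x * pd i (w : E d → ℝ) x := by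
    intro i
    unfold pd
    have h3 : HasFDerivAt (fun x : E d => zt b x * w x) _ x := (hz x).hasFDerivAt.mul (hw x).hasFDerivAt
    rw [h3.fderiv]
    simp only [add_apply, smul_apply, smul_eq_mul]
    ring
  rw [hu x, Finset.sum_mul, ← Finset.sum_sub_distrib, add_comm]
  congr 1
  · refine Finset.sum_congr rfl (fun i _ => ?_)
    rw [h2 i, h4 i]
    ring
  · ring

end Pool.Agent.Frd
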