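import Pool.Agent.Frd.Mix
import Pool.Agent.Frd.Res

/-!
# Cutoff functions and the bounds of the mixed kernel
-/

open MeasureTheory Set Filter Topology NDG

namespace Pool.Agent.Frd

/-- The cutoff `θ_R x = T (2 - |x|^2/R^2)`, `T = Real.smoothTransition`: `1` on `B_R`, `0` outside `B_{2R}`. -/
noncomputable def th {d : ℕ} (R : ℝ) (x : E d) : ℝ := Real.smoothTransition (2 - ‖x‖ ^ 2 / R ^ 2)

/-- The indicator of the closed ball of radius `R`. -/
noncomputable def ib {d : ℕ} (R : ℝ) (x : E d) : ℝ := (Metric.closedBall (0 : E d) R).indicator (fun _ => (1 : ℝ)) x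

/-- MODULE ta. Elementary properties of the cutoff. -/
theorem th_facts {d : ℕ} {R : ℝ} (hR : 0 < R) :
    (∀ n : ℕ∞, ContDiff ℝ n (th R : E d → ℝ)) ∧ HasCompactSupport (th R : E d → ℝ) ∧
    (∀ x : E d, 0 ≤ th R x ∧ th R x ≤ 1) ∧ (∀ x : E d, ‖x‖ ≤ R → th R x = 1) ∧
    (∀ x : E d, 2 * R ≤ ‖x‖ → th R x = 0) := by
  have hz : ∀ x : E d, 2 * R ≤ ‖x‖ → th R x = 0 := by
    intro x hx
    apply Real.smoothTransition.zero_of_nonpos
    have h1 : (2 * R) ^ 2 ≤ ‖x‖ ^ 2 := by gcongr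
    have h2 : 2 ≤ ‖x‖ ^ 2 / R ^ 2 := by
      rw [le_div_iff₀ (by positivity)]; nlinarith
    linarith
  refine ⟨?_, ?_, fun x => ⟨Real.smoothTransition.nonneg _, Real.smoothTransition.le_one _⟩, ?_, hz⟩
  · intro n
    have h1 : ContDiff ℝ n (fun x : E d => 2 - ‖x‖ ^ 2 / R ^ 2) :=
      contDiff_const.sub ((contDiff_norm_sq ℝ).div_const _)
    exact Real.smoothTransition.contDiff.comp h1
  · apply HasCompactSupport.intro (isCompact_closedBall (0 : E d) (2 * R))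
    intro x hx
    apply hz
    simp only [Metric.mem_closedBall, dist_zero_right, not_le] at hx
    exact hx.le
  · intro x hx
    apply Real.smoothTransition.one_of_one_le
    have h1 : ‖x‖ ^ 2 / R ^ 2 ≤ 1 := by
      rw [div_le_one (by positivity)]; gcongr
    linarith

/-- MODULE ta. The cutoff increases with `R`. -/
theorem th_mono {d : ℕ} {R R' : ℝ} (hR : 0 < R) (h : R ≤ R') (x : E d) : th R x ≤ th R' x := by
  have hm : Monotone Real.smoothTransition := by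
    exact Real.smoothTransition.monotone
  apply hm
  gcongr

private theorem tb_T : ∃ C0 : ℝ, 0 ≤ C0 ∧ ∀ t : ℝ, |deriv Real.smoothTransition t| ≤ C0 ∧
    (t < 0 → deriv Real.smoothTransition t = 0) ∧ (1 < t → deriv Real.smoothTransition t = 0) := by
  have hz : ∀ t : ℝ, t < 0 → deriv Real.smoothTransition t = 0 := by
    intro t ht
    have h1 : Real.smoothTransition =ᶠ[𝓝 t] fun _ => 0 := by
      filter_upwards [Iio_mem_nhds ht] with s hs
      exact Real.smoothTransition.zero_of_nonpos (le_of_lt hs)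
    rw [h1.deriv_eq]; simp
  have ho : ∀ t : ℝ, 1 < t → deriv Real.smoothTransition t = 0 := by
    intro t ht
    have h1 : Real.smoothTransition =ᶠ[𝓝 t] fun _ => 1 := by
      filter_upwards [Ioi_mem_nhds ht] with s hs
      exact Real.smoothTransition.one_of_one_le (le_of_lt hs)
    rw [h1.deriv_eq]; simp
  have hc : Continuous (deriv Real.smoothTransition) :=
    (Real.smoothTransition.contDiff (n := 1)).continuous_deriv (by norm_num)
  obtain ⟨C0, hC0⟩ := isCompact_Icc.exists_bound_of_continuousOn (s := Icc (0 : ℝ) 1) hc.continuousOn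
  have h0 : 0 ≤ C0 := le_trans (norm_nonneg _) (hC0 0 (by simp))
  refine ⟨C0, h0, fun t => ⟨?_, hz t, ho t⟩⟩
  rcases lt_or_ge t 0 with h | h
  · rw [hz t h]; simpa using h0
  rcases lt_or_ge 1 t with h' | h'
  · rw [ho t h']; simpa using h0
  · simpa using hC0 t ⟨h, h'⟩

private theorem tb_fd {d : ℕ} {R : ℝ} (hR : 0 < R) (x : E d) :
    HasFDerivAt (th R : E d → ℝ) ((deriv Real.smoothTransition (2 - ‖x‖ ^ 2 / R ^ 2)) •
      (-((1 / R ^ 2 : ℝ) • ((2 : ℕ) • (innerSL ℝ x : E d →L[ℝ] ℝ))))) x := by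
  have h1 : HasFDerivAt (fun x : E d => ‖x‖ ^ 2) ((2 : ℕ) • (innerSL ℝ x : E d →L[ℝ] ℝ)) x := (hasStrictFDerivAt_norm_sq x).hasFDerivAt
  have h2 : HasFDerivAt (fun x : E d => 2 - ‖x‖ ^ 2 / R ^ 2) (-((1 / R ^ 2 : ℝ) • ((2 : ℕ) • (innerSL ℝ x : E d →L[ℝ] ℝ)))) x := by
    have h3 := (h1.const_mul (1 / R ^ 2)).const_sub 2
    refine h3.congr_of_eventuallyEq (Filter.Eventually.of_forall fun y => ?_)
    show (2 : ℝ) - ‖y‖ ^ 2 / R ^ 2 = 2 - 1 / R ^ 2 * ‖y‖ ^ 2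
    ring
  have h4 : HasDerivAt Real.smoothTransition (deriv Real.smoothTransition (2 - ‖x‖ ^ 2 / R ^ 2)) (2 - ‖x‖ ^ 2 / R ^ 2) :=
    ((Real.smoothTransition.contDiff (n := 1)).differentiable (by norm_num) _).hasDerivAt
  have h5 := h4.comp_hasFDerivAt x h2
  exact h5

/-- MODULE tb. Gradient: `|D θ_R| ≤ C/R`, and it vanishes for `|x| < R` and for `2R < |x|`. (`T'` is bounded: `T` is `C^1` and
locally constant outside `[0,1]`.) -/
theorem th_grad (d : ℕ) : ∃ C : ℝ, 0 ≤ C ∧ ∀ R : ℝ, 0 < R → ∀ x : E d,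
    ‖fderiv ℝ (th R : E d → ℝ) x‖ ≤ C / R ∧ (‖x‖ < R → fderiv ℝ (th R : E d → ℝ) x = 0) ∧
    (2 * R < ‖x‖ → fderiv ℝ (th R : E d → ℝ) x = 0) ∧ ∀ y : E d, |th R x - th R y| ≤ C / R * ‖x - y‖ := by
  obtain ⟨C0, h0, hT⟩ := tb_T
  have hgr : ∀ R : ℝ, 0 < R → ∀ x : E d, ‖fderiv ℝ (th R : E d → ℝ) x‖ ≤ 4 * C0 / R := by
    intro R hR x
    rw [(tb_fd hR x).fderiv]
    by_cases hx : 2 * R < ‖x‖
    · have h1 : (2 * R) ^ 2 < ‖x‖ ^ 2 := by gcongr
      have h2 : 2 - ‖x‖ ^ 2 / R ^ 2 < 0 := by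
        have : 2 < ‖x‖ ^ 2 / R ^ 2 := by
          rw [lt_div_iff₀ (by positivity)]; nlinarith
        linarith
      rw [(hT _).2.1 h2, zero_smul, norm_zero]; positivity
    · push Not at hx
      rw [norm_smul, norm_neg, norm_smul]
      have h3 : ‖(2 : ℕ) • (innerSL ℝ x : E d →L[ℝ] ℝ)‖ ≤ 2 * ‖x‖ := by
        rw [two_nsmul, two_mul]
        refine (norm_add_le _ _).trans ?_
        rw [innerSL_apply_norm]
      have h4 : ‖(1 / R ^ 2 : ℝ)‖ = 1 / R ^ 2 := by rw [Real.norm_eq_abs, abs_of_pos (by positivity)]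
      rw [h4]
      calc ‖deriv Real.smoothTransition (2 - ‖x‖ ^ 2 / R ^ 2)‖ * (1 / R ^ 2 * ‖(2 : ℕ) • (innerSL ℝ x : E d →L[ℝ] ℝ)‖)
          ≤ C0 * (1 / R ^ 2 * (2 * (2 * R))) := by
            gcongr
            · exact (hT _).1
            · exact h3.trans (by gcongr)
        _ = 4 * C0 / R := by field_simp; ring
  refine ⟨4 * C0, by positivity, fun R hR x => ⟨hgr R hR x, ?_, ?_, ?_⟩⟩
  · intro hx
    rw [(tb_fd hR x).fderiv]
    have h1 : ‖x‖ ^ 2 < R ^ 2 := by gcongr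
    have h2 : 1 < 2 - ‖x‖ ^ 2 / R ^ 2 := by
      have : ‖x‖ ^ 2 / R ^ 2 < 1 := by rw [div_lt_one (by positivity)]; exact h1
      linarith
    rw [(hT _).2.2 h2, zero_smul]
  · intro hx
    rw [(tb_fd hR x).fderiv]
    have h1 : (2 * R) ^ 2 < ‖x‖ ^ 2 := by gcongr
    have h2 : 2 - ‖x‖ ^ 2 / R ^ 2 < 0 := by
      have : 2 < ‖x‖ ^ 2 / R ^ 2 := by
        rw [lt_div_iff₀ (by positivity)]; nlinarith
      linarith
    rw [(hT _).2.1 h2, zero_smul]
  · intro y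
    have h5 := Convex.norm_image_sub_le_of_norm_fderiv_le (f := (th R : E d → ℝ)) (C := 4 * C0 / R) (s := univ) (x := y) (y := x)
      (fun z _ => (tb_fd hR z).differentiableAt) (fun z _ => hgr R hR z) convex_univ (mem_univ _) (mem_univ _)
    rw [Real.norm_eq_abs] at h5
    exact h5

/-- The energy `∫_{|x| ≤ R} ∫ (u x - u y)^2 K (x-y) dy dx`. -/
noncomputable def En (d : ℕ) (s : ℝ) (u : E d → ℝ) (R : ℝ) : ℝ :=
  ∫ p : E d × E d, ib R p.1 * (u p.1 - u p.2) ^ 2 * K d s (p.1 - p.2)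

private theorem tc_ib_nonneg {d : ℕ} (R : ℝ) (x : E d) : 0 ≤ ib R x := by
  unfold ib
  exact Set.indicator_nonneg (fun _ _ => zero_le_one) x

private theorem tc_ib_of_le {d : ℕ} {R : ℝ} {x : E d} (h : ‖x‖ ≤ R) : ib R x = 1 := by
  unfold ib
  rw [Set.indicator_of_mem]
  simpa using h

private theorem tc_ib_of_lt {d : ℕ} {R : ℝ} {x : E d} (h : R < ‖x‖) : ib R x = 0 := by
  unfold ib
  rw [Set.indicator_of_notMem]
  simpa using h

private theorem tc_ib_meas {d : ℕ} (R : ℝ) : Measurable (ib R : E d → ℝ) := by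
  unfold ib
  exact measurable_const.indicator Metric.isClosed_closedBall.measurableSet

private theorem tc_ib_int {d : ℕ} (R : ℝ) : Integrable (ib R : E d → ℝ) := by
  have h : (ib R : E d → ℝ) = (Metric.closedBall (0 : E d) R).indicator (fun _ => (1 : ℝ)) := rfl
  rw [h, integrable_indicator_iff Metric.isClosed_closedBall.measurableSet]
  exact integrableOn_const (measure_closedBall_lt_top.ne) (by simp)

private theorem tc_ib_mono {d : ℕ} {R R' : ℝ} (h : R ≤ R') (x : E d) : ib R x ≤ ib R' x := by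
  by_cases h1 : ‖x‖ ≤ R
  · rw [tc_ib_of_le h1, tc_ib_of_le (h1.trans h)]
  · rw [tc_ib_of_lt (not_le.1 h1)]
    exact tc_ib_nonneg R' x

/-- MODULE tc. Integrability (`int_dom`, `LocLip.bd`), sign, monotonicity, and the symmetric form. -/
theorem En_facts {d : ℕ} {s : ℝ} (hd : 1 ≤ d) (hs0 : 0 < s) (hs1 : s < 1) {u : E d → ℝ} (hu : LocLip u)
    (hB1 : ∀ x, |u x| ≤ 1) :
    (∀ R, Integrable (fun p : E d × E d => ib R p.1 * (u p.1 - u p.2) ^ 2 * K d s (p.1 - p.2))) ∧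
    (∀ R, 0 ≤ En d s u R) ∧ (∀ R R', R ≤ R' → En d s u R ≤ En d s u R') ∧
    (∀ R, Integrable (fun p : E d × E d => (ib R p.1 + ib R p.2) * (u p.1 - u p.2) ^ 2 * K d s (p.1 - p.2)) ∧
      ∫ p : E d × E d, (ib R p.1 + ib R p.2) * (u p.1 - u p.2) ^ 2 * K d s (p.1 - p.2) = 2 * En d s u R) := by
  have hcont := hu.continuous
  have h1 : ∀ R, Integrable (fun p : E d × E d => ib R p.1 * (u p.1 - u p.2) ^ 2 *
      K d s (p.1 - p.2)) := by
    intro R
    obtain ⟨L, hL0, hL⟩ := hu.bd hB1 R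
    refine int_dom hd hs0 hs1 (fun p : E d × E d => ib R p.1 * (u p.1 - u p.2) ^ 2) ?_ (L ^ 2)
      (ib R) (tc_ib_int R) ?_
    · refine Measurable.aestronglyMeasurable ?_
      exact ((tc_ib_meas R).comp measurable_fst).mul
        (((hcont.measurable.comp measurable_fst).sub
          (hcont.measurable.comp measurable_snd)).pow_const 2)
    · intro p
      have hib2 := tc_ib_nonneg R p.2
      by_cases hp : ‖p.1‖ ≤ R
      · rw [tc_ib_of_le hp, one_mul, abs_of_nonneg (sq_nonneg _)]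
        have h2 := hL p.1 p.2 hp
        have h3 : (u p.1 - u p.2) ^ 2 ≤ (L * min 1 ‖p.1 - p.2‖) ^ 2 := by
          rw [← sq_abs]
          exact pow_le_pow_left₀ (abs_nonneg _) h2 2
        have h4 : (min 1 ‖p.1 - p.2‖) ^ 2 = min 1 (‖p.1 - p.2‖ ^ 2) := by
          by_cases h5 : ‖p.1 - p.2‖ ≤ 1
          · rw [min_eq_right h5, min_eq_right (pow_le_one₀ (norm_nonneg _) h5)]
          · have h6 : 1 ≤ ‖p.1 - p.2‖ := (not_le.1 h5).le
            rw [min_eq_left h6, min_eq_left (one_le_pow₀ h6), one_pow]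
        rw [mul_pow, h4] at h3
        refine h3.trans ?_
        have h7 : 0 ≤ L ^ 2 * min 1 (‖p.1 - p.2‖ ^ 2) := by positivity
        nlinarith
      · rw [tc_ib_of_lt (not_le.1 hp), zero_mul, abs_zero]
        positivity
  have hnn : ∀ R (p : E d × E d), 0 ≤ ib R p.1 * (u p.1 - u p.2) ^ 2 * K d s (p.1 - p.2) :=
    fun R p => mul_nonneg (mul_nonneg (tc_ib_nonneg R _) (sq_nonneg _)) (ker_nonneg _)
  refine ⟨h1, fun R => integral_nonneg (hnn R), fun R R' h => ?_, fun R => ?_⟩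
  · refine integral_mono (h1 R) (h1 R') fun p => ?_
    exact mul_le_mul_of_nonneg_right (mul_le_mul_of_nonneg_right (tc_ib_mono h _) (sq_nonneg _))
      (ker_nonneg _)
  · have hsw : ∀ p : E d × E d, ib R p.2 * (u p.1 - u p.2) ^ 2 * K d s (p.1 - p.2) =
        (fun q : E d × E d => ib R q.1 * (u q.1 - u q.2) ^ 2 * K d s (q.1 - q.2)) p.swap := by
      intro p
      show _ = ib R p.2 * (u p.2 - u p.1) ^ 2 * K d s (p.2 - p.1)
      rw [ker_congr (norm_sub_rev p.1 p.2)]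
      ring
    have h2 : Integrable (fun p : E d × E d => ib R p.2 * (u p.1 - u p.2) ^ 2 *
        K d s (p.1 - p.2)) := by
      have := (h1 R).swap
      refine this.congr (Filter.Eventually.of_forall fun p => ?_)
      exact (hsw p).symm
    have h3 : ∫ p : E d × E d, ib R p.2 * (u p.1 - u p.2) ^ 2 * K d s (p.1 - p.2) =
        En d s u R := by
      simp_rw [hsw]
      exact integral_prod_swap (μ := (volume : Measure (E d))) (ν := (volume : Measure (E d)))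
        (fun q : E d × E d => ib R q.1 * (u q.1 - u q.2) ^ 2 * K d s (q.1 - q.2))
    have h4 : (fun p : E d × E d => (ib R p.1 + ib R p.2) * (u p.1 - u p.2) ^ 2 *
        K d s (p.1 - p.2)) = fun p => ib R p.1 * (u p.1 - u p.2) ^ 2 * K d s (p.1 - p.2) +
          ib R p.2 * (u p.1 - u p.2) ^ 2 * K d s (p.1 - p.2) := by
      funext p
      ring
    rw [h4]
    refine ⟨(h1 R).add h2, ?_⟩
    rw [integral_add (h1 R) h2, h3]
    show En d s u R + En d s u R = 2 * En d s u R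
    ring

private theorem td_ib {d : ℕ} (R : ℝ) (x : E d) : 0 ≤ ib R x := by
  unfold ib
  exact Set.indicator_nonneg (fun _ _ => zero_le_one) x

private theorem td_ib1 {d : ℕ} {R : ℝ} {x : E d} (h : ‖x‖ ≤ R) : ib R x = 1 := by
  unfold ib
  rw [Set.indicator_of_mem]
  simpa using h

/-- MODULE td. `A = B = θ_R`: the bracket is at most `C R^(-2) (1_{2R} x + 1_{2R} y)`, hence
`|∫ (u x - u y)^2 mix| ≤ C R^(-2) E(2R)`, for all `R > 0`. -/
theorem mix_th {d : ℕ} {s : ℝ} (hd : 1 ≤ d) (hs0 : 0 < s) (hs1 : s < 1) :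
    ∃ C : ℝ, 0 ≤ C ∧ ∀ u : E d → ℝ, LocLip u → (∀ x, |u x| ≤ 1) → ∀ e : E d, ‖e‖ ≤ 1 → ∀ R : ℝ, 0 < R →
      |∫ p : E d × E d, (u p.1 - u p.2) ^ 2 * mix d s (th R) (th R) e p.1 p.2| ≤ C * R ^ (-(2 : ℝ)) * En d s u (2 * R) := by
  obtain ⟨C₀, hC₀, hth⟩ := th_grad d
  set q : ℝ := (d : ℝ) + 2 * s with hq
  have hq0 : 0 ≤ q := by positivity
  set M : ℝ := 2 + q * 4 + q * (q + 3) with hM
  have hM0 : 0 ≤ M := by positivity
  refine ⟨2 * (C₀ ^ 2 * M), by positivity, ?_⟩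
  intro u hu hB1 e he R hR
  obtain ⟨-, -, -, hE⟩ := En_facts hd hs0 hs1 hu hB1
  obtain ⟨hEi, hEv⟩ := hE (2 * R)
  have hR2 : R ^ (-(2 : ℝ)) = (R ^ 2)⁻¹ := by
    rw [Real.rpow_neg hR.le]
    norm_cast
  have hbrk : ∀ x y : E d, brk d s (th R) (th R) x y ≤
      C₀ ^ 2 * M * R ^ (-(2 : ℝ)) * (ib (2 * R) x + ib (2 * R) y) := by
    intro x y
    obtain ⟨hx1, -, hx3, hx4⟩ := hth R hR x
    obtain ⟨hy1, -, hy3, -⟩ := hth R hR y
    have hxy := hx4 y
    have hc1 : 0 ≤ C₀ ^ 2 * M * R ^ (-(2 : ℝ)) := by positivity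
    by_cases hcase : 2 * R < ‖x‖ ∧ 2 * R < ‖y‖
    · have hf := (th_facts (d := d) hR).2.2.2.2
      have e1 := hx3 hcase.1
      have e2 := hy3 hcase.2
      have e3 := hf x hcase.1.le
      have e4 := hf y hcase.2.le
      have e5 : brk d s (th R) (th R) x y = 0 := by
        unfold brk
        rw [e1, e2, e3, e4]
        simp
      rw [e5]
      have := td_ib (2 * R) x
      have := td_ib (2 * R) y
      positivity
    · have hib : 1 ≤ ib (2 * R) x + ib (2 * R) y := by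
        have h1 := td_ib (2 * R) x
        have h2 := td_ib (2 * R) y
        rw [not_and_or, not_lt, not_lt] at hcase
        rcases hcase with h | h
        · rw [td_ib1 h]; linarith
        · rw [td_ib1 h]; linarith
      have hCR : 0 ≤ C₀ / R := by positivity
      have hbr : brk d s (th R) (th R) x y ≤ (C₀ / R) ^ 2 * M := by
        unfold brk
        rw [← hq]
        have t1 : ‖fderiv ℝ (th R : E d → ℝ) x‖ * ‖fderiv ℝ (th R : E d → ℝ) y‖ +
            ‖fderiv ℝ (th R : E d → ℝ) y‖ * ‖fderiv ℝ (th R : E d → ℝ) x‖ ≤ 2 * (C₀ / R) ^ 2 := by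
          have := mul_le_mul hx1 hy1 (norm_nonneg _) hCR
          nlinarith
        have t2 : ((‖fderiv ℝ (th R : E d → ℝ) x‖ + ‖fderiv ℝ (th R : E d → ℝ) y‖) * |th R x - th R y| +
            |th R x - th R y| * (‖fderiv ℝ (th R : E d → ℝ) x‖ + ‖fderiv ℝ (th R : E d → ℝ) y‖)) / ‖x - y‖ ≤
            4 * (C₀ / R) ^ 2 := by
          refine div_le_of_le_mul₀ (norm_nonneg _) (by positivity) ?_
          have h3 : ‖fderiv ℝ (th R : E d → ℝ) x‖ + ‖fderiv ℝ (th R : E d → ℝ) y‖ ≤ 2 * (C₀ / R) := by linarith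
          have h4 := mul_le_mul h3 hxy (abs_nonneg _) (by positivity)
          nlinarith
        have t3 : |th R x - th R y| * |th R x - th R y| / ‖x - y‖ ^ 2 ≤ (C₀ / R) ^ 2 := by
          refine div_le_of_le_mul₀ (by positivity) (by positivity) ?_
          have := mul_le_mul hxy hxy (abs_nonneg _) (by positivity)
          nlinarith
        have t2' := mul_le_mul_of_nonneg_left t2 hq0
        have t3' := mul_le_mul_of_nonneg_left t3 (by positivity : 0 ≤ q * (q + 3))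
        calc _ ≤ 2 * (C₀ / R) ^ 2 + q * (4 * (C₀ / R) ^ 2) + q * (q + 3) * (C₀ / R) ^ 2 := by
              linarith
          _ = (C₀ / R) ^ 2 * M := by rw [hM]; ring
      have e6 : (C₀ / R) ^ 2 * M = C₀ ^ 2 * M * R ^ (-(2 : ℝ)) := by
        rw [hR2, div_pow]
        ring
      rw [e6] at hbr
      calc _ ≤ C₀ ^ 2 * M * R ^ (-(2 : ℝ)) * 1 := by rw [mul_one]; exact hbr
        _ ≤ _ := mul_le_mul_of_nonneg_left hib hc1
  rw [← Real.norm_eq_abs]
  have hfin : ∀ p : E d × E d, ‖(u p.1 - u p.2) ^ 2 * mix d s (th R) (th R) e p.1 p.2‖ ≤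
      C₀ ^ 2 * M * R ^ (-(2 : ℝ)) * ((ib (2 * R) p.1 + ib (2 * R) p.2) * (u p.1 - u p.2) ^ 2 * K d s (p.1 - p.2)) := by
    intro p
    have h1 := mix_le hs0 (th R) (th R) he p.1 p.2
    have h2 := hbrk p.1 p.2
    have h3 : 0 ≤ K d s (p.1 - p.2) := ker_nonneg _
    rw [norm_mul, Real.norm_of_nonneg (sq_nonneg _), Real.norm_eq_abs]
    calc _ ≤ (u p.1 - u p.2) ^ 2 * (C₀ ^ 2 * M * R ^ (-(2 : ℝ)) * (ib (2 * R) p.1 + ib (2 * R) p.2) *
          K d s (p.1 - p.2)) :=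
          mul_le_mul_of_nonneg_left (h1.trans (mul_le_mul_of_nonneg_right h2 h3)) (sq_nonneg _)
      _ = _ := by ring
  refine (norm_integral_le_of_norm_le (hEi.const_mul _) (Eventually.of_forall hfin)).trans ?_
  rw [integral_const_mul, hEv]
  apply le_of_eq
  ring

private theorem te_zt {d : ℕ} (a : ℝ) (x : E d) : zt a x ^ 2 = (1 + ‖x‖ ^ 2) ^ (-a) := by
  unfold zt
  rw [← Real.rpow_natCast, ← Real.rpow_mul (by positivity)]
  congr 1
  push_cast; ring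

private theorem te_base {b t : ℝ} (hb : 0 ≤ b) (ht : 0 ≤ t) :
    (1 + t ^ 2) ^ (-b) ≤ 2 ^ b * (1 + t) ^ (-(2 * b)) := by
  have h1 : (1 + t) ^ 2 / 2 ≤ 1 + t ^ 2 := by nlinarith [sq_nonneg (t - 1)]
  have h2 : (1 + t ^ 2) ^ (-b) ≤ ((1 + t) ^ 2 / 2) ^ (-b) :=
    Real.rpow_le_rpow_of_nonpos (by positivity) h1 (by linarith)
  refine h2.trans (le_of_eq ?_)
  have h3 : ((1 + t) ^ 2) ^ (-b) = (1 + t) ^ (-(2 * b)) := by
    rw [← Real.rpow_natCast (1 + t) 2, ← Real.rpow_mul (by positivity)]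
    congr 1
    push_cast; ring
  have h4 : (2 : ℝ) ^ (-b) = (2 ^ b)⁻¹ := Real.rpow_neg (by norm_num) b
  have h5 : (2 : ℝ) ^ b ≠ 0 := by positivity
  rw [Real.div_rpow (by positivity) (by norm_num), h3, h4, div_inv_eq_mul, mul_comm]

private theorem te_fd {d : ℕ} (a : ℝ) (x : E d) :
    HasFDerivAt (fun z : E d => zt a z ^ 2) ((-a * (1 + ‖x‖ ^ 2) ^ (-a - 1) : ℝ) • ((2 : ℕ) • (innerSL ℝ x : E d →L[ℝ] ℝ))) x := by
  have h1 : HasFDerivAt (fun x : E d => ‖x‖ ^ 2) ((2 : ℕ) • (innerSL ℝ x : E d →L[ℝ] ℝ)) x :=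
    (hasStrictFDerivAt_norm_sq x).hasFDerivAt
  have h2 : HasFDerivAt (fun x : E d => 1 + ‖x‖ ^ 2) ((2 : ℕ) • (innerSL ℝ x : E d →L[ℝ] ℝ)) x := h1.const_add 1
  have h3 : HasDerivAt (fun s : ℝ => s ^ (-a)) (-a * (1 + ‖x‖ ^ 2) ^ (-a - 1)) (1 + ‖x‖ ^ 2) :=
    Real.hasDerivAt_rpow_const (Or.inl (by positivity))
  have h4 := h3.comp_hasFDerivAt x h2
  refine h4.congr_of_eventuallyEq (Filter.Eventually.of_forall fun y => ?_)
  exact te_zt a y

private theorem te_nsmul {d : ℕ} (x : E d) : ‖(2 : ℕ) • (innerSL ℝ x : E d →L[ℝ] ℝ)‖ ≤ 2 * ‖x‖ := by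
  rw [two_nsmul, two_mul]
  refine (norm_add_le _ _).trans ?_
  rw [innerSL_apply_norm]

/-- MODULE te. Bounds for `A = ξ^2 θ_R`, `ξ = zt a`, `a ≥ 0`, `R ≥ 1`:
`|A| ≤ C (1+|x|)^(-2a)`, `|DA| ≤ C (1+|x|)^(-2a-1)` (on `R ≤ |x| ≤ 2R`, `|Dθ_R| ≤ C/R ≤ 3C/(1+|x|)`; `|Dζ_a| ≤ a |x| (1+|x|^2)^(-a/2-1)`;
`1 + |x|^2 ≥ (1+|x|)^2/2`). -/
theorem A_bd {d : ℕ} {a : ℝ} (ha : 0 ≤ a) : ∃ C : ℝ, 0 ≤ C ∧ ∀ R : ℝ, 1 ≤ R → ∀ x : E d,
    |zt a x ^ 2 * th R x| ≤ C * (1 + ‖x‖) ^ (-(2 * a)) ∧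
    ‖fderiv ℝ (fun z : E d => zt a z ^ 2 * th R z) x‖ ≤ C * (1 + ‖x‖) ^ (-(2 * a) - 1) := by
  obtain ⟨C1, hC1, hg⟩ := th_grad d
  refine ⟨2 ^ a + (a * 2 ^ (a + 2) + 2 ^ a * (3 * C1)), by positivity, fun R hR x => ?_⟩
  have hR0 : 0 < R := by linarith
  obtain ⟨hd1, hd2, hd3, hd4, hd5⟩ := th_facts (d := d) hR0
  have hA0 : |zt a x ^ 2| ≤ 2 ^ a * (1 + ‖x‖) ^ (-(2 * a)) := by
    rw [te_zt, abs_of_nonneg (by positivity)]
    exact te_base ha (norm_nonneg x)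
  have hth : |th R x| ≤ 1 := by rw [abs_of_nonneg (hd3 x).1]; exact (hd3 x).2
  have hpos : 0 < 1 + ‖x‖ := by positivity
  constructor
  · rw [abs_mul]
    calc |zt a x ^ 2| * |th R x| ≤ (2 ^ a * (1 + ‖x‖) ^ (-(2 * a))) * 1 := by gcongr
      _ ≤ (2 ^ a + (a * 2 ^ (a + 2) + 2 ^ a * (3 * C1))) * (1 + ‖x‖) ^ (-(2 * a)) := by
          rw [mul_one]; gcongr
          have : 0 ≤ a * 2 ^ (a + 2) + 2 ^ a * (3 * C1) := by positivity
          linarith
  · have hdt : DifferentiableAt ℝ (th R : E d → ℝ) x := ((hd1 1).differentiable (by norm_num)) x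
    have h1 := (te_fd a x).mul hdt.hasFDerivAt
    have h1' : HasFDerivAt (fun z : E d => zt a z ^ 2 * th R z) _ x := h1
    rw [h1'.fderiv]
    refine (norm_add_le _ _).trans ?_
    rw [norm_smul, norm_smul]
    have hsplit : (1 + ‖x‖) ^ (-(2 * a) - 1) = (1 + ‖x‖) ^ (-(2 * a)) * (1 + ‖x‖)⁻¹ := by
      rw [Real.rpow_sub hpos, Real.rpow_one, div_eq_mul_inv]
    -- first term
    have hF1 : ‖zt a x ^ 2‖ * ‖fderiv ℝ (th R : E d → ℝ) x‖ ≤ 2 ^ a * (3 * C1) * (1 + ‖x‖) ^ (-(2 * a) - 1) := by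
      rw [Real.norm_eq_abs]
      have hgx : ‖fderiv ℝ (th R : E d → ℝ) x‖ ≤ 3 * C1 * (1 + ‖x‖)⁻¹ := by
        by_cases hx : 2 * R < ‖x‖
        · rw [(hg R hR0 x).2.2.1 hx, norm_zero]; positivity
        · push Not at hx
          refine (hg R hR0 x).1.trans ?_
          rw [mul_comm 3 C1, mul_assoc, div_eq_mul_inv]
          gcongr
          rw [inv_eq_one_div, ← div_eq_mul_inv, div_le_div_iff₀ hR0 hpos]
          linarith
      rw [hsplit]
      calc |zt a x ^ 2| * ‖fderiv ℝ (th R : E d → ℝ) x‖ ≤ (2 ^ a * (1 + ‖x‖) ^ (-(2 * a))) * (3 * C1 * (1 + ‖x‖)⁻¹) := by gcongr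
        _ = 2 ^ a * (3 * C1) * ((1 + ‖x‖) ^ (-(2 * a)) * (1 + ‖x‖)⁻¹) := by ring
    have hF2 : ‖th R x‖ * ‖(-a * (1 + ‖x‖ ^ 2) ^ (-a - 1) : ℝ) • ((2 : ℕ) • (innerSL ℝ x : E d →L[ℝ] ℝ))‖ ≤
        a * 2 ^ (a + 2) * (1 + ‖x‖) ^ (-(2 * a) - 1) := by
      have hb := te_base (b := a + 1) (by linarith) (norm_nonneg x)
      have e1 : (-(a + 1) : ℝ) = -a - 1 := by ring
      rw [e1] at hb
      have e2 : (1 + ‖x‖) ^ (-(2 * (a + 1))) = (1 + ‖x‖) ^ (-(2 * a) - 1) * (1 + ‖x‖)⁻¹ := by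
        rw [← Real.rpow_neg_one, ← Real.rpow_add hpos]
        congr 1; ring
      rw [norm_smul, Real.norm_eq_abs, Real.norm_eq_abs, abs_mul, abs_neg, abs_of_nonneg ha,
        abs_of_nonneg (show (0 : ℝ) ≤ (1 + ‖x‖ ^ 2) ^ (-a - 1) by positivity)]
      calc |th R x| * (a * (1 + ‖x‖ ^ 2) ^ (-a - 1) * ‖(2 : ℕ) • (innerSL ℝ x : E d →L[ℝ] ℝ)‖)
          ≤ 1 * (a * (2 ^ (a + 1) * (1 + ‖x‖) ^ (-(2 * (a + 1)))) * (2 * (1 + ‖x‖))) := by
            gcongr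
            refine (te_nsmul x).trans ?_
            gcongr
            linarith
        _ = a * (2 ^ (a + 1) * 2) * ((1 + ‖x‖) ^ (-(2 * a) - 1) * ((1 + ‖x‖)⁻¹ * (1 + ‖x‖))) := by rw [e2]; ring
        _ = a * 2 ^ (a + 2) * (1 + ‖x‖) ^ (-(2 * a) - 1) := by
            rw [inv_mul_cancel₀ hpos.ne', mul_one]
            congr 2
            rw [show a + 2 = (a + 1) + 1 by ring, Real.rpow_add (by norm_num) (a + 1) 1, Real.rpow_one]
    have h0 : 0 ≤ (2 : ℝ) ^ a * (1 + ‖x‖) ^ (-(2 * a) - 1) := by positivity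
    nlinarith [hF1, hF2, h0]

/-- MODULE tf. Difference bound: for `|x|, |y| ≥ R/2`, `|A x - A y| ≤ C R^(-2a-1) |x-y|`. Proof: if `|x-y| ≤ R/4` the segment
stays in `|z| ≥ R/4` (mean value, `A_bd`); otherwise `|A x| + |A y| ≤ C R^(-2a) ≤ 4 C R^(-2a-1)|x-y|`. -/
theorem A_diff {d : ℕ} {a : ℝ} (ha : 0 ≤ a) : ∃ C : ℝ, 0 ≤ C ∧ ∀ R : ℝ, 4 ≤ R → ∀ x y : E d,
    R / 2 ≤ ‖x‖ → R / 2 ≤ ‖y‖ →
    |zt a x ^ 2 * th R x - zt a y ^ 2 * th R y| ≤ C * R ^ (-(2 * a) - 1) * ‖x - y‖ := by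
  obtain ⟨C, hC, hA⟩ := A_bd (d := d) ha
  refine ⟨C * 4 ^ (2 * a + 1) + 2 * C * 4 ^ (2 * a) * 4, by positivity, fun R hR x y hx hy => ?_⟩
  have hR0 : 0 < R := by linarith
  have hR1 : 1 ≤ R := by linarith
  obtain ⟨hd1, hd2, hd3, hd4, hd5⟩ := th_facts (d := d) hR0
  have hrp : ∀ z : E d, R / 4 ≤ ‖z‖ → ∀ e : ℝ, 0 ≤ e → (1 + ‖z‖) ^ (-e) ≤ 4 ^ e * R ^ (-e) := by
    intro z hz e he
    have h1 : (1 + ‖z‖) ^ (-e) ≤ (R / 4) ^ (-e) :=
      Real.rpow_le_rpow_of_nonpos (by positivity) (by linarith) (by linarith)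
    refine h1.trans (le_of_eq ?_)
    rw [div_eq_mul_inv, Real.mul_rpow hR0.le (by norm_num), Real.inv_rpow (by norm_num), Real.rpow_neg (by norm_num : (0:ℝ) ≤ 4), inv_inv, mul_comm]
  by_cases hxy : ‖x - y‖ ≤ R / 4
  · have hseg : ∀ z ∈ segment ℝ y x, ‖fderiv ℝ (fun z : E d => zt a z ^ 2 * th R z) z‖ ≤ C * 4 ^ (2 * a + 1) * R ^ (-(2 * a) - 1) := by
      intro z hz
      have h1 : ‖z - y‖ ≤ ‖x - y‖ := by
        rw [segment_eq_image'] at hz
        obtain ⟨t, ht, rfl⟩ := hz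
        rw [add_sub_cancel_left, norm_smul, Real.norm_eq_abs, abs_of_nonneg ht.1]
        exact mul_le_of_le_one_left (norm_nonneg _) ht.2
      have h2 : R / 4 ≤ ‖z‖ := by
        have h3 : ‖y‖ - ‖z - y‖ ≤ ‖z‖ := by
          have := norm_sub_norm_le y z
          rw [norm_sub_rev y z] at this
          linarith
        linarith
      have h4 := (hA R hR1 z).2
      have h5 := hrp z h2 (2 * a + 1) (by linarith)
      have e1 : (-(2 * a + 1) : ℝ) = -(2 * a) - 1 := by ring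
      rw [e1] at h5
      calc _ ≤ C * (1 + ‖z‖) ^ (-(2 * a) - 1) := h4
        _ ≤ C * (4 ^ (2 * a + 1) * R ^ (-(2 * a) - 1)) := by gcongr
        _ = _ := by ring
    have hdiff : ∀ z ∈ segment ℝ y x, DifferentiableAt ℝ (fun z : E d => zt a z ^ 2 * th R z) z := by
      intro z _
      exact ((te_fd a z).differentiableAt).mul (((hd1 1).differentiable (by norm_num)) z)
    have h6 := Convex.norm_image_sub_le_of_norm_fderiv_le (f := (fun z : E d => zt a z ^ 2 * th R z))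
      (C := C * 4 ^ (2 * a + 1) * R ^ (-(2 * a) - 1)) (s := segment ℝ y x) (x := y) (y := x) hdiff hseg (convex_segment y x)
      (left_mem_segment ℝ y x) (right_mem_segment ℝ y x)
    rw [Real.norm_eq_abs] at h6
    refine h6.trans ?_
    gcongr
    have : 0 ≤ 2 * C * 4 ^ (2 * a) * 4 := by positivity
    linarith
  · push Not at hxy
    have hx' := (hA R hR1 x).1
    have hy' := (hA R hR1 y).1
    have h7 := hrp x (by linarith) (2 * a) (by linarith)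
    have h8 := hrp y (by linarith) (2 * a) (by linarith)
    have h9 : R ^ (-(2 * a)) = R ^ (-(2 * a) - 1) * R := by
      rw [Real.rpow_sub hR0, Real.rpow_one, div_mul_cancel₀ _ hR0.ne']
    have h10 : 0 ≤ R ^ (-(2 * a) - 1) := by positivity
    calc |zt a x ^ 2 * th R x - zt a y ^ 2 * th R y| ≤ |zt a x ^ 2 * th R x| + |zt a y ^ 2 * th R y| := abs_sub _ _
      _ ≤ C * (1 + ‖x‖) ^ (-(2 * a)) + C * (1 + ‖y‖) ^ (-(2 * a)) := add_le_add hx' hy'
      _ ≤ C * (4 ^ (2 * a) * R ^ (-(2 * a))) + C * (4 ^ (2 * a) * R ^ (-(2 * a))) := by gcongr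
      _ = 2 * C * 4 ^ (2 * a) * (R ^ (-(2 * a) - 1) * R) := by rw [h9]; ring
      _ ≤ 2 * C * 4 ^ (2 * a) * (R ^ (-(2 * a) - 1) * (4 * ‖x - y‖)) := by
          gcongr; linarith
      _ = 2 * C * 4 ^ (2 * a) * 4 * R ^ (-(2 * a) - 1) * ‖x - y‖ := by ring
      _ ≤ (C * 4 ^ (2 * a + 1) + 2 * C * 4 ^ (2 * a) * 4) * R ^ (-(2 * a) - 1) * ‖x - y‖ := by
          gcongr
          have : 0 ≤ C * 4 ^ (2 * a + 1) := by positivity
          linarith

private theorem tg_ib {d : ℕ} (R : ℝ) (x : E d) : 0 ≤ ib R x := by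
  unfold ib
  exact Set.indicator_nonneg (fun _ _ => zero_le_one) x

private theorem tg_ib1 {d : ℕ} {R : ℝ} {x : E d} (h : ‖x‖ ≤ R) : ib R x = 1 := by
  unfold ib
  rw [Set.indicator_of_mem]
  simpa using h

private theorem tg_symm {d : ℕ} {s : ℝ} (A B : E d → ℝ) (x y : E d) : brk d s A B x y = brk d s A B y x := by
  unfold brk
  rw [norm_sub_rev x y, abs_sub_comm (A x) (A y), abs_sub_comm (B x) (B y)]
  ring

private theorem tg_brk {d : ℕ} {s : ℝ} (hs0 : 0 < s) {A B : E d → ℝ} {x y : E d} {r p1 p2 p3 : ℝ} (h1 : ‖fderiv ℝ A x‖ * ‖fderiv ℝ B y‖ + ‖fderiv ℝ A y‖ * ‖fderiv ℝ B x‖ ≤ p1 * r)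
    (h2 : ((‖fderiv ℝ A x‖ + ‖fderiv ℝ A y‖) * |B x - B y| +
      |A x - A y| * (‖fderiv ℝ B x‖ + ‖fderiv ℝ B y‖)) / ‖x - y‖ ≤ p2 * r)
    (h3 : |A x - A y| * |B x - B y| / ‖x - y‖ ^ 2 ≤ p3 * r) :
    brk d s A B x y ≤ (p1 + ((d : ℝ) + 2 * s) * p2 + ((d : ℝ) + 2 * s) * ((d : ℝ) + 2 * s + 3) * p3) * r := by
  unfold brk
  have hq0 : 0 ≤ (d : ℝ) + 2 * s := by positivity
  have t2' := mul_le_mul_of_nonneg_left h2 hq0
  have t3' := mul_le_mul_of_nonneg_left h3 (by positivity : 0 ≤ ((d : ℝ) + 2 * s) * ((d : ℝ) + 2 * s + 3))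
  calc _ ≤ p1 * r + ((d : ℝ) + 2 * s) * (p2 * r) + ((d : ℝ) + 2 * s) * ((d : ℝ) + 2 * s + 3) * (p3 * r) := by
        linarith
    _ = _ := by ring

private theorem tg_near {d : ℕ} {s a : ℝ} (hs0 : 0 < s) (ha : 0 ≤ a) : ∃ C : ℝ, 0 ≤ C ∧ ∀ R : ℝ, 4 ≤ R → ∀ x y : E d,
    ‖x‖ < R / 2 → brk d s (fun z => zt a z ^ 2 * th R z) (th R) x y ≤
      C * R ^ (-(1 : ℝ)) * ((ib (R / 2) x * (1 + ‖x‖) ^ (-(2 * a) - 1)) *
        (if R / 2 ≤ ‖x - y‖ then 1 else 0)) := by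
  obtain ⟨C₀, hC₀, hth⟩ := th_grad d
  obtain ⟨C₁, hC₁, hA⟩ := A_bd (d := d) ha
  refine ⟨(C₁ * C₀) + ((d : ℝ) + 2 * s) * (4 * C₁ + 4 * C₁ * C₀) +
    ((d : ℝ) + 2 * s) * ((d : ℝ) + 2 * s + 3) * (8 * C₁), by positivity, ?_⟩
  intro R hR x y hx
  have hR0 : 0 < R := by linarith
  obtain ⟨hf1, hf2, hf3, hf4, hf5⟩ := th_facts (d := d) hR0
  have hxR : ‖x‖ < R := by linarith
  by_cases hy : ‖y‖ < R
  · -- everything vanishes
    have e1 := (hth R hR0 x).2.1 hxR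
    have e2 := (hth R hR0 y).2.1 hy
    have e3 := hf4 x hxR.le
    have e4 := hf4 y hy.le
    have e5 : brk d s (fun z => zt a z ^ 2 * th R z) (th R) x y = 0 := by
      unfold brk
      rw [e1, e2, e3, e4]
      simp
    rw [e5]
    have h1 := tg_ib (R / 2) x
    have h2 : (0 : ℝ) ≤ if R / 2 ≤ ‖x - y‖ then 1 else 0 := by split_ifs <;> norm_num
    have h3 : (0 : ℝ) < (1 + ‖x‖) ^ (-(2 * a) - 1) := by positivity
    positivity
  · rw [not_lt] at hy
    have hxy : R / 2 ≤ ‖x - y‖ := by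
      have := norm_sub_norm_le y x
      rw [norm_sub_rev] at this
      linarith
    rw [if_pos hxy, tg_ib1 hx.le, one_mul, mul_one]
    have hD : 0 < ‖x - y‖ := by linarith
    set X : ℝ := (1 + ‖x‖) ^ (-(2 * a) - 1) with hX
    have hX0 : 0 < X := by positivity
    have hXa : (1 + ‖x‖) ^ (-(2 * a)) ≤ X * R := by
      have h5 : (1 + ‖x‖) ^ (-(2 * a)) = X * (1 + ‖x‖) := by
        have h6 : (-(2 * a)) = (-(2 * a) - 1) + 1 := by ring
        rw [hX]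
        conv_lhs => rw [h6, Real.rpow_add (by positivity), Real.rpow_one]
      rw [h5]
      exact mul_le_mul_of_nonneg_left (by linarith) hX0.le
    have hYX : (1 + ‖y‖) ^ (-(2 * a) - 1) ≤ X := by
      rw [hX]
      exact Real.rpow_le_rpow_of_nonpos (by positivity) (by linarith) (by linarith)
    have hYXa : (1 + ‖y‖) ^ (-(2 * a)) ≤ (1 + ‖x‖) ^ (-(2 * a)) :=
      Real.rpow_le_rpow_of_nonpos (by positivity) (by linarith) (by linarith)
    have hRinv : R ^ (-(1 : ℝ)) = R⁻¹ := Real.rpow_neg_one R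
    have a1 := (hA R (by linarith) x).2
    have a2 := (hA R (by linarith) y).2
    have a3 := (hA R (by linarith) x).1
    have a4 := (hA R (by linarith) y).1
    have b1 := (hth R hR0 x).2.1 hxR
    have b2 := (hth R hR0 y).1
    have hB : |th R x - th R y| ≤ 1 := by
      have h1 := hf3 x
      have h2 := hf3 y
      rw [abs_le]
      constructor <;> linarith
    have hAd : |zt a x ^ 2 * th R x - zt a y ^ 2 * th R y| ≤ 2 * C₁ * (X * R) := by
      have h7 := abs_sub (zt a x ^ 2 * th R x) (zt a y ^ 2 * th R y)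
      have h8 := mul_le_mul_of_nonneg_left hXa hC₁
      have h9 := mul_le_mul_of_nonneg_left hYXa hC₁
      linarith
    have hDR : ‖x - y‖⁻¹ ≤ 2 * R⁻¹ := by
      have : 2 * R⁻¹ = (R / 2)⁻¹ := by field_simp
      rw [this]
      exact inv_anti₀ (by positivity) hxy
    have key := tg_brk (d := d) (s := s) hs0 (A := fun z => zt a z ^ 2 * th R z) (B := th R) (x := x) (y := y)
      (r := R⁻¹ * X) (p1 := C₁ * C₀) (p2 := 4 * C₁ + 4 * C₁ * C₀) (p3 := 8 * C₁) ?_ ?_ ?_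
    · rw [hRinv]
      calc _ ≤ _ := key
        _ = _ := by ring
    · rw [b1, norm_zero, mul_zero, add_zero]
      calc _ ≤ (C₁ * X) * (C₀ / R) := mul_le_mul a1 b2 (norm_nonneg _) (by positivity)
        _ = _ := by ring
    · have t1 : (‖fderiv ℝ (fun z => zt a z ^ 2 * th R z) x‖ + ‖fderiv ℝ (fun z => zt a z ^ 2 * th R z) y‖) *
          |th R x - th R y| ≤ (2 * C₁ * X) * 1 := by
        refine mul_le_mul ?_ hB (abs_nonneg _) (by positivity)
        have := mul_le_mul_of_nonneg_left hYX hC₁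
        linarith
      have t2 : |zt a x ^ 2 * th R x - zt a y ^ 2 * th R y| * (‖fderiv ℝ (th R : E d → ℝ) x‖ + ‖fderiv ℝ (th R : E d → ℝ) y‖) ≤
          2 * C₁ * (X * R) * (C₀ / R) := by
        refine mul_le_mul hAd ?_ (by positivity) (by positivity)
        rw [b1, norm_zero, zero_add]
        exact b2
      have e6 : 2 * C₁ * (X * R) * (C₀ / R) = 2 * C₁ * C₀ * X := by field_simp
      rw [div_eq_mul_inv]
      calc _ ≤ (2 * C₁ * X + 2 * C₁ * C₀ * X) * (2 * R⁻¹) := by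
            refine mul_le_mul ?_ hDR (by positivity) (by positivity)
            rw [e6] at t2
            linarith
        _ = _ := by ring
    · rw [div_eq_mul_inv]
      have t3 : |zt a x ^ 2 * th R x - zt a y ^ 2 * th R y| * |th R x - th R y| ≤ 2 * C₁ * (X * R) * 1 :=
        mul_le_mul hAd hB (abs_nonneg _) (by positivity)
      have t4 : (‖x - y‖ ^ 2)⁻¹ ≤ 4 * (R⁻¹ * R⁻¹) := by
        rw [← inv_pow]
        calc _ ≤ (2 * R⁻¹) ^ 2 := pow_le_pow_left₀ (by positivity) hDR 2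
          _ = _ := by ring
      calc _ ≤ 2 * C₁ * (X * R) * 1 * (4 * (R⁻¹ * R⁻¹)) := mul_le_mul t3 t4 (by positivity) (by positivity)
        _ = 8 * C₁ * (R⁻¹ * X) * (R * R⁻¹) := by ring
        _ = 8 * C₁ * (R⁻¹ * X) := by rw [mul_inv_cancel₀ hR0.ne', mul_one]

private theorem tg_far {d : ℕ} {s a : ℝ} (hs0 : 0 < s) (ha : 0 ≤ a) : ∃ C : ℝ, 0 ≤ C ∧ ∀ R : ℝ, 4 ≤ R → ∀ x y : E d,
    R / 2 ≤ ‖x‖ → R / 2 ≤ ‖y‖ → brk d s (fun z => zt a z ^ 2 * th R z) (th R) x y ≤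
      C * R ^ (-(2 * a) - 2) * (ib (2 * R) x + ib (2 * R) y) := by
  obtain ⟨C₀, hC₀, hth⟩ := th_grad d
  obtain ⟨C₁, hC₁, hA⟩ := A_bd (d := d) ha
  obtain ⟨C₂, hC₂, hAd⟩ := A_diff (d := d) ha
  set T : ℝ := 2 ^ (2 * a + 1) with hT
  have hT0 : 0 < T := by positivity
  refine ⟨(2 * C₁ * T * C₀) + ((d : ℝ) + 2 * s) * (2 * C₁ * T * C₀ + 2 * C₂ * C₀) +
    ((d : ℝ) + 2 * s) * ((d : ℝ) + 2 * s + 3) * (C₂ * C₀), by positivity, ?_⟩
  intro R hR x y hx hy
  have hR0 : 0 < R := by linarith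
  obtain ⟨hf1, hf2, hf3, hf4, hf5⟩ := th_facts (d := d) hR0
  set r : ℝ := R ^ (-(2 * a) - 2) with hr
  have hr0 : 0 < r := by positivity
  by_cases hcase : 2 * R < ‖x‖ ∧ 2 * R < ‖y‖
  · have hz : ∀ z : E d, 2 * R < ‖z‖ → fderiv ℝ (fun z : E d => zt a z ^ 2 * th R z) z = 0 := by
      intro z hz
      have h1 : (fun z : E d => zt a z ^ 2 * th R z) =ᶠ[𝓝 z] fun _ => 0 := by
        have h2 : {w : E d | 2 * R < ‖w‖} ∈ 𝓝 z :=
          (isOpen_lt continuous_const continuous_norm).mem_nhds hz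
        filter_upwards [h2] with w hw
        rw [hf5 w (le_of_lt hw), mul_zero]
      rw [h1.fderiv_eq, fderiv_const_apply]
    have e1 := (hth R hR0 x).2.2.1 hcase.1
    have e2 := (hth R hR0 y).2.2.1 hcase.2
    have e3 := hf5 x hcase.1.le
    have e4 := hf5 y hcase.2.le
    have e5 : brk d s (fun z => zt a z ^ 2 * th R z) (th R) x y = 0 := by
      unfold brk
      rw [e1, e2, e3, e4]
      simp
    rw [e5]
    have := tg_ib (2 * R) x
    have := tg_ib (2 * R) y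
    positivity
  · have hib : 1 ≤ ib (2 * R) x + ib (2 * R) y := by
      have h1 := tg_ib (2 * R) x
      have h2 := tg_ib (2 * R) y
      rw [not_and_or, not_lt, not_lt] at hcase
      rcases hcase with h | h
      · rw [tg_ib1 h]; linarith
      · rw [tg_ib1 h]; linarith
    set ρ : ℝ := R ^ (-(2 * a) - 1) with hρ
    have hρ0 : 0 < ρ := by positivity
    have hρr : ρ * R⁻¹ = r := by
      rw [hρ, hr, ← Real.rpow_neg_one, ← Real.rpow_add hR0]
      congr 1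
      ring
    have hbd : ∀ z : E d, R / 2 ≤ ‖z‖ → (1 + ‖z‖) ^ (-(2 * a) - 1) ≤ T * ρ := by
      intro z hz
      calc _ ≤ (R / 2) ^ (-(2 * a) - 1) :=
            Real.rpow_le_rpow_of_nonpos (by positivity) (by linarith) (by linarith)
        _ = T * ρ := by
            rw [hT, hρ, Real.div_rpow hR0.le (by norm_num), div_eq_mul_inv, ← Real.rpow_neg (by norm_num),
              mul_comm]
            congr 2
            ring
    have a1 : ‖fderiv ℝ (fun z : E d => zt a z ^ 2 * th R z) x‖ ≤ C₁ * (T * ρ) :=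
      ((hA R (by linarith) x).2).trans (mul_le_mul_of_nonneg_left (hbd x hx) hC₁)
    have a2 : ‖fderiv ℝ (fun z : E d => zt a z ^ 2 * th R z) y‖ ≤ C₁ * (T * ρ) :=
      ((hA R (by linarith) y).2).trans (mul_le_mul_of_nonneg_left (hbd y hy) hC₁)
    have b1 := (hth R hR0 x).1
    have b2 := (hth R hR0 y).1
    have b3 := (hth R hR0 x).2.2.2 y
    have a3 := hAd R hR x y hx hy
    rw [← hρ] at a3
    have key := tg_brk (d := d) (s := s) hs0 (A := fun z => zt a z ^ 2 * th R z) (B := th R) (x := x) (y := y)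
      (r := r) (p1 := 2 * C₁ * T * C₀) (p2 := 2 * C₁ * T * C₀ + 2 * C₂ * C₀) (p3 := C₂ * C₀) ?_ ?_ ?_
    · calc _ ≤ _ := key
        _ ≤ _ := by
          refine le_mul_of_one_le_right (by positivity) hib
    · have h1 := mul_le_mul a1 b2 (norm_nonneg _) (by positivity)
      have h2 := mul_le_mul a2 b1 (norm_nonneg _) (by positivity)
      calc _ ≤ C₁ * (T * ρ) * (C₀ / R) + C₁ * (T * ρ) * (C₀ / R) := add_le_add h1 h2
        _ = 2 * C₁ * T * C₀ * (ρ * R⁻¹) := by ring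
        _ = _ := by rw [hρr]
    · refine div_le_of_le_mul₀ (norm_nonneg _) (by positivity) ?_
      have h1 : (‖fderiv ℝ (fun z => zt a z ^ 2 * th R z) x‖ + ‖fderiv ℝ (fun z => zt a z ^ 2 * th R z) y‖) *
          |th R x - th R y| ≤ (2 * (C₁ * (T * ρ))) * (C₀ / R * ‖x - y‖) :=
        mul_le_mul (by linarith) b3 (abs_nonneg _) (by positivity)
      have h2 : |zt a x ^ 2 * th R x - zt a y ^ 2 * th R y| * (‖fderiv ℝ (th R : E d → ℝ) x‖ + ‖fderiv ℝ (th R : E d → ℝ) y‖) ≤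
          (C₂ * ρ * ‖x - y‖) * (2 * (C₀ / R)) :=
        mul_le_mul a3 (by linarith) (by positivity) (by positivity)
      calc _ ≤ (2 * (C₁ * (T * ρ))) * (C₀ / R * ‖x - y‖) + (C₂ * ρ * ‖x - y‖) * (2 * (C₀ / R)) := add_le_add h1 h2
        _ = (2 * C₁ * T * C₀ + 2 * C₂ * C₀) * (ρ * R⁻¹) * ‖x - y‖ := by ring
        _ = _ := by rw [hρr]
    · refine div_le_of_le_mul₀ (by positivity) (by positivity) ?_
      calc _ ≤ (C₂ * ρ * ‖x - y‖) * (C₀ / R * ‖x - y‖) := mul_le_mul a3 b3 (abs_nonneg _) (by positivity)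
        _ = C₂ * C₀ * (ρ * R⁻¹) * ‖x - y‖ ^ 2 := by ring
        _ = _ := by rw [hρr]

/-- MODULE tg. The bracket for `A = ξ^2 θ_R`, `B = θ_R`, `R ≥ 4`. Both `|x|,|y| ≥ R/2`: `≤ C R^(-2a-2)` and zero unless one of them is in
`B_{2R}`. If `|x| < R/2`: it is zero unless `|y| > R` (then `|x-y| ≥ R/2`), and then `≤ C (1+|x|)^(-2a-1) R^(-1)` (`DB x = 0`,
`|DB y| ≤ C/R`, `|B x - B y| ≤ 1`, `|DA y| ≤ C R^(-2a-1) ≤ C (1+|x|)^(-2a-1)`, `|A x - A y| ≤ 2C (1+|x|)^(-2a)`, `1 + |x| ≤ R`). Symmetric for `y`. -/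
theorem brk_A {d : ℕ} {s a : ℝ} (hs0 : 0 < s) (ha : 0 ≤ a) : ∃ C : ℝ, 0 ≤ C ∧ ∀ R : ℝ, 4 ≤ R → ∀ x y : E d,
    brk d s (fun z => zt a z ^ 2 * th R z) (th R) x y ≤
      C * R ^ (-(2 * a) - 2) * (ib (2 * R) x + ib (2 * R) y) +
      C * R ^ (-(1 : ℝ)) * ((ib (R / 2) x * (1 + ‖x‖) ^ (-(2 * a) - 1) + ib (R / 2) y * (1 + ‖y‖) ^ (-(2 * a) - 1)) *
        (if R / 2 ≤ ‖x - y‖ then 1 else 0)) := by
  obtain ⟨C₁, hC₁, h1⟩ := tg_near (d := d) (s := s) hs0 ha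
  obtain ⟨C₂, hC₂, h2⟩ := tg_far (d := d) (s := s) hs0 ha
  refine ⟨C₁ + C₂, by positivity, ?_⟩
  intro R hR x y
  have hR0 : 0 < R := by linarith
  have i1 := tg_ib (2 * R) x
  have i2 := tg_ib (2 * R) y
  have i3 := tg_ib (R / 2) x
  have i4 := tg_ib (R / 2) y
  have i5 : (0 : ℝ) ≤ if R / 2 ≤ ‖x - y‖ then 1 else 0 := by split_ifs <;> norm_num
  have i6 : (0 : ℝ) < (1 + ‖x‖) ^ (-(2 * a) - 1) := by positivity
  have i7 : (0 : ℝ) < (1 + ‖y‖) ^ (-(2 * a) - 1) := by positivity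
  set p := ib (2 * R) x
  set q := ib (2 * R) y
  set X := ib (R / 2) x * (1 + ‖x‖) ^ (-(2 * a) - 1) with hX
  set Y := ib (R / 2) y * (1 + ‖y‖) ^ (-(2 * a) - 1) with hY
  set J : ℝ := if R / 2 ≤ ‖x - y‖ then 1 else 0 with hJ
  have hX0 : 0 ≤ X := by positivity
  have hY0 : 0 ≤ Y := by positivity
  have hr1 : 0 < R ^ (-(2 * a) - 2) := by positivity
  have hr2 : 0 < R ^ (-(1 : ℝ)) := by positivity
  by_cases hx : ‖x‖ < R / 2
  · have := h1 R hR x y hx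
    calc _ ≤ _ := this
      _ ≤ (C₁ + C₂) * R ^ (-(1 : ℝ)) * ((X + Y) * J) := by
        rw [← hX, ← hJ]
        gcongr
        · linarith
        · linarith
      _ ≤ _ := le_add_of_nonneg_left (by positivity)
  · by_cases hy : ‖y‖ < R / 2
    · have := h1 R hR y x hy
      rw [tg_symm, norm_sub_rev y x] at this
      calc _ ≤ _ := this
        _ ≤ (C₁ + C₂) * R ^ (-(1 : ℝ)) * ((X + Y) * J) := by
          rw [← hY, ← hJ]
          gcongr
          · linarith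
          · linarith
        _ ≤ _ := le_add_of_nonneg_left (by positivity)
    · rw [not_lt] at hx hy
      have := h2 R hR x y hx hy
      calc _ ≤ _ := this
        _ ≤ (C₁ + C₂) * R ^ (-(2 * a) - 2) * (p + q) := by
          gcongr
          linarith
        _ ≤ _ := le_add_of_nonneg_right (by positivity)

/-- MODULE th. `∫_{|x| ≤ R} (1+|x|)^(-2a-1) ≤ C R^(d-1-2a)` for `2a < d - 1`, `R ≥ 1` (polar coordinates:
`∫_0^R r^(d-1) (1+r)^(-2a-1) dr ≤ ∫_0^R (1+r)^(d-2-2a) dr`). -/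
theorem ball_int {d : ℕ} {a : ℝ} (hd : 1 ≤ d) (ha : 0 ≤ a) (h : 2 * a < (d : ℝ) - 1) : ∃ C : ℝ, 0 ≤ C ∧ ∀ R : ℝ, 1 ≤ R →
    Integrable (fun x : E d => ib R x * (1 + ‖x‖) ^ (-(2 * a) - 1)) ∧
    ∫ x : E d, ib R x * (1 + ‖x‖) ^ (-(2 * a) - 1) ≤ C * R ^ ((d : ℝ) - 1 - 2 * a) := by
  have hβ : 0 < (d : ℝ) - 1 - 2 * a := by linarith
  obtain ⟨C, hC, hsc⟩ := near_scale (d := d) hd hβ
  refine ⟨C * 2 ^ ((d : ℝ) - 1 - 2 * a), by positivity, ?_⟩
  intro R hR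
  have hR0 : 0 < R := by linarith
  have hcont : Continuous (fun x : E d => (1 + ‖x‖) ^ (-(2 * a) - 1)) := by
    refine Continuous.rpow_const (by fun_prop) fun x => Or.inl (by positivity)
  have heq : (fun x : E d => ib R x * (1 + ‖x‖) ^ (-(2 * a) - 1)) =
      (Metric.closedBall (0 : E d) R).indicator (fun x : E d => (1 + ‖x‖) ^ (-(2 * a) - 1)) := by
    funext x
    unfold ib
    by_cases hx : x ∈ Metric.closedBall (0 : E d) R
    · rw [Set.indicator_of_mem hx, Set.indicator_of_mem hx, one_mul]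
    · rw [Set.indicator_of_notMem hx, Set.indicator_of_notMem hx, zero_mul]
  have hint : IntegrableOn (fun x : E d => (1 + ‖x‖) ^ (-(2 * a) - 1)) (Metric.closedBall (0 : E d) R) :=
    hcont.continuousOn.integrableOn_compact (isCompact_closedBall 0 R)
  constructor
  · rw [heq]
    exact hint.integrable_indicator measurableSet_closedBall
  · rw [heq, integral_indicator measurableSet_closedBall]
    have hn := near_int (d := d) hd hβ (2 * R)
    have hsub : Metric.closedBall (0 : E d) R ⊆ Metric.ball 0 (2 * R) :=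
      Metric.closedBall_subset_ball (by linarith)
    have h1 : ∫ x in Metric.closedBall (0 : E d) R, (1 + ‖x‖) ^ (-(2 * a) - 1) ≤
        ∫ x in Metric.closedBall (0 : E d) R, ‖x‖ ^ (((d : ℝ) - 1 - 2 * a) - (d : ℝ)) := by
      refine setIntegral_mono_ae hint (hn.mono_set hsub) ?_
      have : Nonempty (Fin d) := ⟨⟨0, by omega⟩⟩
      have h0 : ∀ᵐ x : E d, x ≠ 0 := by
        rw [ae_iff]
        simp
      filter_upwards [h0] with x hx
      have hx0 : 0 < ‖x‖ := norm_pos_iff.mpr hx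
      have e1 : ((d : ℝ) - 1 - 2 * a) - (d : ℝ) = -(2 * a) - 1 := by ring
      rw [e1]
      exact Real.rpow_le_rpow_of_nonpos hx0 (by linarith) (by linarith)
    have h2 : ∫ x in Metric.closedBall (0 : E d) R, ‖x‖ ^ (((d : ℝ) - 1 - 2 * a) - (d : ℝ)) ≤
        ∫ x in Metric.ball (0 : E d) (2 * R), ‖x‖ ^ (((d : ℝ) - 1 - 2 * a) - (d : ℝ)) := by
      refine setIntegral_mono_set hn ?_ hsub.eventuallyLE
      exact Eventually.of_forall fun x => by positivity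
    have h3 := hsc (2 * R) (by positivity)
    calc _ ≤ _ := h1
      _ ≤ _ := h2
      _ ≤ C * (2 * R) ^ ((d : ℝ) - 1 - 2 * a) := h3
      _ = _ := by
        rw [Real.mul_rpow (by norm_num) hR0.le]
        ring

/-- MODULE ti. The bound of the cost for the weighted cutoff: `mix_le`, `brk_A`, `En_facts`, `(u x - u y)^2 ≤ 4`, `shear`, `ker_tail`,
`ball_int`. -/
theorem mix_A {d : ℕ} {s a : ℝ} (hd : 1 ≤ d) (hs0 : 0 < s) (hs1 : s < 1) (ha : 0 ≤ a) (h : 2 * a < (d : ℝ) - 1) :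
    ∃ C : ℝ, 0 ≤ C ∧ ∀ u : E d → ℝ, LocLip u → (∀ x, |u x| ≤ 1) → ∀ e : E d, ‖e‖ ≤ 1 → ∀ R : ℝ, 4 ≤ R →
      |∫ p : E d × E d, (u p.1 - u p.2) ^ 2 * mix d s (fun z => zt a z ^ 2 * th R z) (th R) e p.1 p.2| ≤
        C * (R ^ (-(2 * a) - 2) * En d s u (2 * R) + R ^ ((d : ℝ) - 2 - 2 * s - 2 * a)) := by
  obtain ⟨C1, hC1, hb⟩ := brk_A (d := d) (s := s) (a := a) hs0 ha
  obtain ⟨C2, hC2, hball⟩ := ball_int (d := d) (a := a) hd ha h
  obtain ⟨C3, hC3, htail⟩ := ker_tail (d := d) (s := s) hd hs0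
  set Cf : ℝ := 2 * C1 + 8 * C1 * C2 * C3 * (1 / 2) ^ ((d : ℝ) - 1 - 2 * a) * (1 / 4) ^ (-(2 * s)) with hCf
  refine ⟨Cf, by positivity, fun u hu hB1 e he R hR => ?_⟩
  have hR0 : 0 < R := by linarith
  obtain ⟨-, -, -, hEn⟩ := En_facts (s := s) hd hs0 hs1 hu hB1
  obtain ⟨hE1, hE2⟩ := hEn (2 * R)
  set f : E d → ℝ := fun x => ib (R / 2) x * (1 + ‖x‖) ^ (-(2 * a) - 1) with hf
  obtain ⟨hf1, hf2⟩ := hball (R / 2) (by linarith)
  have hib0 : ∀ (r : ℝ) (x : E d), 0 ≤ ib r x := fun r x => by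
    unfold ib
    exact indicator_nonneg (fun _ _ => zero_le_one) x
  have hf0 : ∀ x, 0 ≤ f x := fun x => mul_nonneg (hib0 _ _) (by positivity)
  have hset : MeasurableSet {h : E d | R / 4 < ‖h‖} := measurableSet_lt measurable_const measurable_norm
  set g : E d → ℝ := ({h : E d | R / 4 < ‖h‖}).indicator (K d s) with hg
  have hg1 : Integrable g := (htail (R / 4) (by linarith)).1.integrable_indicator hset
  have hg2 : ∫ h, g h = C3 * (R / 4) ^ (-(2 * s)) := by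
    rw [hg, integral_indicator hset]
    exact (htail (R / 4) (by linarith)).2
  have hg0 : ∀ x, 0 ≤ g x := fun x => indicator_nonneg (fun _ _ => ker_nonneg _) x
  have hgneg : ∀ x, g (-x) = g x := by
    intro x
    simp only [hg, indicator, mem_setOf_eq, norm_neg]
    rw [ker_congr (norm_neg x)]
  -- product integrals
  have hp1 : Integrable (fun p : E d × E d => f p.1 * g (p.1 - p.2)) ∧
      ∫ p : E d × E d, f p.1 * g (p.1 - p.2) = (∫ x, f x) * ∫ h, g h := by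
    obtain ⟨s1, s2⟩ := shear (fun p : E d × E d => f p.1 * g (p.1 - p.2))
    have e1 : (fun q : E d × E d => (fun p : E d × E d => f p.1 * g (p.1 - p.2)) (q.1, q.1 + q.2)) =
        fun q : E d × E d => f q.1 * g q.2 := by
      funext q
      simp only [sub_add_cancel_left, hgneg]
    rw [e1] at s1 s2
    refine ⟨s1.2 (hf1.mul_prod hg1), ?_⟩
    rw [s2, Measure.volume_eq_prod, integral_prod_mul]
  have hp2 : Integrable (fun p : E d × E d => f p.2 * g (p.1 - p.2)) ∧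
      ∫ p : E d × E d, f p.2 * g (p.1 - p.2) = (∫ x, f x) * ∫ h, g h := by
    obtain ⟨s1, s2⟩ := shear' (fun p : E d × E d => f p.2 * g (p.1 - p.2))
    have e1 : (fun q : E d × E d => (fun p : E d × E d => f p.2 * g (p.1 - p.2)) (q.1 + q.2, q.1)) =
        fun q : E d × E d => f q.1 * g q.2 := by
      funext q
      simp only [add_sub_cancel_left]
    rw [e1] at s1 s2
    refine ⟨s1.2 (hf1.mul_prod hg1), ?_⟩
    rw [s2, Measure.volume_eq_prod, integral_prod_mul]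
  -- the pointwise bound
  set Φ : E d × E d → ℝ := fun p => (C1 * R ^ (-(2 * a) - 2)) *
      ((ib (2 * R) p.1 + ib (2 * R) p.2) * (u p.1 - u p.2) ^ 2 * K d s (p.1 - p.2)) +
      ((4 * C1 * R ^ (-(1:ℝ))) * (f p.1 * g (p.1 - p.2)) + (4 * C1 * R ^ (-(1:ℝ))) * (f p.2 * g (p.1 - p.2))) with hΦ
  have hΦint : Integrable Φ := (hE1.const_mul _).add ((hp1.1.const_mul _).add (hp2.1.const_mul _))
  have hpt : ∀ p : E d × E d, ‖(u p.1 - u p.2) ^ 2 *
      mix d s (fun z => zt a z ^ 2 * th R z) (th R) e p.1 p.2‖ ≤ Φ p := by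
    intro p
    have m1 := mix_le (d := d) (s := s) hs0 (fun z => zt a z ^ 2 * th R z) (th R) he p.1 p.2
    have m2 := hb R hR p.1 p.2
    have hk := ker_nonneg (s := s) (p.1 - p.2)
    have hsq : (u p.1 - u p.2) ^ 2 ≤ 4 := by
      rw [← sq_abs]
      have h1 : |u p.1 - u p.2| ≤ 2 := by
        have := abs_sub (u p.1) (u p.2)
        have g1 := hB1 p.1
        have g2 := hB1 p.2
        linarith
      nlinarith [abs_nonneg (u p.1 - u p.2)]
    have hif : (if R / 2 ≤ ‖p.1 - p.2‖ then (1:ℝ) else 0) * K d s (p.1 - p.2) ≤ g (p.1 - p.2) := by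
      split_ifs with h1
      · rw [one_mul, hg, indicator_of_mem (show p.1 - p.2 ∈ {h : E d | R / 4 < ‖h‖} by
          show R / 4 < ‖p.1 - p.2‖
          linarith)]
      · rw [zero_mul]
        exact hg0 _
    rw [norm_mul, Real.norm_eq_abs, Real.norm_eq_abs, abs_of_nonneg (sq_nonneg _)]
    have m3 : |mix d s (fun z => zt a z ^ 2 * th R z) (th R) e p.1 p.2| ≤
        C1 * R ^ (-(2 * a) - 2) * ((ib (2 * R) p.1 + ib (2 * R) p.2) * K d s (p.1 - p.2)) +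
        C1 * R ^ (-(1:ℝ)) * ((f p.1 + f p.2) * g (p.1 - p.2)) := by
      refine m1.trans ?_
      calc brk d s (fun z => zt a z ^ 2 * th R z) (th R) p.1 p.2 * K d s (p.1 - p.2)
          ≤ (C1 * R ^ (-(2 * a) - 2) * (ib (2 * R) p.1 + ib (2 * R) p.2) +
            C1 * R ^ (-(1 : ℝ)) * ((f p.1 + f p.2) * (if R / 2 ≤ ‖p.1 - p.2‖ then 1 else 0))) *
              K d s (p.1 - p.2) := mul_le_mul_of_nonneg_right m2 hk
        _ = C1 * R ^ (-(2 * a) - 2) * ((ib (2 * R) p.1 + ib (2 * R) p.2) * K d s (p.1 - p.2)) +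
            C1 * R ^ (-(1 : ℝ)) * ((f p.1 + f p.2) *
              ((if R / 2 ≤ ‖p.1 - p.2‖ then 1 else 0) * K d s (p.1 - p.2))) := by ring
        _ ≤ _ := by
            have := hf0 p.1
            have := hf0 p.2
            gcongr
    have n1 : 0 ≤ C1 * R ^ (-(1:ℝ)) * ((f p.1 + f p.2) * g (p.1 - p.2)) := by
      have := hf0 p.1
      have := hf0 p.2
      have := hg0 (p.1 - p.2)
      positivity
    have n2 := mul_le_mul_of_nonneg_left m3 (sq_nonneg (u p.1 - u p.2))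
    have n3 := mul_le_mul_of_nonneg_right hsq n1
    simp only [hΦ]
    calc (u p.1 - u p.2) ^ 2 * |mix d s (fun z => zt a z ^ 2 * th R z) (th R) e p.1 p.2|
        ≤ (u p.1 - u p.2) ^ 2 * (C1 * R ^ (-(2 * a) - 2) *
            ((ib (2 * R) p.1 + ib (2 * R) p.2) * K d s (p.1 - p.2)) +
            C1 * R ^ (-(1:ℝ)) * ((f p.1 + f p.2) * g (p.1 - p.2))) := n2
      _ = (C1 * R ^ (-(2 * a) - 2)) *
          ((ib (2 * R) p.1 + ib (2 * R) p.2) * (u p.1 - u p.2) ^ 2 * K d s (p.1 - p.2)) +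
          (u p.1 - u p.2) ^ 2 * (C1 * R ^ (-(1:ℝ)) * ((f p.1 + f p.2) * g (p.1 - p.2))) := by ring
      _ ≤ (C1 * R ^ (-(2 * a) - 2)) *
          ((ib (2 * R) p.1 + ib (2 * R) p.2) * (u p.1 - u p.2) ^ 2 * K d s (p.1 - p.2)) +
          4 * (C1 * R ^ (-(1:ℝ)) * ((f p.1 + f p.2) * g (p.1 - p.2))) := by linarith
      _ = _ := by ring
  have hmain := norm_integral_le_of_norm_le hΦint (Filter.Eventually.of_forall hpt)
  rw [Real.norm_eq_abs] at hmain
  refine hmain.trans ?_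
  have k1 := hE1.const_mul (C1 * R ^ (-(2 * a) - 2))
  have k2 := hp1.1.const_mul (4 * C1 * R ^ (-(1:ℝ)))
  have k3 := hp2.1.const_mul (4 * C1 * R ^ (-(1:ℝ)))
  have k23 : Integrable (fun p : E d × E d => (4 * C1 * R ^ (-(1:ℝ))) * (f p.1 * g (p.1 - p.2)) +
    (4 * C1 * R ^ (-(1:ℝ))) * (f p.2 * g (p.1 - p.2))) := k2.add k3
  have hI : ∫ p, Φ p = (C1 * R ^ (-(2 * a) - 2)) * (2 * En d s u (2 * R)) +
      ((4 * C1 * R ^ (-(1:ℝ))) * ((∫ x, f x) * ∫ h, g h) + (4 * C1 * R ^ (-(1:ℝ))) * ((∫ x, f x) * ∫ h, g h)) := by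
    simp only [hΦ]
    rw [integral_add k1 k23, integral_add k2 k3, integral_const_mul, integral_const_mul,
      integral_const_mul, hE2, hp1.2, hp2.2]
  rw [hI, hg2]
  have hfle : ∫ x, f x ≤ C2 * (R / 2) ^ ((d : ℝ) - 1 - 2 * a) := hf2
  have hEn0 : 0 ≤ En d s u (2 * R) := (En_facts (s := s) hd hs0 hs1 hu hB1).2.1 _
  have v1 : R ^ (-(1:ℝ)) * ((R / 2) ^ ((d : ℝ) - 1 - 2 * a) * (R / 4) ^ (-(2 * s))) =
      (1 / 2) ^ ((d : ℝ) - 1 - 2 * a) * (1 / 4) ^ (-(2 * s)) * R ^ ((d : ℝ) - 2 - 2 * s - 2 * a) := by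
    rw [show R / 2 = (1 / 2) * R by ring, show R / 4 = (1 / 4) * R by ring,
      Real.mul_rpow (by norm_num) hR0.le, Real.mul_rpow (by norm_num) hR0.le]
    have v2 : R ^ (-(1:ℝ)) * (R ^ ((d : ℝ) - 1 - 2 * a) * R ^ (-(2 * s))) = R ^ ((d : ℝ) - 2 - 2 * s - 2 * a) := by
      rw [← Real.rpow_add hR0, ← Real.rpow_add hR0]
      congr 1
      ring
    rw [← v2]
    ring
  have v3 : (4 * C1 * R ^ (-(1:ℝ))) * ((∫ x, f x) * (C3 * (R / 4) ^ (-(2 * s)))) ≤
      4 * C1 * C2 * C3 * ((1 / 2) ^ ((d : ℝ) - 1 - 2 * a) * (1 / 4) ^ (-(2 * s)) *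
        R ^ ((d : ℝ) - 2 - 2 * s - 2 * a)) := by
    rw [← v1]
    have v4 := mul_le_mul_of_nonneg_right hfle (show 0 ≤ 4 * C1 * R ^ (-(1:ℝ)) * (C3 * (R / 4) ^ (-(2 * s))) by positivity)
    calc _ = (∫ x, f x) * (4 * C1 * R ^ (-(1:ℝ)) * (C3 * (R / 4) ^ (-(2 * s)))) := by ring
      _ ≤ _ := v4
      _ = _ := by ring
  have w1 : 0 ≤ R ^ (-(2 * a) - 2) * En d s u (2 * R) := by positivity
  have w2 : 0 ≤ R ^ ((d : ℝ) - 2 - 2 * s - 2 * a) := by positivity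
  have w3 : 0 ≤ C1 * C2 * C3 * ((1 / 2) ^ ((d : ℝ) - 1 - 2 * a) * (1 / 4) ^ (-(2 * s))) := by positivity
  rw [hCf]
  nlinarith [mul_nonneg hC1 w2, mul_nonneg w3 w1]

end Pool.Agent.Frd
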