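import Pool.Agent.NDG.Base

/-!
# Fractional Allen-Cahn: definitions for the theorem on rotationally symmetric solutions

`E d`, the kernel `K d s h = |h|^(-d-2s)`, `Entire`, `OneDim`, `Test`, `Stable`: helper85's files `Pool.Agent.NDG`.
-/

open MeasureTheory Set Filter Topology NDG

namespace Pool.Agent.Frd

/-- The `i`-th coordinate vector. -/
noncomputable def bv {d : ℕ} (i : Fin d) : E d := EuclideanSpace.single i (1 : ℝ)

/-- The `i`-th partial derivative. -/
noncomputable def pd {d : ℕ} (i : Fin d) (f : E d → ℝ) (x : E d) : ℝ := fderiv ℝ f x (bv i)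

/-- The orthogonal projection on the span of the first `k` coordinate vectors. -/
noncomputable def pr {d : ℕ} (k : ℕ) (x : E d) : E d :=
  WithLp.toLp 2 (fun i : Fin d => if (i : ℕ) < k then x i else 0)

/-- `g` is a linear isometry of `ℝ^d` which fixes every vector whose first `k` coordinates vanish,
that is, `g ∈ O(k)` acting on the first `k` coordinates. -/
def Ok {d : ℕ} (k : ℕ) (g : E d ≃ₗᵢ[ℝ] E d) : Prop := ∀ x, pr k x = 0 → g x = x

/-- `u` is invariant under `O(k)` acting on the first `k` coordinates. -/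
def Rot {d : ℕ} (k : ℕ) (u : E d → ℝ) : Prop :=
  ∀ g : E d ≃ₗᵢ[ℝ] E d, Ok k g → ∀ x, u (g x) = u x

/-- `V` is a field with values in `ℝ^k` (first `k` coordinates) that commutes with `O(k)`. -/
def Equi {d : ℕ} (k : ℕ) (V : E d → E d) : Prop :=
  (∀ g : E d ≃ₗᵢ[ℝ] E d, Ok k g → ∀ x, V (g x) = g (V x)) ∧ ∀ x, pr k (V x) = V x

/-- The weight `(1 + |x|^2)^(-b/2)`. -/
noncomputable def zt {d : ℕ} (b : ℝ) (x : E d) : ℝ := (1 + ‖x‖ ^ 2) ^ (-(b / 2))

/-- The resolvent kernel `G_l(h) = ∫_0^∞ e^(-l t) (4πt)^(-d/2) e^(-|h|^2/4t) dt`. -/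
noncomputable def Gl (d : ℕ) (l : ℝ) (h : E d) : ℝ :=
  ∫ t in Ioi (0 : ℝ), Real.exp (-(l * t)) * (4 * Real.pi * t) ^ (-((d : ℝ) / 2)) *
    Real.exp (-(‖h‖ ^ 2 / (4 * t)))

end Pool.Agent.Frd
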