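import Pool.Agent.Frd.Cut

/-!
# The energy bootstrap for stable solutions
-/

open MeasureTheory Set Filter Topology NDG

namespace Pool.Agent.Frd

/-- `∫_{|x| ≤ R} |Du|`. -/
noncomputable def BV {d : ℕ} (u : E d → ℝ) (R : ℝ) : ℝ := ∫ x in Metric.closedBall (0 : E d) R, ‖fderiv ℝ u x‖

/-- A Hoelder estimate with an exponent larger than `s`. -/
def HolU {d : ℕ} (s : ℝ) (u : E d → ℝ) : Prop :=
  ∃ a C : ℝ, s < a ∧ a ≤ 1 ∧ ∀ x y, |u x - u y| ≤ C * ‖x - y‖ ^ a

/-- MODULE na. `L^1` translation estimate: for `|h| ≤ R`, `∫_{|x| ≤ R} |u(x+h) - u x| ≤ |h| BV(2R)`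
(fundamental theorem of calculus on the segment, Fubini, translation). -/
theorem l1_trans {d : ℕ} {u : E d → ℝ} (hu : ContDiff ℝ 1 u) {R : ℝ} (hR : 0 < R) {h : E d} (hh : ‖h‖ ≤ R) :
    ∫ x in Metric.closedBall (0 : E d) R, |u (x + h) - u x| ≤ ‖h‖ * BV u (2 * R) := by
  have hfd : Continuous (fun x => ‖fderiv ℝ u x‖) := (hu.continuous_fderiv (by norm_num)).norm
  set F : E d × ℝ → ℝ := fun q => ‖fderiv ℝ u (q.1 + q.2 • h)‖ with hF
  have hFc : Continuous F := by
    have : Continuous (fun q : E d × ℝ => q.1 + q.2 • h) := by fun_prop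
    exact hfd.comp this
  have hB : IsCompact (Metric.closedBall (0 : E d) R) := isCompact_closedBall _ _
  have hI : IsCompact (Icc (0:ℝ) 1) := isCompact_Icc
  have hFint : Integrable F ((volume.restrict (Metric.closedBall (0 : E d) R)).prod
      (volume.restrict (Icc (0:ℝ) 1))) := by
    rw [Measure.prod_restrict]
    exact (hFc.continuousOn.integrableOn_compact (hB.prod hI))
  -- pointwise
  have hpt : ∀ x : E d, |u (x + h) - u x| ≤ ‖h‖ * ∫ t in Icc (0:ℝ) 1, F (x, t) := by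
    intro x
    have hd1 : ∀ t ∈ uIcc (0:ℝ) 1, HasDerivAt (fun t : ℝ => u (x + t • h)) (fderiv ℝ u (x + t • h) h) t := by
      intro t _
      have h1 : HasFDerivAt u (fderiv ℝ u (x + t • h)) (x + t • h) :=
        (hu.differentiable (by norm_num) _).hasFDerivAt
      have h2 : HasDerivAt (fun t : ℝ => x + t • h) h t := by
        simpa using ((hasDerivAt_id t).smul_const h).const_add x
      exact h1.comp_hasDerivAt t h2
    have hcont : Continuous (fun t : ℝ => fderiv ℝ u (x + t • h) h) := by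
      have h3 : Continuous (fun t : ℝ => fderiv ℝ u (x + t • h)) :=
        (hu.continuous_fderiv (by norm_num)).comp (by fun_prop)
      exact h3.clm_apply continuous_const
    have h4 := intervalIntegral.integral_eq_sub_of_hasDerivAt hd1 (hcont.intervalIntegrable _ _)
    have h5 : u (x + h) - u x = ∫ t in (0:ℝ)..1, fderiv ℝ u (x + t • h) h := by
      rw [h4]
      simp
    rw [h5, ← Real.norm_eq_abs]
    have h6 : ‖∫ t in (0:ℝ)..1, fderiv ℝ u (x + t • h) h‖ ≤ ∫ t in (0:ℝ)..1, ‖h‖ * F (x, t) := by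
      refine intervalIntegral.norm_integral_le_of_norm_le (by norm_num) ?_ ?_
      · refine Filter.Eventually.of_forall (fun t _ => ?_)
        rw [mul_comm]
        exact (fderiv ℝ u (x + t • h)).le_opNorm h
      · exact (continuous_const.mul (hFc.comp (by fun_prop))).intervalIntegrable _ _
    refine h6.trans (le_of_eq ?_)
    rw [intervalIntegral.integral_const_mul, intervalIntegral.integral_of_le (by norm_num),
      integral_Icc_eq_integral_Ioc]
  have hleft : IntegrableOn (fun x => |u (x + h) - u x|) (Metric.closedBall (0 : E d) R) := by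
    have : Continuous (fun x => |u (x + h) - u x|) := by
      have := hu.continuous
      fun_prop
    exact this.continuousOn.integrableOn_compact hB
  calc ∫ x in Metric.closedBall (0 : E d) R, |u (x + h) - u x|
      ≤ ∫ x in Metric.closedBall (0 : E d) R, ‖h‖ * ∫ t in Icc (0:ℝ) 1, F (x, t) :=
        setIntegral_mono hleft (hFint.integral_prod_left.const_mul _) hpt
    _ = ‖h‖ * ∫ t in Icc (0:ℝ) 1, ∫ x in Metric.closedBall (0 : E d) R, F (x, t) := by
        rw [integral_const_mul]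
        congr 1
        exact integral_integral_swap hFint
    _ ≤ ‖h‖ * ∫ t in Icc (0:ℝ) 1, BV u (2 * R) := by
        refine mul_le_mul_of_nonneg_left ?_ (norm_nonneg _)
        refine setIntegral_mono_on hFint.integral_prod_right ?_ measurableSet_Icc ?_
        · exact (integrable_const _)
        · intro t ht
          show ∫ x in Metric.closedBall (0 : E d) R, ‖fderiv ℝ u (x + t • h)‖ ≤ BV u (2 * R)
          have h7 : ∫ x in Metric.closedBall (0 : E d) R, ‖fderiv ℝ u (x + t • h)‖ =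
              ∫ x in Metric.closedBall (t • h) R, ‖fderiv ℝ u x‖ := by
            have h8 : MeasurePreserving (fun x : E d => x + t • h) volume volume :=
              measurePreserving_add_right _ _
            have h9 := h8.setIntegral_preimage_emb (measurableEmbedding_addRight (t • h))
              (fun x => ‖fderiv ℝ u x‖) (Metric.closedBall (t • h) R)
            rw [← h9]
            have h10 : (fun x : E d => x + t • h) ⁻¹' Metric.closedBall (t • h) R =
                Metric.closedBall (0 : E d) R := by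
              ext x
              simp [Metric.mem_closedBall, dist_eq_norm]
            rw [h10]
          rw [h7]
          refine setIntegral_mono_set ?_ (Filter.Eventually.of_forall (fun x => norm_nonneg _)) ?_
          · exact hfd.continuousOn.integrableOn_compact (isCompact_closedBall _ _)
          · refine HasSubset.Subset.eventuallyLE ?_
            intro x hx
            rw [Metric.mem_closedBall, dist_eq_norm] at hx ⊢
            have h11 : ‖t • h‖ ≤ R := by
              rw [norm_smul, Real.norm_eq_abs, abs_of_nonneg ht.1]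
              nlinarith [ht.2, norm_nonneg h, ht.1]
            calc ‖x - 0‖ = ‖(x - t • h) + t • h‖ := by rw [sub_add_cancel, sub_zero]
              _ ≤ ‖x - t • h‖ + ‖t • h‖ := norm_add_le _ _
              _ ≤ 2 * R := by linarith
    _ = ‖h‖ * BV u (2 * R) := by
        rw [setIntegral_const, Measure.real, Real.volume_Icc]
        simp

/-- MODULE nb. The energy in polar form: `E(R) = ∫ K(h) (∫_{|x| ≤ R} (u(x+h) - u x)^2 dx) dh` (`shear`, Fubini). -/
theorem En_shear {d : ℕ} {s : ℝ} (hd : 1 ≤ d) (hs0 : 0 < s) (hs1 : s < 1) {u : E d → ℝ} (hu : LocLip u)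
    (hB1 : ∀ x, |u x| ≤ 1) (R : ℝ) :
    Integrable (fun h : E d => K d s h * ∫ x in Metric.closedBall (0 : E d) R, (u (x + h) - u x) ^ 2) ∧
    En d s u R = ∫ h : E d, K d s h * ∫ x in Metric.closedBall (0 : E d) R, (u (x + h) - u x) ^ 2 := by
  have hf := (En_facts hd hs0 hs1 hu hB1).1 R
  obtain ⟨h1, h2⟩ := shear (fun p : E d × E d => ib R p.1 * (u p.1 - u p.2) ^ 2 * K d s (p.1 - p.2))
  have h3 := h1.1 hf
  have e : ∀ h : E d, ∫ x : E d, ib R x * (u x - u (x + h)) ^ 2 * K d s (x - (x + h)) =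
      K d s h * ∫ x in Metric.closedBall (0 : E d) R, (u (x + h) - u x) ^ 2 := by
    intro h
    rw [← integral_const_mul, ← integral_indicator Metric.isClosed_closedBall.measurableSet]
    refine integral_congr_ae (Filter.Eventually.of_forall (fun x => ?_))
    have hk : K d s (x - (x + h)) = K d s h := by
      rw [sub_add_cancel_left]
      exact ker_congr (norm_neg h)
    simp only [ib, hk]
    by_cases hx : x ∈ Metric.closedBall (0 : E d) R
    · rw [indicator_of_mem hx, indicator_of_mem hx]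
      ring
    · rw [indicator_of_notMem hx, indicator_of_notMem hx]
      ring
  constructor
  · have h4 := h3.integral_prod_right
    refine h4.congr (Filter.Eventually.of_forall (fun h => ?_))
    exact e h
  · unfold En
    rw [h2, Measure.volume_eq_prod, integral_prod_symm _ h3]
    refine integral_congr_ae (Filter.Eventually.of_forall (fun h => ?_))
    exact e h

private theorem nc_vol {d : ℕ} {R : ℝ} (hR : 0 < R) : (volume : Measure (E d)).real (Metric.closedBall (0 : E d) R) =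
    R ^ (d : ℝ) * (volume : Measure (E d)).real (Metric.closedBall (0 : E d) 1) := by
  rw [Measure.real, Measure.real, Measure.addHaar_closedBall' _ _ hR.le, ENNReal.toReal_mul,
    ENNReal.toReal_ofReal (by positivity), finrank_euclideanSpace, Fintype.card_fin, Real.rpow_natCast]

private theorem nc_bd {d : ℕ} {u : E d → ℝ} {h : E d} {M : ℝ} (hM : ∀ x, (u (x + h) - u x) ^ 2 ≤ M)
    (hu : Continuous u) (h' : E d) (R : ℝ) (e : h = h') :
    ∫ x in Metric.closedBall (0 : E d) R, (u (x + h') - u x) ^ 2 ≤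
      M * (volume : Measure (E d)).real (Metric.closedBall (0 : E d) R) := by
  subst e
  have hc : Continuous (fun x => (u (x + h) - u x) ^ 2) := by fun_prop
  calc ∫ x in Metric.closedBall (0 : E d) R, (u (x + h) - u x) ^ 2
      ≤ ∫ x in Metric.closedBall (0 : E d) R, M := by
        refine setIntegral_mono (hc.continuousOn.integrableOn_compact (isCompact_closedBall _ _)) ?_ hM
        exact integrableOn_const (measure_closedBall_lt_top.ne)
    _ = M * (volume : Measure (E d)).real (Metric.closedBall (0 : E d) R) := by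
        rw [setIntegral_const, smul_eq_mul, mul_comm]

private theorem nc_int {d : ℕ} {s p : ℝ} (hd : 1 ≤ d) (hs : 0 < s) (hp : 2 * s < p) :
    Integrable (fun h : E d => min 1 (‖h‖ ^ p) * K d s h) := by
  obtain ⟨C, -, hf⟩ := ker_radial hd s
  refine (hf (fun r => min 1 (r ^ p))).1.2 ?_
  have hp0 : 0 < p := by linarith
  have hmeas : Measurable (fun r : ℝ => min 1 (r ^ p) * r ^ (-1 - 2 * s)) := by fun_prop
  have hU : Ioi (0:ℝ) = Ioc 0 1 ∪ Ioi 1 := by
    rw [Ioc_union_Ioi_eq_Ioi (by norm_num)]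
  rw [hU, integrableOn_union]
  constructor
  · have h1 : IntegrableOn (fun r : ℝ => r ^ (p - 1 - 2 * s)) (Ioc 0 1) := by
      rw [← intervalIntegrable_iff_integrableOn_Ioc_of_le (by norm_num)]
      exact intervalIntegral.intervalIntegrable_rpow' (by linarith)
    refine Integrable.mono' h1 hmeas.aestronglyMeasurable ?_
    rw [ae_restrict_iff' measurableSet_Ioc]
    refine Filter.Eventually.of_forall (fun r hr => ?_)
    have h2 : 0 < r := hr.1
    have h3 : 0 < r ^ (-1 - 2 * s) := Real.rpow_pos_of_pos h2 _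
    have h4 : 0 < r ^ p := Real.rpow_pos_of_pos h2 _
    rw [Real.norm_eq_abs, abs_of_nonneg (by positivity)]
    calc min 1 (r ^ p) * r ^ (-1 - 2 * s) ≤ r ^ p * r ^ (-1 - 2 * s) :=
          mul_le_mul_of_nonneg_right (min_le_right _ _) h3.le
      _ = r ^ (p - 1 - 2 * s) := by
          rw [← Real.rpow_add h2]
          congr 1
          ring
  · have h1 : IntegrableOn (fun r : ℝ => r ^ (-1 - 2 * s)) (Ioi 1) :=
      integrableOn_Ioi_rpow_of_lt (by linarith) (by norm_num)
    refine Integrable.mono' h1 hmeas.aestronglyMeasurable ?_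
    rw [ae_restrict_iff' measurableSet_Ioi]
    refine Filter.Eventually.of_forall (fun r hr => ?_)
    have h2 : 0 < r := lt_trans (by norm_num) hr
    have h3 : 0 < r ^ (-1 - 2 * s) := Real.rpow_pos_of_pos h2 _
    have h4 : 0 < r ^ p := Real.rpow_pos_of_pos h2 _
    rw [Real.norm_eq_abs, abs_of_nonneg (by positivity)]
    calc min 1 (r ^ p) * r ^ (-1 - 2 * s) ≤ 1 * r ^ (-1 - 2 * s) :=
          mul_le_mul_of_nonneg_right (min_le_left _ _) h3.le
      _ = r ^ (-1 - 2 * s) := one_mul _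

/-- MODULE nc. A priori bound `E(R) ≤ C R^d`: `(u(x+h)-u x)^2 ≤ min (C^2|h|^(2a)) 4`, `a > s`. -/
theorem En_apriori {d : ℕ} {s : ℝ} (hd : 1 ≤ d) (hs0 : 0 < s) (hs1 : s < 1) {u : E d → ℝ} (hu : ContDiff ℝ 1 u)
    (hB1 : ∀ x, |u x| ≤ 1) (hH : HolU s u) : ∃ C : ℝ, 0 ≤ C ∧ ∀ R : ℝ, 1 ≤ R → En d s u R ≤ C * R ^ (d : ℝ) := by
  obtain ⟨a, C, ha, ha1, hC⟩ := hH
  have hL : LocLip u := LocLip.of_contDiff hu
  have hm := nc_int hd hs0 (p := 2 * a) (by linarith)
  set M : ℝ := ∫ h : E d, min 1 (‖h‖ ^ (2 * a)) * K d s h with hM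
  have hM0 : 0 ≤ M := integral_nonneg (fun h => mul_nonneg (by positivity) (ker_nonneg h))
  set V : ℝ := (volume : Measure (E d)).real (Metric.closedBall (0 : E d) 1) with hV
  have hV0 : 0 ≤ V := measureReal_nonneg
  refine ⟨(4 + C ^ 2) * V * M, by positivity, fun R hR => ?_⟩
  obtain ⟨h1, h2⟩ := En_shear hd hs0 hs1 hL hB1 R
  have hvol : (volume : Measure (E d)).real (Metric.closedBall (0 : E d) R) = R ^ (d : ℝ) * V := nc_vol (by linarith)
  rw [h2]
  have h3 : ∀ h : E d, K d s h * ∫ x in Metric.closedBall (0 : E d) R, (u (x + h) - u x) ^ 2 ≤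
      ((4 + C ^ 2) * V * R ^ (d : ℝ)) * (min 1 (‖h‖ ^ (2 * a)) * K d s h) := by
    intro h
    have h4 : ∫ x in Metric.closedBall (0 : E d) R, (u (x + h) - u x) ^ 2 ≤
        ((4 + C ^ 2) * min 1 (‖h‖ ^ (2 * a))) * (volume : Measure (E d)).real (Metric.closedBall (0 : E d) R) := by
      refine nc_bd (fun x => ?_) hu.continuous h R rfl
      have h5 : |u (x + h) - u x| ≤ 2 := by
        have := abs_sub (u (x + h)) (u x)
        have g1 := hB1 (x + h)
        have g2 := hB1 x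
        linarith
      have h6 : |u (x + h) - u x| ≤ C * ‖h‖ ^ a := by
        have := hC (x + h) x
        rwa [add_sub_cancel_left] at this
      have h7 : (u (x + h) - u x) ^ 2 ≤ 4 := by
        rw [← sq_abs]
        nlinarith [abs_nonneg (u (x + h) - u x)]
      have h8 : (u (x + h) - u x) ^ 2 ≤ C ^ 2 * ‖h‖ ^ (2 * a) := by
        rw [← sq_abs]
        calc |u (x + h) - u x| ^ 2 ≤ (C * ‖h‖ ^ a) ^ 2 := pow_le_pow_left₀ (abs_nonneg _) h6 2
          _ = C ^ 2 * ‖h‖ ^ (2 * a) := by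
            rw [mul_pow, ← Real.rpow_natCast (‖h‖ ^ a) 2, ← Real.rpow_mul (norm_nonneg _)]
            congr 2
            push_cast
            ring
      rcases le_total 1 (‖h‖ ^ (2 * a)) with h9 | h9
      · rw [min_eq_left h9]
        nlinarith [sq_nonneg C]
      · rw [min_eq_right h9]
        have : 0 ≤ ‖h‖ ^ (2 * a) := by positivity
        nlinarith
    rw [hvol] at h4
    calc K d s h * ∫ x in Metric.closedBall (0 : E d) R, (u (x + h) - u x) ^ 2
        ≤ K d s h * (((4 + C ^ 2) * min 1 (‖h‖ ^ (2 * a))) * (R ^ (d : ℝ) * V)) :=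
          mul_le_mul_of_nonneg_left h4 (ker_nonneg h)
      _ = _ := by ring
  calc ∫ h : E d, K d s h * ∫ x in Metric.closedBall (0 : E d) R, (u (x + h) - u x) ^ 2
      ≤ ∫ h : E d, ((4 + C ^ 2) * V * R ^ (d : ℝ)) * (min 1 (‖h‖ ^ (2 * a)) * K d s h) :=
        integral_mono h1 (hm.const_mul _) h3
    _ = (4 + C ^ 2) * V * M * R ^ (d : ℝ) := by
        rw [integral_const_mul]
        ring

/-- MODULE nd. `E(R) ≤ C (R^β BV(2R) + R^(d-2s))`, `β > max(1-2s,0)`, `R ≥ 1`. Proof (`En_shear`, `l1_trans`): `|h| ≤ 1`: `(u-u')^2 ≤ C|h|^a|u-u'|`,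
`∫_{|h| ≤ 1} |h|^(1+a) K < ∞` since `1 + a > 2s`; `1 < |h| ≤ R`: `(u-u')^2 ≤ 2|u-u'|`, `ker_first`; `|h| > R`: `(u-u')^2 ≤ 4`, `ker_tail`. -/
theorem En_BV {d : ℕ} {s β : ℝ} (hd : 1 ≤ d) (hs0 : 0 < s) (hs1 : s < 1) (hβ : 0 < β) (hβ' : 1 - 2 * s < β)
    {u : E d → ℝ} (hu : ContDiff ℝ 1 u) (hB1 : ∀ x, |u x| ≤ 1) (hH : HolU s u) :
    ∃ C : ℝ, 0 ≤ C ∧ ∀ R : ℝ, 1 ≤ R → En d s u R ≤ C * (R ^ β * BV u (2 * R) + R ^ ((d : ℝ) - 2 * s)) := by
  obtain ⟨a, C', ha, ha1, hC'⟩ := hH
  set C : ℝ := |C'| with hCdef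
  have hC0 : 0 ≤ C := abs_nonneg _
  have hC : ∀ x y, |u x - u y| ≤ C * ‖x - y‖ ^ a := fun x y =>
    (hC' x y).trans (mul_le_mul_of_nonneg_right (le_abs_self _) (by positivity))
  have hL : LocLip u := LocLip.of_contDiff hu
  have ha0 : 0 < a := by linarith
  -- moments
  have hm1 := nc_int hd hs0 (p := 1 + a) (by linarith)
  set M1 : ℝ := ∫ h : E d, min 1 (‖h‖ ^ (1 + a)) * K d s h with hM1
  have hM10 : 0 ≤ M1 := integral_nonneg (fun h => mul_nonneg (by positivity) (ker_nonneg h))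
  obtain ⟨C2, hC2, h2⟩ := ker_first (d := d) (β := β) hd hs0 hβ hβ'
  obtain ⟨C3, hC3, h3⟩ := ker_tail (d := d) (s := s) hd hs0
  set V : ℝ := (volume : Measure (E d)).real (Metric.closedBall (0 : E d) 1) with hV
  have hV0 : 0 ≤ V := measureReal_nonneg
  refine ⟨C * M1 + 2 * C2 + 4 * V * C3, by positivity, fun R hR => ?_⟩
  have hR0 : 0 < R := by linarith
  obtain ⟨e1, e2⟩ := En_shear hd hs0 hs1 hL hB1 R
  have hvol : (volume : Measure (E d)).real (Metric.closedBall (0 : E d) R) = R ^ (d : ℝ) * V := nc_vol (by linarith)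
  have hBV0 : 0 ≤ BV u (2 * R) := integral_nonneg (fun x => norm_nonneg _)
  have hI0 : ∀ h : E d, 0 ≤ ∫ x in Metric.closedBall (0 : E d) R, (u (x + h) - u x) ^ 2 :=
    fun h => integral_nonneg (fun x => sq_nonneg _)
  have hcont := hu.continuous
  have hint1 : ∀ h : E d, IntegrableOn (fun x => (u (x + h) - u x) ^ 2) (Metric.closedBall (0 : E d) R) := by
    intro h
    have hc : Continuous (fun x => (u (x + h) - u x) ^ 2) := by fun_prop
    exact hc.continuousOn.integrableOn_compact (isCompact_closedBall _ _)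
  have hint2 : ∀ h : E d, IntegrableOn (fun x => |u (x + h) - u x|) (Metric.closedBall (0 : E d) R) := by
    intro h
    have hc : Continuous (fun x => |u (x + h) - u x|) := by fun_prop
    exact hc.continuousOn.integrableOn_compact (isCompact_closedBall _ _)
  have habs2 : ∀ x h : E d, |u (x + h) - u x| ≤ 2 := by
    intro x h
    have := abs_sub (u (x + h)) (u x)
    have g1 := hB1 (x + h)
    have g2 := hB1 x
    linarith
  -- three regions
  have r1 : ∀ h : E d, ‖h‖ ≤ 1 → ∫ x in Metric.closedBall (0 : E d) R, (u (x + h) - u x) ^ 2 ≤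
      C * BV u (2 * R) * min 1 (‖h‖ ^ (1 + a)) := by
    intro h hh
    have g1 : ∫ x in Metric.closedBall (0 : E d) R, (u (x + h) - u x) ^ 2 ≤
        ∫ x in Metric.closedBall (0 : E d) R, (C * ‖h‖ ^ a) * |u (x + h) - u x| := by
      refine setIntegral_mono (hint1 h) ((hint2 h).const_mul _) (fun x => ?_)
      have g2 : |u (x + h) - u x| ≤ C * ‖h‖ ^ a := by
        have := hC (x + h) x
        rwa [add_sub_cancel_left] at this
      show (u (x + h) - u x) ^ 2 ≤ (C * ‖h‖ ^ a) * |u (x + h) - u x|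
      rw [← sq_abs, sq]
      exact mul_le_mul_of_nonneg_right g2 (abs_nonneg _)
    rw [integral_const_mul] at g1
    have g3 := l1_trans hu hR0 (h := h) (by linarith)
    have g4 : min 1 (‖h‖ ^ (1 + a)) = ‖h‖ * ‖h‖ ^ a := by
      have g5 : ‖h‖ ^ (1 + a) ≤ 1 := Real.rpow_le_one (norm_nonneg _) hh (by linarith)
      rw [min_eq_right g5]
      rcases eq_or_lt_of_le (norm_nonneg h) with g6 | g6
      · rw [← g6, Real.zero_rpow (by linarith), zero_mul]
      · rw [Real.rpow_add g6, Real.rpow_one]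
    rw [g4]
    calc ∫ x in Metric.closedBall (0 : E d) R, (u (x + h) - u x) ^ 2
        ≤ C * ‖h‖ ^ a * ∫ x in Metric.closedBall (0 : E d) R, |u (x + h) - u x| := g1
      _ ≤ C * ‖h‖ ^ a * (‖h‖ * BV u (2 * R)) := mul_le_mul_of_nonneg_left g3 (by positivity)
      _ = C * BV u (2 * R) * (‖h‖ * ‖h‖ ^ a) := by ring
  have r2 : ∀ h : E d, ‖h‖ ≤ R → ∫ x in Metric.closedBall (0 : E d) R, (u (x + h) - u x) ^ 2 ≤
      2 * BV u (2 * R) * ‖h‖ := by
    intro h hh
    have g1 : ∫ x in Metric.closedBall (0 : E d) R, (u (x + h) - u x) ^ 2 ≤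
        ∫ x in Metric.closedBall (0 : E d) R, 2 * |u (x + h) - u x| := by
      refine setIntegral_mono (hint1 h) ((hint2 h).const_mul _) (fun x => ?_)
      show (u (x + h) - u x) ^ 2 ≤ 2 * |u (x + h) - u x|
      rw [← sq_abs, sq]
      exact mul_le_mul_of_nonneg_right (habs2 x h) (abs_nonneg _)
    rw [integral_const_mul] at g1
    have g3 := l1_trans hu hR0 (h := h) hh
    linarith
  have r3 : ∀ h : E d, ∫ x in Metric.closedBall (0 : E d) R, (u (x + h) - u x) ^ 2 ≤ 4 * (R ^ (d : ℝ) * V) := by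
    intro h
    rw [← hvol]
    refine nc_bd (fun x => ?_) hcont h R rfl
    rw [← sq_abs]
    nlinarith [abs_nonneg (u (x + h) - u x), habs2 x h]
  have hmb : MeasurableSet {h : E d | 1 < ‖h‖ ∧ ‖h‖ ≤ R} :=
    (measurableSet_lt measurable_const measurable_norm).inter (measurableSet_le measurable_norm measurable_const)
  have hmc : MeasurableSet {h : E d | R < ‖h‖} := measurableSet_lt measurable_const measurable_norm
  have i2 : Integrable (({h : E d | 1 < ‖h‖ ∧ ‖h‖ ≤ R}).indicator (fun h => ‖h‖ * K d s h)) :=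
    (h2 R hR).1.integrable_indicator hmb
  have i3 : Integrable (({h : E d | R < ‖h‖}).indicator (K d s)) :=
    (h3 R hR0).1.integrable_indicator hmc
  have hbound : ∀ h : E d, K d s h * ∫ x in Metric.closedBall (0 : E d) R, (u (x + h) - u x) ^ 2 ≤
      (C * BV u (2 * R)) * (min 1 (‖h‖ ^ (1 + a)) * K d s h) +
      (2 * BV u (2 * R)) * ({h : E d | 1 < ‖h‖ ∧ ‖h‖ ≤ R}).indicator (fun h => ‖h‖ * K d s h) h +
      (4 * (R ^ (d : ℝ) * V)) * ({h : E d | R < ‖h‖}).indicator (K d s) h := by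
    intro h
    have hk := ker_nonneg (s := s) h
    have p1 : 0 ≤ (C * BV u (2 * R)) * (min 1 (‖h‖ ^ (1 + a)) * K d s h) := by positivity
    have p2 : 0 ≤ (2 * BV u (2 * R)) * ({h : E d | 1 < ‖h‖ ∧ ‖h‖ ≤ R}).indicator (fun h => ‖h‖ * K d s h) h := by
      refine mul_nonneg (by positivity) (indicator_nonneg (fun x _ => ?_) _)
      exact mul_nonneg (norm_nonneg _) (ker_nonneg x)
    have p3 : 0 ≤ (4 * (R ^ (d : ℝ) * V)) * ({h : E d | R < ‖h‖}).indicator (K d s) h := by
      refine mul_nonneg (by positivity) (indicator_nonneg (fun x _ => ker_nonneg x) _)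
    rcases le_or_gt ‖h‖ 1 with q1 | q1
    · have := mul_le_mul_of_nonneg_left (r1 h q1) hk
      have e4 : K d s h * (C * BV u (2 * R) * min 1 (‖h‖ ^ (1 + a))) =
        (C * BV u (2 * R)) * (min 1 (‖h‖ ^ (1 + a)) * K d s h) := by ring
      linarith
    · rcases le_or_gt ‖h‖ R with q2 | q2
      · have := mul_le_mul_of_nonneg_left (r2 h q2) hk
        have e4 : ({h : E d | 1 < ‖h‖ ∧ ‖h‖ ≤ R}).indicator (fun h => ‖h‖ * K d s h) h = ‖h‖ * K d s h :=
          indicator_of_mem (show h ∈ {h : E d | 1 < ‖h‖ ∧ ‖h‖ ≤ R} from ⟨q1, q2⟩) _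
        rw [e4] at p2 ⊢
        have e5 : K d s h * (2 * BV u (2 * R) * ‖h‖) = (2 * BV u (2 * R)) * (‖h‖ * K d s h) := by ring
        linarith
      · have := mul_le_mul_of_nonneg_left (r3 h) hk
        have e4 : ({h : E d | R < ‖h‖}).indicator (K d s) h = K d s h :=
          indicator_of_mem (show h ∈ {h : E d | R < ‖h‖} from q2) _
        rw [e4] at p3 ⊢
        have e5 : K d s h * (4 * (R ^ (d : ℝ) * V)) = (4 * (R ^ (d : ℝ) * V)) * K d s h := by ring
        linarith
  have htot : En d s u R ≤ (C * BV u (2 * R)) * M1 + (2 * BV u (2 * R)) * (C2 * R ^ β) +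
      (4 * (R ^ (d : ℝ) * V)) * (C3 * R ^ (-(2 * s))) := by
    rw [e2]
    have k1 := hm1.const_mul (C * BV u (2 * R))
    have k2 := i2.const_mul (2 * BV u (2 * R))
    have k3 := i3.const_mul (4 * (R ^ (d : ℝ) * V))
    refine (integral_mono e1 ((k1.add k2).add k3) hbound).trans ?_
    have hsum : ∫ h : E d, ((C * BV u (2 * R)) * (min 1 (‖h‖ ^ (1 + a)) * K d s h) +
        (2 * BV u (2 * R)) * ({h : E d | 1 < ‖h‖ ∧ ‖h‖ ≤ R}).indicator (fun h => ‖h‖ * K d s h) h +
        (4 * (R ^ (d : ℝ) * V)) * ({h : E d | R < ‖h‖}).indicator (K d s) h) =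
        (C * BV u (2 * R)) * M1 + (2 * BV u (2 * R)) * (∫ h in {h : E d | 1 < ‖h‖ ∧ ‖h‖ ≤ R}, ‖h‖ * K d s h) +
        (4 * (R ^ (d : ℝ) * V)) * (∫ h in {h : E d | R < ‖h‖}, K d s h) := by
      have k12 : Integrable (fun h : E d => (C * BV u (2 * R)) * (min 1 (‖h‖ ^ (1 + a)) * K d s h) +
        (2 * BV u (2 * R)) * ({h : E d | 1 < ‖h‖ ∧ ‖h‖ ≤ R}).indicator (fun h => ‖h‖ * K d s h) h) := k1.add k2
      rw [integral_add k12 k3, integral_add k1 k2, integral_const_mul, integral_const_mul,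
        integral_const_mul, integral_indicator hmb, integral_indicator hmc]
    refine (le_of_eq hsum).trans ?_
    have q1 := (h2 R hR).2
    have q2 := (h3 R hR0).2
    rw [q2]
    have q3 := mul_le_mul_of_nonneg_left q1 (show 0 ≤ 2 * BV u (2 * R) by positivity)
    linarith
  have hRβ : 1 ≤ R ^ β := Real.one_le_rpow hR hβ.le
  have hRd : R ^ (d : ℝ) * R ^ (-(2 * s)) = R ^ ((d : ℝ) - 2 * s) := by
    rw [← Real.rpow_add hR0]
    congr 1
  have hRp : 0 ≤ R ^ ((d : ℝ) - 2 * s) := by positivity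
  have t1 : (C * BV u (2 * R)) * M1 ≤ C * M1 * (R ^ β * BV u (2 * R)) := by
    have : BV u (2 * R) ≤ R ^ β * BV u (2 * R) := by nlinarith
    have h5 := mul_le_mul_of_nonneg_left this (show 0 ≤ C * M1 by positivity)
    linarith
  have t3 : (4 * (R ^ (d : ℝ) * V)) * (C3 * R ^ (-(2 * s))) = 4 * V * C3 * R ^ ((d : ℝ) - 2 * s) := by
    rw [← hRd]
    ring
  have t4 : 0 ≤ R ^ β * BV u (2 * R) := by positivity
  calc En d s u R ≤ (C * BV u (2 * R)) * M1 + (2 * BV u (2 * R)) * (C2 * R ^ β) +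
      (4 * (R ^ (d : ℝ) * V)) * (C3 * R ^ (-(2 * s))) := htot
    _ ≤ C * M1 * (R ^ β * BV u (2 * R)) + 2 * C2 * (R ^ β * BV u (2 * R)) +
        4 * V * C3 * R ^ ((d : ℝ) - 2 * s) := by
        rw [t3]
        linarith
    _ ≤ (C * M1 + 2 * C2 + 4 * V * C3) * (R ^ β * BV u (2 * R) + R ^ ((d : ℝ) - 2 * s)) := by
        have u1 : 0 ≤ C * M1 := by positivity
        have u2 : 0 ≤ 4 * V * C3 := by positivity
        nlinarith [mul_nonneg u1 hRp, mul_nonneg hC2.le hRp, mul_nonneg u2 t4]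

/-- MODULE ne. The inequality for one direction, `w = D_e u`, `θ = θ_R`: `sz` with `n = 1`, `ξ = 1`, and `mix_th`. -/
theorem one_dir {d : ℕ} {s c : ℝ} (hd : 1 ≤ d) (hs0 : 0 < s) (hs1 : s < 1) (hc : 0 < c) :
    ∃ C : ℝ, 0 ≤ C ∧ ∀ u : E d → ℝ, Entire d s c u → Stable d s c u → ∀ e : E d, ‖e‖ ≤ 1 → ∀ R : ℝ, 0 < R →
      Integrable (fun p : E d × E d => (|fderiv ℝ u p.1 e| * |fderiv ℝ u p.2 e| - fderiv ℝ u p.1 e * fderiv ℝ u p.2 e) *
        (th R p.1 * th R p.2) * K d s (p.1 - p.2)) ∧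
      ∫ p : E d × E d, (|fderiv ℝ u p.1 e| * |fderiv ℝ u p.2 e| - fderiv ℝ u p.1 e * fderiv ℝ u p.2 e) *
        (th R p.1 * th R p.2) * K d s (p.1 - p.2) ≤ C * R ^ (-(2 : ℝ)) * En d s u (2 * R) := by
  obtain ⟨C, hC0, hC⟩ := mix_th (d := d) (s := s) hd hs0 hs1
  refine ⟨C / 4, by positivity, fun u hu hst e he R hR => ?_⟩
  have hL : LocLip u := hu.locLip
  have hB1 : ∀ x, |u x| ≤ 1 := fun x => (hu.bound x).le
  have hth := th_facts (d := d) hR
  have hθ2 : ContDiff ℝ 2 (th R : E d → ℝ) := hth.1 2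
  have hTest : Test (th R : E d → ℝ) := by
    refine ⟨?_, hth.2.1⟩
    obtain ⟨L, -, hL'⟩ := th_grad d
    have h1 : ∀ x y : E d, |th R x - th R y| ≤ L / R * ‖x - y‖ := fun x y => (hL' R hR x).2.2.2 y
    refine ⟨(L / R).toNNReal, LipschitzWith.of_dist_le_mul (fun x y => ?_)⟩
    rw [Real.dist_eq, dist_eq_norm]
    refine (h1 x y).trans (mul_le_mul_of_nonneg_right (Real.le_coe_toNNReal _) (norm_nonneg _))
  have hν : ∀ i : Fin 1, ‖(fun _ : Fin 1 => e) i‖ ≤ 1 := fun _ => he
  have hwv : ∀ x : E d, ‖wv (fun _ : Fin 1 => e) u x‖ = |fderiv ℝ u x e| := by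
    intro x
    rw [EuclideanSpace.norm_eq]
    simp [wv, Real.sqrt_sq_eq_abs]
  have hin : ∀ x y : E d, inner ℝ (wv (fun _ : Fin 1 => e) u x) (wv (fun _ : Fin 1 => e) u y) =
      fderiv ℝ u x e * fderiv ℝ u y e := by
    intro x y
    simp [wv, PiLp.inner_apply, mul_comm]
  constructor
  · have h1 := (lhs_lim (n := 1) hd hs0 hs1 hu.smooth hν hTest).1
    refine h1.congr (Filter.Eventually.of_forall (fun p => ?_))
    simp only [hwv, hin]
  · have h2 := sz (n := 1) hd hs0 hs1 hc hu hst hν (ξ := fun _ => 1) contDiff_const hθ2 hth.2.1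
    simp only [hwv, hin, one_mul, sub_self, one_pow, Finset.univ_unique, Finset.sum_singleton,
      Fin.default_eq_zero] at h2
    have h3 := hC u hL hB1 e he R hR
    have h4 : ∫ p : E d × E d, fderiv ℝ u p.1 e * fderiv ℝ u p.2 e * (th R p.1 * th R p.2 * 0 ^ 2) *
        K d s (p.1 - p.2) = 0 := by
      simp
    rw [h4] at h2
    have h5 := neg_abs_le (∫ p : E d × E d, (u p.1 - u p.2) ^ 2 * mix d s (th R) (th R) e p.1 p.2)
    refine h2.trans ?_
    have h6 : C / 4 * R ^ (-(2:ℝ)) * En d s u (2 * R) = (1 / 4) * (C * R ^ (-(2:ℝ)) * En d s u (2 * R)) := by ring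
    rw [h6]
    linarith

private theorem nf_null {d : ℕ} (hd : 1 ≤ d) : ∀ᵐ p : E d × E d, p.1 ≠ p.2 := by
  have : Nonempty (Fin d) := ⟨⟨0, hd⟩⟩
  have hm : MeasurableSet {p : E d × E d | p.1 = p.2} :=
    (isClosed_eq continuous_fst continuous_snd).measurableSet
  rw [ae_iff]
  have e : {p : E d × E d | ¬ p.1 ≠ p.2} = {p : E d × E d | p.1 = p.2} := by
    ext p; simp
  rw [e, Measure.volume_eq_prod, Measure.measure_prod_null hm]
  refine Filter.Eventually.of_forall fun x => ?_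
  have : Prod.mk x ⁻¹' {p : E d × E d | p.1 = p.2} ⊆ {x} := by
    intro y hy
    simp only [mem_preimage, mem_ofPred_eq] at hy
    rw [mem_singleton_iff, hy]
  exact measure_mono_null this (measure_singleton _)

/-- MODULE nf. `(∫ w⁺ θ) (∫ w⁻ θ) ≤ C R^(d+2s-2) E(2R)`: on the support of `θ θ'` `K ≥ (4R)^(-d-2s)` off the diagonal, and
`|w||w'| - ww' = 2 (w⁺w'⁻ + w⁻w'⁺)`. -/
theorem pm_prod {d : ℕ} {s c : ℝ} (hd : 1 ≤ d) (hs0 : 0 < s) (hs1 : s < 1) (hc : 0 < c) :
    ∃ C : ℝ, 0 ≤ C ∧ ∀ u : E d → ℝ, Entire d s c u → Stable d s c u → ∀ e : E d, ‖e‖ ≤ 1 → ∀ R : ℝ, 0 < R →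
      (∫ x, max (fderiv ℝ u x e) 0 * th R x) * (∫ x, max (-fderiv ℝ u x e) 0 * th R x) ≤
        C * R ^ ((d : ℝ) + 2 * s - 2) * En d s u (2 * R) := by
  obtain ⟨C, hC0, hC⟩ := one_dir (s := s) hd hs0 hs1 hc
  refine ⟨C / 4 * 4 ^ ((d : ℝ) + 2 * s), by positivity, fun u hu hst e he R hR => ?_⟩
  obtain ⟨i1, h1⟩ := hC u hu hst e he R hR
  obtain ⟨t1, t2, t3, t4, t5⟩ := th_facts (d := d) hR
  have htc : Continuous (th R : E d → ℝ) := (t1 0).continuous
  have hwc : Continuous (fun x => fderiv ℝ u x e) :=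
    (hu.smooth.continuous_fderiv (by norm_num)).clm_apply continuous_const
  set w : E d → ℝ := fun x => fderiv ℝ u x e with hw
  set f : E d → ℝ := fun x => max (w x) 0 * th R x with hf
  set g : E d → ℝ := fun x => max (-w x) 0 * th R x with hg
  have hfi : Integrable f := (show Continuous f by fun_prop).integrable_of_hasCompactSupport t2.mul_left
  have hgi : Integrable g := (show Continuous g by fun_prop).integrable_of_hasCompactSupport t2.mul_left
  have m1 : ∫ p : E d × E d, f p.1 * g p.2 = (∫ x, f x) * ∫ x, g x := by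
    rw [Measure.volume_eq_prod]
    exact integral_prod_mul f g
  have m2 : ∫ p : E d × E d, g p.1 * f p.2 = (∫ x, g x) * ∫ x, f x := by
    rw [Measure.volume_eq_prod]
    exact integral_prod_mul g f
  have j1 : Integrable (fun p : E d × E d => f p.1 * g p.2) := by
    rw [Measure.volume_eq_prod]
    exact hfi.mul_prod hgi
  have j2 : Integrable (fun p : E d × E d => g p.1 * f p.2) := by
    rw [Measure.volume_eq_prod]
    exact hgi.mul_prod hfi
  have hf0 : ∀ x, 0 ≤ f x := fun x => mul_nonneg (le_max_right _ _) (t3 x).1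
  have hg0 : ∀ x, 0 ≤ g x := fun x => mul_nonneg (le_max_right _ _) (t3 x).1
  have key : (4 * R) ^ (-((d : ℝ) + 2 * s)) * (2 * (∫ p : E d × E d, f p.1 * g p.2) +
      2 * ∫ p : E d × E d, g p.1 * f p.2) ≤ ∫ p : E d × E d, (|w p.1| * |w p.2| - w p.1 * w p.2) *
        (th R p.1 * th R p.2) * K d s (p.1 - p.2) := by
    rw [← integral_const_mul, ← integral_const_mul, ← integral_add (j1.const_mul 2) (j2.const_mul 2),
      ← integral_const_mul]
    refine integral_mono_ae (((j1.const_mul 2).add (j2.const_mul 2)).const_mul _) i1 ?_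
    filter_upwards [nf_null hd] with p hp
    have e1 : (|w p.1| * |w p.2| - w p.1 * w p.2) * (th R p.1 * th R p.2) =
        2 * (f p.1 * g p.2) + 2 * (g p.1 * f p.2) := by
      have a1 : |w p.1| = max (w p.1) 0 + max (-w p.1) 0 := by
        rcases le_total 0 (w p.1) with h | h
        · rw [abs_of_nonneg h, max_eq_left h, max_eq_right (by linarith), add_zero]
        · rw [abs_of_nonpos h, max_eq_right h, max_eq_left (by linarith), zero_add]
      have a2 : |w p.2| = max (w p.2) 0 + max (-w p.2) 0 := by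
        rcases le_total 0 (w p.2) with h | h
        · rw [abs_of_nonneg h, max_eq_left h, max_eq_right (by linarith), add_zero]
        · rw [abs_of_nonpos h, max_eq_right h, max_eq_left (by linarith), zero_add]
      have b1 : w p.1 = max (w p.1) 0 - max (-w p.1) 0 := by
        rcases le_total 0 (w p.1) with h | h
        · rw [max_eq_left h, max_eq_right (by linarith), sub_zero]
        · rw [max_eq_right h, max_eq_left (by linarith)]; ring
      have b2 : w p.2 = max (w p.2) 0 - max (-w p.2) 0 := by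
        rcases le_total 0 (w p.2) with h | h
        · rw [max_eq_left h, max_eq_right (by linarith), sub_zero]
        · rw [max_eq_right h, max_eq_left (by linarith)]; ring
      simp only [hf, hg]
      rw [a1, a2]
      generalize hA : max (w p.1) 0 = A at *
      generalize hB : max (-w p.1) 0 = B at *
      generalize hA' : max (w p.2) 0 = A' at *
      generalize hB' : max (-w p.2) 0 = B' at *
      rw [b1, b2]
      ring
    rw [e1]
    have hn : 0 ≤ 2 * (f p.1 * g p.2) + 2 * (g p.1 * f p.2) := by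
      have := mul_nonneg (hf0 p.1) (hg0 p.2)
      have := mul_nonneg (hg0 p.1) (hf0 p.2)
      linarith
    rw [mul_comm ((4 * R) ^ _)]
    by_cases hx : ‖p.1‖ < 2 * R
    · by_cases hy : ‖p.2‖ < 2 * R
      · refine mul_le_mul_of_nonneg_left ?_ hn
        exact K_anti hs0 (sub_ne_zero.2 hp) ((norm_sub_le _ _).trans (by linarith))
      · have z : th R p.2 = 0 := t5 p.2 (not_lt.1 hy)
        simp only [hf, hg]
        rw [z]
        simp
    · have z : th R p.1 = 0 := t5 p.1 (not_lt.1 hx)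
      simp only [hf, hg]
      rw [z]
      simp
  have key2 := key.trans h1
  rw [m1, m2] at key2
  have hR4 : 0 < 4 * R := by positivity
  have e3 : (4 * R) ^ ((d : ℝ) + 2 * s) * (4 * R) ^ (-((d : ℝ) + 2 * s)) = 1 := by
    rw [← Real.rpow_add hR4, add_neg_cancel, Real.rpow_zero]
  have hp0 : 0 < (4 * R) ^ ((d : ℝ) + 2 * s) := Real.rpow_pos_of_pos hR4 _
  have key3 := mul_le_mul_of_nonneg_left key2 hp0.le
  have e4 : (4 * R) ^ ((d : ℝ) + 2 * s) * ((4 * R) ^ (-((d : ℝ) + 2 * s)) *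
      (2 * ((∫ x, f x) * ∫ x, g x) + 2 * ((∫ x, g x) * ∫ x, f x))) = 4 * ((∫ x, f x) * ∫ x, g x) := by
    rw [← mul_assoc, e3]
    ring
  have e5 : (4 * R) ^ ((d : ℝ) + 2 * s) * (C * R ^ (-(2 : ℝ)) * En d s u (2 * R)) =
      4 * (C / 4 * 4 ^ ((d : ℝ) + 2 * s) * R ^ ((d : ℝ) + 2 * s - 2) * En d s u (2 * R)) := by
    rw [Real.mul_rpow (by norm_num) hR.le, show (d : ℝ) + 2 * s - 2 = ((d : ℝ) + 2 * s) + (-2) by ring,
      Real.rpow_add hR ((d : ℝ) + 2 * s) (-2)]
    ring
  rw [e4, e5] at key3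
  linarith

/-- MODULE ng. `|∫ w θ_R| = |∫ u D_e θ_R| ≤ C R^(d-1)` (integration by parts, `integral_mul_fderiv_eq_neg_fderiv_mul_of_integrable`;
`th_grad`, volume of the ball). -/
theorem pm_diff {d : ℕ} (hd : 1 ≤ d) : ∃ C : ℝ, 0 ≤ C ∧ ∀ u : E d → ℝ, ContDiff ℝ 1 u → (∀ x, |u x| ≤ 1) →
    ∀ e : E d, ‖e‖ ≤ 1 → ∀ R : ℝ, 0 < R → |∫ x, fderiv ℝ u x e * th R x| ≤ C * R ^ ((d : ℝ) - 1) := by
  obtain ⟨C, hC0, hC⟩ := th_grad d
  refine ⟨C * (2 ^ d * volume.real (Metric.ball (0 : E d) 1)), by positivity, fun u hu hB e he R hR => ?_⟩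
  obtain ⟨t1, t2, t3, t4, t5⟩ := th_facts (d := d) hR
  have ht1 : ContDiff ℝ 1 (th R : E d → ℝ) := by exact_mod_cast t1 1
  have htc : Continuous (th R : E d → ℝ) := (t1 0).continuous
  have hwc : Continuous (fun x => fderiv ℝ u x e) :=
    (hu.continuous_fderiv (by norm_num)).clm_apply continuous_const
  have hdc : Continuous (fun x => fderiv ℝ (th R : E d → ℝ) x e) :=
    (ht1.continuous_fderiv (by norm_num)).clm_apply continuous_const
  have hds : HasCompactSupport (fun x => fderiv ℝ (th R : E d → ℝ) x e) :=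
    (t2.fderiv (𝕜 := ℝ)).comp_left (g := fun L : E d →L[ℝ] ℝ => L e) rfl
  have huc := hu.continuous
  have ibp := integral_mul_fderiv_eq_neg_fderiv_mul_of_integrable (μ := (volume : Measure (E d)))
    (f := u) (g := th R) (v := e)
    ((show Continuous (fun x => fderiv ℝ u x e * th R x) by fun_prop).integrable_of_hasCompactSupport t2.mul_left)
    ((show Continuous (fun x => u x * fderiv ℝ (th R : E d → ℝ) x e) by fun_prop).integrable_of_hasCompactSupport hds.mul_left)
    ((show Continuous (fun x => u x * th R x) by fun_prop).integrable_of_hasCompactSupport t2.mul_left)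
    (fun x _ => hu.differentiable (by norm_num) x) (fun x _ => ht1.differentiable (by norm_num) x)
  have e1 : |∫ x, fderiv ℝ u x e * th R x| = |∫ x, u x * fderiv ℝ (th R : E d → ℝ) x e| := by
    rw [ibp, abs_neg]
  rw [e1]
  have hb : ∀ x : E d, |u x * fderiv ℝ (th R : E d → ℝ) x e| ≤
      (Metric.closedBall (0 : E d) (2 * R)).indicator (fun _ => C / R) x := by
    intro x
    by_cases hx : ‖x‖ ≤ 2 * R
    · rw [Set.indicator_of_mem (by simpa using hx), abs_mul]
      have h1 := (hC R hR x).1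
      have h2 : |fderiv ℝ (th R : E d → ℝ) x e| ≤ C / R * 1 := by
        rw [← Real.norm_eq_abs]
        exact (ContinuousLinearMap.le_opNorm _ _).trans (mul_le_mul h1 he (norm_nonneg _) (by positivity))
      calc |u x| * |fderiv ℝ (th R : E d → ℝ) x e| ≤ 1 * (C / R * 1) := by
            gcongr
            exact hB x
        _ = C / R := by ring
    · rw [Set.indicator_of_notMem (by simpa using hx), (hC R hR x).2.2.1 (not_le.1 hx)]
      simp
  have hi : Integrable ((Metric.closedBall (0 : E d) (2 * R)).indicator (fun _ => C / R)) :=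
    (integrable_indicator_iff Metric.isClosed_closedBall.measurableSet).2
      (integrableOn_const measure_closedBall_lt_top.ne enorm_ne_top)
  have h3 : |∫ x, u x * fderiv ℝ (th R : E d → ℝ) x e| ≤
      ∫ x, (Metric.closedBall (0 : E d) (2 * R)).indicator (fun _ => C / R) x := by
    rw [← Real.norm_eq_abs]
    exact norm_integral_le_of_norm_le hi (Filter.Eventually.of_forall fun x => by
      rw [Real.norm_eq_abs]; exact hb x)
  refine h3.trans (le_of_eq ?_)
  rw [integral_indicator Metric.isClosed_closedBall.measurableSet, setIntegral_const, smul_eq_mul]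
  have hv : volume.real (Metric.closedBall (0 : E d) (2 * R)) = (2 * R) ^ d * volume.real (Metric.ball (0 : E d) 1) := by
    unfold Measure.real
    rw [Measure.addHaar_closedBall _ _ (by positivity), ENNReal.toReal_mul, ENNReal.toReal_ofReal (by positivity),
      finrank_euclideanSpace, Fintype.card_fin]
  rw [hv, Real.rpow_sub hR, Real.rpow_one, Real.rpow_natCast, mul_pow]
  field_simp

private theorem nh_norm {d : ℕ} (L : E d →L[ℝ] ℝ) : ‖L‖ ≤ ∑ i : Fin d, |L (EuclideanSpace.single i 1)| := by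
  refine ContinuousLinearMap.opNorm_le_bound _ (by positivity) fun v => ?_
  have h1 : L v = ∑ i : Fin d, v i * L (EuclideanSpace.single i 1) := by
    conv_lhs => rw [← (EuclideanSpace.basisFun (Fin d) ℝ).sum_repr v]
    rw [map_sum]
    refine Finset.sum_congr rfl fun i _ => ?_
    rw [map_smul, smul_eq_mul]
    simp
  rw [Real.norm_eq_abs, h1, Finset.sum_mul]
  refine (Finset.abs_sum_le_sum_abs _ _).trans (Finset.sum_le_sum fun i _ => ?_)
  rw [abs_mul, mul_comm]
  exact mul_le_mul_of_nonneg_left (by simpa using PiLp.norm_apply_le v i) (abs_nonneg _)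

private theorem nh_cmp {x y P D : ℝ} (hx : 0 ≤ x) (hy : 0 ≤ y) (hP : x * y ≤ P) (hD : |x - y| ≤ D) :
    x + y ≤ D + 2 * √P := by
  have h0 : 0 ≤ D := (abs_nonneg _).trans hD
  have hP0 : 0 ≤ P := (mul_nonneg hx hy).trans hP
  have h1 := Real.sq_sqrt hP0
  have h2 := Real.sqrt_nonneg P
  have h3 : (x - y) ^ 2 ≤ D ^ 2 := sq_le_sq' (by linarith [(abs_le.mp hD).1]) (abs_le.mp hD).2
  have h4 : (x + y) ^ 2 ≤ (D + 2 * √P) ^ 2 := by nlinarith
  exact le_of_sq_le_sq h4 (by positivity)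

/-- MODULE nh. `BV(R) ≤ C (R^(d-1) + R^((d+2s-2)/2) E(2R)^(1/2))`: `‖Du‖ ≤ ∑ |D_i u|`; for each `i`, `a = ∫ w⁺θ`, `b = ∫ w⁻θ`,
`a + b ≤ |a - b| + 2 √(ab)`. -/
theorem BV_le {d : ℕ} {s c : ℝ} (hd : 1 ≤ d) (hs0 : 0 < s) (hs1 : s < 1) (hc : 0 < c) :
    ∃ C : ℝ, 0 ≤ C ∧ ∀ u : E d → ℝ, Entire d s c u → Stable d s c u → ∀ R : ℝ, 0 < R →
      BV u R ≤ C * (R ^ ((d : ℝ) - 1) + R ^ (((d : ℝ) + 2 * s - 2) / 2) * √(En d s u (2 * R))) := by
  obtain ⟨C₁, hC₁, hprod⟩ := pm_prod (d := d) hd hs0 hs1 hc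
  obtain ⟨C₂, hC₂, hdiff⟩ := pm_diff (d := d) hd
  refine ⟨d * (C₂ + 2 * √C₁), by positivity, ?_⟩
  intro u hu hst R hR
  have hB1 : ∀ x, |u x| ≤ 1 := fun x => (hu.bound x).le
  obtain ⟨hf1, hf2, hf3, hf4, hf5⟩ := th_facts (d := d) hR
  have hthc : Continuous (th R : E d → ℝ) := (hf1 0).continuous
  have hdu : Continuous (fderiv ℝ u) := hu.smooth.continuous_fderiv (by norm_num)
  have hE0 : 0 ≤ En d s u (2 * R) := (En_facts hd hs0 hs1 hu.locLip hB1).2.1 _
  -- one direction
  have hone : ∀ i : Fin d, Integrable (fun x => |fderiv ℝ u x (EuclideanSpace.single i 1)| * th R x) ∧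
      ∫ x, |fderiv ℝ u x (EuclideanSpace.single i 1)| * th R x ≤
        (C₂ + 2 * √C₁) * (R ^ ((d : ℝ) - 1) + R ^ (((d : ℝ) + 2 * s - 2) / 2) * √(En d s u (2 * R))) := by
    intro i
    set e : E d := EuclideanSpace.single i 1 with he
    have hen : ‖e‖ ≤ 1 := by rw [he, EuclideanSpace.norm_single]; simp
    have hw : Continuous (fun x => fderiv ℝ u x e) := hdu.clm_apply continuous_const
    have ip : Integrable (fun x => max (fderiv ℝ u x e) 0 * th R x) :=
      ((hw.max continuous_const).mul hthc).integrable_of_hasCompactSupport hf2.mul_left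
    have im : Integrable (fun x => max (-fderiv ℝ u x e) 0 * th R x) :=
      ((hw.neg.max continuous_const).mul hthc).integrable_of_hasCompactSupport hf2.mul_left
    have hsum : ∀ x, |fderiv ℝ u x e| * th R x = max (fderiv ℝ u x e) 0 * th R x + max (-fderiv ℝ u x e) 0 * th R x := by
      intro x
      rw [← add_mul]
      congr 1
      rcases le_total 0 (fderiv ℝ u x e) with h | h
      · rw [abs_of_nonneg h, max_eq_left h, max_eq_right (by linarith), add_zero]
      · rw [abs_of_nonpos h, max_eq_right h, max_eq_left (by linarith), zero_add]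
    have hdif : ∀ x, fderiv ℝ u x e * th R x = max (fderiv ℝ u x e) 0 * th R x - max (-fderiv ℝ u x e) 0 * th R x := by
      intro x
      rw [← sub_mul]
      congr 1
      rcases le_total 0 (fderiv ℝ u x e) with h | h
      · rw [max_eq_left h, max_eq_right (by linarith), sub_zero]
      · rw [max_eq_right h, max_eq_left (by linarith)]; ring
    have h1 := hprod u hu hst e hen R hR
    have h2 := hdiff u (hu.smooth.of_le (by norm_num)) hB1 e hen R hR
    rw [integral_congr_ae (Eventually.of_forall hdif), integral_sub ip im] at h2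
    constructor
    · exact (ip.add im).congr (Eventually.of_forall fun x => (hsum x).symm)
    · rw [integral_congr_ae (Eventually.of_forall hsum), integral_add ip im]
      have h3 := nh_cmp (x := ∫ x, max (fderiv ℝ u x e) 0 * th R x) (y := ∫ x, max (-fderiv ℝ u x e) 0 * th R x)
        (integral_nonneg fun x => mul_nonneg (le_max_right _ _) (hf3 x).1)
        (integral_nonneg fun x => mul_nonneg (le_max_right _ _) (hf3 x).1) h1 h2
      have h4 : √(C₁ * R ^ ((d : ℝ) + 2 * s - 2) * En d s u (2 * R)) =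
          √C₁ * (R ^ (((d : ℝ) + 2 * s - 2) / 2) * √(En d s u (2 * R))) := by
        rw [Real.sqrt_mul (by positivity), Real.sqrt_mul hC₁]
        have h5 : √(R ^ ((d : ℝ) + 2 * s - 2)) = R ^ (((d : ℝ) + 2 * s - 2) / 2) := by
          rw [Real.sqrt_eq_rpow, ← Real.rpow_mul hR.le]
          congr 1
          ring
        rw [h5]
        ring
      rw [h4] at h3
      have g1 : 0 ≤ R ^ ((d : ℝ) - 1) := by positivity
      have g2 : 0 ≤ R ^ (((d : ℝ) + 2 * s - 2) / 2) * √(En d s u (2 * R)) := by positivity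
      have g3 : 0 ≤ √C₁ := Real.sqrt_nonneg _
      have g4 := mul_nonneg hC₂ g2
      have g5 := mul_nonneg g3 g1
      calc _ ≤ _ := h3
        _ ≤ _ := by nlinarith
  -- sum over the directions
  have hle : ∀ x : E d, ‖fderiv ℝ u x‖ ≤ ∑ i : Fin d, |fderiv ℝ u x (EuclideanSpace.single i 1)| := fun x => nh_norm _
  have hball : IntegrableOn (fun x => ‖fderiv ℝ u x‖) (Metric.closedBall (0 : E d) R) :=
    hdu.norm.continuousOn.integrableOn_compact (isCompact_closedBall 0 R)
  have hsi : Integrable (fun x => ∑ i : Fin d, |fderiv ℝ u x (EuclideanSpace.single i 1)| * th R x) :=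
    integrable_finsetSum _ fun i _ => (hone i).1
  calc BV u R ≤ ∫ x in Metric.closedBall (0 : E d) R, ∑ i : Fin d, |fderiv ℝ u x (EuclideanSpace.single i 1)| * th R x := by
        unfold BV
        refine setIntegral_mono_on hball hsi.integrableOn measurableSet_closedBall fun x hx => ?_
        have hx' : ‖x‖ ≤ R := by simpa using hx
        rw [hf4 x hx']
        simpa using hle x
    _ ≤ ∫ x, ∑ i : Fin d, |fderiv ℝ u x (EuclideanSpace.single i 1)| * th R x := by
        refine setIntegral_le_integral hsi (Eventually.of_forall fun x => ?_)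
        exact Finset.sum_nonneg fun i _ => mul_nonneg (abs_nonneg _) (hf3 x).1
    _ = ∑ i : Fin d, ∫ x, |fderiv ℝ u x (EuclideanSpace.single i 1)| * th R x :=
        integral_finsetSum _ fun i _ => (hone i).1
    _ ≤ ∑ i : Fin d, (C₂ + 2 * √C₁) * (R ^ ((d : ℝ) - 1) + R ^ (((d : ℝ) + 2 * s - 2) / 2) * √(En d s u (2 * R))) :=
        Finset.sum_le_sum fun i _ => (hone i).2
    _ = _ := by
        rw [Finset.sum_const, Finset.card_univ, Fintype.card_fin, nsmul_eq_mul]
        ring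

/-- MODULE ni. Iteration lemma: `X R ≤ C (1 + √(X (4R)))` and `X R ≤ C R^N` for `R ≥ 1` imply that `X` is bounded on `[1,∞)`.
Proof: with `t = 4^(-N)/2`, `C √X ≤ C^2/(4t) + t X`; iterate `m` times and let `m → ∞` (`(t 4^N)^m = 2^(-m)`). -/
theorem iter_bd {X : ℝ → ℝ} {C N : ℝ} (hC : 0 ≤ C) (hN : 0 ≤ N) (h0 : ∀ R, 1 ≤ R → 0 ≤ X R)
    (h1 : ∀ R, 1 ≤ R → X R ≤ C * (1 + √(X (4 * R)))) (h2 : ∀ R, 1 ≤ R → X R ≤ C * R ^ N) :
    ∃ D : ℝ, 0 ≤ D ∧ ∀ R, 1 ≤ R → X R ≤ D := by
  set t : ℝ := 4 ^ (-N) / 2 with ht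
  have ht0 : 0 < t := by positivity
  have ht1 : t ≤ 1 / 2 := by
    have : (4 : ℝ) ^ (-N) ≤ 1 := Real.rpow_le_one_of_one_le_of_nonpos (by norm_num) (by linarith)
    rw [ht]
    linarith
  set M : ℝ := C + C ^ 2 / (4 * t) with hM
  have hM0 : 0 ≤ M := by positivity
  -- one step
  have hstep : ∀ R, 1 ≤ R → X R ≤ M + t * X (4 * R) := by
    intro R hR
    have hx := h0 (4 * R) (by linarith)
    have hs := Real.sq_sqrt hx
    set y := √(X (4 * R)) with hy
    have h3 : C * y ≤ C ^ 2 / (4 * t) + t * y ^ 2 := by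
      have h4 : 0 ≤ (C - 2 * t * y) ^ 2 := sq_nonneg _
      have h5 : C ^ 2 / (4 * t) + t * y ^ 2 - C * y = (C - 2 * t * y) ^ 2 / (4 * t) := by
        field_simp
        ring
      have h6 : 0 ≤ (C - 2 * t * y) ^ 2 / (4 * t) := by positivity
      linarith
    have := h1 R hR
    rw [hs] at h3
    rw [hM]
    linarith
  -- iteration
  have hit : ∀ m : ℕ, ∀ R, 1 ≤ R → X R ≤ 2 * M + t ^ m * X (4 ^ m * R) := by
    intro m
    induction m with
    | zero => intro R hR; simp; linarith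
    | succ m ih =>
      intro R hR
      have h7 := hstep R hR
      have h8 := ih (4 * R) (by linarith)
      have e1 : (4 : ℝ) ^ m * (4 * R) = 4 ^ (m + 1) * R := by ring
      rw [e1] at h8
      have h9 : t * X (4 * R) ≤ t * (2 * M + t ^ m * X (4 ^ (m + 1) * R)) := mul_le_mul_of_nonneg_left h8 ht0.le
      have h10 : t * (2 * M) ≤ M := by nlinarith
      calc X R ≤ M + t * (2 * M + t ^ m * X (4 ^ (m + 1) * R)) := by linarith
        _ = M + t * (2 * M) + t ^ (m + 1) * X (4 ^ (m + 1) * R) := by ring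
        _ ≤ _ := by linarith
  refine ⟨2 * M, by positivity, fun R hR => ?_⟩
  have hlim : Tendsto (fun m : ℕ => 2 * M + C * R ^ N * (1 / 2) ^ m) atTop (𝓝 (2 * M + C * R ^ N * 0)) := by
    refine tendsto_const_nhds.add (tendsto_const_nhds.mul ?_)
    exact tendsto_pow_atTop_nhds_zero_of_lt_one (by norm_num) (by norm_num)
  rw [mul_zero, add_zero] at hlim
  refine ge_of_tendsto' hlim fun m => ?_
  have hm1 : (1 : ℝ) ≤ 4 ^ m := one_le_pow₀ (by norm_num)
  have h11 := h2 (4 ^ m * R) (by nlinarith)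
  have h12 := hit m R hR
  have h13 : t ^ m * X (4 ^ m * R) ≤ t ^ m * (C * (4 ^ m * R) ^ N) := mul_le_mul_of_nonneg_left h11 (by positivity)
  have h14 : t ^ m * (C * (4 ^ m * R) ^ N) = C * R ^ N * (1 / 2) ^ m := by
    have e3 : ((4 : ℝ) ^ m) ^ N = ((4 : ℝ) ^ N) ^ m := by
      rw [← Real.rpow_natCast, ← Real.rpow_natCast, ← Real.rpow_mul (by norm_num), ← Real.rpow_mul (by norm_num),
        mul_comm]
    have e4 : (4 : ℝ) ^ (-N) = ((4 : ℝ) ^ N)⁻¹ := Real.rpow_neg (by norm_num) N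
    rw [Real.mul_rpow (by positivity) (by linarith), ht, e3, e4]
    have h15 : (4 : ℝ) ^ N ≠ 0 := by positivity
    rw [div_pow, inv_pow, one_div, inv_pow]
    field_simp
  linarith

/-- MODULE nj. ENERGY BOUND: for every `e < min(2s, 2-2s)`, `E(R) ≤ C R^(d-e)`. Proof: with `η = (min(2s,2-2s) - e)/2 > 0` and
`β = max(1-2s,0) + η`, `e ≤ min(2s, 1-β, 2-2s-2β)`; `X(R) = E(R) R^(e-d)` satisfies the hypotheses of `iter_bd`
(`En_BV`, `BV_le`, `En_apriori`); exponents: `e-d+β+d-1 ≤ 0`, `e-d+d-2s ≤ 0`,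
`e - d + β + (d+2s-2)/2 + (d-e)/2 = e/2 + β + s - 1 ≤ 0`. -/
theorem energy {d : ℕ} {s c : ℝ} (hd : 1 ≤ d) (hs0 : 0 < s) (hs1 : s < 1) (hc : 0 < c) {u : E d → ℝ}
    (hu : Entire d s c u) (hst : Stable d s c u) (hH : HolU s u) {e : ℝ} (he : e < 2 * s) (he' : e < 2 - 2 * s) :
    ∃ C : ℝ, 0 ≤ C ∧ ∀ R : ℝ, 1 ≤ R → En d s u R ≤ C * R ^ ((d : ℝ) - e) := by
  set m : ℝ := min (2 * s) (2 - 2 * s) with hm
  have hem : e < m := lt_min he he'
  set η : ℝ := (m - e) / 2 with hη
  have hη0 : 0 < η := by rw [hη]; linarith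
  set β : ℝ := max (1 - 2 * s) 0 + η with hβ
  have hmax0 : (0 : ℝ) ≤ max (1 - 2 * s) 0 := le_max_right _ _
  have hmax1 : 1 - 2 * s ≤ max (1 - 2 * s) 0 := le_max_left _ _
  have hβ0 : 0 < β := by rw [hβ]; linarith
  have hβ1 : 1 - 2 * s < β := by rw [hβ]; linarith
  have hm1 : m ≤ 2 * s := min_le_left _ _
  have hm2 : m ≤ 2 - 2 * s := min_le_right _ _
  have hmm : m = 2 * s ∧ max (1 - 2 * s) 0 = 1 - 2 * s ∨
      m = 2 - 2 * s ∧ max (1 - 2 * s) 0 = 0 := by
    by_cases h : 2 * s ≤ 1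
    · left
      exact ⟨min_eq_left (by linarith), max_eq_left (by linarith)⟩
    · right
      push Not at h
      exact ⟨min_eq_right (by linarith), max_eq_right (by linarith)⟩
  have he1 : e + β - 1 ≤ 0 := by
    rcases hmm with ⟨h1, h2⟩ | ⟨h1, h2⟩
    · rw [hβ, h2, hη, h1]; rw [h1] at hem; linarith
    · rw [hβ, h2, hη, h1]; rw [h1] at hem; linarith
  have he2 : e / 2 + β + s - 1 ≤ 0 := by
    rcases hmm with ⟨h1, h2⟩ | ⟨h1, h2⟩
    · rw [hβ, h2, hη, h1]; rw [h1] at hem; linarith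
    · rw [hβ, h2, hη, h1]; rw [h1] at hem; linarith
  have hu1 : ContDiff ℝ 1 u := hu.smooth.of_le (by norm_num)
  have hB1 : ∀ x, |u x| ≤ 1 := fun x => (hu.bound x).le
  obtain ⟨C₁, hC₁, h₁⟩ := En_BV hd hs0 hs1 hβ0 hβ1 hu1 hB1 hH
  obtain ⟨C₂, hC₂, h₂⟩ := BV_le (d := d) (s := s) (c := c) hd hs0 hs1 hc
  obtain ⟨C₃, hC₃, h₃⟩ := En_apriori hd hs0 hs1 hu1 hB1 hH
  have hEn0 : ∀ R, 0 ≤ En d s u R := (En_facts hd hs0 hs1 hu.locLip hB1).2.1
  -- the function `X R = E(R) R^(e-d)`
  set X : ℝ → ℝ := fun R => En d s u R * R ^ (e - (d : ℝ)) with hX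
  have hXapr : ∀ R, 1 ≤ R → X R ≤ C₃ * R ^ (max e 0) := by
    intro R hR
    have hR0 : 0 < R := by linarith
    calc X R ≤ C₃ * R ^ (d : ℝ) * R ^ (e - (d : ℝ)) :=
          mul_le_mul_of_nonneg_right (h₃ R hR) (Real.rpow_nonneg hR0.le _)
      _ = C₃ * R ^ e := by
          rw [mul_assoc, ← Real.rpow_add hR0]
          congr 2
          ring
      _ ≤ C₃ * R ^ (max e 0) :=
          mul_le_mul_of_nonneg_left (Real.rpow_le_rpow_of_exponent_le hR (le_max_left _ _)) hC₃
  have hXnn : ∀ R, 1 ≤ R → 0 ≤ X R := fun R hR =>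
    mul_nonneg (hEn0 R) (Real.rpow_nonneg (by linarith) _)
  set a : ℝ := ((d : ℝ) + 2 * s - 2) / 2 with ha
  set q : ℝ := ((d : ℝ) - e) / 2 with hq
  set K₁ : ℝ := (2 : ℝ) ^ ((d : ℝ) - 1) with hK₁
  set K₂ : ℝ := (2 : ℝ) ^ a * (4 : ℝ) ^ q with hK₂
  have hK₁0 : 0 ≤ K₁ := by positivity
  have hK₂0 : 0 ≤ K₂ := by positivity
  have hmain : ∀ R, 1 ≤ R → X R ≤ (C₁ * (C₂ * (K₁ + K₂) + 1)) * (1 + √(X (4 * R))) := by
    intro R hR
    have hR0 : 0 < R := by linarith
    have h4R : 1 ≤ 4 * R := by linarith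
    have h4R0 : 0 < 4 * R := by linarith
    have hsq : √(En d s u (4 * R)) = √(X (4 * R)) * (4 * R) ^ q := by
      have : En d s u (4 * R) = X (4 * R) * ((4 * R) ^ q) ^ 2 := by
        rw [hX]
        show En d s u (4 * R) = En d s u (4 * R) * (4 * R) ^ (e - (d : ℝ)) * ((4 * R) ^ q) ^ 2
        rw [mul_assoc, ← Real.rpow_natCast ((4 * R) ^ q) 2, ← Real.rpow_mul h4R0.le,
          ← Real.rpow_add h4R0]
        have : e - (d : ℝ) + q * ((2 : ℕ) : ℝ) = 0 := by
          rw [hq]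
          push_cast
          ring
        rw [this, Real.rpow_zero, mul_one]
      rw [this, Real.sqrt_mul (hXnn _ h4R), Real.sqrt_sq (Real.rpow_nonneg h4R0.le _)]
    have hBV : BV u (2 * R) ≤ C₂ * ((2 * R) ^ ((d : ℝ) - 1) +
        (2 * R) ^ a * (√(X (4 * R)) * (4 * R) ^ q)) := by
      have := h₂ u hu hst (2 * R) (by linarith)
      have h22 : 2 * (2 * R) = 4 * R := by ring
      rw [h22, hsq] at this
      exact this
    have e1 : R ^ (e - (d : ℝ)) * R ^ β * (2 * R) ^ ((d : ℝ) - 1) ≤ K₁ := by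
      rw [Real.mul_rpow (by norm_num) hR0.le]
      have : R ^ (e - (d : ℝ)) * R ^ β * (2 ^ ((d : ℝ) - 1) * R ^ ((d : ℝ) - 1)) =
          K₁ * R ^ (e + β - 1) := by
        have h1 : R ^ (e + β - 1) = R ^ (e - (d : ℝ)) * R ^ β * R ^ ((d : ℝ) - 1) := by
          rw [← Real.rpow_add hR0, ← Real.rpow_add hR0]
          congr 1
          ring
        rw [h1]
        ring
      rw [this]
      exact mul_le_of_le_one_right hK₁0 (Real.rpow_le_one_of_one_le_of_nonpos hR he1)
    have e2 : R ^ (e - (d : ℝ)) * R ^ β * ((2 * R) ^ a * (4 * R) ^ q) ≤ K₂ := by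
      rw [Real.mul_rpow (by norm_num) hR0.le, Real.mul_rpow (by norm_num) hR0.le]
      have : R ^ (e - (d : ℝ)) * R ^ β * (2 ^ a * R ^ a * (4 ^ q * R ^ q)) =
          K₂ * R ^ (e / 2 + β + s - 1) := by
        have h1 : R ^ (e / 2 + β + s - 1) = R ^ (e - (d : ℝ)) * R ^ β * R ^ a * R ^ q := by
          rw [← Real.rpow_add hR0, ← Real.rpow_add hR0, ← Real.rpow_add hR0]
          congr 1
          rw [ha, hq]
          ring
        rw [h1]
        ring
      rw [this]
      exact mul_le_of_le_one_right hK₂0 (Real.rpow_le_one_of_one_le_of_nonpos hR he2)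
    have e3 : R ^ (e - (d : ℝ)) * R ^ ((d : ℝ) - 2 * s) ≤ 1 := by
      rw [← Real.rpow_add hR0]
      exact Real.rpow_le_one_of_one_le_of_nonpos hR (by linarith)
    have hRe : 0 ≤ R ^ (e - (d : ℝ)) := Real.rpow_nonneg hR0.le _
    have hRβ : 0 ≤ R ^ β := Real.rpow_nonneg hR0.le _
    have hs0' : 0 ≤ √(X (4 * R)) := Real.sqrt_nonneg _
    have f1 : X R ≤ R ^ (e - (d : ℝ)) * (C₁ * (R ^ β * BV u (2 * R) + R ^ ((d : ℝ) - 2 * s))) := by
      rw [mul_comm]
      exact mul_le_mul_of_nonneg_right (h₁ R hR) hRe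
    have f2 : R ^ (e - (d : ℝ)) * (C₁ * (R ^ β * BV u (2 * R) + R ^ ((d : ℝ) - 2 * s))) ≤
        R ^ (e - (d : ℝ)) * (C₁ * (R ^ β * (C₂ * ((2 * R) ^ ((d : ℝ) - 1) +
        (2 * R) ^ a * (√(X (4 * R)) * (4 * R) ^ q))) + R ^ ((d : ℝ) - 2 * s))) := by
      gcongr
    have f3 : R ^ (e - (d : ℝ)) * (C₁ * (R ^ β * (C₂ * ((2 * R) ^ ((d : ℝ) - 1) +
        (2 * R) ^ a * (√(X (4 * R)) * (4 * R) ^ q))) + R ^ ((d : ℝ) - 2 * s))) =
        C₁ * (C₂ * ((R ^ (e - (d : ℝ)) * R ^ β * (2 * R) ^ ((d : ℝ) - 1)) +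
          (R ^ (e - (d : ℝ)) * R ^ β * ((2 * R) ^ a * (4 * R) ^ q)) * √(X (4 * R))) +
          R ^ (e - (d : ℝ)) * R ^ ((d : ℝ) - 2 * s)) := by
      ring
    have f4 : C₁ * (C₂ * ((R ^ (e - (d : ℝ)) * R ^ β * (2 * R) ^ ((d : ℝ) - 1)) +
          (R ^ (e - (d : ℝ)) * R ^ β * ((2 * R) ^ a * (4 * R) ^ q)) * √(X (4 * R))) +
          R ^ (e - (d : ℝ)) * R ^ ((d : ℝ) - 2 * s)) ≤
        C₁ * (C₂ * (K₁ + K₂ * √(X (4 * R))) + 1) := by
      gcongr
    have f5 : C₁ * (C₂ * (K₁ + K₂ * √(X (4 * R))) + 1) ≤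
        (C₁ * (C₂ * (K₁ + K₂) + 1)) * (1 + √(X (4 * R))) := by
      have g1 : (C₁ * (C₂ * (K₁ + K₂) + 1)) * (1 + √(X (4 * R))) -
          C₁ * (C₂ * (K₁ + K₂ * √(X (4 * R))) + 1) =
          C₁ * C₂ * K₂ + C₁ * C₂ * K₁ * √(X (4 * R)) + C₁ * √(X (4 * R)) := by ring
      have g2 : 0 ≤ C₁ * C₂ * K₂ + C₁ * C₂ * K₁ * √(X (4 * R)) + C₁ * √(X (4 * R)) := by
        positivity
      linarith
    linarith
  obtain ⟨D, hD0, hD⟩ := iter_bd (X := X) (C := max (C₁ * (C₂ * (K₁ + K₂) + 1)) C₃)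
    (N := max e 0) (hC₃.trans (le_max_right _ _)) (le_max_right _ _) hXnn
    (fun R hR => (hmain R hR).trans (mul_le_mul_of_nonneg_right (le_max_left _ _)
      (by have := Real.sqrt_nonneg (X (4 * R)); linarith)))
    (fun R hR => (hXapr R hR).trans (mul_le_mul_of_nonneg_right (le_max_right _ _)
      (Real.rpow_nonneg (by linarith) _)))
  refine ⟨D, hD0, fun R hR => ?_⟩
  have hR0 : 0 < R := by linarith
  have : En d s u R = X R * R ^ ((d : ℝ) - e) := by
    rw [hX]
    show En d s u R = En d s u R * R ^ (e - (d : ℝ)) * R ^ ((d : ℝ) - e)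
    rw [mul_assoc, ← Real.rpow_add hR0]
    have : e - (d : ℝ) + ((d : ℝ) - e) = 0 := by ring
    rw [this, Real.rpow_zero, mul_one]
  rw [this]
  exact mul_le_mul_of_nonneg_right (hD R hR) (Real.rpow_nonneg hR0.le _)

end Pool.Agent.Frd
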