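import Pool.Agent.Frd.PosL
import Pool.Agent.Frd.Ener

/-!
# Rotationally symmetric stable solutions: `∇' u = 0`
-/

open MeasureTheory Set Filter Topology NDG

namespace Pool.Agent.Frd

/-- The partial gradient `(∂_1 u, .., ∂_k u, 0, .., 0)`. -/
noncomputable def gW {d : ℕ} (k : ℕ) (u : E d → ℝ) (x : E d) : E d :=
  WithLp.toLp 2 (fun i : Fin d => if (i : ℕ) < k then pd i u x else 0)

/-- The field `|∇'u| x'/|x'|` (`0` if `x' = 0`). -/
noncomputable def Va {d : ℕ} (k : ℕ) (u : E d → ℝ) (x : E d) : E d :=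
  (‖gW k u x‖ / ‖pr k x‖) • pr k x

private noncomputable def fa_grad {d : ℕ} (u : E d → ℝ) (x : E d) : E d :=
  (InnerProductSpace.toDual ℝ (E d)).symm (fderiv ℝ u x)

private theorem fa_inner {d : ℕ} (u : E d → ℝ) (x v : E d) : inner ℝ (fa_grad u x) v = fderiv ℝ u x v := by
  unfold fa_grad
  exact InnerProductSpace.toDual_symm_apply

private theorem fa_gW {d k : ℕ} (u : E d → ℝ) (x : E d) : gW k u x = pr k (fa_grad u x) := by
  have hc : ∀ i : Fin d, fa_grad u x i = pd i u x := by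
    intro i
    have h1 := fa_inner u x (bv i)
    unfold pd
    rw [← h1]
    unfold bv
    rw [EuclideanSpace.inner_single_right]
    simp
  unfold gW pr
  congr 1
  funext i
  by_cases h : (i : ℕ) < k
  · simp [h, hc]
  · simp [h]

private theorem fa_chain {d k : ℕ} {u : E d → ℝ} (hu : ContDiff ℝ 2 u) (hr : Rot k u) {g : E d ≃ₗᵢ[ℝ] E d}
    (hg : Ok k g) (x : E d) : fa_grad u (g x) = g (fa_grad u x) := by
  have hd : Differentiable ℝ u := hu.differentiable (by norm_num)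
  have h1 : ∀ v, fderiv ℝ u (g x) (g v) = fderiv ℝ u x v := by
    intro v
    have e1 : u ∘ g = u := funext (hr g hg)
    have e2 : HasFDerivAt (u ∘ g) ((fderiv ℝ u (g x)).comp (g : E d →L[ℝ] E d)) x :=
      HasFDerivAt.comp x (hd (g x)).hasFDerivAt (g.toContinuousLinearEquiv.hasFDerivAt)
    rw [e1] at e2
    rw [e2.fderiv]
    rfl
  refine ext_inner_right ℝ (fun v => ?_)
  rw [fa_inner]
  obtain ⟨w, rfl⟩ := g.surjective v
  rw [h1 w, ← fa_inner, LinearIsometryEquiv.inner_map_map]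

/-- MODULE fa. The partial gradient of an `O(k)`-invariant function is equivariant. Proof: `u ∘ g = u`, so
`fderiv u (g x) (g v) = fderiv u x v`, that is `∇u (g x) = g (∇u x)` (gradient with respect to the inner product), and
`gW = pr k ∘ ∇u` commutes with `g` (`pr_ok`). -/
theorem gW_equi {d k : ℕ} {u : E d → ℝ} (hu : ContDiff ℝ 2 u) (hr : Rot k u) : Equi k (gW k u) := by
  refine ⟨fun g hg x => ?_, fun x => ?_⟩
  · rw [fa_gW, fa_gW, fa_chain hu hr hg, (pr_ok hg _).1]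
  · rw [fa_gW, pr_pr]

private theorem fb_sum {d k : ℕ} (hk : k ≤ d) (f : Fin d → ℝ) :
    (∑ i : Fin d, if (i : ℕ) < k then f i else 0) = ∑ i : Fin k, f (Fin.castLE hk i) := by
  rw [← Finset.sum_filter]
  symm
  refine Finset.sum_bij (fun i _ => Fin.castLE hk i) ?_ ?_ ?_ ?_
  · intro i _; simp
  · intro a _ b _ h; exact Fin.castLE_injective hk h
  · intro b hb
    rw [Finset.mem_filter] at hb
    exact ⟨⟨b, hb.2⟩, Finset.mem_univ _, rfl⟩
  · intro i _; rfl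

/-- MODULE fb. Comparison with `wv` for the first `k` coordinate directions (`k ≤ d`). -/
theorem gW_wv {d k : ℕ} (hk : k ≤ d) (u : E d → ℝ) (x y : E d) :
    inner ℝ (gW k u x) (gW k u y) =
      inner ℝ (wv (fun i : Fin k => bv (Fin.castLE hk i)) u x) (wv (fun i : Fin k => bv (Fin.castLE hk i)) u y) ∧
    ‖gW k u x‖ = ‖wv (fun i : Fin k => bv (Fin.castLE hk i)) u x‖ := by
  have key : ∀ x y : E d, inner ℝ (gW k u x) (gW k u y) =
      inner ℝ (wv (fun i : Fin k => bv (Fin.castLE hk i)) u x) (wv (fun i : Fin k => bv (Fin.castLE hk i)) u y) := by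
    intro x y
    rw [PiLp.inner_apply, PiLp.inner_apply]
    have h1 : ∀ i : Fin d, inner ℝ (gW k u x i) (gW k u y i) = if (i : ℕ) < k then pd i u y * pd i u x else 0 := by
      intro i
      by_cases h : (i : ℕ) < k
      · simp [gW, h]
      · simp [gW, h]
    rw [Finset.sum_congr rfl (fun i _ => h1 i), fb_sum hk (fun i => pd i u y * pd i u x)]
    refine Finset.sum_congr rfl (fun i _ => ?_)
    simp [wv, pd]
  refine ⟨key x y, ?_⟩
  have h2 := key x x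
  rw [real_inner_self_eq_norm_sq, real_inner_self_eq_norm_sq] at h2
  exact (pow_left_inj₀ (norm_nonneg _) (norm_nonneg _) two_ne_zero).mp h2

private theorem fc_contDiff {d k : ℕ} {u : E d → ℝ} (hu : ContDiff ℝ 2 u) : ContDiff ℝ 1 (gW k u) := by
  have h1 : ContDiff ℝ 1 (fderiv ℝ u) := hu.fderiv_right (by norm_num)
  have h2 : ContDiff ℝ 1 (fun x : E d => fun i : Fin d => if (i : ℕ) < k then pd i u x else 0) := by
    rw [contDiff_pi]
    intro i
    by_cases h : (i : ℕ) < k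
    · simp only [h, if_true]
      exact h1.clm_apply contDiff_const
    · simp only [h, if_false]
      exact contDiff_const
  exact (EuclideanSpace.equiv (Fin d) ℝ).symm.contDiff.comp h2

private theorem fc_lip {d k : ℕ} {u : E d → ℝ} (hu : ContDiff ℝ 2 u) (ρ : ℝ) :
    ∃ L : ℝ, 0 ≤ L ∧ ∀ x y : E d, ‖x‖ ≤ ρ → ‖y‖ ≤ ρ → ‖gW k u x - gW k u y‖ ≤ L * ‖x - y‖ := by
  have hc := fc_contDiff (k := k) hu
  have hcf : Continuous (fderiv ℝ (gW k u)) := hc.continuous_fderiv (by norm_num)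
  obtain ⟨C, hC⟩ := (isCompact_closedBall (0 : E d) ρ).exists_bound_of_continuousOn hcf.continuousOn
  refine ⟨max C 0, le_max_right _ _, fun x y hx hy => ?_⟩
  have := (convex_closedBall (0 : E d) ρ).norm_image_sub_le_of_norm_fderiv_le (𝕜 := ℝ)
    (f := gW k u) (C := max C 0)
    (fun z _ => (hc.differentiable (by norm_num)).differentiableAt)
    (fun z hz => (hC z hz).trans (le_max_left _ _))
    (mem_closedBall_zero_iff.mpr hy) (mem_closedBall_zero_iff.mpr hx)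
  exact this

private theorem fc_unit {F : Type*} [NormedAddCommGroup F] [NormedSpace ℝ F] {a b : F} (ha : a ≠ 0) (hb : b ≠ 0) :
    ‖(1 / ‖a‖) • a - (1 / ‖b‖) • b‖ ≤ 2 * ‖a - b‖ / ‖b‖ := by
  have pa : 0 < ‖a‖ := norm_pos_iff.mpr ha
  have pb : 0 < ‖b‖ := norm_pos_iff.mpr hb
  have e : (1 / ‖a‖) • a - (1 / ‖b‖) • b = (1 / ‖a‖ - 1 / ‖b‖) • a + (1 / ‖b‖) • (a - b) := by
    rw [sub_smul, smul_sub]; abel
  rw [e]
  refine (norm_add_le _ _).trans ?_
  rw [norm_smul, norm_smul, Real.norm_eq_abs, Real.norm_eq_abs, abs_of_pos (by positivity : 0 < 1 / ‖b‖)]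
  have h1 : |1 / ‖a‖ - 1 / ‖b‖| * ‖a‖ = |‖b‖ - ‖a‖| / ‖b‖ := by
    have : 1 / ‖a‖ - 1 / ‖b‖ = (‖b‖ - ‖a‖) / (‖a‖ * ‖b‖) := by field_simp
    rw [this, abs_div, abs_of_pos (mul_pos pa pb)]
    field_simp
  rw [h1]
  have h2 : |‖b‖ - ‖a‖| ≤ ‖a - b‖ := by rw [abs_sub_comm]; exact abs_norm_sub_norm_le a b
  have h3 : |‖b‖ - ‖a‖| / ‖b‖ ≤ ‖a - b‖ / ‖b‖ := div_le_div_of_nonneg_right h2 pb.le
  calc |‖b‖ - ‖a‖| / ‖b‖ + 1 / ‖b‖ * ‖a - b‖ ≤ ‖a - b‖ / ‖b‖ + ‖a - b‖ / ‖b‖ := by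
        rw [one_div_mul_eq_div]; linarith
    _ = 2 * ‖a - b‖ / ‖b‖ := by ring

private theorem fc_zero {d k : ℕ} {u : E d → ℝ} (hu : ContDiff ℝ 2 u) (hr : Rot k u) {x : E d} (hx : pr k x = 0) :
    gW k u x = 0 := by
  obtain ⟨q, hq⟩ := equi_par (gW_equi hu hr) x
  rw [hq, hx, smul_zero]

private theorem fc_norm {d k : ℕ} {u : E d → ℝ} (hu : ContDiff ℝ 2 u) (hr : Rot k u) (x : E d) :
    ‖Va k u x‖ = ‖gW k u x‖ := by
  unfold Va
  by_cases hx : pr k x = 0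
  · rw [hx, smul_zero, norm_zero, fc_zero hu hr hx, norm_zero]
  · have : ‖pr k x‖ ≠ 0 := norm_ne_zero_iff.mpr hx
    rw [norm_smul, norm_div, norm_norm, norm_norm]
    field_simp

/-- MODULE fc. `gW` and `Va` are Lipschitz on balls, `‖Va‖ = ‖gW‖` for an equivariant `gW`. Proof: `gW` is `C^1`;
`‖gW x‖ ≤ L ‖pr x‖` (`gW` vanishes at `x - pr x`, which is in the same ball); `‖Va x - Va y‖ ≤ |‖gW x‖ - ‖gW y‖| + ‖gW y‖ ‖x̂ - ŷ‖`,
`‖x̂ - ŷ‖ ≤ 2 ‖pr x - pr y‖/‖pr y‖`. -/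
theorem Va_lip {d k : ℕ} {u : E d → ℝ} (hu : ContDiff ℝ 2 u) (hr : Rot k u) :
    (∀ x, ‖Va k u x‖ = ‖gW k u x‖) ∧
    ∀ ρ : ℝ, ∃ L : ℝ, 0 ≤ L ∧ ∀ x y : E d, ‖x‖ ≤ ρ → ‖y‖ ≤ ρ →
      ‖gW k u x - gW k u y‖ ≤ L * ‖x - y‖ ∧ ‖Va k u x - Va k u y‖ ≤ L * ‖x - y‖ := by
  refine ⟨fc_norm hu hr, fun ρ => ?_⟩
  obtain ⟨L, hL, hl⟩ := fc_lip (k := k) hu ρ
  have hW : ∀ x : E d, ‖x‖ ≤ ρ → ‖gW k u x‖ ≤ L * ‖pr k x‖ := by
    intro x hx
    have h0 : pr k (x - pr k x) = 0 := by rw [pr_sub, pr_pr, sub_self]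
    have h1 : ‖x - pr k x‖ ≤ ρ := by
      refine le_trans ?_ hx
      have e1 : ‖x‖ ^ 2 = ‖x - pr k x‖ ^ 2 + ‖pr k x‖ ^ 2 := by
        have hin : inner ℝ (x - pr k x) (pr k x) = 0 := by
          rw [real_inner_comm, inner_pr, h0, inner_zero_right]
        have := norm_add_sq_real (x - pr k x) (pr k x)
        rw [sub_add_cancel, hin] at this
        linarith
      nlinarith [norm_nonneg (x - pr k x), norm_nonneg x, sq_nonneg ‖pr k x‖, abs_le_abs_of_nonneg (norm_nonneg x) (le_refl ‖x‖),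
        pow_le_pow_iff_left₀ (norm_nonneg (x - pr k x)) (norm_nonneg x) two_ne_zero]
    have h2 := hl x (x - pr k x) hx h1
    rw [fc_zero hu hr h0, sub_zero, sub_sub_cancel] at h2
    exact h2
  have hp : ∀ x y : E d, ‖pr k x - pr k y‖ ≤ ‖x - y‖ := by
    intro x y; rw [← pr_sub]; exact norm_pr_le _
  refine ⟨3 * L, by positivity, fun x y hx hy => ⟨?_, ?_⟩⟩
  · refine (hl x y hx hy).trans ?_
    nlinarith [norm_nonneg (x - y), mul_nonneg hL (norm_nonneg (x - y))]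
  · have hxy0 : 0 ≤ L * ‖x - y‖ := mul_nonneg hL (norm_nonneg _)
    by_cases hx0 : pr k x = 0
    · have : Va k u x = 0 := by unfold Va; rw [hx0, smul_zero]
      rw [this, zero_sub, norm_neg, fc_norm hu hr]
      have h3 := hW y hy
      have h4 := hp x y
      rw [hx0, zero_sub, norm_neg] at h4
      nlinarith [mul_le_mul_of_nonneg_left h4 hL]
    by_cases hy0 : pr k y = 0
    · have : Va k u y = 0 := by unfold Va; rw [hy0, smul_zero]
      rw [this, sub_zero, fc_norm hu hr]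
      have h3 := hW x hx
      have h4 := hp x y
      rw [hy0, sub_zero] at h4
      nlinarith [mul_le_mul_of_nonneg_left h4 hL]
    have px : 0 < ‖pr k x‖ := norm_pos_iff.mpr hx0
    have py : 0 < ‖pr k y‖ := norm_pos_iff.mpr hy0
    have e : Va k u x - Va k u y = (‖gW k u x‖ - ‖gW k u y‖) • ((1 / ‖pr k x‖) • pr k x) +
        ‖gW k u y‖ • ((1 / ‖pr k x‖) • pr k x - (1 / ‖pr k y‖) • pr k y) := by
      unfold Va
      rw [sub_smul, smul_sub, smul_smul, smul_smul, smul_smul, mul_one_div, mul_one_div, mul_one_div]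
      abel
    rw [e]
    refine (norm_add_le _ _).trans ?_
    have n1 : ‖(1 / ‖pr k x‖) • pr k x‖ = 1 := by
      rw [norm_smul, norm_div, norm_one, norm_norm]; field_simp
    rw [norm_smul (‖gW k u x‖ - ‖gW k u y‖), norm_smul (‖gW k u y‖), n1, mul_one, Real.norm_eq_abs, norm_norm]
    have a1 : |‖gW k u x‖ - ‖gW k u y‖| ≤ L * ‖x - y‖ :=
      (abs_norm_sub_norm_le _ _).trans (hl x y hx hy)
    have a2 : ‖gW k u y‖ * ‖(1 / ‖pr k x‖) • pr k x - (1 / ‖pr k y‖) • pr k y‖ ≤ 2 * (L * ‖x - y‖) := by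
      calc _ ≤ (L * ‖pr k y‖) * (2 * ‖pr k x - pr k y‖ / ‖pr k y‖) :=
            mul_le_mul (hW y hy) (fc_unit hx0 hy0) (norm_nonneg _) (by positivity)
        _ = 2 * (L * ‖pr k x - pr k y‖) := by field_simp
        _ ≤ 2 * (L * ‖x - y‖) := by
            have := mul_le_mul_of_nonneg_left (hp x y) hL
            linarith
    linarith

private theorem fd_prod {d : ℕ} {f : E d → ℝ} {V : E d → E d} {ρ L M : ℝ} (hL0 : 0 ≤ L) (hM0 : 0 ≤ M)
    (hf1 : ∀ x y, |f x - f y| ≤ L * ‖x - y‖) (hf0 : ∀ x, ρ < ‖x‖ → f x = 0) (hfM : ∀ x, |f x| ≤ M)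
    (hV1 : ∀ x y : E d, ‖x‖ ≤ ρ → ‖y‖ ≤ ρ → ‖V x - V y‖ ≤ L * ‖x - y‖) (hV0 : ∀ x : E d, ‖x‖ ≤ ρ → ‖V x‖ ≤ M) :
    ∃ K, LipschitzWith K (fun x => f x • V x) := by
  have key : ∀ x y : E d, ‖f x • V x - f y • V y‖ ≤ (2 * L * M) * ‖x - y‖ := by
    intro x y
    by_cases hx : ‖x‖ ≤ ρ
    · by_cases hy : ‖y‖ ≤ ρ
      · have e : f x • V x - f y • V y = (f x - f y) • V x + f y • (V x - V y) := by
          rw [sub_smul, smul_sub]; abel
        rw [e]
        calc ‖(f x - f y) • V x + f y • (V x - V y)‖ ≤ ‖(f x - f y) • V x‖ + ‖f y • (V x - V y)‖ := norm_add_le _ _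
          _ = |f x - f y| * ‖V x‖ + |f y| * ‖V x - V y‖ := by
              rw [norm_smul, norm_smul, Real.norm_eq_abs, Real.norm_eq_abs]
          _ ≤ (L * ‖x - y‖) * M + M * (L * ‖x - y‖) := by
              gcongr
              · exact hf1 x y
              · exact hV0 x hx
              · exact hfM y
              · exact hV1 x y hx hy
          _ = _ := by ring
      · have h0 : f y = 0 := hf0 y (not_le.1 hy)
        rw [h0, zero_smul, sub_zero, norm_smul, Real.norm_eq_abs]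
        have h1 := hf1 x y
        rw [h0, sub_zero] at h1
        calc |f x| * ‖V x‖ ≤ (L * ‖x - y‖) * M := by
              gcongr
              exact hV0 x hx
          _ ≤ (2 * L * M) * ‖x - y‖ := by
              have : 0 ≤ L * M * ‖x - y‖ := by positivity
              nlinarith
    · have h0 : f x = 0 := hf0 x (not_le.1 hx)
      by_cases hy : ‖y‖ ≤ ρ
      · rw [h0, zero_smul, zero_sub, norm_neg, norm_smul, Real.norm_eq_abs]
        have h1 := hf1 x y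
        rw [h0, zero_sub, abs_neg] at h1
        calc |f y| * ‖V y‖ ≤ (L * ‖x - y‖) * M := by
              gcongr
              exact hV0 y hy
          _ ≤ (2 * L * M) * ‖x - y‖ := by
              have : 0 ≤ L * M * ‖x - y‖ := by positivity
              nlinarith
      · have h1 : f y = 0 := hf0 y (not_le.1 hy)
        rw [h0, h1, zero_smul, zero_smul, sub_zero, norm_zero]
        positivity
  refine ⟨⟨2 * L * M, by positivity⟩, LipschitzWith.of_dist_le_mul fun x y => ?_⟩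
  rw [dist_eq_norm, dist_eq_norm]
  exact key x y

private theorem fd_bound {d k : ℕ} {u : E d → ℝ} (hu : ContDiff ℝ 2 u) (hr : Rot k u) (ρ : ℝ) (hρ : 0 ≤ ρ) :
    ∃ M : ℝ, 0 ≤ M ∧ (∀ x y : E d, ‖x‖ ≤ ρ → ‖y‖ ≤ ρ → ‖gW k u x - gW k u y‖ ≤ M * ‖x - y‖) ∧
      (∀ x y : E d, ‖x‖ ≤ ρ → ‖y‖ ≤ ρ → ‖Va k u x - Va k u y‖ ≤ M * ‖x - y‖) ∧
      (∀ x : E d, ‖x‖ ≤ ρ → ‖Va k u x‖ ≤ M) ∧ (∀ x : E d, ‖x‖ ≤ ρ → ‖gW k u x‖ ≤ M) := by
  obtain ⟨hn, h⟩ := Va_lip hu hr
  obtain ⟨L, hL0, hL⟩ := h ρ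
  have h0 : ‖(0 : E d)‖ ≤ ρ := by simpa using hρ
  have hb : ∀ x : E d, ‖x‖ ≤ ρ → ‖Va k u x‖ ≤ L * ρ + ‖Va k u 0‖ := by
    intro x hx
    have h1 := (hL x 0 hx h0).2
    rw [sub_zero] at h1
    calc ‖Va k u x‖ = ‖(Va k u x - Va k u 0) + Va k u 0‖ := by rw [sub_add_cancel]
      _ ≤ ‖Va k u x - Va k u 0‖ + ‖Va k u 0‖ := norm_add_le _ _
      _ ≤ L * ρ + ‖Va k u 0‖ := by
          gcongr
          exact h1.trans (mul_le_mul_of_nonneg_left hx hL0)
  refine ⟨L + (L * ρ + ‖Va k u 0‖), by positivity, fun x y hx hy => ?_, fun x y hx hy => ?_, fun x hx => ?_, fun x hx => ?_⟩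
  · refine (hL x y hx hy).1.trans (mul_le_mul_of_nonneg_right ?_ (norm_nonneg _))
    have : 0 ≤ L * ρ + ‖Va k u 0‖ := by positivity
    linarith
  · refine (hL x y hx hy).2.trans (mul_le_mul_of_nonneg_right ?_ (norm_nonneg _))
    have : 0 ≤ L * ρ + ‖Va k u 0‖ := by positivity
    linarith
  · exact (hb x hx).trans (by linarith)
  · rw [← hn]
    exact (hb x hx).trans (by linarith)

private theorem fd_equi {d k : ℕ} {u : E d → ℝ} (hu : ContDiff ℝ 2 u) (hr : Rot k u) : Equi k (Va k u) := by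
  have hW := gW_equi hu hr
  constructor
  · intro g hg x
    unfold Va
    rw [hW.1 g hg, (pr_ok hg x).1, LinearIsometryEquiv.norm_map, LinearIsometryEquiv.norm_map, map_smul]
  · intro x
    unfold Va
    rw [pr_smul, pr_pr]

private theorem fd_inv {d k : ℕ} {g : E d ≃ₗᵢ[ℝ] E d} (_ : Ok k g) (a R : ℝ) (x : E d) :
    zt a (g x) = zt a x ∧ th R (g x) = th R x := by
  unfold zt th
  rw [LinearIsometryEquiv.norm_map]
  exact ⟨rfl, rfl⟩

/-- MODULE fd. `Va` is equivariant, and `V = (θ ξ/ζ) Va` is Lipschitz with compact support and equivariant. -/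
theorem V_facts {d k : ℕ} {u : E d → ℝ} (hu : ContDiff ℝ 2 u) (hr : Rot k u) (a b : ℝ) {R : ℝ} (hR : 0 < R) :
    Equi k (Va k u) ∧
    (∃ L, LipschitzWith L (fun x => (th R x * zt a x / zt b x) • Va k u x)) ∧
    HasCompactSupport (fun x => (th R x * zt a x / zt b x) • Va k u x) ∧
    Equi k (fun x => (th R x * zt a x / zt b x) • Va k u x) := by
  have hE := fd_equi hu hr
  set f : E d → ℝ := fun x => th R x * zt a x / zt b x with hf
  obtain ⟨t1, t2, t3, t4, t5⟩ := th_facts (d := d) hR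
  have hfc : ContDiff ℝ 1 f := by
    have h1 : ContDiff ℝ 1 (th R : E d → ℝ) := by exact_mod_cast t1 1
    exact (h1.mul (contDiff_zt a 1)).div (contDiff_zt b 1) fun x => (zt_pos b x).ne'
  have hfs : HasCompactSupport f := by
    have : f = fun x => th R x * (zt a x / zt b x) := by
      funext x; simp only [hf]; ring
    rw [this]
    exact t2.mul_right
  obtain ⟨Lf, hLf⟩ := hfc.lipschitzWith_of_hasCompactSupport hfs (by norm_num)
  obtain ⟨Mf, hMf⟩ := hfs.exists_bound_of_continuous hfc.continuous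
  obtain ⟨M, hM0, hM1, hM2, hM3, hM4⟩ := fd_bound (k := k) hu hr (2 * R) (by positivity)
  refine ⟨hE, ?_, ?_, ?_⟩
  · have hMf0 : 0 ≤ Mf := (norm_nonneg _).trans (hMf 0)
    refine fd_prod (f := f) (V := Va k u) (ρ := 2 * R) (L := Lf + M) (M := Mf + M) (by positivity) (by positivity)
      (fun x y => ?_) (fun x hx => ?_) (fun x => ?_) (fun x y hx hy => ?_) (fun x hx => ?_)
    · have := hLf.dist_le_mul x y
      rw [Real.dist_eq, dist_eq_norm] at this
      refine this.trans (mul_le_mul_of_nonneg_right ?_ (norm_nonneg _))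
      linarith
    · rw [hf]
      simp only
      rw [t5 x hx.le]
      simp
    · have := hMf x
      rw [Real.norm_eq_abs] at this
      linarith
    · refine (hM2 x y hx hy).trans (mul_le_mul_of_nonneg_right ?_ (norm_nonneg _))
      have := Lf.2
      simp only [NNReal.val_eq_coe] at this
      linarith
    · exact (hM3 x hx).trans (by linarith)
  · exact hfs.smul_right
  · constructor
    · intro g hg x
      have e1 := fd_inv hg a R x
      have e2 := fd_inv hg b R x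
      simp only [hf]
      rw [e1.1, e1.2, e2.1, hE.1 g hg, map_smul]
    · intro x
      simp only
      rw [pr_smul, hE.2]

private theorem fe_cut {d : ℕ} {s : ℝ} (hd : 1 ≤ d) (hs0 : 0 < s) (hs1 : s < 1) {R M : ℝ} (hR : 0 < R) (hM : 0 ≤ M)
    {P : E d × E d → ℝ} (hm : Continuous P)
    (hb : ∀ p : E d × E d, ‖p.1‖ ≤ 2 * R → ‖p.2‖ ≤ 2 * R → |P p| ≤ M * ‖p.1 - p.2‖ ^ 2) :
    Integrable (fun p : E d × E d => P p * (th R p.1 * th R p.2) * K d s (p.1 - p.2)) := by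
  obtain ⟨t1, t2, t3, t4, t5⟩ := th_facts (d := d) hR
  have htc : Continuous (th R : E d → ℝ) := (t1 0).continuous
  have hind : Integrable (ib (2 * R) : E d → ℝ) := by
    unfold ib
    exact (integrable_indicator_iff Metric.isClosed_closedBall.measurableSet).2
      (integrableOn_const measure_closedBall_lt_top.ne enorm_ne_top)
  refine int_dom hd hs0 hs1 (fun p : E d × E d => P p * (th R p.1 * th R p.2))
    (Continuous.aestronglyMeasurable (by fun_prop)) (M * (1 + (4 * R) ^ 2)) (ib (2 * R)) hind fun p => ?_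
  have hib : ∀ x : E d, 0 ≤ ib (2 * R) x := fun x =>
    Set.indicator_nonneg (fun _ _ => zero_le_one) _
  by_cases hx : ‖p.1‖ ≤ 2 * R
  · by_cases hy : ‖p.2‖ ≤ 2 * R
    · have h1 := hb p hx hy
      have h2 : ib (2 * R) p.1 = 1 := by
        unfold ib
        rw [Set.indicator_of_mem (by simpa using hx)]
      have h4 : ‖p.1 - p.2‖ ^ 2 ≤ (1 + (4 * R) ^ 2) * min 1 (‖p.1 - p.2‖ ^ 2) := by
        have h5 : ‖p.1 - p.2‖ ≤ 4 * R := (norm_sub_le _ _).trans (by linarith)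
        have h6 : ‖p.1 - p.2‖ ^ 2 ≤ (4 * R) ^ 2 := pow_le_pow_left₀ (norm_nonneg _) h5 2
        rcases le_total 1 (‖p.1 - p.2‖ ^ 2) with h | h
        · rw [min_eq_left h]
          linarith
        · rw [min_eq_right h]
          have : 0 ≤ (4 * R) ^ 2 * ‖p.1 - p.2‖ ^ 2 := by positivity
          nlinarith
      have h7 : |P p * (th R p.1 * th R p.2)| ≤ M * ‖p.1 - p.2‖ ^ 2 := by
        rw [abs_mul, abs_of_nonneg (mul_nonneg (t3 p.1).1 (t3 p.2).1)]
        calc |P p| * (th R p.1 * th R p.2) ≤ (M * ‖p.1 - p.2‖ ^ 2) * (1 * 1) := by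
              gcongr
              · exact mul_nonneg (t3 p.1).1 (t3 p.2).1
              · exact (t3 p.2).1
              · exact (t3 p.1).2
              · exact (t3 p.2).2
          _ = _ := by ring
      refine h7.trans ?_
      have h8 : 0 ≤ min 1 (‖p.1 - p.2‖ ^ 2) := le_min zero_le_one (by positivity)
      calc M * ‖p.1 - p.2‖ ^ 2 ≤ M * ((1 + (4 * R) ^ 2) * min 1 (‖p.1 - p.2‖ ^ 2)) := by gcongr
        _ = M * (1 + (4 * R) ^ 2) * min 1 (‖p.1 - p.2‖ ^ 2) * 1 := by ring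
        _ ≤ M * (1 + (4 * R) ^ 2) * min 1 (‖p.1 - p.2‖ ^ 2) * (ib (2 * R) p.1 + ib (2 * R) p.2) := by
            gcongr
            rw [h2]
            linarith [hib p.2]
    · rw [t5 p.2 (not_le.1 hy).le]
      have h8 : 0 ≤ min 1 (‖p.1 - p.2‖ ^ 2) := le_min zero_le_one (by positivity)
      have h9 := hib p.1
      have h10 := hib p.2
      simp only [mul_zero, abs_zero]
      positivity
  · rw [t5 p.1 (not_le.1 hx).le]
    have h8 : 0 ≤ min 1 (‖p.1 - p.2‖ ^ 2) := le_min zero_le_one (by positivity)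
    have h9 := hib p.1
    have h10 := hib p.2
    simp only [zero_mul, mul_zero, abs_zero]
    positivity

private theorem fe_gap {d : ℕ} (a b : E d) :
    0 ≤ ‖a‖ * ‖b‖ - inner ℝ a b ∧ 2 * (‖a‖ * ‖b‖ - inner ℝ a b) ≤ ‖a - b‖ ^ 2 := by
  refine ⟨sub_nonneg.2 (real_inner_le_norm a b), ?_⟩
  rw [norm_sub_sq_real]
  nlinarith [sq_nonneg (‖a‖ - ‖b‖)]

private theorem fe_ztlip {d : ℕ} (a : ℝ) (ρ : ℝ) : ∃ L : ℝ, 0 ≤ L ∧
    (∀ x y : E d, ‖x‖ ≤ ρ → ‖y‖ ≤ ρ → |zt a x - zt a y| ≤ L * ‖x - y‖) ∧ ∀ x : E d, ‖x‖ ≤ ρ → zt a x ≤ L := by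
  have hc : ContDiff ℝ 1 (zt a : E d → ℝ) := contDiff_zt a 1
  obtain ⟨C, hC⟩ := (isCompact_closedBall (0 : E d) ρ).exists_bound_of_continuousOn
    (hc.continuous_fderiv (by norm_num)).continuousOn
  obtain ⟨D, hD⟩ := (isCompact_closedBall (0 : E d) ρ).exists_bound_of_continuousOn
    hc.continuous.continuousOn
  refine ⟨|C| + |D|, by positivity, fun x y hx hy => ?_, fun x hx => ?_⟩
  · have h := (convex_closedBall (0 : E d) ρ).norm_image_sub_le_of_norm_fderiv_le (f := zt a) (C := C)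
      (fun z _ => hc.differentiable (by norm_num) z) hC (x := y) (y := x)
      (by simpa using hy) (by simpa using hx)
    rw [Real.norm_eq_abs] at h
    refine h.trans (mul_le_mul_of_nonneg_right ?_ (norm_nonneg _))
    exact (le_abs_self C).trans (by linarith [abs_nonneg D])
  · have h := hD x (by simpa using hx)
    rw [Real.norm_eq_abs] at h
    exact (le_abs_self _).trans (h.trans ((le_abs_self D).trans (by linarith [abs_nonneg C])))

private theorem fe_two {d : ℕ} {s : ℝ} (hd : 1 ≤ d) (hs0 : 0 < s) (hs1 : s < 1) (a : ℝ) {R M : ℝ} (hR : 0 < R)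
    (hM : 0 ≤ M) {V : E d → E d} (hVc : Continuous V)
    (hV1 : ∀ x y : E d, ‖x‖ ≤ 2 * R → ‖y‖ ≤ 2 * R → ‖V x - V y‖ ≤ M * ‖x - y‖)
    (hV0 : ∀ x : E d, ‖x‖ ≤ 2 * R → ‖V x‖ ≤ M) :
    Integrable (fun p : E d × E d => (‖V p.1‖ * ‖V p.2‖ * (zt a p.1 * zt a p.2) -
      (1 / 2) * (zt a p.1 ^ 2 + zt a p.2 ^ 2) * inner ℝ (V p.1) (V p.2)) * (th R p.1 * th R p.2) * K d s (p.1 - p.2)) ∧
    Integrable (fun p : E d × E d =>
      inner ℝ (V p.1) (V p.2) * (th R p.1 * th R p.2 * (zt a p.1 - zt a p.2) ^ 2) * K d s (p.1 - p.2)) := by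
  obtain ⟨L, hL0, hL1, hL2⟩ := fe_ztlip (d := d) a (2 * R)
  have hz : Continuous (zt a : E d → ℝ) := (contDiff_zt a 0).continuous
  have hin : ∀ p : E d × E d, ‖p.1‖ ≤ 2 * R → ‖p.2‖ ≤ 2 * R →
      |inner ℝ (V p.1) (V p.2) * (zt a p.1 - zt a p.2) ^ 2| ≤ (M ^ 2 * L ^ 2) * ‖p.1 - p.2‖ ^ 2 := by
    intro p hx hy
    rw [abs_mul, abs_of_nonneg (sq_nonneg (zt a p.1 - zt a p.2)), ← sq_abs (zt a p.1 - zt a p.2)]
    calc |inner ℝ (V p.1) (V p.2)| * |zt a p.1 - zt a p.2| ^ 2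
        ≤ (M * M) * (L * ‖p.1 - p.2‖) ^ 2 := by
          gcongr
          · exact (abs_real_inner_le_norm _ _).trans (mul_le_mul (hV0 _ hx) (hV0 _ hy) (norm_nonneg _) hM)
          · exact hL1 _ _ hx hy
      _ = _ := by ring
  constructor
  · refine fe_cut hd hs0 hs1 (M := L ^ 2 * M ^ 2 / 2 + M ^ 2 * L ^ 2 / 2) hR (by positivity) (by fun_prop) fun p hx hy => ?_
    have e : ‖V p.1‖ * ‖V p.2‖ * (zt a p.1 * zt a p.2) -
        1 / 2 * (zt a p.1 ^ 2 + zt a p.2 ^ 2) * inner ℝ (V p.1) (V p.2) =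
        (‖V p.1‖ * ‖V p.2‖ - inner ℝ (V p.1) (V p.2)) * (zt a p.1 * zt a p.2) -
          1 / 2 * (inner ℝ (V p.1) (V p.2) * (zt a p.1 - zt a p.2) ^ 2) := by ring
    have z1 := (zt_pos a p.1).le
    have z2 := (zt_pos a p.2).le
    have g := fe_gap (V p.1) (V p.2)
    have h1 : |(‖V p.1‖ * ‖V p.2‖ - inner ℝ (V p.1) (V p.2)) * (zt a p.1 * zt a p.2)| ≤
        L ^ 2 * M ^ 2 / 2 * ‖p.1 - p.2‖ ^ 2 := by
      rw [abs_of_nonneg (mul_nonneg g.1 (by positivity))]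
      calc (‖V p.1‖ * ‖V p.2‖ - inner ℝ (V p.1) (V p.2)) * (zt a p.1 * zt a p.2)
          ≤ ((M * ‖p.1 - p.2‖) ^ 2 / 2) * (L * L) := by
            have h5 : ‖V p.1 - V p.2‖ ^ 2 ≤ (M * ‖p.1 - p.2‖) ^ 2 :=
              pow_le_pow_left₀ (norm_nonneg _) (hV1 _ _ hx hy) 2
            refine mul_le_mul (by linarith [g.2]) (mul_le_mul (hL2 _ hx) (hL2 _ hy) z2 hL0) (by positivity) (by positivity)
        _ = _ := by ring
    rw [e]
    refine (abs_sub _ _).trans ?_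
    rw [abs_mul (1 / 2), abs_of_pos (by norm_num : (0 : ℝ) < 1 / 2)]
    have h2 := hin p hx hy
    calc _ ≤ L ^ 2 * M ^ 2 / 2 * ‖p.1 - p.2‖ ^ 2 + 1 / 2 * ((M ^ 2 * L ^ 2) * ‖p.1 - p.2‖ ^ 2) := by
          gcongr
      _ = _ := by ring
  · have h := fe_cut hd hs0 hs1 (M := M ^ 2 * L ^ 2) hR (by positivity)
      (P := fun p : E d × E d => inner ℝ (V p.1) (V p.2) * (zt a p.1 - zt a p.2) ^ 2) (by fun_prop) hin
    refine h.congr (Filter.Eventually.of_forall fun p => ?_)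
    simp only
    ring

private theorem fe_gWc {d k : ℕ} {u : E d → ℝ} (hu : ContDiff ℝ 2 u) : Continuous (gW k u) := by
  unfold gW
  have h1 : Continuous (fderiv ℝ u) := hu.continuous_fderiv (by norm_num)
  refine (PiLp.continuous_toLp 2 _).comp (continuous_pi fun i => ?_)
  by_cases h : (i : ℕ) < k
  · simp only [h, if_true, pd]
    fun_prop
  · simp only [h, if_false]
    fun_prop

private theorem fe_Vac {d k : ℕ} {u : E d → ℝ} (hu : ContDiff ℝ 2 u) (hr : Rot k u) : Continuous (Va k u) := by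
  rw [continuous_iff_continuousAt]
  intro x
  obtain ⟨M, hM0, -, hM2, -, -⟩ := fd_bound (k := k) hu hr (‖x‖ + 1) (by positivity)
  rw [Metric.continuousAt_iff]
  intro ε hε
  refine ⟨min 1 (ε / (M + 1)), by positivity, fun {y} hy => ?_⟩
  rw [dist_eq_norm] at hy ⊢
  have hy1 : ‖y - x‖ < 1 := hy.trans_le (min_le_left _ _)
  have hy2 : ‖y - x‖ < ε / (M + 1) := hy.trans_le (min_le_right _ _)
  have hyn : ‖y‖ ≤ ‖x‖ + 1 := by
    have : ‖y‖ ≤ ‖y - x‖ + ‖x‖ := by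
      calc ‖y‖ = ‖(y - x) + x‖ := by rw [sub_add_cancel]
        _ ≤ _ := norm_add_le _ _
    linarith
  have h := hM2 y x hyn (by linarith)
  refine h.trans_lt ?_
  rw [lt_div_iff₀ (by positivity)] at hy2
  nlinarith [norm_nonneg (y - x)]

/-- MODULE fe. Integrability of the three integrands below (`int_dom`, `Va_lip`, `NDG.gap_le`-type bounds): with
`P = θ_R x θ_R y`,
(i) `(‖W‖‖W'‖ ξξ' - (1/2)(ξ^2+ξ'^2) ⟪W,W'⟫) P K`, (ii) the same with `⟪Va,Va'⟫`, (iii) `(ξ-ξ')^2 ⟪W,W'⟫ P K`. -/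
theorem fin_int {d k : ℕ} {s : ℝ} (hd : 1 ≤ d) (hs0 : 0 < s) (hs1 : s < 1) {u : E d → ℝ} (hu : ContDiff ℝ 2 u)
    (hr : Rot k u) (a : ℝ) {R : ℝ} (hR : 0 < R) :
    Integrable (fun p : E d × E d => (‖gW k u p.1‖ * ‖gW k u p.2‖ * (zt a p.1 * zt a p.2) -
      (1 / 2) * (zt a p.1 ^ 2 + zt a p.2 ^ 2) * inner ℝ (gW k u p.1) (gW k u p.2)) * (th R p.1 * th R p.2) * K d s (p.1 - p.2)) ∧
    Integrable (fun p : E d × E d => (‖gW k u p.1‖ * ‖gW k u p.2‖ * (zt a p.1 * zt a p.2) -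
      (1 / 2) * (zt a p.1 ^ 2 + zt a p.2 ^ 2) * inner ℝ (Va k u p.1) (Va k u p.2)) * (th R p.1 * th R p.2) * K d s (p.1 - p.2)) ∧
    Integrable (fun p : E d × E d =>
      inner ℝ (gW k u p.1) (gW k u p.2) * (th R p.1 * th R p.2 * (zt a p.1 - zt a p.2) ^ 2) * K d s (p.1 - p.2)) := by
  obtain ⟨M, hM0, hM1, hM2, hM3, hM4⟩ := fd_bound (k := k) hu hr (2 * R) (by positivity)
  have hn := (Va_lip hu hr).1
  have h1 := fe_two hd hs0 hs1 a hR hM0 (fe_gWc (k := k) hu) hM1 hM4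
  have h2 := fe_two hd hs0 hs1 a hR hM0 (fe_Vac (k := k) hu hr) hM2 hM3
  refine ⟨h1.1, ?_, h1.2⟩
  simp_rw [hn] at h2
  exact h2.1

/-- MODULE ff. (4.1): `I_R ≤ M_R`, where `M_R = -(1/4) ∑_{i<k} ∫ (u-u')^2 mix(ξ^2θ, θ)`. Proof: `sz` with the first `k`
coordinate vectors, `ξ = zt a`, `θ = θ_R`, `gW_wv`; `‖W‖‖W'‖ξξ' - (1/2)(ξ^2+ξ'^2)⟪W,W'⟫ = (‖W‖‖W'‖ - ⟪W,W'⟫)ξξ' - (1/2)(ξ-ξ')^2⟪W,W'⟫`. -/
theorem I_le {d k : ℕ} {s c : ℝ} (hk : k ≤ d) (hd : 1 ≤ d) (hs0 : 0 < s) (hs1 : s < 1) (hc : 0 < c) {u : E d → ℝ}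
    (hu : Entire d s c u) (hst : Stable d s c u) (hr : Rot k u) (a : ℝ) {R : ℝ} (hR : 0 < R) :
    ∫ p : E d × E d, (‖gW k u p.1‖ * ‖gW k u p.2‖ * (zt a p.1 * zt a p.2) -
      (1 / 2) * (zt a p.1 ^ 2 + zt a p.2 ^ 2) * inner ℝ (gW k u p.1) (gW k u p.2)) * (th R p.1 * th R p.2) * K d s (p.1 - p.2) ≤
    -(1 / 4) * ∑ i : Fin k, ∫ p : E d × E d, (u p.1 - u p.2) ^ 2 *
      mix d s (fun x => zt a x ^ 2 * th R x) (th R) (bv (Fin.castLE hk i)) p.1 p.2 := by
  set ν : Fin k → E d := fun i => bv (Fin.castLE hk i) with hν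
  have hν1 : ∀ i, ‖ν i‖ ≤ 1 := fun i => by
    rw [hν]
    simp [bv]
  obtain ⟨t1, t2, t3, t4, t5⟩ := th_facts (d := d) hR
  have h := sz hd hs0 hs1 hc hu hst hν1 (contDiff_zt a 2) (θ := th R) (by exact_mod_cast t1 2) t2
  obtain ⟨i1, -, i3⟩ := fin_int (k := k) hd hs0 hs1 hu.smooth hr a hR
  have e1 : ∀ p : E d × E d, (‖wv ν u p.1‖ * ‖wv ν u p.2‖ - inner ℝ (wv ν u p.1) (wv ν u p.2)) *
        (zt a p.1 * th R p.1 * (zt a p.2 * th R p.2)) * K d s (p.1 - p.2) =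
      ((‖gW k u p.1‖ * ‖gW k u p.2‖ * (zt a p.1 * zt a p.2) -
      (1 / 2) * (zt a p.1 ^ 2 + zt a p.2 ^ 2) * inner ℝ (gW k u p.1) (gW k u p.2)) * (th R p.1 * th R p.2) * K d s (p.1 - p.2)) +
      1 / 2 * (inner ℝ (gW k u p.1) (gW k u p.2) * (th R p.1 * th R p.2 * (zt a p.1 - zt a p.2) ^ 2) * K d s (p.1 - p.2)) := by
    intro p
    rw [← (gW_wv hk u p.1 p.2).1, ← (gW_wv hk u p.1 p.2).2, ← (gW_wv hk u p.2 p.2).2]
    ring
  have e2 : ∀ p : E d × E d, inner ℝ (wv ν u p.1) (wv ν u p.2) *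
        (th R p.1 * th R p.2 * (zt a p.1 - zt a p.2) ^ 2) * K d s (p.1 - p.2) =
      inner ℝ (gW k u p.1) (gW k u p.2) * (th R p.1 * th R p.2 * (zt a p.1 - zt a p.2) ^ 2) * K d s (p.1 - p.2) := by
    intro p
    rw [← (gW_wv hk u p.1 p.2).1]
  simp_rw [e1, e2] at h
  rw [integral_add i1 (i3.const_mul _), integral_const_mul] at h
  linarith

/-- MODULE fg. REFLECTION. If `S x y = q x y * ⟪pr k x, pr k y⟫` with `q x y ≥ 0` for all `x, y` and `q (x, y - 2 pr k y) = q (x, y)`, then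
`∫ S K (x-y) = (1/2) ∫ S (K (x-y) - K (x - y + 2 pr k y)) ≥ 0`, the integrand of the right side being nonnegative:
`|x-y|^2 - |x-σy|^2 = -4 ⟪pr x, pr y⟫`. (`y ↦ σ y = y - 2 pr k y` preserves the volume; the reflected integrand is integrable too.) -/
theorem reflect {d k : ℕ} {s : ℝ} (hd : 1 ≤ d) (hs0 : 0 < s) (q : E d × E d → ℝ) (hq : ∀ p, 0 ≤ q p)
    (hq2 : ∀ x y : E d, q (x, y - (2 : ℝ) • pr k y) = q (x, y))
    (hi : Integrable (fun p : E d × E d => q p * inner ℝ (pr k p.1) (pr k p.2) * K d s (p.1 - p.2))) :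
    Integrable (fun p : E d × E d => q p * (inner ℝ (pr k p.1) (pr k p.2) *
      (K d s (p.1 - p.2) - K d s (p.1 - p.2 + (2 : ℝ) • pr k p.2)))) ∧
    (∫ p : E d × E d, q p * inner ℝ (pr k p.1) (pr k p.2) * K d s (p.1 - p.2) =
      (1 / 2) * ∫ p : E d × E d, q p * (inner ℝ (pr k p.1) (pr k p.2) *
        (K d s (p.1 - p.2) - K d s (p.1 - p.2 + (2 : ℝ) • pr k p.2)))) ∧
    ∀ x y : E d, x ≠ y → x ≠ y - (2 : ℝ) • pr k y →
      0 ≤ inner ℝ (pr k x) (pr k y) * (K d s (x - y) - K d s (x - y + (2 : ℝ) • pr k y)) := by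
  obtain ⟨g, hg, hgx⟩ := exists_flip d k
  have mp : MeasurePreserving (Prod.map id g : E d × E d → E d × E d) volume volume := by
    rw [Measure.volume_eq_prod]
    exact (MeasurePreserving.id volume).prod g.measurePreserving
  have me : MeasurableEmbedding (Prod.map id g : E d × E d → E d × E d) :=
    (MeasurableEquiv.prodCongr (MeasurableEquiv.refl _) g.toHomeomorph.toMeasurableEquiv).measurableEmbedding
  have hprg : ∀ y : E d, pr k (y - (2 : ℝ) • pr k y) = - pr k y := by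
    intro y
    rw [pr_sub, pr_smul, pr_pr, two_smul]
    abel
  have e1 : ∀ p : E d × E d, (fun p : E d × E d => q p * inner ℝ (pr k p.1) (pr k p.2) * K d s (p.1 - p.2))
      (Prod.map id g p) = -(q p * inner ℝ (pr k p.1) (pr k p.2) * K d s (p.1 - p.2 + (2 : ℝ) • pr k p.2)) := by
    intro p
    simp only [Prod.map_fst, Prod.map_snd, id, hgx]
    have h1 : q (Prod.map id g p) = q p := by
      have := hq2 p.1 p.2
      rw [← hgx] at this
      exact this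
    rw [h1, hprg, inner_neg_right,
      show p.1 - (p.2 - (2 : ℝ) • pr k p.2) = p.1 - p.2 + (2 : ℝ) • pr k p.2 by abel]
    ring
  have i2 : Integrable (fun p : E d × E d => -(q p * inner ℝ (pr k p.1) (pr k p.2) *
      K d s (p.1 - p.2 + (2 : ℝ) • pr k p.2))) := by
    have := (mp.integrable_comp_emb me).2 hi
    refine this.congr (Filter.Eventually.of_forall fun p => ?_)
    exact e1 p
  have e2 : ∫ p : E d × E d, -(q p * inner ℝ (pr k p.1) (pr k p.2) * K d s (p.1 - p.2 + (2 : ℝ) • pr k p.2)) =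
      ∫ p : E d × E d, q p * inner ℝ (pr k p.1) (pr k p.2) * K d s (p.1 - p.2) := by
    have h1 := mp.integral_comp me (fun p : E d × E d => q p * inner ℝ (pr k p.1) (pr k p.2) * K d s (p.1 - p.2))
    rw [← h1]
    refine integral_congr_ae (Filter.Eventually.of_forall fun p => ?_)
    exact (e1 p).symm
  have e3 : ∀ p : E d × E d, q p * (inner ℝ (pr k p.1) (pr k p.2) *
        (K d s (p.1 - p.2) - K d s (p.1 - p.2 + (2 : ℝ) • pr k p.2))) =
      q p * inner ℝ (pr k p.1) (pr k p.2) * K d s (p.1 - p.2) +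
      -(q p * inner ℝ (pr k p.1) (pr k p.2) * K d s (p.1 - p.2 + (2 : ℝ) • pr k p.2)) := by
    intro p; ring
  refine ⟨?_, ?_, ?_⟩
  · simp_rw [e3]
    exact hi.add i2
  · simp_rw [e3]
    rw [integral_add hi i2, e2]
    ring
  · intro x y hxy hxy'
    have n1 : x - y ≠ 0 := sub_ne_zero.2 hxy
    have e4 : x - y + (2 : ℝ) • pr k y = x - (y - (2 : ℝ) • pr k y) := by abel
    have n2 : x - y + (2 : ℝ) • pr k y ≠ 0 := by
      rw [e4]
      exact sub_ne_zero.2 hxy'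
    have e5 : ‖x - y + (2 : ℝ) • pr k y‖ ^ 2 = ‖x - y‖ ^ 2 + 4 * inner ℝ (pr k x) (pr k y) := by
      rw [norm_add_sq_real, inner_smul_right, norm_smul, mul_pow, inner_sub_left]
      have h1 : inner ℝ x (pr k y) = inner ℝ (pr k x) (pr k y) := by
        rw [real_inner_comm, inner_pr, real_inner_comm]
      have h2 : inner ℝ y (pr k y) = ‖pr k y‖ ^ 2 := by
        rw [real_inner_comm, inner_pr, real_inner_self_eq_norm_sq]
      rw [h1, h2, Real.norm_of_nonneg (by norm_num : (0 : ℝ) ≤ 2)]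
      ring
    rcases le_total 0 (inner ℝ (pr k x) (pr k y)) with h | h
    · refine mul_nonneg h (sub_nonneg.2 (ker_anti hs0 n1 ?_))
      have : ‖x - y‖ ^ 2 ≤ ‖x - y + (2 : ℝ) • pr k y‖ ^ 2 := by rw [e5]; linarith
      exact le_of_sq_le_sq this (norm_nonneg _)
    · refine mul_nonneg_of_nonpos_of_nonpos h (sub_nonpos.2 (ker_anti hs0 n2 ?_))
      have : ‖x - y + (2 : ℝ) • pr k y‖ ^ 2 ≤ ‖x - y‖ ^ 2 := by rw [e5]; linarith
      exact le_of_sq_le_sq this (norm_nonneg _)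

private theorem fh_null {d : ℕ} (hd : 1 ≤ d) (g : E d ≃ₗᵢ[ℝ] E d) :
    ∀ᵐ p : E d × E d, p.1 ≠ g p.2 := by
  have : Nonempty (Fin d) := ⟨⟨0, hd⟩⟩
  have hm : MeasurableSet {p : E d × E d | p.1 = g p.2} :=
    (isClosed_eq continuous_fst (g.continuous.comp continuous_snd)).measurableSet
  rw [ae_iff]
  have e : {p : E d × E d | ¬ p.1 ≠ g p.2} = {p : E d × E d | p.1 = g p.2} := by
    ext p; simp
  rw [e, Measure.volume_eq_prod, Measure.measure_prod_null hm]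
  refine Filter.Eventually.of_forall fun x => ?_
  have : Prod.mk x ⁻¹' {p : E d × E d | p.1 = g p.2} ⊆ {g.symm x} := by
    intro y hy
    simp only [mem_preimage, mem_ofPred_eq] at hy
    rw [mem_singleton_iff, hy, LinearIsometryEquiv.symm_apply_apply]
  exact measure_mono_null this (measure_singleton _)

/-- MODULE fh. `∫ (1/2)(ξ^2+ξ'^2)(⟪Va,Va'⟫ - ⟪W,W'⟫) θθ'K ≥ 0`. Proof: `⟪Va,Va'⟫ - ⟪W,W'⟫ = (|ψψ'| - ψψ') ⟪pr,pr'⟫/(rr')`,
`ψ = ⟪W,pr⟫/r` (`W = ψ pr/r`), and `ψ` is invariant under the flip `σ` (`gW_equi`, `exists_flip`); `reflect` with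
`q = (1/2)(ξ^2+ξ'^2)(|ψψ'| - ψψ')/(rr') θθ'` (the diagonal and `{x = σy}` are null sets); integrable by `fin_int`. -/
theorem D_nonneg {d k : ℕ} {s : ℝ} (hd : 1 ≤ d) (hs0 : 0 < s) (hs1 : s < 1) {u : E d → ℝ} (hu : ContDiff ℝ 2 u)
    (hr : Rot k u) (a : ℝ) {R : ℝ} (hR : 0 < R) :
    ∫ p : E d × E d, (‖gW k u p.1‖ * ‖gW k u p.2‖ * (zt a p.1 * zt a p.2) -
      (1 / 2) * (zt a p.1 ^ 2 + zt a p.2 ^ 2) * inner ℝ (Va k u p.1) (Va k u p.2)) * (th R p.1 * th R p.2) * K d s (p.1 - p.2) ≤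
    ∫ p : E d × E d, (‖gW k u p.1‖ * ‖gW k u p.2‖ * (zt a p.1 * zt a p.2) -
      (1 / 2) * (zt a p.1 ^ 2 + zt a p.2 ^ 2) * inner ℝ (gW k u p.1) (gW k u p.2)) * (th R p.1 * th R p.2) * K d s (p.1 - p.2) := by
  set ψ : E d → ℝ := fun x => inner ℝ (gW k u x) (pr k x) / ‖pr k x‖ with hψ
  have hEW := gW_equi hu hr
  have hpar := equi_par hEW
  have hW : ∀ x, gW k u x = (ψ x / ‖pr k x‖) • pr k x := by
    intro x
    obtain ⟨q, hq⟩ := hpar x
    by_cases h : pr k x = 0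
    · rw [hq, h, smul_zero, smul_zero]
    · have hn : ‖pr k x‖ ≠ 0 := norm_ne_zero_iff.2 h
      have : ψ x / ‖pr k x‖ = q := by
        simp only [hψ]
        rw [hq, inner_smul_left, real_inner_self_eq_norm_sq]
        simp only [conj_trivial]
        field_simp
      rw [this, hq]
  have hnW : ∀ x, ‖gW k u x‖ = |ψ x| := by
    intro x
    by_cases h : pr k x = 0
    · rw [hW x, h, smul_zero, norm_zero]
      simp only [hψ]
      rw [h, inner_zero_right, zero_div, abs_zero]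
    · have hn : ‖pr k x‖ ≠ 0 := norm_ne_zero_iff.2 h
      rw [hW x, norm_smul, Real.norm_eq_abs, abs_div, abs_norm]
      field_simp
  obtain ⟨g, hg, hgx⟩ := exists_flip d k
  have hgr : ∀ y, pr k (g y) = g (pr k y) := fun y => (pr_ok hg y).1
  have hψg : ∀ y, ψ (g y) = ψ y := by
    intro y
    simp only [hψ]
    rw [hEW.1 g hg, hgr, LinearIsometryEquiv.norm_map, LinearIsometryEquiv.inner_map_map]
  obtain ⟨t1, t2, t3, t4, t5⟩ := th_facts (d := d) hR
  set q : E d × E d → ℝ := fun p => (1 / 2) * (zt a p.1 ^ 2 + zt a p.2 ^ 2) *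
    ((|ψ p.1| * |ψ p.2| - ψ p.1 * ψ p.2) / (‖pr k p.1‖ * ‖pr k p.2‖)) * (th R p.1 * th R p.2) with hq
  have hq0 : ∀ p, 0 ≤ q p := by
    intro p
    simp only [hq]
    have h1 : 0 ≤ |ψ p.1| * |ψ p.2| - ψ p.1 * ψ p.2 := by
      rw [← abs_mul]
      exact sub_nonneg.2 (le_abs_self _)
    have h2 := (t3 p.1).1
    have h3 := (t3 p.2).1
    positivity
  have hq2 : ∀ x y : E d, q (x, y - (2 : ℝ) • pr k y) = q (x, y) := by
    intro x y
    rw [← hgx]
    have e1 := fd_inv hg a R y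
    simp only [hq]
    rw [e1.1, e1.2, hψg, hgr, LinearIsometryEquiv.norm_map]
  obtain ⟨i1, i2, -⟩ := fin_int (k := k) hd hs0 hs1 hu hr a hR
  have hdiff : ∀ p : E d × E d, (‖gW k u p.1‖ * ‖gW k u p.2‖ * (zt a p.1 * zt a p.2) -
      (1 / 2) * (zt a p.1 ^ 2 + zt a p.2 ^ 2) * inner ℝ (gW k u p.1) (gW k u p.2)) * (th R p.1 * th R p.2) * K d s (p.1 - p.2) -
      (‖gW k u p.1‖ * ‖gW k u p.2‖ * (zt a p.1 * zt a p.2) -
      (1 / 2) * (zt a p.1 ^ 2 + zt a p.2 ^ 2) * inner ℝ (Va k u p.1) (Va k u p.2)) * (th R p.1 * th R p.2) * K d s (p.1 - p.2) =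
      q p * inner ℝ (pr k p.1) (pr k p.2) * K d s (p.1 - p.2) := by
    intro p
    have h1 : inner ℝ (Va k u p.1) (Va k u p.2) =
        (|ψ p.1| / ‖pr k p.1‖) * ((|ψ p.2| / ‖pr k p.2‖) * inner ℝ (pr k p.1) (pr k p.2)) := by
      unfold Va
      rw [hnW, hnW, inner_smul_left, inner_smul_right]
      simp only [conj_trivial]
    have h2 : inner ℝ (gW k u p.1) (gW k u p.2) =
        (ψ p.1 / ‖pr k p.1‖) * ((ψ p.2 / ‖pr k p.2‖) * inner ℝ (pr k p.1) (pr k p.2)) := by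
      rw [hW p.1, hW p.2, inner_smul_left, inner_smul_right]
      simp only [conj_trivial]
    rw [h1, h2]
    simp only [hq]
    ring
  have hi : Integrable (fun p : E d × E d => q p * inner ℝ (pr k p.1) (pr k p.2) * K d s (p.1 - p.2)) := by
    refine (i1.sub i2).congr (Filter.Eventually.of_forall fun p => ?_)
    exact hdiff p
  obtain ⟨-, r2, r3⟩ := reflect (k := k) hd hs0 q hq0 hq2 hi
  rw [← sub_nonneg, ← integral_sub i1 i2]
  simp_rw [hdiff]
  rw [r2]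
  refine mul_nonneg (by norm_num) (integral_nonneg_of_ae ?_)
  filter_upwards [fh_null hd (LinearIsometryEquiv.refl ℝ (E d)), fh_null hd g] with p h1 h2
  refine mul_nonneg (hq0 p) (r3 p.1 p.2 h1 ?_)
  rwa [← hgx]

/-- `β = (1/2)(ζ_b/ζ_b' + ζ_b'/ζ_b) - (1/2)(ζ_a/ζ_a' + ζ_a'/ζ_a)`. -/
noncomputable def bt {d : ℕ} (a b : ℝ) (x y : E d) : ℝ :=
  (1 / 2) * (zt b x / zt b y + zt b y / zt b x) - (1 / 2) * (zt a x / zt a y + zt a y / zt a x)

private theorem fi_div {d : ℕ} (b : ℝ) (x y : E d) : zt b x / zt b y =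
    Real.exp (-(b * ((Real.log (1 + ‖x‖ ^ 2) - Real.log (1 + ‖y‖ ^ 2)) / 2))) := by
  have hx : 0 < 1 + ‖x‖ ^ 2 := by positivity
  have hy : 0 < 1 + ‖y‖ ^ 2 := by positivity
  unfold zt
  rw [Real.rpow_def_of_pos hx, Real.rpow_def_of_pos hy, ← Real.exp_sub]
  congr 1
  ring

private theorem fi_cosh {d : ℕ} (a b : ℝ) (x y : E d) : bt a b x y =
    Real.cosh (b * ((Real.log (1 + ‖x‖ ^ 2) - Real.log (1 + ‖y‖ ^ 2)) / 2)) -
      Real.cosh (a * ((Real.log (1 + ‖x‖ ^ 2) - Real.log (1 + ‖y‖ ^ 2)) / 2)) := by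
  unfold bt
  rw [fi_div b x y, fi_div b y x, fi_div a x y, fi_div a y x, Real.cosh_eq, Real.cosh_eq]
  have e1 : ∀ c : ℝ, -(c * ((Real.log (1 + ‖y‖ ^ 2) - Real.log (1 + ‖x‖ ^ 2)) / 2)) =
      c * ((Real.log (1 + ‖x‖ ^ 2) - Real.log (1 + ‖y‖ ^ 2)) / 2) := fun c => by ring
  rw [e1, e1]
  ring

private theorem fi_log {X Y : ℝ} (hX : 1 ≤ X) (hY : 1 ≤ Y) :
    |Real.log X - Real.log Y| ≤ |X - Y| := by
  have key : ∀ X Y : ℝ, 1 ≤ X → 1 ≤ Y → Real.log X - Real.log Y ≤ |X - Y| := by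
    intro X Y hX hY
    have hX0 : 0 < X := by linarith
    have hY0 : 0 < Y := by linarith
    rw [← Real.log_div hX0.ne' hY0.ne']
    refine (Real.log_le_sub_one_of_pos (by positivity)).trans ?_
    have e : X / Y - 1 = (X - Y) / Y := by field_simp
    rw [e]
    calc (X - Y) / Y ≤ |X - Y| / Y := by gcongr; exact le_abs_self _
      _ ≤ |X - Y| / 1 := by gcongr
      _ = |X - Y| := by ring
  rw [abs_le]
  constructor
  · have := key Y X hY hX
    rw [abs_sub_comm] at this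
    linarith
  · exact key X Y hX hY

/-- MODULE fi. `β = cosh (b L) - cosh (a L)`, `L = (1/2) log ((1+|x|^2)/(1+|y|^2))`: nonnegative for `0 ≤ a ≤ b`, positive if `a < b` and
`|x| ≠ |y|`, and `O(|x-y|^2)` on balls. -/
theorem bt_facts {d : ℕ} {a b : ℝ} (ha : 0 ≤ a) (hab : a < b) :
    (∀ x y : E d, 0 ≤ bt a b x y) ∧ (∀ x y : E d, ‖x‖ ≠ ‖y‖ → 0 < bt a b x y) ∧
    ∀ ρ : ℝ, ∃ C : ℝ, 0 ≤ C ∧ ∀ x y : E d, ‖x‖ ≤ ρ → ‖y‖ ≤ ρ → bt a b x y ≤ C * ‖x - y‖ ^ 2 := by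
  have hb : 0 < b := lt_of_le_of_lt ha hab
  refine ⟨fun x y => ?_, fun x y hxy => ?_, fun ρ => ?_⟩
  · rw [fi_cosh, sub_nonneg, Real.cosh_le_cosh, abs_mul, abs_mul, abs_of_nonneg ha,
      abs_of_pos hb]
    exact mul_le_mul_of_nonneg_right hab.le (abs_nonneg _)
  · rw [fi_cosh, sub_pos, Real.cosh_lt_cosh, abs_mul, abs_mul, abs_of_nonneg ha,
      abs_of_pos hb]
    refine mul_lt_mul_of_pos_right hab ?_
    rw [abs_pos]
    intro h0
    apply hxy
    have h1 : Real.log (1 + ‖x‖ ^ 2) = Real.log (1 + ‖y‖ ^ 2) := by linarith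
    have h2 : 1 + ‖x‖ ^ 2 = 1 + ‖y‖ ^ 2 :=
      Real.log_injOn_pos (mem_Ioi.2 (by positivity)) (mem_Ioi.2 (by positivity)) h1
    have h3 : ‖x‖ ^ 2 = ‖y‖ ^ 2 := by linarith
    exact (pow_left_inj₀ (norm_nonneg _) (norm_nonneg _) two_ne_zero).1 h3
  · refine ⟨(b * ρ) ^ 2 / 2 * Real.exp ((b * ρ * (2 * ρ)) ^ 2 / 2), by positivity, ?_⟩
    intro x y hx hy
    have hρ : 0 ≤ ρ := (norm_nonneg x).trans hx
    obtain ⟨l, hl⟩ : ∃ l, l = (Real.log (1 + ‖x‖ ^ 2) - Real.log (1 + ‖y‖ ^ 2)) / 2 := ⟨_, rfl⟩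
    have hd : ‖x - y‖ ≤ 2 * ρ := (norm_sub_le _ _).trans (by linarith)
    have hlb : |l| ≤ ρ * ‖x - y‖ := by
      have h1 := fi_log (X := 1 + ‖x‖ ^ 2) (Y := 1 + ‖y‖ ^ 2) (by nlinarith [sq_nonneg ‖x‖])
        (by nlinarith [sq_nonneg ‖y‖])
      have h2 : |1 + ‖x‖ ^ 2 - (1 + ‖y‖ ^ 2)| ≤ 2 * ρ * ‖x - y‖ := by
        have e : 1 + ‖x‖ ^ 2 - (1 + ‖y‖ ^ 2) = (‖x‖ + ‖y‖) * (‖x‖ - ‖y‖) := by ring
        rw [e, abs_mul]
        refine mul_le_mul ?_ (abs_norm_sub_norm_le x y) (abs_nonneg _) (by positivity)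
        rw [abs_of_nonneg (by positivity)]
        linarith
      rw [hl, abs_div, abs_of_pos (by norm_num : (0 : ℝ) < 2)]
      linarith
    have hz : |b * l| ≤ b * ρ * ‖x - y‖ := by
      rw [abs_mul, abs_of_pos hb, mul_assoc]
      exact mul_le_mul_of_nonneg_left hlb hb.le
    have hz1 : (b * l) ^ 2 ≤ (b * ρ * ‖x - y‖) ^ 2 := by
      rw [← sq_abs]
      exact pow_le_pow_left₀ (abs_nonneg _) hz 2
    have hz2 : (b * l) ^ 2 ≤ (b * ρ * (2 * ρ)) ^ 2 := by
      refine hz1.trans ?_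
      gcongr
    rw [fi_cosh, ← hl]
    have c1 : 1 ≤ Real.cosh (a * l) := Real.one_le_cosh _
    have c2 : Real.cosh (b * l) ≤ Real.exp ((b * l) ^ 2 / 2) := Real.cosh_le_exp_half_sq _
    obtain ⟨w, hw⟩ : ∃ w, w = (b * l) ^ 2 / 2 := ⟨_, rfl⟩
    have hw0 : 0 ≤ w := by rw [hw]; positivity
    have c3 : Real.exp w - 1 ≤ w * Real.exp w := by
      have := Real.add_one_le_exp (-w)
      have h2 : Real.exp (-w) * Real.exp w = 1 := by rw [← Real.exp_add]; simp
      nlinarith [Real.exp_pos w]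
    have c4 : w ≤ (b * ρ * ‖x - y‖) ^ 2 / 2 := by rw [hw]; linarith
    have c5 : Real.exp w ≤ Real.exp ((b * ρ * (2 * ρ)) ^ 2 / 2) :=
      Real.exp_le_exp.2 (by rw [hw]; linarith)
    rw [← hw] at c2
    calc Real.cosh (b * l) - Real.cosh (a * l) ≤ Real.exp w - 1 := by linarith
      _ ≤ w * Real.exp w := c3
      _ ≤ (b * ρ * ‖x - y‖) ^ 2 / 2 * Real.exp ((b * ρ * (2 * ρ)) ^ 2 / 2) :=
          mul_le_mul c4 c5 (Real.exp_pos _).le (by positivity)
      _ = _ := by ring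

/-- `J_R = ∫ θθ'ξξ' β ⟪Va,Va'⟫ K`. -/
noncomputable def JR (d k : ℕ) (s a b : ℝ) (u : E d → ℝ) (R : ℝ) : ℝ :=
  ∫ p : E d × E d, (th R p.1 * th R p.2 * (zt a p.1 * zt a p.2) * bt a b p.1 p.2) *
    inner ℝ (Va k u p.1) (Va k u p.2) * K d s (p.1 - p.2)

/-- MODULE fj. `J_R ≤ I_R'` (the integral with `Va`): subtract (P) (`pos` with `V = (θξ/ζ_b) Va`, `V_facts`, `Va_lip`):
`Ph b V p = θθ'ξξ' (‖W‖‖W'‖ - (1/2)(ζ/ζ'+ζ'/ζ)⟪Va,Va'⟫)` and
`‖W‖‖W'‖ξξ' - (1/2)(ξ^2+ξ'^2)⟪Va,Va'⟫ = ξξ'(‖W‖‖W'‖ - (1/2)(ξ/ξ'+ξ'/ξ)⟪Va,Va'⟫)`. -/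
theorem J_le {d k : ℕ} {s a b : ℝ} (h2 : 2 ≤ k) (hk : k ≤ d) (hs0 : 0 < s) (hs1 : s < 1) (ha : 0 ≤ a) (hab : a < b)
    (hb : b ^ 2 ≤ (k : ℝ) - 1) {u : E d → ℝ} (hu : ContDiff ℝ 2 u) (hr : Rot k u) {R : ℝ} (hR : 0 < R) :
    JR d k s a b u R ≤
    ∫ p : E d × E d, (‖gW k u p.1‖ * ‖gW k u p.2‖ * (zt a p.1 * zt a p.2) -
      (1 / 2) * (zt a p.1 ^ 2 + zt a p.2 ^ 2) * inner ℝ (Va k u p.1) (Va k u p.2)) * (th R p.1 * th R p.2) * K d s (p.1 - p.2) := by
  have hd : 1 ≤ d := by omega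
  obtain ⟨-, hL, hcs, heq⟩ := V_facts hu hr a b hR
  obtain ⟨hi, hpos⟩ := pos h2 hk hs0 hs1 (ha.trans hab.le) hb hL hcs heq
  have hnorm := (Va_lip hu hr).1
  have hI := (fin_int (k := k) hd hs0 hs1 hu hr a hR).2.1
  have hf3 := (th_facts (d := d) hR).2.2.1
  have hpt : ∀ p : E d × E d, (th R p.1 * th R p.2 * (zt a p.1 * zt a p.2) * bt a b p.1 p.2) *
      inner ℝ (Va k u p.1) (Va k u p.2) * K d s (p.1 - p.2) =
      (‖gW k u p.1‖ * ‖gW k u p.2‖ * (zt a p.1 * zt a p.2) -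
      (1 / 2) * (zt a p.1 ^ 2 + zt a p.2 ^ 2) * inner ℝ (Va k u p.1) (Va k u p.2)) * (th R p.1 * th R p.2) * K d s (p.1 - p.2) -
      Ph b (fun x => (th R x * zt a x / zt b x) • Va k u x) p * K d s (p.1 - p.2) := by
    intro p
    have a1 := zt_pos a p.1
    have a2 := zt_pos a p.2
    have b1 := zt_pos b p.1
    have b2 := zt_pos b p.2
    have t1 := (hf3 p.1).1
    have t2 := (hf3 p.2).1
    unfold Ph bt
    simp only []
    rw [norm_smul, norm_smul, inner_smul_left, inner_smul_right, hnorm, hnorm, Real.norm_of_nonneg (by positivity),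
      Real.norm_of_nonneg (by positivity)]
    simp only [conj_trivial]
    set I : ℝ := inner ℝ (Va k u p.1) (Va k u p.2)
    set w1 := ‖gW k u p.1‖
    set w2 := ‖gW k u p.2‖
    field_simp
    ring
  unfold JR
  rw [integral_congr_ae (Eventually.of_forall hpt), integral_sub hI hi]
  linarith

private theorem fk_cont_gW {d k : ℕ} {u : E d → ℝ} (hu : ContDiff ℝ 2 u) : Continuous (gW k u) := by
  have h1 : Continuous (fun x => fderiv ℝ u x) := hu.continuous_fderiv (by norm_num)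
  unfold gW
  refine (PiLp.continuous_toLp 2 _).comp (continuous_pi fun i => ?_)
  by_cases h : (i : ℕ) < k
  · simp only [h, if_true]
    exact h1.clm_apply continuous_const
  · simp only [h, if_false]
    exact continuous_const

private theorem fk_cont_Va {d k : ℕ} {u : E d → ℝ} (hu : ContDiff ℝ 2 u) (hr : Rot k u) :
    Continuous (Va k u) := by
  rw [continuous_iff_continuousAt]
  intro x
  obtain ⟨L, hL, h1⟩ := (Va_lip hu hr).2 (‖x‖ + 1)
  rw [Metric.continuousAt_iff]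
  intro ε hε
  refine ⟨min 1 (ε / (L + 1)), lt_min one_pos (by positivity), ?_⟩
  intro y hy
  rw [dist_eq_norm] at hy ⊢
  have h2 : ‖y - x‖ < 1 := hy.trans_le (min_le_left _ _)
  have h3 : ‖y - x‖ < ε / (L + 1) := hy.trans_le (min_le_right _ _)
  have h4 : ‖y‖ ≤ ‖x‖ + 1 := by
    have := norm_add_le x (y - x)
    rw [add_sub_cancel] at this
    linarith
  have h5 := (h1 y x h4 (by linarith)).2
  have h6 : L * ‖y - x‖ ≤ (L + 1) * ‖y - x‖ := by
    nlinarith [norm_nonneg (y - x)]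
  have h7 : (L + 1) * ‖y - x‖ < ε := by
    rw [lt_div_iff₀ (by positivity)] at h3
    linarith
  linarith

private theorem fk_cont_zt {d : ℕ} (b : ℝ) : Continuous (zt b : E d → ℝ) :=
  (contDiff_zt b 0).continuous

private theorem fk_cont_bt {d : ℕ} (a b : ℝ) : Continuous (fun p : E d × E d => bt a b p.1 p.2) := by
  unfold bt
  have h1 : ∀ c : ℝ, Continuous (fun p : E d × E d => zt c p.1) := fun c =>
    (fk_cont_zt c).comp continuous_fst
  have h2 : ∀ c : ℝ, Continuous (fun p : E d × E d => zt c p.2) := fun c =>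
    (fk_cont_zt c).comp continuous_snd
  have h3 : ∀ c : ℝ, ∀ p : E d × E d, zt c p.1 ≠ 0 := fun c p => (zt_pos c p.1).ne'
  have h4 : ∀ c : ℝ, ∀ p : E d × E d, zt c p.2 ≠ 0 := fun c p => (zt_pos c p.2).ne'
  exact (continuous_const.mul (((h1 b).div (h2 b) (h4 b)).add ((h2 b).div (h1 b) (h3 b)))).sub
    (continuous_const.mul (((h1 a).div (h2 a) (h4 a)).add ((h2 a).div (h1 a) (h3 a))))

private theorem fk_cont_th {d : ℕ} {R : ℝ} (hR : 0 < R) : Continuous (th R : E d → ℝ) :=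
  ((th_facts hR).1 0).continuous

/-- The weight of the reflected form. -/
private noncomputable def fk_q {d : ℕ} (k : ℕ) (a b : ℝ) (u : E d → ℝ) (R : ℝ) (p : E d × E d) : ℝ :=
  (th R p.1 * th R p.2 * (zt a p.1 * zt a p.2) * bt a b p.1 p.2) *
    ((‖gW k u p.1‖ / ‖pr k p.1‖) * (‖gW k u p.2‖ / ‖pr k p.2‖))

private theorem fk_q_nonneg {d k : ℕ} {a b : ℝ} (ha : 0 ≤ a) (hab : a < b) (u : E d → ℝ) {R : ℝ}
    (hR : 0 < R) (p : E d × E d) : 0 ≤ fk_q k a b u R p := by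
  unfold fk_q
  have h1 := ((th_facts hR).2.2.1 p.1).1
  have h2 := ((th_facts hR).2.2.1 p.2).1
  have h3 := (zt_pos a p.1).le
  have h4 := (zt_pos a p.2).le
  have h5 := (bt_facts ha hab).1 p.1 p.2
  positivity

private theorem fk_norm_flip {d k : ℕ} (y : E d) : ‖y - (2 : ℝ) • pr k y‖ = ‖y‖ := by
  obtain ⟨g, -, hg⟩ := exists_flip d k
  rw [← hg, g.norm_map]

private theorem fk_pr_flip {d k : ℕ} (y : E d) : pr k (y - (2 : ℝ) • pr k y) = -pr k y := by
  rw [pr_sub, pr_smul, pr_pr, two_smul]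
  abel

private theorem fk_zt_flip {d k : ℕ} (c : ℝ) (y : E d) : zt c (y - (2 : ℝ) • pr k y) = zt c y := by
  unfold zt
  rw [fk_norm_flip]

private theorem fk_th_flip {d k : ℕ} (R : ℝ) (y : E d) : th R (y - (2 : ℝ) • pr k y) = th R y := by
  unfold th
  rw [fk_norm_flip]

private theorem fk_q_flip {d k : ℕ} (a b : ℝ) {u : E d → ℝ} (hu : ContDiff ℝ 2 u) (hr : Rot k u)
    (R : ℝ) (x y : E d) : fk_q k a b u R (x, y - (2 : ℝ) • pr k y) = fk_q k a b u R (x, y) := by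
  have h1 : ‖gW k u (y - (2 : ℝ) • pr k y)‖ = ‖gW k u y‖ := by
    obtain ⟨g, hg1, hg⟩ := exists_flip d k
    rw [← hg, (gW_equi hu hr).1 g hg1, g.norm_map]
  unfold fk_q bt
  simp only
  rw [h1, fk_pr_flip, norm_neg, fk_zt_flip, fk_zt_flip, fk_th_flip]

private theorem fk_inner {d k : ℕ} (u : E d → ℝ) (x y : E d) :
    (inner ℝ (Va k u x) (Va k u y) : ℝ) =
      (‖gW k u x‖ / ‖pr k x‖) * (‖gW k u y‖ / ‖pr k y‖) * inner ℝ (pr k x) (pr k y) := by
  unfold Va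
  rw [inner_smul_left, inner_smul_right]
  simp only [conj_trivial]
  ring

private theorem fk_int {d k : ℕ} {s a b : ℝ} (hd : 1 ≤ d) (hs0 : 0 < s) (hs1 : s < 1) (ha : 0 ≤ a)
    (hab : a < b) {u : E d → ℝ} (hu : ContDiff ℝ 2 u) (hr : Rot k u) {R : ℝ} (hR : 0 < R) :
    Integrable (fun p : E d × E d => fk_q k a b u R p * inner ℝ (pr k p.1) (pr k p.2) *
      K d s (p.1 - p.2)) := by
  have he : (fun p : E d × E d => fk_q k a b u R p * inner ℝ (pr k p.1) (pr k p.2) *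
      K d s (p.1 - p.2)) =
      fun p => (th R p.1 * th R p.2 * (zt a p.1 * zt a p.2) * bt a b p.1 p.2) *
        inner ℝ (Va k u p.1) (Va k u p.2) * K d s (p.1 - p.2) := by
    funext p
    rw [fk_inner]
    unfold fk_q
    ring
  have hcV := fk_cont_Va hu hr
  have hcont : Continuous (fun p : E d × E d =>
      (th R p.1 * th R p.2 * (zt a p.1 * zt a p.2) * bt a b p.1 p.2) *
        inner ℝ (Va k u p.1) (Va k u p.2)) := by
    have h1 := fk_cont_th (d := d) hR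
    have h2 := fk_cont_zt (d := d) a
    have h3 := fk_cont_bt (d := d) a b
    exact ((((h1.comp continuous_fst).mul (h1.comp continuous_snd)).mul
      ((h2.comp continuous_fst).mul (h2.comp continuous_snd))).mul h3).mul
      ((hcV.comp continuous_fst).inner (hcV.comp continuous_snd))
  obtain ⟨C, hC, hbt⟩ := (bt_facts (d := d) ha hab).2.2 (2 * R)
  obtain ⟨M, hM⟩ := (isCompact_closedBall (0 : E d) (2 * R)).exists_bound_of_continuousOn
    hcV.continuousOn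
  have hM0 : 0 ≤ M := (norm_nonneg _).trans (hM 0 (by simp [hR.le]))
  have hfi : Integrable (fun x : E d => ib (2 * R) x) := by
    unfold ib
    rw [show (fun x : E d => (Metric.closedBall (0 : E d) (2 * R)).indicator (fun _ => (1 : ℝ)) x) =
      (Metric.closedBall (0 : E d) (2 * R)).indicator (fun _ => (1 : ℝ)) from rfl]
    rw [integrable_indicator_iff Metric.isClosed_closedBall.measurableSet]
    exact integrableOn_const (isCompact_closedBall (0 : E d) (2 * R)).measure_lt_top.ne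
  rw [he]
  refine int_dom hd hs0 hs1 _ hcont.aestronglyMeasurable
    (C * M ^ 2 * (16 * R ^ 2 + 1)) (fun x => ib (2 * R) x) hfi ?_
  rintro ⟨x, y⟩
  simp only
  have hib : ∀ z : E d, 0 ≤ ib (2 * R) z := fun z => by
    unfold ib
    exact Set.indicator_nonneg (fun _ _ => zero_le_one) z
  have hib1 : ∀ z : E d, ‖z‖ ≤ 2 * R → ib (2 * R) z = 1 := fun z hz => by
    unfold ib
    rw [Set.indicator_of_mem]
    simpa using hz
  have hrhs : 0 ≤ C * M ^ 2 * (16 * R ^ 2 + 1) * min 1 (‖x - y‖ ^ 2) *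
      (ib (2 * R) x + ib (2 * R) y) := by
    have h1 := hib x
    have h2 := hib y
    have h3 : 0 ≤ min 1 (‖x - y‖ ^ 2) := le_min zero_le_one (by positivity)
    positivity
  obtain ⟨-, -, hth, -, hth0⟩ := th_facts (d := d) hR
  by_cases hx : ‖x‖ ≤ 2 * R
  · by_cases hy : ‖y‖ ≤ 2 * R
    · have h1 : |th R x * th R y * (zt a x * zt a y)| ≤ 1 := by
        rw [abs_mul, abs_mul, abs_mul, abs_of_nonneg (hth x).1, abs_of_nonneg (hth y).1,
          abs_of_nonneg (zt_pos a x).le, abs_of_nonneg (zt_pos a y).le]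
        have h2 : th R x * th R y ≤ 1 := mul_le_one₀ (hth x).2 (hth y).1 (hth y).2
        have h3 : zt a x * zt a y ≤ 1 :=
          mul_le_one₀ (zt_le_one ha x) (zt_pos a y).le (zt_le_one ha y)
        exact mul_le_one₀ h2 (mul_nonneg (zt_pos a x).le (zt_pos a y).le) h3
      have h4 : |bt a b x y| ≤ C * ‖x - y‖ ^ 2 := by
        rw [abs_of_nonneg ((bt_facts ha hab).1 x y)]
        exact hbt x y hx hy
      have h5 : |(inner ℝ (Va k u x) (Va k u y) : ℝ)| ≤ M ^ 2 := by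
        refine (abs_real_inner_le_norm _ _).trans ?_
        rw [pow_two]
        exact mul_le_mul (hM x (by simpa using hx)) (hM y (by simpa using hy))
          (norm_nonneg _) hM0
      have h6 : ‖x - y‖ ^ 2 ≤ (16 * R ^ 2 + 1) * min 1 (‖x - y‖ ^ 2) := by
        have h7 : ‖x - y‖ ≤ 4 * R := (norm_sub_le x y).trans (by linarith)
        have h8 : ‖x - y‖ ^ 2 ≤ 16 * R ^ 2 := by
          have := pow_le_pow_left₀ (norm_nonneg (x - y)) h7 2
          nlinarith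
        rcases le_total 1 (‖x - y‖ ^ 2) with h9 | h9
        · rw [min_eq_left h9]
          linarith
        · rw [min_eq_right h9]
          nlinarith [sq_nonneg R, sq_nonneg ‖x - y‖]
      rw [abs_mul, abs_mul]
      have hCM : 0 ≤ C * M ^ 2 := by positivity
      calc |th R x * th R y * (zt a x * zt a y)| * |bt a b x y| *
            |(inner ℝ (Va k u x) (Va k u y) : ℝ)|
          ≤ 1 * (C * ‖x - y‖ ^ 2) * M ^ 2 := by
            gcongr
        _ = C * M ^ 2 * ‖x - y‖ ^ 2 := by ring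
        _ ≤ C * M ^ 2 * ((16 * R ^ 2 + 1) * min 1 (‖x - y‖ ^ 2)) :=
            mul_le_mul_of_nonneg_left h6 hCM
        _ ≤ C * M ^ 2 * (16 * R ^ 2 + 1) * min 1 (‖x - y‖ ^ 2) *
            (ib (2 * R) x + ib (2 * R) y) := by
            rw [hib1 x hx, hib1 y hy]
            have h10 : 0 ≤ C * M ^ 2 * (16 * R ^ 2 + 1) * min 1 (‖x - y‖ ^ 2) := by
              have h3 : 0 ≤ min 1 (‖x - y‖ ^ 2) := le_min zero_le_one (by positivity)
              positivity
            linarith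
    · have h1 : th R y = 0 := hth0 y (by linarith)
      rw [h1]
      simpa using hrhs
  · have h1 : th R x = 0 := hth0 x (by linarith)
    rw [h1]
    simpa using hrhs

private theorem fk_null {d : ℕ} (hd : 1 ≤ d) {f : E d → E d} (hf : Continuous f)
    (hi : Function.Injective f) : ∀ᵐ p : E d × E d, p.1 ≠ f p.2 := by
  have hne : Nonempty (Fin d) := ⟨⟨0, hd⟩⟩
  have hc : IsClosed {p : E d × E d | p.1 = f p.2} :=
    isClosed_eq continuous_fst (hf.comp continuous_snd)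
  rw [ae_iff]
  simp only [not_not]
  rw [Measure.volume_eq_prod, Measure.measure_prod_null hc.measurableSet]
  filter_upwards with x
  refine Set.Subsingleton.measure_zero ?_ _
  intro y hy z hz
  simp only [Set.mem_preimage, Set.mem_ofPred_eq] at hy hz
  exact hi (hy.symm.trans hz)

/-- Strict decrease of the kernel under the reflection. -/
private theorem fk_JR {d k : ℕ} {s a b : ℝ} (hd : 1 ≤ d) (hs0 : 0 < s) (hs1 : s < 1) (ha : 0 ≤ a)
    (hab : a < b) {u : E d → ℝ} (hu : ContDiff ℝ 2 u) (hr : Rot k u) {R : ℝ} (hR : 0 < R) :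
    Integrable (fun p : E d × E d => fk_q k a b u R p * (inner ℝ (pr k p.1) (pr k p.2) *
      (K d s (p.1 - p.2) - K d s (p.1 - p.2 + (2 : ℝ) • pr k p.2)))) ∧
    JR d k s a b u R = (1 / 2) * ∫ p : E d × E d, fk_q k a b u R p * (inner ℝ (pr k p.1) (pr k p.2) *
        (K d s (p.1 - p.2) - K d s (p.1 - p.2 + (2 : ℝ) • pr k p.2))) := by
  obtain ⟨h1, h2, -⟩ := reflect (k := k) hd hs0 (fk_q k a b u R) (fk_q_nonneg ha hab u hR)
    (fun x y => fk_q_flip a b hu hr R x y) (fk_int hd hs0 hs1 ha hab hu hr hR)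
  refine ⟨h1, ?_⟩
  rw [← h2]
  unfold JR
  congr 1
  funext p
  rw [fk_inner]
  unfold fk_q
  ring

/-- MODULE fk. The reflected form of `J_R` (`reflect` with `q = θθ'ξξ' β ‖W‖‖W'‖/(rr')`, `⟪Va,Va'⟫ = ‖W‖‖W'‖⟪pr,pr'⟫/(rr')`): its integrand is
a.e. nonnegative and nondecreasing in `R`. Hence `J_R ≤ J_R'` for `0 < R ≤ R'`. -/
theorem J_mono {d k : ℕ} {s a b : ℝ} (hd : 1 ≤ d) (hs0 : 0 < s) (hs1 : s < 1) (ha : 0 ≤ a) (hab : a < b)
    {u : E d → ℝ} (hu : ContDiff ℝ 2 u) (hr : Rot k u) {R R' : ℝ} (hR : 0 < R) (h : R ≤ R') :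
    JR d k s a b u R ≤ JR d k s a b u R' := by
  obtain ⟨i1, e1⟩ := fk_JR (k := k) hd hs0 hs1 ha hab hu hr hR
  obtain ⟨i2, e2⟩ := fk_JR (k := k) hd hs0 hs1 ha hab hu hr (hR.trans_le h)
  rw [e1, e2]
  refine mul_le_mul_of_nonneg_left (integral_mono_ae i1 i2 ?_) (by norm_num)
  obtain ⟨-, -, h3⟩ := reflect (k := k) hd hs0 (fk_q k a b u R) (fk_q_nonneg ha hab u hR)
    (fun x y => fk_q_flip a b hu hr R x y) (fk_int hd hs0 hs1 ha hab hu hr hR)
  have n1 := fk_null hd (f := fun y : E d => y) continuous_id (fun _ _ h => h)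
  obtain ⟨g, -, hg⟩ := exists_flip d k
  have n2 := fk_null hd (f := fun y : E d => g y) g.continuous g.injective
  filter_upwards [n1, n2] with p hp1 hp2
  rw [hg] at hp2
  refine mul_le_mul_of_nonneg_right ?_ (h3 p.1 p.2 hp1 hp2)
  have m1 := th_mono hR h p.1
  have m2 := th_mono hR h p.2
  have p1 := ((th_facts (d := d) hR).2.2.1 p.1).1
  have p2 := ((th_facts (d := d) hR).2.2.1 p.2).1
  have p3 := (zt_pos a p.1).le
  have p4 := (zt_pos a p.2).le
  have p5 := (bt_facts ha hab).1 p.1 p.2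
  have p6 : 0 ≤ th R' p.1 := p1.trans m1
  unfold fk_q
  gcongr

private theorem fl_cont_gW {d k : ℕ} {u : E d → ℝ} (hu : ContDiff ℝ 2 u) : Continuous (gW k u) := by
  have h1 : Continuous (fun x => fderiv ℝ u x) := hu.continuous_fderiv (by norm_num)
  unfold gW
  refine (PiLp.continuous_toLp 2 _).comp (continuous_pi fun i => ?_)
  by_cases h : (i : ℕ) < k
  · simp only [h, if_true]
    exact h1.clm_apply continuous_const
  · simp only [h, if_false]
    exact continuous_const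

private theorem fl_cont_Va {d k : ℕ} {u : E d → ℝ} (hu : ContDiff ℝ 2 u) (hr : Rot k u) :
    Continuous (Va k u) := by
  rw [continuous_iff_continuousAt]
  intro x
  obtain ⟨L, hL, h1⟩ := (Va_lip hu hr).2 (‖x‖ + 1)
  rw [Metric.continuousAt_iff]
  intro ε hε
  refine ⟨min 1 (ε / (L + 1)), lt_min one_pos (by positivity), ?_⟩
  intro y hy
  rw [dist_eq_norm] at hy ⊢
  have h2 : ‖y - x‖ < 1 := hy.trans_le (min_le_left _ _)
  have h3 : ‖y - x‖ < ε / (L + 1) := hy.trans_le (min_le_right _ _)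
  have h4 : ‖y‖ ≤ ‖x‖ + 1 := by
    have := norm_add_le x (y - x)
    rw [add_sub_cancel] at this
    linarith
  have h5 := (h1 y x h4 (by linarith)).2
  have h6 : L * ‖y - x‖ ≤ (L + 1) * ‖y - x‖ := by
    nlinarith [norm_nonneg (y - x)]
  have h7 : (L + 1) * ‖y - x‖ < ε := by
    rw [lt_div_iff₀ (by positivity)] at h3
    linarith
  linarith

private theorem fl_cont_zt {d : ℕ} (b : ℝ) : Continuous (zt b : E d → ℝ) :=
  (contDiff_zt b 0).continuous

private theorem fl_cont_bt {d : ℕ} (a b : ℝ) : Continuous (fun p : E d × E d => bt a b p.1 p.2) := by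
  unfold bt
  have h1 : ∀ c : ℝ, Continuous (fun p : E d × E d => zt c p.1) := fun c =>
    (fl_cont_zt c).comp continuous_fst
  have h2 : ∀ c : ℝ, Continuous (fun p : E d × E d => zt c p.2) := fun c =>
    (fl_cont_zt c).comp continuous_snd
  have h3 : ∀ c : ℝ, ∀ p : E d × E d, zt c p.1 ≠ 0 := fun c p => (zt_pos c p.1).ne'
  have h4 : ∀ c : ℝ, ∀ p : E d × E d, zt c p.2 ≠ 0 := fun c p => (zt_pos c p.2).ne'
  exact (continuous_const.mul (((h1 b).div (h2 b) (h4 b)).add ((h2 b).div (h1 b) (h3 b)))).sub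
    (continuous_const.mul (((h1 a).div (h2 a) (h4 a)).add ((h2 a).div (h1 a) (h3 a))))

private theorem fl_cont_th {d : ℕ} {R : ℝ} (hR : 0 < R) : Continuous (th R : E d → ℝ) :=
  ((th_facts hR).1 0).continuous

/-- The weight of the reflected form. -/
private noncomputable def fl_q {d : ℕ} (k : ℕ) (a b : ℝ) (u : E d → ℝ) (R : ℝ) (p : E d × E d) : ℝ :=
  (th R p.1 * th R p.2 * (zt a p.1 * zt a p.2) * bt a b p.1 p.2) *
    ((‖gW k u p.1‖ / ‖pr k p.1‖) * (‖gW k u p.2‖ / ‖pr k p.2‖))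

private theorem fl_q_nonneg {d k : ℕ} {a b : ℝ} (ha : 0 ≤ a) (hab : a < b) (u : E d → ℝ) {R : ℝ}
    (hR : 0 < R) (p : E d × E d) : 0 ≤ fl_q k a b u R p := by
  unfold fl_q
  have h1 := ((th_facts hR).2.2.1 p.1).1
  have h2 := ((th_facts hR).2.2.1 p.2).1
  have h3 := (zt_pos a p.1).le
  have h4 := (zt_pos a p.2).le
  have h5 := (bt_facts ha hab).1 p.1 p.2
  positivity

private theorem fl_norm_flip {d k : ℕ} (y : E d) : ‖y - (2 : ℝ) • pr k y‖ = ‖y‖ := by
  obtain ⟨g, -, hg⟩ := exists_flip d k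
  rw [← hg, g.norm_map]

private theorem fl_pr_flip {d k : ℕ} (y : E d) : pr k (y - (2 : ℝ) • pr k y) = -pr k y := by
  rw [pr_sub, pr_smul, pr_pr, two_smul]
  abel

private theorem fl_zt_flip {d k : ℕ} (c : ℝ) (y : E d) : zt c (y - (2 : ℝ) • pr k y) = zt c y := by
  unfold zt
  rw [fl_norm_flip]

private theorem fl_th_flip {d k : ℕ} (R : ℝ) (y : E d) : th R (y - (2 : ℝ) • pr k y) = th R y := by
  unfold th
  rw [fl_norm_flip]

private theorem fl_q_flip {d k : ℕ} (a b : ℝ) {u : E d → ℝ} (hu : ContDiff ℝ 2 u) (hr : Rot k u)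
    (R : ℝ) (x y : E d) : fl_q k a b u R (x, y - (2 : ℝ) • pr k y) = fl_q k a b u R (x, y) := by
  have h1 : ‖gW k u (y - (2 : ℝ) • pr k y)‖ = ‖gW k u y‖ := by
    obtain ⟨g, hg1, hg⟩ := exists_flip d k
    rw [← hg, (gW_equi hu hr).1 g hg1, g.norm_map]
  unfold fl_q bt
  simp only
  rw [h1, fl_pr_flip, norm_neg, fl_zt_flip, fl_zt_flip, fl_th_flip]

private theorem fl_inner {d k : ℕ} (u : E d → ℝ) (x y : E d) :
    (inner ℝ (Va k u x) (Va k u y) : ℝ) =
      (‖gW k u x‖ / ‖pr k x‖) * (‖gW k u y‖ / ‖pr k y‖) * inner ℝ (pr k x) (pr k y) := by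
  unfold Va
  rw [inner_smul_left, inner_smul_right]
  simp only [conj_trivial]
  ring

private theorem fl_int {d k : ℕ} {s a b : ℝ} (hd : 1 ≤ d) (hs0 : 0 < s) (hs1 : s < 1) (ha : 0 ≤ a)
    (hab : a < b) {u : E d → ℝ} (hu : ContDiff ℝ 2 u) (hr : Rot k u) {R : ℝ} (hR : 0 < R) :
    Integrable (fun p : E d × E d => fl_q k a b u R p * inner ℝ (pr k p.1) (pr k p.2) *
      K d s (p.1 - p.2)) := by
  have he : (fun p : E d × E d => fl_q k a b u R p * inner ℝ (pr k p.1) (pr k p.2) *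
      K d s (p.1 - p.2)) =
      fun p => (th R p.1 * th R p.2 * (zt a p.1 * zt a p.2) * bt a b p.1 p.2) *
        inner ℝ (Va k u p.1) (Va k u p.2) * K d s (p.1 - p.2) := by
    funext p
    rw [fl_inner]
    unfold fl_q
    ring
  have hcV := fl_cont_Va hu hr
  have hcont : Continuous (fun p : E d × E d =>
      (th R p.1 * th R p.2 * (zt a p.1 * zt a p.2) * bt a b p.1 p.2) *
        inner ℝ (Va k u p.1) (Va k u p.2)) := by
    have h1 := fl_cont_th (d := d) hR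
    have h2 := fl_cont_zt (d := d) a
    have h3 := fl_cont_bt (d := d) a b
    exact ((((h1.comp continuous_fst).mul (h1.comp continuous_snd)).mul
      ((h2.comp continuous_fst).mul (h2.comp continuous_snd))).mul h3).mul
      ((hcV.comp continuous_fst).inner (hcV.comp continuous_snd))
  obtain ⟨C, hC, hbt⟩ := (bt_facts (d := d) ha hab).2.2 (2 * R)
  obtain ⟨M, hM⟩ := (isCompact_closedBall (0 : E d) (2 * R)).exists_bound_of_continuousOn
    hcV.continuousOn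
  have hM0 : 0 ≤ M := (norm_nonneg _).trans (hM 0 (by simp [hR.le]))
  have hfi : Integrable (fun x : E d => ib (2 * R) x) := by
    unfold ib
    rw [show (fun x : E d => (Metric.closedBall (0 : E d) (2 * R)).indicator (fun _ => (1 : ℝ)) x) =
      (Metric.closedBall (0 : E d) (2 * R)).indicator (fun _ => (1 : ℝ)) from rfl]
    rw [integrable_indicator_iff Metric.isClosed_closedBall.measurableSet]
    exact integrableOn_const (isCompact_closedBall (0 : E d) (2 * R)).measure_lt_top.ne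
  rw [he]
  refine int_dom hd hs0 hs1 _ hcont.aestronglyMeasurable
    (C * M ^ 2 * (16 * R ^ 2 + 1)) (fun x => ib (2 * R) x) hfi ?_
  rintro ⟨x, y⟩
  simp only
  have hib : ∀ z : E d, 0 ≤ ib (2 * R) z := fun z => by
    unfold ib
    exact Set.indicator_nonneg (fun _ _ => zero_le_one) z
  have hib1 : ∀ z : E d, ‖z‖ ≤ 2 * R → ib (2 * R) z = 1 := fun z hz => by
    unfold ib
    rw [Set.indicator_of_mem]
    simpa using hz
  have hrhs : 0 ≤ C * M ^ 2 * (16 * R ^ 2 + 1) * min 1 (‖x - y‖ ^ 2) *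
      (ib (2 * R) x + ib (2 * R) y) := by
    have h1 := hib x
    have h2 := hib y
    have h3 : 0 ≤ min 1 (‖x - y‖ ^ 2) := le_min zero_le_one (by positivity)
    positivity
  obtain ⟨-, -, hth, -, hth0⟩ := th_facts (d := d) hR
  by_cases hx : ‖x‖ ≤ 2 * R
  · by_cases hy : ‖y‖ ≤ 2 * R
    · have h1 : |th R x * th R y * (zt a x * zt a y)| ≤ 1 := by
        rw [abs_mul, abs_mul, abs_mul, abs_of_nonneg (hth x).1, abs_of_nonneg (hth y).1,
          abs_of_nonneg (zt_pos a x).le, abs_of_nonneg (zt_pos a y).le]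
        have h2 : th R x * th R y ≤ 1 := mul_le_one₀ (hth x).2 (hth y).1 (hth y).2
        have h3 : zt a x * zt a y ≤ 1 :=
          mul_le_one₀ (zt_le_one ha x) (zt_pos a y).le (zt_le_one ha y)
        exact mul_le_one₀ h2 (mul_nonneg (zt_pos a x).le (zt_pos a y).le) h3
      have h4 : |bt a b x y| ≤ C * ‖x - y‖ ^ 2 := by
        rw [abs_of_nonneg ((bt_facts ha hab).1 x y)]
        exact hbt x y hx hy
      have h5 : |(inner ℝ (Va k u x) (Va k u y) : ℝ)| ≤ M ^ 2 := by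
        refine (abs_real_inner_le_norm _ _).trans ?_
        rw [pow_two]
        exact mul_le_mul (hM x (by simpa using hx)) (hM y (by simpa using hy))
          (norm_nonneg _) hM0
      have h6 : ‖x - y‖ ^ 2 ≤ (16 * R ^ 2 + 1) * min 1 (‖x - y‖ ^ 2) := by
        have h7 : ‖x - y‖ ≤ 4 * R := (norm_sub_le x y).trans (by linarith)
        have h8 : ‖x - y‖ ^ 2 ≤ 16 * R ^ 2 := by
          have := pow_le_pow_left₀ (norm_nonneg (x - y)) h7 2
          nlinarith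
        rcases le_total 1 (‖x - y‖ ^ 2) with h9 | h9
        · rw [min_eq_left h9]
          linarith
        · rw [min_eq_right h9]
          nlinarith [sq_nonneg R, sq_nonneg ‖x - y‖]
      rw [abs_mul, abs_mul]
      have hCM : 0 ≤ C * M ^ 2 := by positivity
      calc |th R x * th R y * (zt a x * zt a y)| * |bt a b x y| *
            |(inner ℝ (Va k u x) (Va k u y) : ℝ)|
          ≤ 1 * (C * ‖x - y‖ ^ 2) * M ^ 2 := by
            gcongr
        _ = C * M ^ 2 * ‖x - y‖ ^ 2 := by ring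
        _ ≤ C * M ^ 2 * ((16 * R ^ 2 + 1) * min 1 (‖x - y‖ ^ 2)) :=
            mul_le_mul_of_nonneg_left h6 hCM
        _ ≤ C * M ^ 2 * (16 * R ^ 2 + 1) * min 1 (‖x - y‖ ^ 2) *
            (ib (2 * R) x + ib (2 * R) y) := by
            rw [hib1 x hx, hib1 y hy]
            have h10 : 0 ≤ C * M ^ 2 * (16 * R ^ 2 + 1) * min 1 (‖x - y‖ ^ 2) := by
              have h3 : 0 ≤ min 1 (‖x - y‖ ^ 2) := le_min zero_le_one (by positivity)
              positivity
            linarith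
    · have h1 : th R y = 0 := hth0 y (by linarith)
      rw [h1]
      simpa using hrhs
  · have h1 : th R x = 0 := hth0 x (by linarith)
    rw [h1]
    simpa using hrhs

private theorem fl_null {d : ℕ} (hd : 1 ≤ d) {f : E d → E d} (hf : Continuous f)
    (hi : Function.Injective f) : ∀ᵐ p : E d × E d, p.1 ≠ f p.2 := by
  have hne : Nonempty (Fin d) := ⟨⟨0, hd⟩⟩
  have hc : IsClosed {p : E d × E d | p.1 = f p.2} :=
    isClosed_eq continuous_fst (hf.comp continuous_snd)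
  rw [ae_iff]
  simp only [not_not]
  rw [Measure.volume_eq_prod, Measure.measure_prod_null hc.measurableSet]
  filter_upwards with x
  refine Set.Subsingleton.measure_zero ?_ _
  intro y hy z hz
  simp only [Set.mem_preimage, Set.mem_setOf_eq] at hy hz
  exact hi (hy.symm.trans hz)

/-- Strict decrease of the kernel under the reflection. -/
private theorem fl_K_lt {d k : ℕ} {s : ℝ} (hs0 : 0 < s) {x y : E d}
    (hp : 0 < (inner ℝ (pr k x) (pr k y) : ℝ)) (hne : x ≠ y) :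
    K d s (x - y + (2 : ℝ) • pr k y) < K d s (x - y) := by
  have h1 : ‖x - y + (2 : ℝ) • pr k y‖ ^ 2 = ‖x - y‖ ^ 2 + 4 * inner ℝ (pr k x) (pr k y) := by
    rw [norm_add_sq_real, inner_smul_right, norm_smul]
    have h2 : (inner ℝ (x - y) (pr k y) : ℝ) =
        inner ℝ (pr k x) (pr k y) - ‖pr k y‖ ^ 2 := by
      rw [inner_sub_left, ← real_inner_self_eq_norm_sq]
      congr 1
      · rw [real_inner_comm, inner_pr, real_inner_comm]
      · rw [real_inner_comm, inner_pr, real_inner_comm]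
    rw [h2]
    simp only [Real.norm_ofNat]
    ring
  have h3 : 0 < ‖x - y‖ := norm_pos_iff.2 (sub_ne_zero.2 hne)
  have h4 : ‖x - y‖ < ‖x - y + (2 : ℝ) • pr k y‖ := by
    refine lt_of_pow_lt_pow_left₀ 2 (norm_nonneg _) ?_
    rw [h1]
    linarith
  unfold K
  refine Real.rpow_lt_rpow_of_neg h3 h4 ?_
  have : (0 : ℝ) ≤ d := Nat.cast_nonneg d
  linarith

/-- MODULE fl. If `gW k u x₀ ≠ 0`, then `J_R > 0` for large `R`. Proof: `pr k x₀ ≠ 0` (`equi_par`); near the point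
`(x₀, (1+ε) x₀)` (small `ε > 0`, so that `gW ≠ 0` there), the integrand of the reflected form is continuous and positive
(`‖x‖ ≠ ‖y‖`, `⟪pr,pr'⟫ > 0`, `x ≠ y`, `K (x-y) > K (x - σy)`), and it is a.e. nonnegative everywhere. -/
theorem J_pos {d k : ℕ} {s a b : ℝ} (hd : 1 ≤ d) (hs0 : 0 < s) (hs1 : s < 1) (ha : 0 ≤ a) (hab : a < b)
    {u : E d → ℝ} (hu : ContDiff ℝ 2 u) (hr : Rot k u) {x₀ : E d} (h0 : gW k u x₀ ≠ 0) :
    ∃ R₀ : ℝ, 1 ≤ R₀ ∧ 0 < JR d k s a b u R₀ := by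
  have hWe := gW_equi hu hr
  obtain ⟨q₀, hq₀⟩ := equi_par hWe x₀
  have hpr : pr k x₀ ≠ 0 := by
    intro h
    rw [h, smul_zero] at hq₀
    exact h0 hq₀
  have hx₀ : x₀ ≠ 0 := by
    rintro rfl
    apply hpr
    have h1 := pr_smul (k := k) (0 : ℝ) (0 : E d)
    rwa [zero_smul, zero_smul] at h1
  obtain ⟨R, hRdef⟩ : ∃ R : ℝ, R = 2 * ‖x₀‖ + 2 := ⟨_, rfl⟩
  have hn0 := norm_nonneg x₀
  have hR1 : 1 ≤ R := by linarith
  have hR : 0 < R := by linarith
  refine ⟨R, hR1, ?_⟩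
  obtain ⟨hi1, hi2, hi3⟩ := reflect (k := k) hd hs0 (fl_q k a b u R) (fl_q_nonneg ha hab u hR)
    (fl_q_flip a b hu hr R) (fl_int hd hs0 hs1 ha hab hu hr hR)
  have hJ : JR d k s a b u R = ∫ p : E d × E d, fl_q k a b u R p *
      inner ℝ (pr k p.1) (pr k p.2) * K d s (p.1 - p.2) := by
    unfold JR
    congr 1
    funext p
    rw [fl_inner]
    unfold fl_q
    ring
  rw [hJ, hi2]
  refine mul_pos (by norm_num) ?_
  -- null sets
  have hdiag : ∀ᵐ p : E d × E d, p.1 ≠ p.2 := fl_null hd continuous_id Function.injective_id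
  have hanti : ∀ᵐ p : E d × E d, p.1 ≠ p.2 - (2 : ℝ) • pr k p.2 := by
    obtain ⟨g, -, hg⟩ := exists_flip d k
    have h1 := fl_null hd g.continuous g.injective
    filter_upwards [h1] with p h2
    rwa [← hg]
  have hnn : 0 ≤ᵐ[volume] fun p : E d × E d => fl_q k a b u R p *
      (inner ℝ (pr k p.1) (pr k p.2) *
        (K d s (p.1 - p.2) - K d s (p.1 - p.2 + (2 : ℝ) • pr k p.2))) := by
    filter_upwards [hdiag, hanti] with p h1 h2
    exact mul_nonneg (fl_q_nonneg ha hab u hR p) (hi3 p.1 p.2 h1 h2)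
  rw [integral_pos_iff_support_of_nonneg_ae hnn hi1]
  have hcW := fl_cont_gW (k := k) hu
  have hcp : Continuous (pr k : E d → E d) := (contDiff_pr 0).continuous
  let U : Set (E d × E d) := {p | ‖p.1‖ ≠ ‖p.2‖ ∧ gW k u p.1 ≠ 0 ∧ gW k u p.2 ≠ 0 ∧
    0 < (inner ℝ (pr k p.1) (pr k p.2) : ℝ) ∧ ‖p.1‖ < R ∧ ‖p.2‖ < R}
  have hUo : IsOpen U := by
    have o1 : IsOpen {p : E d × E d | ‖p.1‖ ≠ ‖p.2‖} :=
      isOpen_ne_fun continuous_fst.norm continuous_snd.norm
    have o2 : IsOpen {p : E d × E d | gW k u p.1 ≠ 0} :=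
      isOpen_ne_fun (hcW.comp continuous_fst) continuous_const
    have o3 : IsOpen {p : E d × E d | gW k u p.2 ≠ 0} :=
      isOpen_ne_fun (hcW.comp continuous_snd) continuous_const
    have o4 : IsOpen {p : E d × E d | 0 < (inner ℝ (pr k p.1) (pr k p.2) : ℝ)} :=
      isOpen_lt continuous_const ((hcp.comp continuous_fst).inner (hcp.comp continuous_snd))
    have o5 : IsOpen {p : E d × E d | ‖p.1‖ < R} := isOpen_lt continuous_fst.norm continuous_const
    have o6 : IsOpen {p : E d × E d | ‖p.2‖ < R} := isOpen_lt continuous_snd.norm continuous_const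
    exact o1.inter (o2.inter (o3.inter (o4.inter (o5.inter o6))))
  have hUsub : U ⊆ Function.support (fun p : E d × E d => fl_q k a b u R p *
      (inner ℝ (pr k p.1) (pr k p.2) *
        (K d s (p.1 - p.2) - K d s (p.1 - p.2 + (2 : ℝ) • pr k p.2)))) := by
    rintro ⟨x, y⟩ ⟨u1, u2, u3, u4, u5, u6⟩
    simp only at u1 u2 u3 u4 u5 u6
    have hne : x ≠ y := fun h => u1 (by rw [h])
    have hK := fl_K_lt (k := k) (s := s) hs0 u4 hne
    have hpx : 0 < ‖pr k x‖ := norm_pos_iff.2 (fun h => by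
      rw [h, inner_zero_left] at u4
      exact lt_irrefl _ u4)
    have hpy : 0 < ‖pr k y‖ := norm_pos_iff.2 (fun h => by
      rw [h, inner_zero_right] at u4
      exact lt_irrefl _ u4)
    have hgx : 0 < ‖gW k u x‖ := norm_pos_iff.2 u2
    have hgy : 0 < ‖gW k u y‖ := norm_pos_iff.2 u3
    have hbt := (bt_facts (d := d) ha hab).2.1 x y u1
    have htx : th R x = 1 := (th_facts hR).2.2.2.1 x u5.le
    have hty : th R y = 1 := (th_facts hR).2.2.2.1 y u6.le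
    have hzx := zt_pos a x
    have hzy := zt_pos a y
    have hq : 0 < fl_q k a b u R (x, y) := by
      unfold fl_q
      simp only
      rw [htx, hty]
      positivity
    exact (mul_pos hq (mul_pos u4 (sub_pos.2 hK))).ne'
  have hUne : U.Nonempty := by
    have h1 : Tendsto (fun ε : ℝ => (1 + ε) • x₀) (𝓝 0) (𝓝 x₀) := by
      have h2 : Continuous (fun ε : ℝ => (1 + ε) • x₀) :=
        (continuous_const.add continuous_id).smul continuous_const
      have h3 := h2.tendsto 0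
      simpa using h3
    have h4 : ∀ᶠ ε : ℝ in 𝓝 0, gW k u ((1 + ε) • x₀) ≠ 0 :=
      ((hcW.tendsto x₀).comp h1).eventually_ne h0
    have h5 : ∀ᶠ ε : ℝ in 𝓝 0, ‖(1 + ε) • x₀‖ < R :=
      ((continuous_norm.tendsto x₀).comp h1).eventually (gt_mem_nhds (by linarith))
    have h6 : ∀ᶠ ε : ℝ in 𝓝[>] 0, gW k u ((1 + ε) • x₀) ≠ 0 ∧ ‖(1 + ε) • x₀‖ < R ∧ 0 < ε := by
      filter_upwards [nhdsWithin_le_nhds h4, nhdsWithin_le_nhds h5, self_mem_nhdsWithin]
        with ε h7 h8 h9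
      exact ⟨h7, h8, h9⟩
    obtain ⟨ε, h7, h8, h9⟩ := h6.exists
    refine ⟨(x₀, (1 + ε) • x₀), ?_, h0, h7, ?_, ?_, h8⟩
    · simp only
      rw [norm_smul, Real.norm_of_nonneg (by linarith)]
      have := norm_pos_iff.2 hx₀
      nlinarith
    · simp only
      rw [pr_smul, inner_smul_right, real_inner_self_eq_norm_sq]
      have := norm_pos_iff.2 hpr
      positivity
    · simp only
      linarith
  exact (hUo.measure_pos volume hUne).trans_le (measure_mono hUsub)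

/-- MODULE fm. THE GRADIENT VANISHES. Choose `e < min(2s,2-2s)`, `a ≥ 0`, `(d-2-e)/2 < a`, `a^2 < k-1`, `2a < d-1`, and
`b = √(k-1)`. `J_R ≤ I_R' ≤ I_R ≤ M_R` (`J_le`, `D_nonneg`, `I_le`), `M_R → 0` (`mix_A`, `energy`: exponents `d-2-e-2a < 0` and
`d-2-2s-2a < 0`); `J_R` is nondecreasing, so `J_R ≤ 0` for all `R`, contradiction with `J_pos` unless `gW = 0`. -/
theorem gW_zero {d k : ℕ} {s c : ℝ} (h2 : 2 ≤ k) (hk : k ≤ d) (hs0 : 0 < s) (hs1 : s < 1) (hc : 0 < c) {u : E d → ℝ}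
    (hu : Entire d s c u) (hst : Stable d s c u) (hH : HolU s u) (hr : Rot k u)
    (hcond : (d : ℝ) - 2 - min (2 * s) (2 - 2 * s) < 2 * √((k : ℝ) - 1)) : ∀ x, gW k u x = 0 := by
  have hd : 1 ≤ d := by omega
  have hu2 : ContDiff ℝ 2 u := hu.smooth
  have hk2 : (2 : ℝ) ≤ k := by exact_mod_cast h2
  have hkd : (k : ℝ) ≤ d := by exact_mod_cast hk
  obtain ⟨b, hb⟩ : ∃ b : ℝ, b = √((k : ℝ) - 1) := ⟨_, rfl⟩
  have hb2 : b ^ 2 = (k : ℝ) - 1 := by rw [hb]; exact Real.sq_sqrt (by linarith)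
  have hb1 : 1 ≤ b := by rw [hb]; exact Real.one_le_sqrt.2 (by linarith)
  rw [← hb] at hcond
  obtain ⟨m, hm⟩ : ∃ m : ℝ, m = min (2 * s) (2 - 2 * s) := ⟨_, rfl⟩
  rw [← hm] at hcond
  have hm0 : 0 < m := by rw [hm]; exact lt_min (by linarith) (by linarith)
  have hms : m ≤ 2 * s := by rw [hm]; exact min_le_left _ _
  have hms' : m ≤ 2 - 2 * s := by rw [hm]; exact min_le_right _ _
  obtain ⟨e, he0, hem, he2⟩ : ∃ e : ℝ, 0 < e ∧ e < m ∧ (d : ℝ) - 2 - e < 2 * b := by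
    have h3 := min_le_left (m / 2) ((2 * b - ((d : ℝ) - 2 - m)) / 2)
    have h4 := min_le_right (m / 2) ((2 * b - ((d : ℝ) - 2 - m)) / 2)
    have h5 : 0 < min (m / 2) ((2 * b - ((d : ℝ) - 2 - m)) / 2) :=
      lt_min (by linarith) (by linarith)
    exact ⟨m - min (m / 2) ((2 * b - ((d : ℝ) - 2 - m)) / 2), by linarith, by linarith,
      by linarith⟩
  obtain ⟨a, ha0, hab, had, hae⟩ : ∃ a : ℝ, 0 ≤ a ∧ a < b ∧ 2 * a < (d : ℝ) - 1 ∧
      (d : ℝ) - 2 - e < 2 * a := by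
    have h3 := le_max_left (0 : ℝ) ((d : ℝ) - 2 - e)
    have h4 := le_max_right (0 : ℝ) ((d : ℝ) - 2 - e)
    have h5 := min_le_left (2 * b) ((d : ℝ) - 1)
    have h6 := min_le_right (2 * b) ((d : ℝ) - 1)
    have h7 : max (0 : ℝ) ((d : ℝ) - 2 - e) < min (2 * b) ((d : ℝ) - 1) :=
      max_lt (lt_min (by linarith) (by linarith)) (lt_min (by linarith) (by linarith))
    exact ⟨(max (0 : ℝ) ((d : ℝ) - 2 - e) + min (2 * b) ((d : ℝ) - 1)) / 4, by linarith,
      by linarith, by linarith, by linarith⟩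
  by_contra hcon
  push Not at hcon
  obtain ⟨x₀, hx₀⟩ := hcon
  obtain ⟨R₀, hR₀, hJ⟩ := J_pos hd hs0 hs1 ha0 hab hu2 hr hx₀
  obtain ⟨C, hC, hmix⟩ := mix_A hd hs0 hs1 ha0 had (d := d) (s := s) (a := a)
  obtain ⟨C', hC', hen⟩ := energy hd hs0 hs1 hc hu hst hH (e := e) (by linarith) (by linarith)
  have hL : LocLip u := hu.locLip
  have hu1 : ∀ x, |u x| ≤ 1 := fun x => (hu.bound x).le
  have key : ∀ R : ℝ, max R₀ 4 ≤ R → JR d k s a b u R₀ ≤
      (k : ℝ) * C * C' * 2 ^ ((d : ℝ) - e) * R ^ (-(2 * a + 2 + e - d)) +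
        (k : ℝ) * C * R ^ (-(2 + 2 * s + 2 * a - d)) := by
    intro R hR
    have hR1 : R₀ ≤ R := (le_max_left _ _).trans hR
    have hR4 : 4 ≤ R := (le_max_right _ _).trans hR
    have hRp : 0 < R := by linarith
    have h3 := J_mono hd hs0 hs1 ha0 hab hu2 hr (by linarith : (0 : ℝ) < R₀) hR1
      (k := k) (s := s) (a := a) (b := b)
    have h4 := J_le h2 hk hs0 hs1 ha0 hab hb2.le hu2 hr hRp
    have h5 := D_nonneg hd hs0 hs1 hu2 hr a hRp
    have h6 := I_le hk hd hs0 hs1 hc hu hst hr a hRp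
    refine (h3.trans (h4.trans (h5.trans h6))).trans ?_
    have h7 : ∀ i : Fin k, |∫ p : E d × E d, (u p.1 - u p.2) ^ 2 *
        mix d s (fun x => zt a x ^ 2 * th R x) (th R) (bv (Fin.castLE hk i)) p.1 p.2| ≤
        C * (R ^ (-(2 * a) - 2) * En d s u (2 * R) + R ^ ((d : ℝ) - 2 - 2 * s - 2 * a)) := by
      intro i
      refine hmix u hL hu1 _ ?_ R hR4
      unfold bv
      rw [EuclideanSpace.norm_single]
      simp
    have h8 : |∑ i : Fin k, ∫ p : E d × E d, (u p.1 - u p.2) ^ 2 *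
        mix d s (fun x => zt a x ^ 2 * th R x) (th R) (bv (Fin.castLE hk i)) p.1 p.2| ≤
        (k : ℝ) * (C * (R ^ (-(2 * a) - 2) * En d s u (2 * R) +
          R ^ ((d : ℝ) - 2 - 2 * s - 2 * a))) := by
      refine (Finset.abs_sum_le_sum_abs _ _).trans ?_
      refine (Finset.sum_le_sum fun i _ => h7 i).trans ?_
      rw [Finset.sum_const, Finset.card_univ, Fintype.card_fin, nsmul_eq_mul]
    have h9 := hen (2 * R) (by linarith)
    have h10 : R ^ (-(2 * a) - 2) * En d s u (2 * R) ≤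
        C' * 2 ^ ((d : ℝ) - e) * R ^ (-(2 * a + 2 + e - d)) := by
      refine (mul_le_mul_of_nonneg_left h9 (Real.rpow_nonneg hRp.le _)).trans (le_of_eq ?_)
      rw [Real.mul_rpow (by norm_num) hRp.le]
      have h11 : R ^ (-(2 * a + 2 + e - (d : ℝ))) = R ^ (-(2 * a) - 2) * R ^ ((d : ℝ) - e) := by
        rw [← Real.rpow_add hRp]
        congr 1
        ring
      rw [h11]
      ring
    have h12 : R ^ ((d : ℝ) - 2 - 2 * s - 2 * a) = R ^ (-(2 + 2 * s + 2 * a - (d : ℝ))) := by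
      congr 1
      ring
    rw [h12] at h8
    have h13 := neg_abs_le (∑ i : Fin k, ∫ p : E d × E d, (u p.1 - u p.2) ^ 2 *
        mix d s (fun x => zt a x ^ 2 * th R x) (th R) (bv (Fin.castLE hk i)) p.1 p.2)
    have h14 : 0 ≤ (k : ℝ) * (C * (R ^ (-(2 * a) - 2) * En d s u (2 * R) +
        R ^ (-(2 + 2 * s + 2 * a - (d : ℝ))))) := (abs_nonneg _).trans h8
    have h15 : (k : ℝ) * (C * (R ^ (-(2 * a) - 2) * En d s u (2 * R) +
        R ^ (-(2 + 2 * s + 2 * a - (d : ℝ))))) ≤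
        (k : ℝ) * (C * (C' * 2 ^ ((d : ℝ) - e) * R ^ (-(2 * a + 2 + e - d)) +
        R ^ (-(2 + 2 * s + 2 * a - (d : ℝ))))) := by
      have hk0 : (0 : ℝ) ≤ k := by linarith
      gcongr
    have h16 : (k : ℝ) * C * C' * 2 ^ ((d : ℝ) - e) * R ^ (-(2 * a + 2 + e - (d : ℝ))) +
        (k : ℝ) * C * R ^ (-(2 + 2 * s + 2 * a - (d : ℝ))) =
        (k : ℝ) * (C * (C' * 2 ^ ((d : ℝ) - e) * R ^ (-(2 * a + 2 + e - d)) +
        R ^ (-(2 + 2 * s + 2 * a - (d : ℝ))))) := by ring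
    rw [h16]
    linarith
  have hlim : Tendsto (fun R : ℝ =>
      (k : ℝ) * C * C' * 2 ^ ((d : ℝ) - e) * R ^ (-(2 * a + 2 + e - (d : ℝ))) +
        (k : ℝ) * C * R ^ (-(2 + 2 * s + 2 * a - (d : ℝ)))) atTop (𝓝 0) := by
    have h3 := tendsto_rpow_neg_atTop (by linarith : 0 < 2 * a + 2 + e - (d : ℝ))
    have h4 := tendsto_rpow_neg_atTop (by linarith : 0 < 2 + 2 * s + 2 * a - (d : ℝ))
    have h5 := (h3.const_mul ((k : ℝ) * C * C' * 2 ^ ((d : ℝ) - e))).add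
      (h4.const_mul ((k : ℝ) * C))
    simpa using h5
  have h3 : JR d k s a b u R₀ ≤ 0 :=
    ge_of_tendsto hlim (eventually_atTop.2 ⟨max R₀ 4, fun R hR => key R hR⟩)
  linarith

private theorem fn_dir {d k : ℕ} {u : E d → ℝ} (h : ∀ x, gW k u x = 0) {τ : E d}
    (hτ : ∀ i : Fin d, k ≤ (i : ℕ) → τ i = 0) (x : E d) : fderiv ℝ u x τ = 0 := by
  have h1 : τ = ∑ i : Fin d, τ i • (bv i : E d) := by
    ext j
    simp only [bv, WithLp.ofLp_sum, WithLp.ofLp_smul, Finset.sum_apply, Pi.smul_apply, smul_eq_mul,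
      EuclideanSpace.ofLp_single]
    rw [Finset.sum_eq_single j]
    · simp
    · intro i _ hij
      rw [Pi.single_eq_of_ne' hij, mul_zero]
    · intro hj
      exact absurd (Finset.mem_univ j) hj
  rw [h1, map_sum]
  refine Finset.sum_eq_zero fun i _ => ?_
  rw [map_smul]
  by_cases hi : (i : ℕ) < k
  · have h2 : gW k u x i = 0 := by rw [h x]; rfl
    have h3 : gW k u x i = pd i u x := by
      unfold gW
      simp only [if_pos hi]
    rw [h3] at h2
    unfold pd at h2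
    rw [h2, smul_zero]
  · rw [hτ i (not_lt.1 hi), zero_smul]

/-- MODULE fn. If the partial gradient vanishes, `u` depends only on the last `d - k` coordinates. -/
theorem indep {d k : ℕ} {u : E d → ℝ} (hu : ContDiff ℝ 1 u) (h : ∀ x, gW k u x = 0) {x y : E d}
    (hxy : ∀ i : Fin d, k ≤ (i : ℕ) → x i = y i) : u x = u y := by
  have hd : Differentiable ℝ u := hu.differentiable (by norm_num)
  have hder : ∀ t : ℝ, HasDerivAt (fun t : ℝ => u (x + t • (y - x))) 0 t := by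
    intro t
    have h1 : HasDerivAt (fun t : ℝ => x + t • (y - x)) (y - x) t := by
      have h2 := ((hasDerivAt_id t).smul_const (y - x)).const_add x
      simpa using h2
    have h3 := (hd (x + t • (y - x))).hasFDerivAt.comp_hasDerivAt t h1
    rw [fn_dir (k := k) h (τ := y - x) (fun i hi => by
      rw [PiLp.sub_apply, hxy i hi, sub_self])] at h3
    exact h3
  have h4 := is_const_of_deriv_eq_zero (fun t => (hder t).differentiableAt)
    (fun t => (hder t).deriv) 0 1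
  simpa using h4

end Pool.Agent.Frd
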