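import Pool.Agent.Frd.Def

/-!
# Geometry of the projection `pr k`, the group `O(k)` and equivariant fields
-/

open MeasureTheory Set Filter Topology NDG

namespace Pool.Agent.Frd

/-- MODULE ga -/
theorem pr_apply {d k : ℕ} (x : E d) (i : Fin d) : pr k x i = if (i : ℕ) < k then x i else 0 := by
  rfl

private theorem ga_add {d k : ℕ} (x y : E d) : pr k (x + y) = pr k x + pr k y := by
  ext i
  rw [PiLp.add_apply, pr_apply, pr_apply, pr_apply, PiLp.add_apply]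
  split_ifs
  · rfl
  · rw [add_zero]

private theorem ga_smul {d k : ℕ} (a : ℝ) (x : E d) : pr k (a • x) = a • pr k x := by
  ext i
  rw [PiLp.smul_apply, pr_apply, pr_apply, PiLp.smul_apply]
  split_ifs
  · rfl
  · rw [smul_zero]

/-- MODULE ga. `pr k` as a continuous linear map. -/
theorem exists_prL (d k : ℕ) : ∃ L : E d →L[ℝ] E d, ∀ x, L x = pr k x := by
  let L : E d →ₗ[ℝ] E d := { toFun := pr k, map_add' := ga_add, map_smul' := ga_smul }
  exact ⟨LinearMap.toContinuousLinearMap L, fun x => rfl⟩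

/-- MODULE ga -/
theorem pr_add {d k : ℕ} (x y : E d) : pr k (x + y) = pr k x + pr k y := ga_add x y

/-- MODULE ga -/
theorem pr_sub {d k : ℕ} (x y : E d) : pr k (x - y) = pr k x - pr k y := by
  obtain ⟨L, hL⟩ := exists_prL d k
  rw [← hL, ← hL, ← hL, map_sub]

/-- MODULE ga -/
theorem pr_smul {d k : ℕ} (a : ℝ) (x : E d) : pr k (a • x) = a • pr k x := ga_smul a x

/-- MODULE ga -/
theorem pr_pr {d k : ℕ} (x : E d) : pr k (pr k x) = pr k x := by
  ext i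
  rw [pr_apply, pr_apply]
  split_ifs <;> rfl

/-- MODULE ga -/
theorem inner_pr {d k : ℕ} (x y : E d) : inner ℝ (pr k x) y = inner ℝ (pr k x) (pr k y) := by
  rw [PiLp.inner_apply, PiLp.inner_apply]
  refine Finset.sum_congr rfl fun i _ => ?_
  rw [pr_apply, pr_apply]
  split_ifs
  · rfl
  · rw [inner_zero_left, inner_zero_left]

/-- MODULE ga -/
theorem norm_pr_le {d k : ℕ} (x : E d) : ‖pr k x‖ ≤ ‖x‖ := by
  have h1 : ‖pr k x‖ * ‖pr k x‖ = inner ℝ (pr k x) x := by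
    rw [inner_pr, real_inner_self_eq_norm_mul_norm]
  have h2 : inner ℝ (pr k x) x ≤ ‖pr k x‖ * ‖x‖ := real_inner_le_norm _ _
  rcases (norm_nonneg (pr k x)).eq_or_lt with h | h
  · rw [← h]
    exact norm_nonneg x
  · exact le_of_mul_le_mul_left (h1.trans_le h2) h

/-- MODULE ga -/
theorem contDiff_pr {d k : ℕ} (n : WithTop ℕ∞) : ContDiff ℝ n (pr k : E d → E d) := by
  obtain ⟨L, hL⟩ := exists_prL d k
  have e : (pr k : E d → E d) = L := funext fun x => (hL x).symm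
  rw [e]
  exact L.contDiff

/-- MODULE gb. `{pr k = 0}` is a null set for `1 ≤ k`, `1 ≤ d` (proper subspace: it does not contain the first
coordinate vector; `Measure.addHaar_submodule`). -/
theorem pr_null {d k : ℕ} (hk : 1 ≤ k) (hd : 1 ≤ d) : volume {x : E d | pr k x = 0} = 0 := by
  obtain ⟨L, hL⟩ := exists_prL d k
  have e : {x : E d | pr k x = 0} = ((LinearMap.ker L.toLinearMap : Submodule ℝ (E d)) : Set (E d)) := by
    ext x
    rw [Set.mem_ofPred_eq, SetLike.mem_coe, LinearMap.mem_ker, ← hL]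
    rfl
  rw [e]
  refine Measure.addHaar_submodule volume _ ?_
  intro h
  have h1 : (bv ⟨0, hd⟩ : E d) ∈ LinearMap.ker L.toLinearMap := by
    rw [h]
    exact Submodule.mem_top
  have h2 : pr k (bv ⟨0, hd⟩ : E d) = 0 := (hL _).symm.trans (LinearMap.mem_ker.1 h1)
  have h3 : pr k (bv ⟨0, hd⟩ : E d) ⟨0, hd⟩ = 1 := by
    rw [pr_apply, if_pos (show ((⟨0, hd⟩ : Fin d) : ℕ) < k from hk)]
    simp [bv]
  rw [h2] at h3
  simp at h3

/-- MODULE gc. Elements of `O(k)` commute with `pr k`. Proof: `x = pr x + (x - pr x)`, `pr (x - pr x) = 0` so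
`g (x - pr x) = x - pr x`; for every `v` with `pr v = 0`: `⟪g (pr x), v⟫ = ⟪g (pr x), g v⟫ = ⟪pr x, v⟫ = 0`, hence
`pr (g (pr x)) = g (pr x)` (take `v = g (pr x) - pr (g (pr x))`). -/
theorem pr_ok {d k : ℕ} {g : E d ≃ₗᵢ[ℝ] E d} (hg : Ok k g) (x : E d) :
    pr k (g x) = g (pr k x) ∧ g x - pr k (g x) = x - pr k x := by
  have hz : ∀ y : E d, pr k (y - pr k y) = 0 := fun y => by rw [pr_sub, pr_pr, sub_self]
  have h1 : ∀ v : E d, pr k v = 0 → inner ℝ (g (pr k x)) v = (0 : ℝ) := by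
    intro v hv
    have e : g v = v := hg v hv
    calc inner ℝ (g (pr k x)) v = inner ℝ (g (pr k x)) (g v) := by rw [e]
      _ = inner ℝ (pr k x) v := g.inner_map_map _ _
      _ = inner ℝ (pr k x) (pr k v) := inner_pr x v
      _ = 0 := by rw [hv, inner_zero_right]
  have h2 : pr k (g (pr k x)) = g (pr k x) := by
    have h3 := h1 _ (hz (g (pr k x)))
    have h4 : inner ℝ (pr k (g (pr k x))) (g (pr k x) - pr k (g (pr k x))) = (0 : ℝ) := by
      rw [inner_pr, hz, inner_zero_right]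
    have h5 : inner ℝ (g (pr k x) - pr k (g (pr k x))) (g (pr k x) - pr k (g (pr k x))) = (0 : ℝ) := by
      rw [inner_sub_left, h3, h4, sub_zero]
    exact (sub_eq_zero.1 (inner_self_eq_zero.1 h5)).symm
  have h6 : g x = g (pr k x) + (x - pr k x) := by
    calc g x = g (pr k x + (x - pr k x)) := by rw [add_sub_cancel]
      _ = g (pr k x) + g (x - pr k x) := map_add g _ _
      _ = g (pr k x) + (x - pr k x) := by rw [hg _ (hz x)]
  have h7 : pr k (g x) = g (pr k x) := by rw [h6, pr_add, h2, hz, add_zero]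
  refine ⟨h7, ?_⟩
  rw [h7, h6, add_sub_cancel_left]

/-- MODULE gc -/
theorem ok_symm {d k : ℕ} {g : E d ≃ₗᵢ[ℝ] E d} (hg : Ok k g) : Ok k g.symm := by
  intro x hx
  have h1 : g x = x := hg x hx
  calc g.symm x = g.symm (g x) := by rw [h1]
    _ = x := g.symm_apply_apply x

private theorem gd_refl {d : ℕ} (τ x : E d) :
    (ℝ ∙ τ)ᗮ.reflection x = x - (2 * inner ℝ τ x / ‖τ‖ ^ 2) • τ := by
  rw [Submodule.reflection_orthogonal_apply, Submodule.reflection_singleton_apply, neg_sub,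
    RCLike.ofReal_real_eq_id, id_eq, two_smul, ← add_smul]
  congr 2
  ring

/-- MODULE gd. Reflections in hyperplanes orthogonal to a nonzero `τ` of `ℝ^k` are in `O(k)`: there is `g` in `O(k)` with
`g x = x - (2 ⟪τ,x⟫/‖τ‖^2) • τ` (Mathlib: `Submodule.reflection (ℝ ∙ τ)ᗮ`, `Submodule.reflection_orthogonalComplement_singleton_eq_neg`,
or build it directly). -/
theorem exists_refl {d k : ℕ} {τ : E d} (hτ : pr k τ = τ) (h0 : τ ≠ 0) :
    ∃ g : E d ≃ₗᵢ[ℝ] E d, Ok k g ∧ ∀ x, g x = x - (2 * inner ℝ τ x / ‖τ‖ ^ 2) • τ := by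
  refine ⟨(ℝ ∙ τ)ᗮ.reflection, ?_, ?_⟩
  · intro x hx
    rw [gd_refl τ x, ← hτ, inner_pr, hx, inner_zero_right, mul_zero, zero_div, zero_smul, sub_zero]
  · intro x
    exact gd_refl τ x

private theorem gd_flip {d k : ℕ} (x : E d) :
    (LinearIsometryEquiv.piLpCongrRight 2 (fun i : Fin d =>
      if (i : ℕ) < k then LinearIsometryEquiv.neg ℝ else LinearIsometryEquiv.refl ℝ ℝ)) x =
      x - (2 : ℝ) • pr k x := by
  ext i
  rw [LinearIsometryEquiv.piLpCongrRight_apply, PiLp.sub_apply, PiLp.smul_apply, pr_apply]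
  change (if (i : ℕ) < k then LinearIsometryEquiv.neg ℝ else LinearIsometryEquiv.refl ℝ ℝ) (x i) = _
  split_ifs
  · rw [LinearIsometryEquiv.coe_neg, smul_eq_mul]
    ring
  · rw [LinearIsometryEquiv.coe_refl, id_eq, smul_zero, sub_zero]

/-- MODULE gd. The flip `x ↦ x - 2 pr k x` is in `O(k)`. -/
theorem exists_flip (d k : ℕ) :
    ∃ g : E d ≃ₗᵢ[ℝ] E d, Ok k g ∧ ∀ x, g x = x - (2 : ℝ) • pr k x := by
  refine ⟨LinearIsometryEquiv.piLpCongrRight 2 (fun i : Fin d =>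
    if (i : ℕ) < k then LinearIsometryEquiv.neg ℝ else LinearIsometryEquiv.refl ℝ ℝ), ?_, ?_⟩
  · intro x hx
    rw [gd_flip, hx, smul_zero, sub_zero]
  · intro x
    exact gd_flip x

/-- MODULE ge. Equivariant fields are parallel to `pr k x`. Proof: if `pr x = 0` and `V x ≠ 0` take the reflection with
`τ = V x` (`pr τ = τ` by `Equi`): `g x = x` since `⟪τ,x⟫ = ⟪τ, pr x⟫ = 0`, so `V x = g (V x) = - V x`. If `pr x ≠ 0`, take
`τ = V x - (⟪V x, pr x⟫/‖pr x‖^2) • pr x`; if `τ ≠ 0` then `g x = x`, so `V x = g (V x)`, so `⟪τ, V x⟫ = 0`, `‖τ‖^2 = 0`. -/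
theorem equi_par {d k : ℕ} {V : E d → E d} (hV : Equi k V) (x : E d) : ∃ q : ℝ, V x = q • pr k x := by
  obtain ⟨h1, h2⟩ := hV
  by_cases hx : pr k x = 0
  · refine ⟨0, ?_⟩
    rw [zero_smul]
    by_contra h0
    obtain ⟨g, hg, hg'⟩ := exists_refl (h2 x) h0
    have h3 : g x = x := hg x hx
    have h4 := h1 g hg x
    rw [h3, hg' (V x), real_inner_self_eq_norm_sq, mul_div_assoc,
      div_self (pow_ne_zero 2 (norm_ne_zero_iff.2 h0)), mul_one, two_smul, sub_add_cancel_left] at h4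
    apply h0
    have h5 : (2 : ℝ) • V x = 0 := by
      rw [two_smul]
      nth_rewrite 1 [h4]
      exact neg_add_cancel (V x)
    exact (smul_eq_zero.1 h5).resolve_left two_ne_zero
  · refine ⟨inner ℝ (V x) (pr k x) / ‖pr k x‖ ^ 2, ?_⟩
    by_contra h0
    have hn : ‖pr k x‖ ^ 2 ≠ 0 := pow_ne_zero 2 (norm_ne_zero_iff.2 hx)
    set τ : E d := V x - (inner ℝ (V x) (pr k x) / ‖pr k x‖ ^ 2) • pr k x with hτ
    have hτ0 : τ ≠ 0 := fun h => h0 (sub_eq_zero.1 h)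
    have hτp : pr k τ = τ := by
      rw [hτ, pr_sub, pr_smul, pr_pr, h2 x]
    obtain ⟨g, hg, hg'⟩ := exists_refl hτp hτ0
    have hτx : inner ℝ τ (pr k x) = 0 := by
      rw [hτ, inner_sub_left, real_inner_smul_left, real_inner_self_eq_norm_sq]
      field_simp
      ring
    have hτx' : inner ℝ τ x = 0 := by
      rw [← hτp, inner_pr, hτp, hτx]
    have h3 : g x = x := by
      rw [hg' x, hτx', mul_zero, zero_div, zero_smul, sub_zero]
    have h4 := h1 g hg x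
    rw [h3, hg' (V x), eq_comm, sub_eq_self, smul_eq_zero, div_eq_zero_iff] at h4
    have h5 : inner ℝ τ (V x) = 0 := by
      rcases h4 with (h4 | h4) | h4
      · linarith
      · exact absurd h4 (pow_ne_zero 2 (norm_ne_zero_iff.2 hτ0))
      · exact absurd h4 hτ0
    have h6 : inner ℝ τ τ = (0 : ℝ) := by
      nth_rewrite 2 [hτ]
      rw [inner_sub_right, real_inner_smul_right, h5, hτx, mul_zero, sub_zero]
    exact hτ0 (inner_self_eq_zero.1 h6)

/-- MODULE gf. Consequences for parallel vectors. -/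
theorem par_inner {d k : ℕ} {a b x : E d} (ha : ∃ q : ℝ, a = q • pr k x) (hb : ∃ q : ℝ, b = q • pr k x)
    (hx : pr k x ≠ 0) :
    inner ℝ a (pr k x) * inner ℝ b (pr k x) = ‖pr k x‖ ^ 2 * inner ℝ a b ∧
    |inner ℝ a (pr k x)| = ‖a‖ * ‖pr k x‖ := by
  obtain ⟨q, rfl⟩ := ha
  obtain ⟨q', rfl⟩ := hb
  refine ⟨?_, ?_⟩
  · rw [real_inner_smul_left, real_inner_smul_left, real_inner_smul_left, real_inner_smul_right,
      real_inner_self_eq_norm_sq]
    ring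
  · rw [real_inner_smul_left, real_inner_self_eq_norm_sq, norm_smul, abs_mul, Real.norm_eq_abs,
      abs_of_nonneg (sq_nonneg ‖pr k x‖)]
    ring

private theorem gg_inner {d k : ℕ} (x : E d) (i : Fin d) :
    inner ℝ (pr k x) (pr k (bv i)) = pr k x i := by
  rw [← inner_pr]
  unfold bv
  rw [EuclideanSpace.inner_single_right]
  simp

private theorem gg_norm {d k : ℕ} {x : E d} (hx : pr k x ≠ 0) :
    ∃ N : E d →L[ℝ] ℝ, HasFDerivAt (fun z : E d => ‖pr k z‖) N x ∧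
      ∀ v, N v = inner ℝ (pr k x) (pr k v) / ‖pr k x‖ := by
  obtain ⟨L, hL⟩ := exists_prL d k
  have h1 : HasFDerivAt (fun z : E d => pr k z) L x := by
    have h2 : (fun z : E d => pr k z) = L := funext fun z => (hL z).symm
    rw [h2]
    exact L.hasFDerivAt
  have hn : ‖pr k x‖ ≠ 0 := norm_ne_zero_iff.2 hx
  have h3 := h1.norm_sq.sqrt (pow_ne_zero 2 hn)
  have h4 : (fun z : E d => √(‖pr k z‖ ^ 2)) = fun z : E d => ‖pr k z‖ :=
    funext fun z => Real.sqrt_sq (norm_nonneg _)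
  rw [h4, Real.sqrt_sq (norm_nonneg _)] at h3
  refine ⟨_, h3, fun v => ?_⟩
  simp only [_root_.smul_apply, ContinuousLinearMap.comp_apply, innerSL_apply_apply,
    hL, smul_eq_mul, nsmul_eq_mul]
  push_cast
  field_simp

private theorem gg_pd {d k : ℕ} {x : E d} (hx : pr k x ≠ 0) (i j : Fin d) :
    DifferentiableAt ℝ (fun z : E d => pr k z j / ‖pr k z‖) x ∧
    pd i (fun z : E d => pr k z j / ‖pr k z‖) x =
      (if i = j then (if (i : ℕ) < k then 1 else 0) / ‖pr k x‖ else 0) -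
        pr k x i * pr k x j / ‖pr k x‖ ^ 3 := by
  obtain ⟨L, hL⟩ := exists_prL d k
  obtain ⟨N, hN, hN'⟩ := gg_norm hx
  have hn : ‖pr k x‖ ≠ 0 := norm_ne_zero_iff.2 hx
  have h1 : HasFDerivAt (fun z : E d => pr k z j)
      ((EuclideanSpace.proj j : E d →L[ℝ] ℝ).comp L) x := by
    have h2 : (fun z : E d => pr k z j) = ((EuclideanSpace.proj j : E d →L[ℝ] ℝ).comp L) := by
      funext z
      simp [hL]
    rw [h2]
    exact ContinuousLinearMap.hasFDerivAt _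
  have h3 := (hasDerivAt_inv hn).comp_hasFDerivAt x hN
  have h4 := h1.mul h3
  have h5 : (fun z : E d => pr k z j / ‖pr k z‖) =
      fun z : E d => pr k z j * (Inv.inv ∘ fun z : E d => ‖pr k z‖) z := by
    funext z
    rw [div_eq_mul_inv]
    rfl
  have h6 := h4
  change HasFDerivAt (fun z : E d => pr k z j * (Inv.inv ∘ fun z : E d => ‖pr k z‖) z) _ x at h6
  rw [← h5] at h6
  refine ⟨h6.differentiableAt, ?_⟩
  unfold pd
  rw [h6.fderiv]
  have e1 : ((EuclideanSpace.proj j : E d →L[ℝ] ℝ).comp L) (bv i) =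
      if i = j then (if (i : ℕ) < k then 1 else 0) else 0 := by
    rw [ContinuousLinearMap.comp_apply, hL]
    change pr k (bv i) j = _
    rw [pr_apply]
    unfold bv
    rw [PiLp.single_apply]
    by_cases hij : i = j
    · subst hij
      simp
    · have hji : ¬ j = i := fun h => hij h.symm
      simp only [hij, hji, if_false, ite_self]
  have e2 : N (bv i) = pr k x i / ‖pr k x‖ := by rw [hN', gg_inner]
  simp only [_root_.add_apply, _root_.smul_apply, smul_eq_mul, e1, e2,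
    Function.comp_apply]
  by_cases hij : i = j
  · rw [if_pos hij, if_pos hij]
    field_simp
    ring
  · rw [if_neg hij, if_neg hij]
    field_simp
    ring

/-- MODULE gg. Normal form for the unit field: partial derivatives of `n_j = (pr k x)_j / ‖pr k x‖` at a point with
`pr k x ≠ 0`: `∂_i n_j = (δ_ij/r - x_i x_j/r^3)` for `i, j < k`, and `0` otherwise. -/
theorem pd_n {d k : ℕ} {x : E d} (hx : pr k x ≠ 0) (i j : Fin d) :
    DifferentiableAt ℝ (fun z : E d => pr k z j / ‖pr k z‖) x ∧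
    pd i (fun z : E d => pr k z j / ‖pr k z‖) x =
      if (i : ℕ) < k ∧ (j : ℕ) < k then
        (if i = j then 1 / ‖pr k x‖ else 0) - x i * x j / ‖pr k x‖ ^ 3 else 0 := by
  obtain ⟨h1, h2⟩ := gg_pd hx i j
  refine ⟨h1, ?_⟩
  rw [h2, pr_apply, pr_apply]
  by_cases hi : (i : ℕ) < k
  · by_cases hj : (j : ℕ) < k
    · simp only [hi, hj, if_true, and_self]
    · have : i ≠ j := fun h => hj (h ▸ hi)
      simp [hi, hj, this]
  · simp [hi]

/-- MODULE gh. `∑_{i,j} (∂_i n_j)^2 = (k-1)/r^2` (`k ≤ d`) and `∑_j n_j ∂_i n_j = 0`, `∑_j n_j^2 = 1`. -/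
theorem sum_pd_n {d k : ℕ} (hk : k ≤ d) {x : E d} (hx : pr k x ≠ 0) :
    (∑ i : Fin d, ∑ j : Fin d, (pd i (fun z : E d => pr k z j / ‖pr k z‖) x) ^ 2 = ((k : ℝ) - 1) / ‖pr k x‖ ^ 2) ∧
    (∀ i, ∑ j : Fin d, (pr k x j / ‖pr k x‖) * pd i (fun z : E d => pr k z j / ‖pr k z‖) x = 0) ∧
    (∑ j : Fin d, (pr k x j / ‖pr k x‖) ^ 2 = 1) := by
  have hn : ‖pr k x‖ ≠ 0 := norm_ne_zero_iff.2 hx
  have hA : ∑ i : Fin d, (pr k x i) ^ 2 = ‖pr k x‖ ^ 2 := (EuclideanSpace.real_norm_sq_eq _).symm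
  have hC : ∑ i : Fin d, (if (i : ℕ) < k then (1 : ℝ) else 0) = k := by
    rw [Fin.sum_univ_eq_sum_range (fun i => if i < k then (1 : ℝ) else 0) d, ← Finset.sum_filter,
      Finset.sum_const, nsmul_eq_mul, mul_one]
    congr 1
    have h1 : (Finset.range d).filter (fun i => i < k) = Finset.range k := by
      ext i
      simp only [Finset.mem_filter, Finset.mem_range]
      omega
    rw [h1, Finset.card_range]
  have hc : ∀ i : Fin d, (if (i : ℕ) < k then (1 : ℝ) else 0) * pr k x i = pr k x i := by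
    intro i
    rw [pr_apply]
    split_ifs
    · rw [one_mul]
    · rw [mul_zero]
  refine ⟨?_, ?_, ?_⟩
  · have h1 : ∀ i j : Fin d, (pd i (fun z : E d => pr k z j / ‖pr k z‖) x) ^ 2 =
        (if i = j then (if (i : ℕ) < k then (1 : ℝ) else 0) / ‖pr k x‖ ^ 2 -
          2 * (pr k x i) ^ 2 / ‖pr k x‖ ^ 4 else 0) +
          (pr k x i) ^ 2 * (pr k x j) ^ 2 / ‖pr k x‖ ^ 6 := by
      intro i j
      rw [(gg_pd hx i j).2]
      by_cases hij : i = j
      · subst hij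
        rw [if_pos rfl, if_pos rfl]
        by_cases hi : (i : ℕ) < k
        · rw [if_pos hi]
          field_simp
          ring
        · have : pr k x i = 0 := by rw [pr_apply, if_neg hi]
          rw [if_neg hi, this]
          simp
      · rw [if_neg hij, if_neg hij]
        field_simp
        ring
    simp only [h1, Finset.sum_add_distrib, Finset.sum_ite_eq, Finset.mem_univ, if_true,
      ← Finset.sum_div, ← Finset.mul_sum, ← Finset.sum_mul, hA, Finset.sum_sub_distrib, hC]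
    field_simp
    ring
  · intro i
    have h1 : ∀ j : Fin d, (pr k x j / ‖pr k x‖) * pd i (fun z : E d => pr k z j / ‖pr k z‖) x =
        (if i = j then pr k x i / ‖pr k x‖ ^ 2 else 0) -
          pr k x i / ‖pr k x‖ ^ 4 * (pr k x j) ^ 2 := by
      intro j
      rw [(gg_pd hx i j).2]
      by_cases hij : i = j
      · subst hij
        rw [if_pos rfl, if_pos rfl]
        have h2 := hc i
        by_cases hi : (i : ℕ) < k
        · rw [if_pos hi]
          field_simp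
        · have : pr k x i = 0 := by rw [pr_apply, if_neg hi]
          rw [if_neg hi, this]
          simp
      · rw [if_neg hij, if_neg hij]
        field_simp
        ring
    simp only [h1, Finset.sum_sub_distrib, Finset.sum_ite_eq, Finset.mem_univ, if_true,
      ← Finset.mul_sum, hA]
    field_simp
    ring
  · simp only [div_pow, ← Finset.sum_div, hA]
    exact div_self (pow_ne_zero 2 hn)

/-- MODULE gi. The main identity for a parallel field `Y`, with `y = ⟪Y, pr⟫/‖pr‖` (the signed length): at a point with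
`pr k x ≠ 0`, `∑_{ij} (∂_i Y_j)^2 = ∑_i (∂_i y)^2 + (k-1) |Y|^2/r^2`. Proof: `{pr k ≠ 0}` is open, there
`Y_j = y n_j` (`Y = q pr`, `y = q ‖pr‖`); product rule, expand, `sum_pd_n`, `y^2 = ‖Y‖^2`. -/
theorem par_id {d k : ℕ} (hk : k ≤ d) {Y : E d → E d} (hY : Differentiable ℝ Y)
    (hp : ∀ z, ∃ q : ℝ, Y z = q • pr k z) {x : E d} (hx : pr k x ≠ 0) :
    DifferentiableAt ℝ (fun z => inner ℝ (Y z) (pr k z) / ‖pr k z‖) x ∧
    ∑ i : Fin d, ∑ j : Fin d, (pd i (fun z => Y z j) x) ^ 2 =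
      (∑ i : Fin d, (pd i (fun z => inner ℝ (Y z) (pr k z) / ‖pr k z‖) x) ^ 2)
        + ((k : ℝ) - 1) * (‖Y x‖ ^ 2 / ‖pr k x‖ ^ 2) := by
  have hn : ‖pr k x‖ ≠ 0 := norm_ne_zero_iff.2 hx
  obtain ⟨L, hL⟩ := exists_prL d k
  have hprd : Differentiable ℝ (fun z : E d => pr k z) := by
    have h2 : (fun z : E d => pr k z) = L := funext fun z => (hL z).symm
    rw [h2]
    exact L.differentiable
  obtain ⟨N, hN, _⟩ := gg_norm hx
  have hy : DifferentiableAt ℝ (fun z => inner ℝ (Y z) (pr k z) / ‖pr k z‖) x := by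
    have h3 : DifferentiableAt ℝ (fun z => (inner ℝ (Y z) (pr k z) : ℝ)) x :=
      (hY x).inner ℝ (hprd x)
    have h4 := h3.mul ((hasDerivAt_inv hn).comp_hasFDerivAt x hN).differentiableAt
    have h5 : (fun z => (inner ℝ (Y z) (pr k z) : ℝ) / ‖pr k z‖) =
        (fun z => (inner ℝ (Y z) (pr k z) : ℝ)) * ((fun y => y⁻¹) ∘ fun z : E d => ‖pr k z‖) := by
      funext z
      exact div_eq_mul_inv _ _
    rw [h5]
    exact h4
  refine ⟨hy, ?_⟩
  have hev : ∀ᶠ z in 𝓝 x, pr k z ≠ 0 :=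
    (hprd x).continuousAt.eventually_ne hx
  have hpd : ∀ i j : Fin d, pd i (fun z => Y z j) x =
      (inner ℝ (Y x) (pr k x) / ‖pr k x‖) * pd i (fun z : E d => pr k z j / ‖pr k z‖) x +
        (pr k x j / ‖pr k x‖) * pd i (fun z => inner ℝ (Y z) (pr k z) / ‖pr k z‖) x := by
    intro i j
    have h1 : (fun z => Y z j) =ᶠ[𝓝 x] fun z =>
        (inner ℝ (Y z) (pr k z) / ‖pr k z‖) * (pr k z j / ‖pr k z‖) := by
      filter_upwards [hev] with z hz
      obtain ⟨q, hq⟩ := hp z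
      have hz' : ‖pr k z‖ ≠ 0 := norm_ne_zero_iff.2 hz
      rw [hq, real_inner_smul_left, real_inner_self_eq_norm_sq, PiLp.smul_apply, smul_eq_mul]
      field_simp
    have h2 := hy.hasFDerivAt.mul (gg_pd hx i j).1.hasFDerivAt
    change HasFDerivAt (fun z => (inner ℝ (Y z) (pr k z) / ‖pr k z‖) * (pr k z j / ‖pr k z‖)) _ x at h2
    unfold pd
    rw [h1.fderiv_eq, h2.fderiv]
    rfl
  obtain ⟨s1, s2, s3⟩ := sum_pd_n hk hx
  have hyy : (inner ℝ (Y x) (pr k x) / ‖pr k x‖) ^ 2 = ‖Y x‖ ^ 2 := by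
    obtain ⟨q, hq⟩ := hp x
    rw [hq, real_inner_smul_left, real_inner_self_eq_norm_sq, norm_smul, mul_pow, Real.norm_eq_abs,
      sq_abs]
    field_simp
  have hexp : ∀ i j : Fin d, (pd i (fun z => Y z j) x) ^ 2 =
      (inner ℝ (Y x) (pr k x) / ‖pr k x‖) ^ 2 *
        (pd i (fun z : E d => pr k z j / ‖pr k z‖) x) ^ 2 +
      2 * (inner ℝ (Y x) (pr k x) / ‖pr k x‖) *
        pd i (fun z => inner ℝ (Y z) (pr k z) / ‖pr k z‖) x *
        ((pr k x j / ‖pr k x‖) * pd i (fun z : E d => pr k z j / ‖pr k z‖) x) +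
      (pd i (fun z => inner ℝ (Y z) (pr k z) / ‖pr k z‖) x) ^ 2 * (pr k x j / ‖pr k x‖) ^ 2 := by
    intro i j
    rw [hpd i j]
    ring
  have hrow : ∀ i : Fin d, ∑ j : Fin d, (pd i (fun z => Y z j) x) ^ 2 =
      (inner ℝ (Y x) (pr k x) / ‖pr k x‖) ^ 2 *
        (∑ j : Fin d, (pd i (fun z : E d => pr k z j / ‖pr k z‖) x) ^ 2) +
      (pd i (fun z => inner ℝ (Y z) (pr k z) / ‖pr k z‖) x) ^ 2 := by
    intro i
    simp only [hexp, Finset.sum_add_distrib, ← Finset.mul_sum]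
    rw [s2 i, s3, mul_zero, add_zero, mul_one]
  rw [Finset.sum_congr rfl fun i _ => hrow i, Finset.sum_add_distrib, ← Finset.mul_sum, s1, hyy]
  ring

private theorem gj_q {d k : ℕ} (x : E d) : ∃ q' : E d →L[ℝ] ℝ,
    HasFDerivAt (fun z : E d => ‖pr k z‖ ^ 2) q' x ∧ ∀ i : Fin d, q' (bv i) = 2 * pr k x i := by
  obtain ⟨L, hL⟩ := exists_prL d k
  have h1 : HasFDerivAt (fun z : E d => pr k z) L x := by
    have e : (fun z : E d => pr k z) = L := funext fun z => (hL z).symm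
    rw [e]
    exact L.hasFDerivAt
  refine ⟨_, h1.norm_sq, fun i => ?_⟩
  have h2 : inner ℝ (pr k x) (pr k (bv i)) = pr k x i := by
    rw [← inner_pr, bv, EuclideanSpace.inner_single_right]
    simp
  have h3 : ((2 • (innerSL ℝ (pr k x)).comp L : E d →L[ℝ] ℝ)) (bv i) =
      2 * inner ℝ (pr k x) (L (bv i)) := by
    simp [two_smul, two_mul]
  rw [h3, hL, h2]

private theorem gj_R {t δ : ℝ} (ht : 0 < t) (hδ : 0 < δ) :
    HasDerivAt (fun a : ℝ => √a / √(a + δ ^ 2)) (δ ^ 2 / (2 * √t * √(t + δ ^ 2) ^ 3)) t := by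
  have hs : 0 < t + δ ^ 2 := by positivity
  have h1 : HasDerivAt (fun a : ℝ => √a) (1 / (2 * √t)) t := Real.hasDerivAt_sqrt ht.ne'
  have h2 : HasDerivAt (fun a : ℝ => √(a + δ ^ 2)) (1 / (2 * √(t + δ ^ 2))) t :=
    ((hasDerivAt_id t).add_const (δ ^ 2)).sqrt hs.ne'
  have hr0 : 0 < √t := Real.sqrt_pos.2 ht
  have hs0 : 0 < √(t + δ ^ 2) := Real.sqrt_pos.2 hs
  have h3 := h1.div h2 hs0.ne'
  have e : (1 / (2 * √t) * √(t + δ ^ 2) - √t * (1 / (2 * √(t + δ ^ 2)))) / √(t + δ ^ 2) ^ 2 =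
      δ ^ 2 / (2 * √t * √(t + δ ^ 2) ^ 3) := by
    have hr2 : √t ^ 2 = t := Real.sq_sqrt ht.le
    have hs2 : √(t + δ ^ 2) ^ 2 = t + δ ^ 2 := Real.sq_sqrt hs.le
    have e1 : δ ^ 2 = √(t + δ ^ 2) ^ 2 - √t ^ 2 := by rw [hr2, hs2]; ring
    rw [div_eq_div_iff (by positivity) (by positivity)]
    generalize √(t + δ ^ 2) = s at *
    generalize √t = r at *
    rw [e1]
    field_simp
  rw [← e]
  exact h3

/-- MODULE gj. The regularised scalar `g_δ = ⟪Y, pr⟫/√(‖pr‖^2+δ^2)`, `δ > 0`: bound by the full gradient of `Y` and limit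
`δ → 0` at points with `pr k x ≠ 0`. Proof: near `x`, `g_δ = y ρ_δ`, `ρ_δ = r/√(r^2+δ^2) ≤ 1`,
`∂_i ρ_δ = δ^2 (x_i/r) (r^2+δ^2)^(-3/2)` (`i < k`), `∑ (∂_i ρ_δ)^2 = (δ^2 (r^2+δ^2)^(-3/2))^2 ≤ 1/r^2` and `→ 0`; so
`∑ (∂_i g_δ)^2 ≤ 2 ∑ (∂_i y)^2 + 2 y^2/r^2 ≤ 4 ∑∑ (∂_i Y_j)^2` by `par_id` and `k ≥ 2`. -/
theorem reg_bound {d k : ℕ} (h2 : 2 ≤ k) (hk : k ≤ d) {Y : E d → E d} (hY : Differentiable ℝ Y)
    (hp : ∀ z, ∃ q : ℝ, Y z = q • pr k z) {x : E d} (hx : pr k x ≠ 0) {δ : ℝ} (hδ : 0 < δ) :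
    ∑ i : Fin d, (pd i (fun z => inner ℝ (Y z) (pr k z) / √(‖pr k z‖ ^ 2 + δ ^ 2)) x) ^ 2 ≤
      4 * ∑ i : Fin d, ∑ j : Fin d, (pd i (fun z => Y z j) x) ^ 2 := by
  obtain ⟨hyd, hid⟩ := par_id hk hY hp hx
  obtain ⟨q', hq, hq'⟩ := gj_q (k := k) x
  have hr0 : 0 < ‖pr k x‖ := norm_pos_iff.2 hx
  have hq0 : 0 < ‖pr k x‖ ^ 2 := by positivity
  obtain ⟨y, hy⟩ : ∃ y : E d → ℝ, y = fun z => inner ℝ (Y z) (pr k z) / ‖pr k z‖ := ⟨_, rfl⟩
  rw [← hy] at hyd hid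
  obtain ⟨ρ, hρ⟩ : ∃ ρ : E d → ℝ, ρ = fun z => √(‖pr k z‖ ^ 2) / √(‖pr k z‖ ^ 2 + δ ^ 2) :=
    ⟨_, rfl⟩
  obtain ⟨R', hR'⟩ : ∃ R' : ℝ, R' = δ ^ 2 / (2 * √(‖pr k x‖ ^ 2) *
    √(‖pr k x‖ ^ 2 + δ ^ 2) ^ 3) := ⟨_, rfl⟩
  have hρd : HasFDerivAt ρ (R' • q') x := by
    have h := (gj_R hq0 hδ).comp_hasFDerivAt x hq
    rw [hρ, hR']
    exact h
  have hg : (fun z => inner ℝ (Y z) (pr k z) / √(‖pr k z‖ ^ 2 + δ ^ 2)) = fun z => y z * ρ z := by
    funext z
    rw [hy, hρ]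
    simp only
    rw [Real.sqrt_sq (norm_nonneg _)]
    by_cases hz : pr k z = 0
    · rw [hz, inner_zero_right, zero_div, zero_div, zero_mul]
    · have : ‖pr k z‖ ≠ 0 := norm_ne_zero_iff.2 hz
      field_simp
  have hpd : ∀ i : Fin d, pd i (fun z => inner ℝ (Y z) (pr k z) / √(‖pr k z‖ ^ 2 + δ ^ 2)) x =
      y x * (R' * (2 * pr k x i)) + ρ x * pd i y x := by
    intro i
    rw [hg]
    have h : HasFDerivAt (fun z => y z * ρ z) (y x • R' • q' + ρ x • fderiv ℝ y x) x :=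
      hyd.hasFDerivAt.mul hρd
    rw [pd, h.fderiv]
    simp only [ContinuousLinearMap.add_apply, ContinuousLinearMap.smul_apply, smul_eq_mul, hq', pd]
  have hρ0 : 0 ≤ ρ x := by rw [hρ]; positivity
  have hs0 : 0 < √(‖pr k x‖ ^ 2 + δ ^ 2) := Real.sqrt_pos.2 (by positivity)
  have hs2 : √(‖pr k x‖ ^ 2 + δ ^ 2) ^ 2 = ‖pr k x‖ ^ 2 + δ ^ 2 := Real.sq_sqrt (by positivity)
  have hρ1 : ρ x ≤ 1 := by
    rw [hρ]
    simp only
    rw [div_le_one hs0]
    exact Real.sqrt_le_sqrt (by nlinarith)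
  have hyx : y x ^ 2 ≤ ‖Y x‖ ^ 2 := by
    rw [hy]
    simp only
    rw [div_pow, div_le_iff₀ hq0, ← mul_pow]
    exact sq_le_sq' (by
      have := neg_le_of_abs_le (abs_real_inner_le_norm (Y x) (pr k x))
      exact this) (real_inner_le_norm _ _)
  have hR2 : 4 * R' ^ 2 * ‖pr k x‖ ^ 2 ≤ 1 / ‖pr k x‖ ^ 2 := by
    rw [hR', Real.sqrt_sq (norm_nonneg _)]
    have e : 4 * (δ ^ 2 / (2 * ‖pr k x‖ * √(‖pr k x‖ ^ 2 + δ ^ 2) ^ 3)) ^ 2 * ‖pr k x‖ ^ 2 =
        δ ^ 4 / (√(‖pr k x‖ ^ 2 + δ ^ 2) ^ 2) ^ 3 := by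
      field_simp
      ring
    rw [e, hs2, div_le_div_iff₀ (by positivity) hq0, one_mul]
    have ha : 0 ≤ ‖pr k x‖ ^ 2 := hq0.le
    have hb : 0 ≤ δ ^ 2 := by positivity
    generalize ‖pr k x‖ ^ 2 = a at *
    have e2 : δ ^ 4 = (δ ^ 2) ^ 2 := by ring
    rw [e2]
    generalize δ ^ 2 = b at *
    nlinarith [mul_nonneg ha hb, mul_nonneg ha (mul_nonneg hb hb), mul_nonneg (mul_nonneg ha ha) hb,
      mul_nonneg (mul_nonneg ha ha) ha, mul_nonneg (mul_nonneg hb hb) hb]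
  have hsum : ∑ i : Fin d, (R' * (2 * pr k x i)) ^ 2 = 4 * R' ^ 2 * ‖pr k x‖ ^ 2 := by
    rw [EuclideanSpace.norm_sq_eq, Finset.mul_sum]
    refine Finset.sum_congr rfl fun i _ => ?_
    rw [Real.norm_eq_abs, sq_abs]
    ring
  have hA : 0 ≤ ∑ i : Fin d, (pd i y x) ^ 2 := Finset.sum_nonneg fun i _ => sq_nonneg _
  have hk1 : (1 : ℝ) ≤ (k : ℝ) - 1 := by
    have : (2 : ℝ) ≤ (k : ℝ) := by exact_mod_cast h2
    linarith
  have hYr : 0 ≤ ‖Y x‖ ^ 2 / ‖pr k x‖ ^ 2 := by positivity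
  have hmain : ∑ i : Fin d,
      (pd i (fun z => inner ℝ (Y z) (pr k z) / √(‖pr k z‖ ^ 2 + δ ^ 2)) x) ^ 2 ≤
      2 * (y x ^ 2 * (4 * R' ^ 2 * ‖pr k x‖ ^ 2)) + 2 * (ρ x ^ 2 * ∑ i : Fin d, (pd i y x) ^ 2) := by
    rw [← hsum, Finset.mul_sum, Finset.mul_sum, Finset.mul_sum, Finset.mul_sum,
      ← Finset.sum_add_distrib]
    refine Finset.sum_le_sum fun i _ => ?_
    rw [hpd i]
    nlinarith [sq_nonneg (y x * (R' * (2 * pr k x i)) - ρ x * pd i y x)]
  have h4 : y x ^ 2 * (4 * R' ^ 2 * ‖pr k x‖ ^ 2) ≤ ‖Y x‖ ^ 2 / ‖pr k x‖ ^ 2 := by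
    rw [div_eq_mul_one_div (‖Y x‖ ^ 2)]
    exact mul_le_mul hyx hR2 (by positivity) (by positivity)
  have h5 : ρ x ^ 2 * ∑ i : Fin d, (pd i y x) ^ 2 ≤ ∑ i : Fin d, (pd i y x) ^ 2 := by
    have : ρ x ^ 2 ≤ 1 := by nlinarith
    nlinarith
  have h6 : ‖Y x‖ ^ 2 / ‖pr k x‖ ^ 2 ≤ ((k : ℝ) - 1) * (‖Y x‖ ^ 2 / ‖pr k x‖ ^ 2) := by
    nlinarith
  rw [hid]
  nlinarith

/-- MODULE gk. See `reg_bound`. -/
theorem reg_lim {d k : ℕ} (hk : k ≤ d) {Y : E d → E d} (hY : Differentiable ℝ Y)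
    (hp : ∀ z, ∃ q : ℝ, Y z = q • pr k z) {x : E d} (hx : pr k x ≠ 0) (i : Fin d) :
    Tendsto (fun δ : ℝ => pd i (fun z => inner ℝ (Y z) (pr k z) / √(‖pr k z‖ ^ 2 + δ ^ 2)) x) (𝓝[>] 0)
      (𝓝 (pd i (fun z => inner ℝ (Y z) (pr k z) / ‖pr k z‖) x)) := by
  set f : E d → ℝ := fun z => inner ℝ (Y z) (pr k z) with hf
  set N : E d → ℝ := fun z => ‖pr k z‖ ^ 2 with hN
  have hprd : Differentiable ℝ (pr k : E d → E d) := (contDiff_pr 1).differentiable (by norm_num)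
  have hfd : DifferentiableAt ℝ f x := (hY x).inner ℝ (hprd x)
  have hNd : DifferentiableAt ℝ N x := (hprd x).norm_sq ℝ
  have hNx : 0 < N x := by
    have : 0 < ‖pr k x‖ := norm_pos_iff.2 hx
    positivity
  have hform : ∀ δ : ℝ, pd i (fun z => f z / √(N z + δ ^ 2)) x =
      f x * ((-(1 / 2) : ℝ) * (N x + δ ^ 2) ^ (-(1 / 2) - 1 : ℝ) * fderiv ℝ N x (bv i)) +
        (N x + δ ^ 2) ^ (-(1 / 2) : ℝ) * fderiv ℝ f x (bv i) := by
    intro δ
    have hpos : 0 < N x + δ ^ 2 := by positivity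
    have e : (fun z => f z / √(N z + δ ^ 2)) = fun z => f z * (N z + δ ^ 2) ^ (-(1 / 2) : ℝ) := by
      funext z
      have h0 : 0 ≤ N z + δ ^ 2 := by positivity
      rw [Real.rpow_neg h0, ← Real.sqrt_eq_rpow, div_eq_mul_inv]
    have h1 : HasFDerivAt (fun z => N z + δ ^ 2) (fderiv ℝ N x) x := hNd.hasFDerivAt.add_const _
    have h2 := h1.rpow_const (p := (-(1 / 2) : ℝ)) (Or.inl hpos.ne')
    have h3 : HasFDerivAt (fun z => f z * (N z + δ ^ 2) ^ (-(1 / 2) : ℝ)) _ x :=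
      hfd.hasFDerivAt.mul h2
    unfold pd
    rw [e, h3.fderiv]
    simp only [ContinuousLinearMap.add_apply, ContinuousLinearMap.smul_apply, smul_eq_mul]
  have e0 : (fun z => inner ℝ (Y z) (pr k z) / ‖pr k z‖) = fun z => f z / √(N z + (0:ℝ) ^ 2) := by
    funext z
    simp only [hf, hN]
    rw [zero_pow two_ne_zero, add_zero, Real.sqrt_sq (norm_nonneg _)]
  rw [e0, hform 0]
  have e1 : (fun δ : ℝ => pd i (fun z => inner ℝ (Y z) (pr k z) / √(‖pr k z‖ ^ 2 + δ ^ 2)) x) =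
      fun δ : ℝ => f x * ((-(1 / 2) : ℝ) * (N x + δ ^ 2) ^ (-(1 / 2) - 1 : ℝ) * fderiv ℝ N x (bv i)) +
        (N x + δ ^ 2) ^ (-(1 / 2) : ℝ) * fderiv ℝ f x (bv i) := by
    funext δ
    exact hform δ
  rw [e1]
  have hc : ContinuousAt (fun δ : ℝ => f x * ((-(1 / 2) : ℝ) * (N x + δ ^ 2) ^ (-(1 / 2) - 1 : ℝ) *
      fderiv ℝ N x (bv i)) + (N x + δ ^ 2) ^ (-(1 / 2) : ℝ) * fderiv ℝ f x (bv i)) 0 := by
    have hb : ContinuousAt (fun δ : ℝ => N x + δ ^ 2) 0 := by fun_prop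
    have hb0 : N x + (0:ℝ) ^ 2 ≠ 0 := by positivity
    have c1 : ContinuousAt (fun δ : ℝ => (N x + δ ^ 2) ^ (-(1 / 2) - 1 : ℝ)) 0 :=
      hb.rpow_const (Or.inl hb0)
    have c2 : ContinuousAt (fun δ : ℝ => (N x + δ ^ 2) ^ (-(1 / 2) : ℝ)) 0 :=
      hb.rpow_const (Or.inl hb0)
    exact (continuousAt_const.mul ((continuousAt_const.mul c1).mul continuousAt_const)).add
      (c2.mul continuousAt_const)
  exact hc.tendsto.mono_left nhdsWithin_le_nhds

end Pool.Agent.Frd
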