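import Pool.Agent.Frd.Def

/-!
# The resolvent kernel `G_l` and the superposition `|h|^(-d-2s) = C ∫ l^s G_l(h) dl`
-/

open MeasureTheory Set Filter Topology NDG

namespace Pool.Agent.Frd

/-- MODULE ca -/
theorem Gl_nonneg (d : ℕ) (l : ℝ) (h : E d) : 0 ≤ Gl d l h := by
  unfold Gl
  refine setIntegral_nonneg measurableSet_Ioi (fun t ht => ?_)
  have ht0 : (0 : ℝ) < t := ht
  positivity

/-- MODULE ca. `G_l` is radial (the definition only contains `‖h‖`). -/
theorem Gl_congr {d : ℕ} {l : ℝ} {h h' : E d} (e : ‖h‖ = ‖h'‖) : Gl d l h = Gl d l h' := by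
  unfold Gl
  rw [e]

private theorem ca_meas (d : ℕ) : Measurable (fun q : (ℝ × E d) × ℝ =>
    Real.exp (-(q.1.1 * q.2)) * (4 * Real.pi * q.2) ^ (-((d : ℝ) / 2)) *
      Real.exp (-(‖q.1.2‖ ^ 2 / (4 * q.2)))) := by
  fun_prop

/-- MODULE ca. Joint measurability (`StronglyMeasurable.integral_prod_right` applied to the jointly
measurable function `((l,h),t) ↦ exp(-l t) * ...`). -/
theorem measurable_Gl2 (d : ℕ) : Measurable (fun p : ℝ × E d => Gl d p.1 p.2) := by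
  unfold Gl
  exact ((ca_meas d).stronglyMeasurable.integral_prod_right' (ν := volume.restrict (Ioi (0 : ℝ)))).measurable

/-- MODULE cb. The heat kernel is integrable with integral 1 (`GaussianFourier.integral_rexp_neg_mul_sq_norm`
with `b = 1/(4t)`, `finrank = d`). -/
theorem heat_int (d : ℕ) {t : ℝ} (ht : 0 < t) :
    Integrable (fun h : E d => (4 * Real.pi * t) ^ (-((d : ℝ) / 2)) * Real.exp (-(‖h‖ ^ 2 / (4 * t)))) ∧
    ∫ h : E d, (4 * Real.pi * t) ^ (-((d : ℝ) / 2)) * Real.exp (-(‖h‖ ^ 2 / (4 * t))) = 1 := by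
  have hpos : (0 : ℝ) < 4 * Real.pi * t := by positivity
  have hb : (0 : ℝ) < 1 / (4 * t) := by positivity
  have h1 := GaussianFourier.integral_rexp_neg_mul_sq_norm (V := E d) hb
  have h2 : (fun h : E d => Real.exp (-(1 / (4 * t)) * ‖h‖ ^ 2)) = fun h : E d => Real.exp (-(‖h‖ ^ 2 / (4 * t))) := by
    funext h
    congr 1
    ring
  have h3 : Real.pi / (1 / (4 * t)) = 4 * Real.pi * t := by
    field_simp
  rw [h2, h3, finrank_euclideanSpace_fin] at h1
  have h4 : ∫ h : E d, (4 * Real.pi * t) ^ (-((d : ℝ) / 2)) * Real.exp (-(‖h‖ ^ 2 / (4 * t))) = 1 := by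
    rw [integral_const_mul, h1, ← Real.rpow_add hpos]
    simp
  refine ⟨?_, h4⟩
  by_contra hn
  rw [integral_undef hn] at h4
  exact zero_ne_one h4

private theorem cc_meas (d : ℕ) (l : ℝ) : Measurable (fun q : E d × ℝ =>
    Real.exp (-(l * q.2)) * (4 * Real.pi * q.2) ^ (-((d : ℝ) / 2)) *
      Real.exp (-(‖q.1‖ ^ 2 / (4 * q.2)))) := by
  fun_prop

private theorem cc_prod (d : ℕ) {l : ℝ} (hl : 0 < l) : Integrable (fun q : E d × ℝ =>
    Real.exp (-(l * q.2)) * (4 * Real.pi * q.2) ^ (-((d : ℝ) / 2)) *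
      Real.exp (-(‖q.1‖ ^ 2 / (4 * q.2)))) ((volume : Measure (E d)).prod (volume.restrict (Ioi (0 : ℝ)))) := by
  rw [integrable_prod_iff' (cc_meas d l).aestronglyMeasurable]
  refine ⟨?_, ?_⟩
  · filter_upwards [ae_restrict_mem measurableSet_Ioi] with t ht
    have := (heat_int d (t := t) ht).1.const_mul (Real.exp (-(l * t)))
    simpa only [mul_assoc] using this
  · have hi : IntegrableOn (fun t : ℝ => Real.exp (-(l * t))) (Ioi 0) := by
      have := integrableOn_exp_mul_Ioi (a := -l) (by linarith) 0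
      simpa only [neg_mul] using this
    refine hi.congr ?_
    filter_upwards [ae_restrict_mem measurableSet_Ioi] with t ht
    have ht0 : (0 : ℝ) < t := ht
    have h1 := (heat_int d (t := t) ht).2
    have h2 : ∀ h : E d, ‖Real.exp (-(l * t)) * (4 * Real.pi * t) ^ (-((d : ℝ) / 2)) *
      Real.exp (-(‖h‖ ^ 2 / (4 * t)))‖ = Real.exp (-(l * t)) * ((4 * Real.pi * t) ^ (-((d : ℝ) / 2)) *
      Real.exp (-(‖h‖ ^ 2 / (4 * t)))) := by
      intro h
      rw [Real.norm_of_nonneg (by positivity), mul_assoc]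
    simp only [h2]
    rw [integral_const_mul, h1, mul_one]

/-- MODULE cc. `G_l` is integrable with integral `1/l`. Proof: the function
`F(h,t) = e^(-lt) (4πt)^(-d/2) e^(-|h|^2/4t)` is integrable on `E d × (0,∞)` by `integrable_prod_iff'` and `heat_int`
(`∫ |F(h,t)| dh = e^(-lt)`, integrable on `(0,∞)`); then `Integrable.integral_prod_left` and
`integral_integral_swap`. -/
theorem Gl_int (d : ℕ) {l : ℝ} (hl : 0 < l) :
    Integrable (Gl d l) ∧ ∫ h : E d, Gl d l h = 1 / l := by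
  have hp := cc_prod d hl
  refine ⟨hp.integral_prod_left, ?_⟩
  have h1 : ∫ h : E d, Gl d l h = ∫ h : E d, ∫ t in Ioi (0 : ℝ), Real.exp (-(l * t)) *
    (4 * Real.pi * t) ^ (-((d : ℝ) / 2)) * Real.exp (-(‖h‖ ^ 2 / (4 * t))) := rfl
  rw [h1, integral_integral_swap hp]
  have h2 : ∫ t in Ioi (0 : ℝ), ∫ h : E d, Real.exp (-(l * t)) *
      (4 * Real.pi * t) ^ (-((d : ℝ) / 2)) * Real.exp (-(‖h‖ ^ 2 / (4 * t))) =
      ∫ t in Ioi (0 : ℝ), Real.exp (-(l * t)) := by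
    refine setIntegral_congr_fun measurableSet_Ioi (fun t ht => ?_)
    have h1 := (heat_int d (t := t) ht).2
    simp only [mul_assoc] at h1 ⊢
    rw [integral_const_mul, h1, mul_one]
  rw [h2]
  have h3 := integral_exp_mul_Ioi (a := -l) (by linarith) 0
  simp only [neg_mul, mul_zero, Real.exp_zero] at h3
  rw [h3]
  field_simp

/-- MODULE cd. `∫ t^(-(m+1)) e^(-a/t) dt = Γ(m) a^(-m)` (substitute `t ↦ 1/t`,
`integral_comp_rpow_Ioi` with exponent `-1` / `integrableOn_Ioi_comp_rpow_iff`, then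
`Real.integral_rpow_mul_exp_neg_mul_Ioi`). -/
theorem inv_gamma {m a : ℝ} (hm : 0 < m) (ha : 0 < a) :
    IntegrableOn (fun t : ℝ => t ^ (-(m + 1)) * Real.exp (-(a / t))) (Ioi 0) ∧
    ∫ t in Ioi (0 : ℝ), t ^ (-(m + 1)) * Real.exp (-(a / t)) = Real.Gamma m * a ^ (-m) := by
  have h1 := integral_comp_rpow_Ioi (fun y : ℝ => y ^ (m - 1) * Real.exp (-(a * y))) (p := -1) (by norm_num)
  have h2 := Real.integral_rpow_mul_exp_neg_mul_Ioi hm ha
  rw [h2] at h1
  have h3 : ∫ x in Ioi (0 : ℝ), (|(-1 : ℝ)| * x ^ ((-1 : ℝ) - 1)) • ((x ^ (-1 : ℝ)) ^ (m - 1) * Real.exp (-(a * x ^ (-1 : ℝ))))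
      = ∫ t in Ioi (0 : ℝ), t ^ (-(m + 1)) * Real.exp (-(a / t)) := by
    refine setIntegral_congr_fun measurableSet_Ioi (fun t ht => ?_)
    have ht0 : (0 : ℝ) < t := ht
    simp only [smul_eq_mul, abs_neg, abs_one, one_mul]
    rw [← Real.rpow_mul ht0.le, ← mul_assoc, ← Real.rpow_add ht0, Real.rpow_neg_one]
    congr 2
    ring
  rw [h3] at h1
  have h4 : Real.Gamma m * a ^ (-m) ≠ 0 := by
    have := Real.Gamma_pos_of_pos hm
    positivity
  have h5 : ∫ t in Ioi (0 : ℝ), t ^ (-(m + 1)) * Real.exp (-(a / t)) = Real.Gamma m * a ^ (-m) := by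
    rw [h1, one_div, Real.inv_rpow ha.le, Real.rpow_neg ha.le, mul_comm]
  refine ⟨?_, h5⟩
  by_contra hn
  rw [integral_undef hn] at h5
  exact h4 h5.symm

private theorem ce_meas (d : ℕ) (s : ℝ) (h : E d) : Measurable (fun q : ℝ × ℝ =>
    q.1 ^ s * (Real.exp (-(q.1 * q.2)) * (4 * Real.pi * q.2) ^ (-((d : ℝ) / 2)) *
      Real.exp (-(‖h‖ ^ 2 / (4 * q.2))))) := by
  fun_prop

private theorem ce_lint (s : ℝ) (hs : 0 < s) {t : ℝ} (ht : 0 < t) :
    IntegrableOn (fun l : ℝ => l ^ s * Real.exp (-(t * l))) (Ioi 0) ∧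
    ∫ l in Ioi (0 : ℝ), l ^ s * Real.exp (-(t * l)) = (1 / t) ^ (s + 1) * Real.Gamma (s + 1) := by
  have h2 := Real.integral_rpow_mul_exp_neg_mul_Ioi (a := s + 1) (r := t) (by linarith) ht
  rw [add_sub_cancel_right] at h2
  refine ⟨?_, h2⟩
  by_contra hn
  rw [integral_undef hn] at h2
  have : 0 < Real.Gamma (s + 1) := Real.Gamma_pos_of_pos (by linarith)
  have h3 : (1 / t) ^ (s + 1) * Real.Gamma (s + 1) ≠ 0 := by positivity
  exact h3 h2.symm

private theorem ce_inner (d : ℕ) {s : ℝ} (hs : 0 < s) (h : E d) {t : ℝ} (ht : 0 < t) :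
    ∫ l in Ioi (0 : ℝ), l ^ s * (Real.exp (-(l * t)) * (4 * Real.pi * t) ^ (-((d : ℝ) / 2)) *
      Real.exp (-(‖h‖ ^ 2 / (4 * t)))) =
    Real.Gamma (s + 1) * (4 * Real.pi) ^ (-((d : ℝ) / 2)) *
      (t ^ (-(s + (d : ℝ) / 2 + 1)) * Real.exp (-(‖h‖ ^ 2 / 4 / t))) := by
  have h1 : ∀ l : ℝ, l ^ s * (Real.exp (-(l * t)) * (4 * Real.pi * t) ^ (-((d : ℝ) / 2)) *
      Real.exp (-(‖h‖ ^ 2 / (4 * t)))) = ((4 * Real.pi * t) ^ (-((d : ℝ) / 2)) *
      Real.exp (-(‖h‖ ^ 2 / (4 * t)))) * (l ^ s * Real.exp (-(t * l))) := by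
    intro l
    rw [mul_comm l t]
    ring
  simp only [h1]
  rw [integral_const_mul, (ce_lint s hs ht).2, Real.mul_rpow (by positivity) ht.le, one_div,
    Real.inv_rpow ht.le, ← Real.rpow_neg ht.le]
  have h2 : t ^ (-(s + (d : ℝ) / 2 + 1)) = t ^ (-((d : ℝ) / 2)) * t ^ (-(s + 1)) := by
    rw [← Real.rpow_add ht]
    congr 1
    ring
  have h3 : ‖h‖ ^ 2 / 4 / t = ‖h‖ ^ 2 / (4 * t) := by
    rw [div_div]
  rw [h2, h3]
  ring

private theorem ce_prod (d : ℕ) {s : ℝ} (hs : 0 < s) (h : E d) (h0 : h ≠ 0) :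
    Integrable (fun q : ℝ × ℝ =>
    q.1 ^ s * (Real.exp (-(q.1 * q.2)) * (4 * Real.pi * q.2) ^ (-((d : ℝ) / 2)) *
      Real.exp (-(‖h‖ ^ 2 / (4 * q.2)))))
      ((volume.restrict (Ioi (0 : ℝ))).prod (volume.restrict (Ioi (0 : ℝ)))) := by
  have hn : 0 < ‖h‖ := norm_pos_iff.mpr h0
  rw [integrable_prod_iff' (ce_meas d s h).aestronglyMeasurable]
  refine ⟨?_, ?_⟩
  · filter_upwards [ae_restrict_mem measurableSet_Ioi] with t ht
    have ht0 : (0 : ℝ) < t := ht
    have h1 := (ce_lint s hs ht0).1.const_mul ((4 * Real.pi * t) ^ (-((d : ℝ) / 2)) *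
      Real.exp (-(‖h‖ ^ 2 / (4 * t))))
    refine h1.congr (Eventually.of_forall (fun l => ?_))
    beta_reduce
    rw [mul_comm t l]
    ring
  · have h1 := (inv_gamma (m := s + (d : ℝ) / 2) (a := ‖h‖ ^ 2 / 4) (by positivity) (by positivity)).1.const_mul
      (Real.Gamma (s + 1) * (4 * Real.pi) ^ (-((d : ℝ) / 2)))
    refine h1.congr ?_
    filter_upwards [ae_restrict_mem measurableSet_Ioi] with t ht
    have ht0 : (0 : ℝ) < t := ht
    rw [← ce_inner d hs h ht0]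
    refine setIntegral_congr_fun measurableSet_Ioi (fun l hl => ?_)
    have hl0 : (0 : ℝ) < l := hl
    rw [Real.norm_of_nonneg (by positivity)]

/-- MODULE ce. The superposition formula. Proof: for `h ≠ 0` swap the integrals in
`∫_l ∫_t l^s e^(-lt) (4πt)^(-d/2) e^(-|h|^2/4t)`: for fixed `t > 0`, `∫ l^s e^(-lt) dl = Γ(s+1) t^(-(s+1))`
(`Real.integral_rpow_mul_exp_neg_mul_Ioi`), then `inv_gamma` with `m = s + d/2`, `a = |h|^2/4`. All functions are
nonnegative: integrability on the product by `integrable_prod_iff'`.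
`C = Γ(s+1) (4π)^(-d/2) Γ(s+d/2) 4^(s+d/2)`. -/
theorem ker_superp (d : ℕ) {s : ℝ} (hs : 0 < s) :
    ∃ C : ℝ, 0 < C ∧ ∀ h : E d, h ≠ 0 →
      IntegrableOn (fun l : ℝ => l ^ s * Gl d l h) (Ioi 0) ∧
      ∫ l in Ioi (0 : ℝ), l ^ s * Gl d l h = C * K d s h := by
  have hG1 : 0 < Real.Gamma (s + 1) := Real.Gamma_pos_of_pos (by linarith)
  have hG2 : 0 < Real.Gamma (s + (d : ℝ) / 2) := Real.Gamma_pos_of_pos (by positivity)
  refine ⟨Real.Gamma (s + 1) * (4 * Real.pi) ^ (-((d : ℝ) / 2)) * (Real.Gamma (s + (d : ℝ) / 2) *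
    4 ^ (s + (d : ℝ) / 2)), by positivity, fun h h0 => ?_⟩
  have hn : 0 < ‖h‖ := norm_pos_iff.mpr h0
  have hp := ce_prod d hs h h0
  have hG : ∀ l : ℝ, l ^ s * Gl d l h = ∫ t in Ioi (0 : ℝ), l ^ s * (Real.exp (-(l * t)) *
      (4 * Real.pi * t) ^ (-((d : ℝ) / 2)) * Real.exp (-(‖h‖ ^ 2 / (4 * t)))) := by
    intro l
    unfold Gl
    rw [integral_const_mul]
  refine ⟨?_, ?_⟩
  · have := hp.integral_prod_left
    refine this.congr (Eventually.of_forall (fun l => ?_))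
    exact (hG l).symm
  · simp only [hG]
    rw [integral_integral_swap hp]
    have h2 : ∫ t in Ioi (0 : ℝ), ∫ l in Ioi (0 : ℝ), l ^ s * (Real.exp (-(l * t)) *
        (4 * Real.pi * t) ^ (-((d : ℝ) / 2)) * Real.exp (-(‖h‖ ^ 2 / (4 * t)))) =
        ∫ t in Ioi (0 : ℝ), Real.Gamma (s + 1) * (4 * Real.pi) ^ (-((d : ℝ) / 2)) *
      (t ^ (-(s + (d : ℝ) / 2 + 1)) * Real.exp (-(‖h‖ ^ 2 / 4 / t))) :=
      setIntegral_congr_fun measurableSet_Ioi (fun t ht => ce_inner d hs h ht)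
    rw [h2, integral_const_mul,
      (inv_gamma (m := s + (d : ℝ) / 2) (a := ‖h‖ ^ 2 / 4) (by positivity) (by positivity)).2]
    unfold K
    have h3 : (‖h‖ ^ 2 / 4) ^ (-(s + (d : ℝ) / 2)) = 4 ^ (s + (d : ℝ) / 2) * ‖h‖ ^ (-((d : ℝ) + 2 * s)) := by
      rw [Real.div_rpow (by positivity) (by norm_num), ← Real.rpow_natCast ‖h‖ 2, ← Real.rpow_mul hn.le,
        Real.rpow_neg (by norm_num : (0:ℝ) ≤ 4), div_inv_eq_mul, mul_comm]
      congr 2
      push_cast
      ring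
    rw [h3]
    ring

/-- MODULE cf. General integrability against `G_l`. Proof: `‖·‖ ≤ G_l(x-y) φ(x)`; this is integrable on the product
(`Integrable.prod_mul` composed with the measure preserving map `(x,y) ↦ (x,x-y)`, `Gl_int`). -/
theorem int_Gl (d : ℕ) {l : ℝ} (hl : 0 < l) (P : E d × E d → ℝ) (hm : AEStronglyMeasurable P volume)
    (f : E d → ℝ) (hf : Integrable f) (hb : ∀ p, |P p| ≤ f p.1) :
    Integrable (fun p : E d × E d => Gl d l (p.1 - p.2) * P p) := by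
  have hG : Measurable (Gl d l) := by
    have := (measurable_Gl2 d).comp (measurable_prodMk_left (x := l))
    exact this
  have h1 : Integrable (fun p : E d × E d => f p.1 * Gl d l p.2) (volume.prod volume) :=
    hf.mul_prod (Gl_int d hl).1
  have h2 : Integrable (fun p : E d × E d => f p.1 * Gl d l (p.2 - p.1)) (volume.prod volume) :=
    (measurePreserving_prod_sub (volume : Measure (E d)) (volume : Measure (E d))).integrable_comp_of_integrable h1
  have hGm : AEStronglyMeasurable (fun p : E d × E d => Gl d l (p.1 - p.2)) volume :=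
    (hG.comp (measurable_fst.sub measurable_snd)).aestronglyMeasurable
  refine Integrable.mono' h2 (hGm.mul hm) (Eventually.of_forall (fun p => ?_))
  rw [norm_mul, Real.norm_of_nonneg (Gl_nonneg d l _), Real.norm_eq_abs, mul_comm,
    Gl_congr (norm_sub_rev p.1 p.2)]
  exact mul_le_mul_of_nonneg_right (hb p) (Gl_nonneg d l _)

end Pool.Agent.Frd
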