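import Pool.Agent.Frd.Def

/-!
# The kernel `|h|^(-d-2s)`: moments and integrability
-/

open MeasureTheory Set Filter Topology NDG

namespace Pool.Agent.Frd

/-- MODULE ka -/
theorem ker_nonneg {d : ℕ} {s : ℝ} (h : E d) : 0 ≤ K d s h := by
  unfold K
  positivity

/-- MODULE ka -/
theorem ker_pos {d : ℕ} {s : ℝ} {h : E d} (h0 : h ≠ 0) : 0 < K d s h := by
  unfold K
  exact Real.rpow_pos_of_pos (norm_pos_iff.2 h0) _

/-- MODULE ka -/
theorem ker_congr {d : ℕ} {s : ℝ} {h h' : E d} (e : ‖h‖ = ‖h'‖) : K d s h = K d s h' := by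
  unfold K
  rw [e]

/-- MODULE ka -/
theorem ker_anti {d : ℕ} {s : ℝ} (hs : 0 < s) {h h' : E d} (h0 : h ≠ 0) (e : ‖h‖ ≤ ‖h'‖) : K d s h' ≤ K d s h := by
  unfold K
  exact Real.rpow_le_rpow_of_nonpos (norm_pos_iff.2 h0) e (by
    have : (0:ℝ) ≤ (d : ℝ) := Nat.cast_nonneg d
    linarith)

/-- MODULE ka -/
theorem measurable_ker {d : ℕ} {s : ℝ} : Measurable (K d s) := by
  unfold K
  exact measurable_norm.pow_const _

/-- MODULE kb. Radial integrals against the kernel (`integrable_fun_norm_addHaar`, `integral_fun_norm_addHaar`):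
`∫ φ(|h|) ker h dh = C_d ∫_0^∞ φ(r) r^(-1-2s) dr` with `C_d = d · vol(ball 0 1)`. -/
theorem ker_radial {d : ℕ} (hd : 1 ≤ d) (s : ℝ) :
    ∃ C : ℝ, 0 < C ∧ ∀ f : ℝ → ℝ,
      (Integrable (fun h : E d => f ‖h‖ * K d s h) ↔ IntegrableOn (fun r : ℝ => f r * r ^ (-1 - 2 * s)) (Ioi 0)) ∧
      ∫ h : E d, f ‖h‖ * K d s h = C * ∫ r in Ioi (0 : ℝ), f r * r ^ (-1 - 2 * s) := by
  haveI : Nontrivial (E d) := by
    haveI : Nonempty (Fin d) := ⟨⟨0, by omega⟩⟩
    infer_instance
  have hdim : Module.finrank ℝ (E d) = d := by simp [E]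
  refine ⟨d * (volume : Measure (E d)).real (Metric.ball 0 1), ?_, ?_⟩
  · have h1 : 0 < (volume : Measure (E d)).real (Metric.ball 0 1) := by
      rw [Measure.real, ENNReal.toReal_pos_iff]
      exact ⟨Metric.measure_ball_pos _ _ (by norm_num), measure_ball_lt_top⟩
    have h2 : (0:ℝ) < d := by exact_mod_cast hd
    positivity
  · intro f
    have hF : (fun h : E d => f ‖h‖ * K d s h) =
        (fun h : E d => (fun r : ℝ => f r * r ^ (-((d : ℝ) + 2 * s))) ‖h‖) := by
      funext h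
      rfl
    have hG : Set.EqOn (fun y : ℝ => y ^ (Module.finrank ℝ (E d) - 1) •
        (fun r : ℝ => f r * r ^ (-((d : ℝ) + 2 * s))) y) (fun r : ℝ => f r * r ^ (-1 - 2 * s)) (Ioi 0) := by
      intro r hr
      have hr' : 0 < r := hr
      show r ^ (Module.finrank ℝ (E d) - 1) • (f r * r ^ (-((d : ℝ) + 2 * s))) = f r * r ^ (-1 - 2 * s)
      rw [hdim, smul_eq_mul, ← Real.rpow_natCast r (d - 1), mul_left_comm, ← Real.rpow_add hr']
      congr 2
      rw [Nat.cast_sub hd]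
      push_cast
      ring
    constructor
    · rw [hF]
      refine (integrable_fun_norm_addHaar (volume : Measure (E d))
        (f := fun r : ℝ => f r * r ^ (-((d : ℝ) + 2 * s)))).trans ?_
      exact integrableOn_congr_fun hG measurableSet_Ioi
    · rw [hF]
      refine (integral_fun_norm_addHaar (volume : Measure (E d))
        (fun r : ℝ => f r * r ^ (-((d : ℝ) + 2 * s)))).trans ?_
      rw [setIntegral_congr_fun measurableSet_Ioi hG, hdim, nsmul_eq_mul, smul_eq_mul, mul_assoc]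

/-- MODULE kc. Tail: `∫_{|h| > ρ} ker = C ρ^(-2s)`. -/
theorem ker_tail {d : ℕ} (hd : 1 ≤ d) {s : ℝ} (hs : 0 < s) :
    ∃ C : ℝ, 0 < C ∧ ∀ ρ : ℝ, 0 < ρ →
      IntegrableOn (K d s) {h : E d | ρ < ‖h‖} ∧ ∫ h in {h : E d | ρ < ‖h‖}, K d s h = C * ρ ^ (-(2 * s)) := by
  obtain ⟨C, hC, hf⟩ := ker_radial hd s
  refine ⟨C * (1 / (2 * s)), by positivity, fun ρ hρ => ?_⟩
  have hset : MeasurableSet {h : E d | ρ < ‖h‖} := measurableSet_lt measurable_const measurable_norm
  have e1 : ({h : E d | ρ < ‖h‖}).indicator (K d s) =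
      fun h : E d => (Ioi ρ).indicator (fun _ => (1:ℝ)) ‖h‖ * K d s h := by
    funext h
    by_cases hh : ρ < ‖h‖
    · rw [indicator_of_mem (by exact hh), indicator_of_mem (by exact hh), one_mul]
    · rw [indicator_of_notMem (by exact hh), indicator_of_notMem (by exact hh), zero_mul]
  have e2 : ∀ r : ℝ, (Ioi ρ).indicator (fun _ => (1:ℝ)) r * r ^ (-1 - 2 * s) =
      (Ioi ρ).indicator (fun r : ℝ => r ^ (-1 - 2 * s)) r := by
    intro r
    by_cases hh : r ∈ Ioi ρ
    · rw [indicator_of_mem hh, indicator_of_mem hh, one_mul]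
    · rw [indicator_of_notMem hh, indicator_of_notMem hh, zero_mul]
  have hsub : Ioi ρ ⊆ Ioi (0:ℝ) := Ioi_subset_Ioi hρ.le
  have h1 := (hf ((Ioi ρ).indicator (fun _ => (1:ℝ)))).1
  have h2 := (hf ((Ioi ρ).indicator (fun _ => (1:ℝ)))).2
  have hlt : -1 - 2 * s < -1 := by linarith
  constructor
  · rw [← integrable_indicator_iff hset, e1, h1]
    have h3 : IntegrableOn (fun r : ℝ => r ^ (-1 - 2 * s)) (Ioi ρ) := integrableOn_Ioi_rpow_of_lt hlt hρ
    have h4 : Integrable ((Ioi ρ).indicator (fun r : ℝ => r ^ (-1 - 2 * s))) :=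
      h3.integrable_indicator measurableSet_Ioi
    refine h4.integrableOn.congr_fun ?_ measurableSet_Ioi
    intro r _
    exact (e2 r).symm
  · rw [← integral_indicator hset, e1, h2]
    have h3 : ∫ r in Ioi (0:ℝ), (Ioi ρ).indicator (fun _ => (1:ℝ)) r * r ^ (-1 - 2 * s) =
        ∫ r in Ioi ρ, r ^ (-1 - 2 * s) := by
      simp_rw [e2]
      rw [setIntegral_indicator measurableSet_Ioi, inter_eq_right.2 hsub]
    rw [h3, integral_Ioi_rpow_of_lt hlt hρ]
    have h4 : -1 - 2 * s + 1 = -(2 * s) := by ring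
    rw [h4]
    field_simp

/-- MODULE kd. Small second moment: `∫_{|h| ≤ ρ} |h|^2 ker = C ρ^(2-2s)`. -/
theorem ker_small {d : ℕ} (hd : 1 ≤ d) {s : ℝ} (hs : 0 < s) (hs1 : s < 1) :
    ∃ C : ℝ, 0 < C ∧ ∀ ρ : ℝ, 0 < ρ →
      IntegrableOn (fun h : E d => ‖h‖ ^ 2 * K d s h) {h : E d | ‖h‖ ≤ ρ} ∧
      ∫ h in {h : E d | ‖h‖ ≤ ρ}, ‖h‖ ^ 2 * K d s h = C * ρ ^ (2 - 2 * s) := by
  obtain ⟨C, hC, hf⟩ := ker_radial hd s
  have hpos : 0 < 2 - 2 * s := by linarith
  refine ⟨C * (1 / (2 - 2 * s)), by positivity, fun ρ hρ => ?_⟩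
  have hset : MeasurableSet {h : E d | ‖h‖ ≤ ρ} := measurableSet_le measurable_norm measurable_const
  have e1 : ({h : E d | ‖h‖ ≤ ρ}).indicator (fun h => ‖h‖ ^ 2 * K d s h) =
      fun h : E d => (Iic ρ).indicator (fun r => r ^ 2) ‖h‖ * K d s h := by
    funext h
    by_cases hh : ‖h‖ ≤ ρ
    · rw [indicator_of_mem (by exact hh), indicator_of_mem (by exact hh)]
    · rw [indicator_of_notMem (by exact hh), indicator_of_notMem (by exact hh), zero_mul]
  have e2 : ∀ r : ℝ, 0 < r → (Iic ρ).indicator (fun r => r ^ 2) r * r ^ (-1 - 2 * s) =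
      (Iic ρ).indicator (fun r : ℝ => r ^ (1 - 2 * s)) r := by
    intro r hr
    by_cases hh : r ∈ Iic ρ
    · rw [indicator_of_mem hh, indicator_of_mem hh, ← Real.rpow_natCast r 2, ← Real.rpow_add hr]
      congr 1
      push_cast
      ring
    · rw [indicator_of_notMem hh, indicator_of_notMem hh, zero_mul]
  have h1 := (hf ((Iic ρ).indicator (fun r => r ^ 2))).1
  have h2 := (hf ((Iic ρ).indicator (fun r => r ^ 2))).2
  have hgt : -1 < 1 - 2 * s := by linarith
  have hint : IntegrableOn (fun r : ℝ => r ^ (1 - 2 * s)) (Ioc 0 ρ) := by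
    rw [← intervalIntegrable_iff_integrableOn_Ioc_of_le hρ.le]
    exact intervalIntegral.intervalIntegrable_rpow' hgt
  have hint' : IntegrableOn ((Iic ρ).indicator (fun r : ℝ => r ^ (1 - 2 * s))) (Ioi 0) := by
    rw [integrableOn_indicator_iff measurableSet_Iic]
    have : Iic ρ ∩ Ioi (0:ℝ) = Ioc 0 ρ := by
      ext r
      simp [and_comm]
    rwa [this]
  constructor
  · rw [← integrable_indicator_iff hset, e1, h1]
    refine hint'.congr_fun ?_ measurableSet_Ioi
    intro r hr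
    exact (e2 r hr).symm
  · rw [← integral_indicator hset, e1, h2]
    have h3 : ∫ r in Ioi (0:ℝ), (Iic ρ).indicator (fun r => r ^ 2) r * r ^ (-1 - 2 * s) =
        ∫ r in Ioc 0 ρ, r ^ (1 - 2 * s) := by
      rw [setIntegral_congr_fun measurableSet_Ioi (fun r hr => e2 r hr),
        setIntegral_indicator measurableSet_Iic]
      have : Ioi (0:ℝ) ∩ Iic ρ = Ioc 0 ρ := by
        ext r
        simp
      rw [this]
    rw [h3, ← intervalIntegral.integral_of_le hρ.le, integral_rpow (Or.inl hgt)]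
    have h4 : 1 - 2 * s + 1 = 2 - 2 * s := by ring
    rw [h4, Real.zero_rpow hpos.ne', sub_zero]
    field_simp

/-- MODULE ke. `min 1 (|h|^2/R^2) ker` is integrable with integral `C R^(-2s)` (scaling, or split at `|h| = R` and use
`ker_tail`, `ker_small`). -/
theorem ker_min {d : ℕ} (hd : 1 ≤ d) {s : ℝ} (hs : 0 < s) (hs1 : s < 1) :
    ∃ C : ℝ, 0 < C ∧ ∀ R : ℝ, 0 < R →
      Integrable (fun h : E d => min 1 (‖h‖ ^ 2 / R ^ 2) * K d s h) ∧
      ∫ h : E d, min 1 (‖h‖ ^ 2 / R ^ 2) * K d s h = C * R ^ (-(2 * s)) := by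
  obtain ⟨C1, hC1, h1⟩ := ker_tail hd hs
  obtain ⟨C2, hC2, h2⟩ := ker_small hd hs hs1
  refine ⟨C1 + C2, by positivity, fun R hR => ?_⟩
  have hset1 : MeasurableSet {h : E d | R < ‖h‖} := measurableSet_lt measurable_const measurable_norm
  have hset2 : MeasurableSet {h : E d | ‖h‖ ≤ R} := measurableSet_le measurable_norm measurable_const
  have i1 : Integrable (({h : E d | R < ‖h‖}).indicator (K d s)) :=
    (h1 R hR).1.integrable_indicator hset1
  have i2 : Integrable (({h : E d | ‖h‖ ≤ R}).indicator (fun h => ‖h‖ ^ 2 * K d s h)) :=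
    (h2 R hR).1.integrable_indicator hset2
  have e : (fun h : E d => min 1 (‖h‖ ^ 2 / R ^ 2) * K d s h) = fun h : E d =>
      ({h : E d | R < ‖h‖}).indicator (K d s) h +
      (R ^ 2)⁻¹ * ({h : E d | ‖h‖ ≤ R}).indicator (fun h => ‖h‖ ^ 2 * K d s h) h := by
    funext h
    rcases lt_or_ge R ‖h‖ with hh | hh
    · rw [indicator_of_mem (by exact hh), indicator_of_notMem (by exact not_le.2 hh), min_eq_left, one_mul,
        mul_zero, add_zero]
      rw [one_le_div (by positivity)]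
      exact pow_le_pow_left₀ hR.le hh.le 2
    · rw [indicator_of_notMem (by exact not_lt.2 hh), indicator_of_mem (by exact hh), min_eq_right, zero_add]
      · ring
      · rw [div_le_one (by positivity)]
        exact pow_le_pow_left₀ (norm_nonneg _) hh 2
  rw [e]
  refine ⟨i1.add (i2.const_mul _), ?_⟩
  rw [integral_add i1 (i2.const_mul _), integral_const_mul, integral_indicator hset1,
    integral_indicator hset2, (h1 R hR).2, (h2 R hR).2]
  have h3 : R ^ (2 - 2 * s) = R ^ 2 * R ^ (-(2 * s)) := by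
    rw [← Real.rpow_natCast R 2, ← Real.rpow_add hR]
    congr 1
  rw [h3]
  field_simp

private theorem kf_bound {d : ℕ} {s β : ℝ} {R : ℝ} (hβ : 0 < β) {h : E d} (h1 : 1 < ‖h‖) (h2 : ‖h‖ ≤ R) :
    ‖h‖ * K d s h ≤ R ^ β * K d ((2 * s + β - 1) / 2) h := by
  have hn : 0 < ‖h‖ := by linarith
  unfold K
  have h3 : ‖h‖ * ‖h‖ ^ (-((d : ℝ) + 2 * s)) = ‖h‖ ^ β * ‖h‖ ^ (-((d : ℝ) + 2 * ((2 * s + β - 1) / 2))) := by
    have h4 : ‖h‖ * ‖h‖ ^ (-((d : ℝ) + 2 * s)) = ‖h‖ ^ (1 + -((d : ℝ) + 2 * s)) := by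
      rw [Real.rpow_add hn, Real.rpow_one]
    rw [h4, ← Real.rpow_add hn]
    congr 1
    ring
  rw [h3]
  exact mul_le_mul_of_nonneg_right (Real.rpow_le_rpow hn.le h2 hβ.le) (by positivity)

/-- MODULE kf. First moment on an annulus: for `β > max (1-2s) 0`, `R ≥ 1`: `∫_{1 < |h| ≤ R} |h| ker ≤ C R^β`. -/
theorem ker_first {d : ℕ} (hd : 1 ≤ d) {s β : ℝ} (hs : 0 < s) (hβ : 0 < β) (hβ' : 1 - 2 * s < β) :
    ∃ C : ℝ, 0 < C ∧ ∀ R : ℝ, 1 ≤ R →
      IntegrableOn (fun h : E d => ‖h‖ * K d s h) {h : E d | 1 < ‖h‖ ∧ ‖h‖ ≤ R} ∧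
      ∫ h in {h : E d | 1 < ‖h‖ ∧ ‖h‖ ≤ R}, ‖h‖ * K d s h ≤ C * R ^ β := by
  obtain ⟨C, hC, hK⟩ := ker_tail (d := d) hd (s := (2 * s + β - 1) / 2) (by linarith)
  obtain ⟨hK1, hK2⟩ := hK 1 one_pos
  refine ⟨C, hC, fun R hR => ?_⟩
  have hsub : {h : E d | 1 < ‖h‖ ∧ ‖h‖ ≤ R} ⊆ {h : E d | 1 < ‖h‖} := fun h hh => hh.1
  have hms : MeasurableSet {h : E d | 1 < ‖h‖ ∧ ‖h‖ ≤ R} :=
    (measurableSet_lt measurable_const measurable_norm).inter (measurableSet_le measurable_norm measurable_const)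
  have hms1 : MeasurableSet {h : E d | 1 < ‖h‖} := measurableSet_lt measurable_const measurable_norm
  have hb : IntegrableOn (fun h : E d => R ^ β * K d ((2 * s + β - 1) / 2) h) {h : E d | 1 < ‖h‖ ∧ ‖h‖ ≤ R} :=
    (hK1.mono_set hsub).const_mul _
  have hi : IntegrableOn (fun h : E d => ‖h‖ * K d s h) {h : E d | 1 < ‖h‖ ∧ ‖h‖ ≤ R} := by
    refine Integrable.mono' hb (measurable_norm.mul measurable_ker).aestronglyMeasurable ?_
    filter_upwards [ae_restrict_mem hms] with h hh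
    rw [Real.norm_of_nonneg (mul_nonneg (norm_nonneg _) (ker_nonneg _))]
    exact kf_bound hβ hh.1 hh.2
  refine ⟨hi, ?_⟩
  calc ∫ h in {h : E d | 1 < ‖h‖ ∧ ‖h‖ ≤ R}, ‖h‖ * K d s h
      ≤ ∫ h in {h : E d | 1 < ‖h‖ ∧ ‖h‖ ≤ R}, R ^ β * K d ((2 * s + β - 1) / 2) h :=
        setIntegral_mono_on hi hb hms (fun h hh => kf_bound hβ hh.1 hh.2)
    _ ≤ ∫ h in {h : E d | 1 < ‖h‖}, R ^ β * K d ((2 * s + β - 1) / 2) h :=
        setIntegral_mono_set (hK1.const_mul _)
          (Eventually.of_forall (fun h => mul_nonneg (by positivity) (ker_nonneg _))) hsub.eventuallyLE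
    _ = C * R ^ β := by
        rw [integral_const_mul, hK2, Real.one_rpow]
        ring

/-- MODULE kg. Lebesgue facts on the product: the shear `(x,h) ↦ (x, x + h)` preserves the measure; so
`∫ F(x,y) = ∫ F(x,x+h)` and integrability corresponds. (`MeasureTheory.measurePreserving_prod_add` or similar.) -/
theorem shear {d : ℕ} (F : E d × E d → ℝ) :
    (Integrable F ↔ Integrable (fun q : E d × E d => F (q.1, q.1 + q.2))) ∧
    ∫ p : E d × E d, F p = ∫ q : E d × E d, F (q.1, q.1 + q.2) := by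
  have hmp : MeasurePreserving (MeasurableEquiv.shearAddRight (E d)) (volume.prod volume) (volume.prod volume) :=
    measurePreserving_prod_add (volume : Measure (E d)) (volume : Measure (E d))
  refine ⟨?_, ?_⟩
  · exact (hmp.integrable_comp_emb (MeasurableEquiv.shearAddRight (E d)).measurableEmbedding).symm
  · exact (hmp.integral_comp (MeasurableEquiv.shearAddRight (E d)).measurableEmbedding F).symm

/-- MODULE kh. The same with `F(x + h, x)`. -/
theorem shear' {d : ℕ} (F : E d × E d → ℝ) :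
    (Integrable F ↔ Integrable (fun q : E d × E d => F (q.1 + q.2, q.1))) ∧
    ∫ p : E d × E d, F p = ∫ q : E d × E d, F (q.1 + q.2, q.1) := by
  have h := shear (fun p : E d × E d => F (p.2, p.1))
  refine ⟨?_, ?_⟩
  · rw [← h.1]
    exact (integrable_swap_iff (f := F) (μ := volume) (ν := volume)).symm
  · rw [← h.2]
    exact (integral_prod_swap (μ := (volume : Measure (E d))) (ν := (volume : Measure (E d))) F).symm

/-- MODULE ki. GENERAL INTEGRABILITY. If `|G(x,y)| ≤ C min(1,|x-y|^2) (f x + f y)` with `f ≥ 0` integrable, then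
`G(x,y) ker(x-y)` is integrable on the product. Proof: after the shear the bound `C min(1,|h|^2) ker h · f(x)` is a product
of integrable functions (`ker_min` with `R = 1`, `Integrable.prod_mul`); same for `f y` with `shear'`. -/
theorem int_dom {d : ℕ} (hd : 1 ≤ d) {s : ℝ} (hs : 0 < s) (hs1 : s < 1) (G : E d × E d → ℝ)
    (hm : AEStronglyMeasurable G volume) (C : ℝ) (f : E d → ℝ) (hf : Integrable f)
    (hb : ∀ p : E d × E d, |G p| ≤ C * min 1 (‖p.1 - p.2‖ ^ 2) * (f p.1 + f p.2)) :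
    Integrable (fun p : E d × E d => G p * K d s (p.1 - p.2)) := by
  obtain ⟨C', hC', hk⟩ := ker_min (d := d) hd hs hs1
  have hk1 := (hk 1 one_pos).1
  simp only [one_pow, div_one] at hk1
  have h0 : Integrable (fun q : E d × E d => f q.1 * (min 1 (‖q.2‖ ^ 2) * K d s q.2)) volume :=
    hf.mul_prod hk1
  have h1 : Integrable (fun p : E d × E d => f p.1 * (min 1 (‖p.1 - p.2‖ ^ 2) * K d s (p.1 - p.2))) := by
    rw [(shear _).1]
    refine h0.congr (Eventually.of_forall (fun q => ?_))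
    beta_reduce
    have e : ‖q.1 - (q.1 + q.2)‖ = ‖q.2‖ := by
      rw [sub_add_cancel_left, norm_neg]
    rw [e, ker_congr e]
  have h2 : Integrable (fun p : E d × E d => f p.2 * (min 1 (‖p.1 - p.2‖ ^ 2) * K d s (p.1 - p.2))) := by
    rw [(shear' _).1]
    refine h0.congr (Eventually.of_forall (fun q => ?_))
    beta_reduce
    rw [add_sub_cancel_left]
  have hKm : AEStronglyMeasurable (fun p : E d × E d => K d s (p.1 - p.2)) volume :=
    (measurable_ker.comp (measurable_fst.sub measurable_snd)).aestronglyMeasurable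
  refine Integrable.mono' ((h1.add h2).const_mul C) (hm.mul hKm) (Eventually.of_forall (fun p => ?_))
  rw [norm_mul, Real.norm_of_nonneg (ker_nonneg _), Real.norm_eq_abs]
  refine (mul_le_mul_of_nonneg_right (hb p) (ker_nonneg _)).trans (le_of_eq ?_)
  simp only [Pi.add_apply]
  ring

end Pool.Agent.Frd
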