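import Pool.Agent.Frd.Kern

/-!
# The stability inequality in the limit `h → 0`, with both derivatives on the kernel

For `A, B` the kernel is `(A x - A y) (B x - B y) K (x - y)`; `mix` is its derivative `∂_{x,e} ∂_{y,e}` for `x ≠ y`.
-/

open MeasureTheory Set Filter Topology NDG

namespace Pool.Agent.Frd

/-- `(A x - A y) (B x - B y) K (x - y)`. -/
noncomputable def kab (d : ℕ) (s : ℝ) (A B : E d → ℝ) (x y : E d) : ℝ :=
  (A x - A y) * (B x - B y) * K d s (x - y)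

/-- The mixed second difference of `kab`. -/
noncomputable def dkab (d : ℕ) (s : ℝ) (A B : E d → ℝ) (h x y : E d) : ℝ :=
  kab d s A B (x - h) (y - h) - kab d s A B (x - h) y - kab d s A B x (y - h) + kab d s A B x y

/-- The mixed derivative `∂_{x,e} ∂_{y,e}` of `kab` at `x ≠ y`; here `∂_e K (h) = -(d+2s) ⟪h,e⟫ K h/|h|^2` and
`∂_e ∂_e K (h) = (d+2s)(d+2s+2) ⟪h,e⟫^2 K h/|h|^4 - (d+2s)|e|^2 K h/|h|^2`. -/
noncomputable def mix (d : ℕ) (s : ℝ) (A B : E d → ℝ) (e x y : E d) : ℝ :=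
  -(fderiv ℝ A x e * fderiv ℝ B y e + fderiv ℝ A y e * fderiv ℝ B x e) * K d s (x - y)
  + ((fderiv ℝ A x e + fderiv ℝ A y e) * (B x - B y) + (A x - A y) * (fderiv ℝ B x e + fderiv ℝ B y e)) *
      (((d : ℝ) + 2 * s) * inner ℝ (x - y) e * (K d s (x - y) / ‖x - y‖ ^ 2))
  - (A x - A y) * (B x - B y) *
      (((d : ℝ) + 2 * s) * ((d : ℝ) + 2 * s + 2) * inner ℝ (x - y) e ^ 2 * (K d s (x - y) / ‖x - y‖ ^ 4)
        - ((d : ℝ) + 2 * s) * ‖e‖ ^ 2 * (K d s (x - y) / ‖x - y‖ ^ 2))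

private theorem ma_test {d : ℕ} {A B : E d → ℝ} (hA : Test A) (hB : Test B) : Test (fun x => A x + B x) := by
  obtain ⟨L, hL⟩ := hA.lip
  obtain ⟨L', hL'⟩ := hB.lip
  exact ⟨⟨L + L', hL.add hL'⟩, hA.supp.add hB.supp⟩

private theorem ma_kap {d : ℕ} {s : ℝ} (A B : E d → ℝ) (x y : E d) :
    kab d s A B x y = (1 / 2) * (kap d s (fun x => A x + B x) x y - kap d s A x y - kap d s B x y) := by
  unfold kab kap
  ring

private theorem ma_dkap {d : ℕ} {s : ℝ} (A B : E d → ℝ) (h x y : E d) :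
    dkab d s A B h x y = (1 / 2) * (dkap d s (fun x => A x + B x) h x y - dkap d s A h x y - dkap d s B h x y) := by
  unfold dkab dkap
  simp only [ma_kap]
  ring

/-- MODULE ma. Polarisation of `NDG.cost`: `kab A B = (kap (A+B) - kap A - kap B)/2`, `dkab` likewise; integrability:
`NDG.dkap_int`, `NDG.kap_int`. -/
theorem cost_ab {d : ℕ} {s : ℝ} (hd : 1 ≤ d) (hs0 : 0 < s) (hs1 : s < 1) {u : E d → ℝ} (hu : Continuous u)
    (hB : ∀ x, |u x| ≤ 1) {A B : E d → ℝ} (hA : Test A) (hBt : Test B) (h : E d) :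
    Integrable (fun p : E d × E d => (u (p.1 + h) - u p.1) * (u (p.2 + h) - u p.2) * kab d s A B p.1 p.2) ∧
    Integrable (fun p : E d × E d => (u p.1 - u p.2) ^ 2 * dkab d s A B h p.1 p.2) ∧
    ∫ p : E d × E d, (u (p.1 + h) - u p.1) * (u (p.2 + h) - u p.2) * kab d s A B p.1 p.2 =
      -(1 / 2) * ∫ p : E d × E d, (u p.1 - u p.2) ^ 2 * dkab d s A B h p.1 p.2 := by
  have hb1 : ∀ a b : ℝ, |a| ≤ 1 → |b| ≤ 1 → |a - b| ≤ 2 := by
    intro a b ha hb
    exact (abs_sub a b).trans (by linarith)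
  have I1 : ∀ χ : E d → ℝ, Test χ → Integrable (fun p : E d × E d =>
      (u (p.1 + h) - u p.1) * (u (p.2 + h) - u p.2) * kap d s χ p.1 p.2) := by
    intro χ hχ
    have hk := kap_int hd hs0 hs1 hχ (0 : E d) (0 : E d)
    simp only [sub_zero] at hk
    refine hk.bdd_mul (c := 4) ?_ (Eventually.of_forall (fun p => ?_))
    · exact Continuous.aestronglyMeasurable (by fun_prop)
    · rw [Real.norm_eq_abs, abs_mul]
      have h1 := hb1 (u (p.1 + h)) (u p.1) (hB _) (hB _)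
      have h2 := hb1 (u (p.2 + h)) (u p.2) (hB _) (hB _)
      nlinarith [abs_nonneg (u (p.1 + h) - u p.1), abs_nonneg (u (p.2 + h) - u p.2)]
  have I2 : ∀ χ : E d → ℝ, Test χ → Integrable (fun p : E d × E d =>
      (u p.1 - u p.2) ^ 2 * dkap d s χ h p.1 p.2) := by
    intro χ hχ
    refine dkap_int hd hs0 hs1 hχ h (g := fun p : E d × E d => (u p.1 - u p.2) ^ 2) (by fun_prop) (B := 4) (fun p => ?_)
    have h1 := hb1 (u p.1) (u p.2) (hB _) (hB _)
    rw [abs_pow]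
    nlinarith [abs_nonneg (u p.1 - u p.2)]
  have hAB := ma_test hA hBt
  have e1 : (fun p : E d × E d => (u (p.1 + h) - u p.1) * (u (p.2 + h) - u p.2) * kab d s A B p.1 p.2) =
      fun p : E d × E d => (1 / 2) * ((u (p.1 + h) - u p.1) * (u (p.2 + h) - u p.2) * kap d s (fun x => A x + B x) p.1 p.2
        - (u (p.1 + h) - u p.1) * (u (p.2 + h) - u p.2) * kap d s A p.1 p.2
        - (u (p.1 + h) - u p.1) * (u (p.2 + h) - u p.2) * kap d s B p.1 p.2) := by
    funext p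
    rw [ma_kap]
    ring
  have e2 : (fun p : E d × E d => (u p.1 - u p.2) ^ 2 * dkab d s A B h p.1 p.2) =
      fun p : E d × E d => (1 / 2) * ((u p.1 - u p.2) ^ 2 * dkap d s (fun x => A x + B x) h p.1 p.2
        - (u p.1 - u p.2) ^ 2 * dkap d s A h p.1 p.2
        - (u p.1 - u p.2) ^ 2 * dkap d s B h p.1 p.2) := by
    funext p
    rw [ma_dkap]
    ring
  rw [e1, e2]
  refine ⟨(((I1 _ hAB).sub (I1 _ hA)).sub (I1 _ hBt)).const_mul _,
    (((I2 _ hAB).sub (I2 _ hA)).sub (I2 _ hBt)).const_mul _, ?_⟩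
  have s1 : Integrable (fun p : E d × E d => (u (p.1 + h) - u p.1) * (u (p.2 + h) - u p.2) * kap d s (fun x => A x + B x) p.1 p.2
        - (u (p.1 + h) - u p.1) * (u (p.2 + h) - u p.2) * kap d s A p.1 p.2) := (I1 _ hAB).sub (I1 _ hA)
  have s2 : Integrable (fun p : E d × E d => (u p.1 - u p.2) ^ 2 * dkap d s (fun x => A x + B x) h p.1 p.2
        - (u p.1 - u p.2) ^ 2 * dkap d s A h p.1 p.2) := (I2 _ hAB).sub (I2 _ hA)
  rw [integral_const_mul, integral_const_mul, integral_sub s1 (I1 _ hBt), integral_sub (I1 _ hAB) (I1 _ hA),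
    integral_sub s2 (I2 _ hBt), integral_sub (I2 _ hAB) (I2 _ hA),
    cost hd hs0 hs1 hu hB hAB h, cost hd hs0 hs1 hu hB hA h, cost hd hs0 hs1 hu hB hBt h]
  ring

private theorem mb_K {d : ℕ} (s : ℝ) (e : E d) {z : E d} (hz : z ≠ 0) :
    HasDerivAt (fun a : ℝ => K d s (z + a • e)) (-(((d : ℝ) + 2 * s) * inner ℝ z e * (K d s z / ‖z‖ ^ 2))) 0 := by
  have hn : 0 < ‖z‖ := norm_pos_iff.mpr hz
  have h1 : HasDerivAt (fun a : ℝ => z + a • e) e 0 := by
    have := ((hasDerivAt_id (0 : ℝ)).smul_const e).const_add z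
    simpa using this
  have h2 : HasDerivAt (fun a : ℝ => ‖z + a • e‖ ^ 2) (2 * inner ℝ z e) 0 := by
    have := h1.norm_sq
    simpa using this
  have h3 : ∀ w : E d, K d s w = (‖w‖ ^ 2) ^ (-(((d : ℝ) + 2 * s) / 2)) := by
    intro w
    unfold K
    rw [← Real.rpow_natCast ‖w‖ 2, ← Real.rpow_mul (norm_nonneg w)]
    congr 1
    push_cast
    ring
  have h4 : (‖z + (0 : ℝ) • e‖ ^ 2) ≠ 0 := by
    rw [zero_smul, add_zero]
    positivity
  have h5 := h2.rpow_const (p := -(((d : ℝ) + 2 * s) / 2)) (Or.inl h4)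
  simp only [← h3] at h5
  refine h5.congr_deriv ?_
  rw [zero_smul, add_zero, Real.rpow_sub_one (by positivity), ← h3]
  field_simp

private theorem mb_A {d : ℕ} {A : E d → ℝ} (hA : ContDiff ℝ 2 A) (e x : E d) :
    HasDerivAt (fun a : ℝ => A (x + a • e)) (fderiv ℝ A x e) 0 := by
  have h1 : HasDerivAt (fun a : ℝ => x + a • e) e 0 := by
    have := ((hasDerivAt_id (0 : ℝ)).smul_const e).const_add x
    simpa using this
  have h2 : HasFDerivAt A (fderiv ℝ A x) (x + (0 : ℝ) • e) := by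
    rw [zero_smul, add_zero]
    exact ((hA.differentiable two_ne_zero) x).hasFDerivAt
  exact h2.comp_hasDerivAt 0 h1

/-- MODULE mb. First partial derivatives of `kab` off the diagonal (as a function of the first variable). -/
theorem kab_d1 {d : ℕ} {s : ℝ} {A B : E d → ℝ} (hA : ContDiff ℝ 2 A) (hB : ContDiff ℝ 2 B) (e : E d) {x y : E d}
    (hxy : x ≠ y) :
    HasDerivAt (fun a : ℝ => kab d s A B (x + a • e) y)
      (fderiv ℝ A x e * (B x - B y) * K d s (x - y) + (A x - A y) * fderiv ℝ B x e * K d s (x - y)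
        - (A x - A y) * (B x - B y) * (((d : ℝ) + 2 * s) * inner ℝ (x - y) e * (K d s (x - y) / ‖x - y‖ ^ 2))) 0 := by
  have h1 := mb_A hA e x
  have h2 := mb_A hB e x
  have h3 := mb_K s e (sub_ne_zero.mpr hxy)
  have h4 : (fun a : ℝ => kab d s A B (x + a • e) y) =
      fun a : ℝ => (A (x + a • e) - A y) * (B (x + a • e) - B y) * K d s (x - y + a • e) := by
    funext a
    unfold kab
    rw [add_sub_right_comm]
  rw [h4]
  refine (((h1.sub_const (A y)).mul (h2.sub_const (B y))).mul h3).congr_deriv ?_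
  simp only [Pi.mul_apply, zero_smul, add_zero]
  ring

private theorem mc_A {d : ℕ} {A : E d → ℝ} (hA : ContDiff ℝ 2 A) (e x y : E d) :
    HasDerivAt (fun b : ℝ => A x - A (y + b • e)) (-fderiv ℝ A y e) 0 :=
  (mb_A hA e y).const_sub (A x)

private theorem mc_K {d : ℕ} (s : ℝ) (e : E d) {x y : E d} (hxy : x ≠ y) :
    HasDerivAt (fun b : ℝ => K d s (x - (y + b • e)))
      (((d : ℝ) + 2 * s) * inner ℝ (x - y) e * (K d s (x - y) / ‖x - y‖ ^ 2)) 0 := by
  have h3 := mb_K s (-e) (sub_ne_zero.mpr hxy)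
  have h4 : (fun b : ℝ => K d s (x - (y + b • e))) = fun a : ℝ => K d s (x - y + a • (-e)) := by
    funext a
    congr 1
    rw [smul_neg]
    abel
  rw [h4]
  refine h3.congr_deriv ?_
  rw [inner_neg_right]
  ring

private theorem mc_K2 {d : ℕ} (s : ℝ) (z : E d) : K d s z / ‖z‖ ^ 2 = K d (s + 1) z ∨ z = 0 := by
  by_cases hz : z = 0
  · exact Or.inr hz
  left
  have hn : 0 < ‖z‖ := norm_pos_iff.mpr hz
  unfold K
  rw [← Real.rpow_natCast ‖z‖ 2, ← Real.rpow_sub hn]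
  congr 1
  push_cast
  ring

/-- MODULE mc. Mixed derivative: differentiate the expression of `kab_d1` in `y`. -/
theorem kab_d2 {d : ℕ} {s : ℝ} {A B : E d → ℝ} (hA : ContDiff ℝ 2 A) (hB : ContDiff ℝ 2 B) (e : E d) {x y : E d}
    (hxy : x ≠ y) :
    HasDerivAt (fun b : ℝ =>
      (fderiv ℝ A x e * (B x - B (y + b • e)) * K d s (x - (y + b • e)) +
        (A x - A (y + b • e)) * fderiv ℝ B x e * K d s (x - (y + b • e))
        - (A x - A (y + b • e)) * (B x - B (y + b • e)) *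
          (((d : ℝ) + 2 * s) * inner ℝ (x - (y + b • e)) e * (K d s (x - (y + b • e)) / ‖x - (y + b • e)‖ ^ 2))))
      (mix d s A B e x y) 0 := by
  have hz : x - y ≠ 0 := sub_ne_zero.mpr hxy
  have hn : 0 < ‖x - y‖ := norm_pos_iff.mpr hz
  have hAy := mc_A hA e x y
  have hBy := mc_A hB e x y
  have hK := mc_K s e hxy
  have hK2 : HasDerivAt (fun b : ℝ => K d s (x - (y + b • e)) / ‖x - (y + b • e)‖ ^ 2)
      (((d : ℝ) + 2 * s + 2) * inner ℝ (x - y) e * (K d s (x - y) / ‖x - y‖ ^ 4)) 0 := by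
    have h1 := mc_K (s + 1) e hxy
    have hc : ContinuousAt (fun b : ℝ => x - (y + b • e)) 0 := by fun_prop
    have hne : ∀ᶠ b : ℝ in 𝓝 0, x - (y + b • e) ≠ 0 := by
      refine hc.eventually_ne ?_
      rw [zero_smul, add_zero]
      exact hz
    refine (h1.congr_deriv ?_).congr_of_eventuallyEq ?_
    · rw [← (mc_K2 s (x - y)).resolve_right hz]
      field_simp
      ring
    · filter_upwards [hne] with b hb
      exact (mc_K2 s _).resolve_right hb
  have hI : HasDerivAt (fun b : ℝ => (inner ℝ (x - (y + b • e)) e : ℝ)) (-(‖e‖ ^ 2)) 0 := by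
    have h1 : (fun b : ℝ => (inner ℝ (x - (y + b • e)) e : ℝ)) = fun b : ℝ => inner ℝ (x - y) e - b * ‖e‖ ^ 2 := by
      funext b
      rw [← sub_sub, inner_sub_left, real_inner_smul_left, real_inner_self_eq_norm_sq]
    rw [h1]
    have := ((hasDerivAt_id (0 : ℝ)).mul_const (‖e‖ ^ 2)).const_sub (inner ℝ (x - y) e)
    simpa using this
  have hT1 := (hBy.const_mul (fderiv ℝ A x e)).mul hK
  have hT2 := (hAy.mul_const (fderiv ℝ B x e)).mul hK
  have hT3 := (hAy.mul hBy).mul ((hI.const_mul ((d : ℝ) + 2 * s)).mul hK2)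
  refine ((hT1.add hT2).sub hT3).congr_deriv ?_
  simp only [Pi.mul_apply, zero_smul, add_zero]
  unfold mix
  ring

private theorem md_ne {d : ℕ} {e x y : E d} {t : ℝ} (hxy : t * ‖e‖ < ‖x - y‖) {α β : ℝ}
    (hα : α ∈ Icc (0 : ℝ) t) (hβ : β ∈ Icc (0 : ℝ) t) : x - α • e ≠ y - β • e := by
  intro h
  have h1 : x - y = (α - β) • e := by
    rw [sub_smul]
    have : x - y = (x - α • e) - (y - β • e) + (α • e - β • e) := by abel
    rw [this, h, sub_self, zero_add]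
  rw [h1, norm_smul, Real.norm_eq_abs] at hxy
  have h2 : |α - β| ≤ t := by
    rw [abs_le]
    constructor
    · linarith [hα.1, hβ.2]
    · linarith [hα.2, hβ.1]
  have := mul_le_mul_of_nonneg_right h2 (norm_nonneg e)
  linarith

private theorem md_sh {d : ℕ} (f : E d → ℝ) (e x : E d) (a0 D : ℝ)
    (h : HasDerivAt (fun a : ℝ => f (x - a0 • e + a • e)) D 0) : HasDerivAt (fun a : ℝ => f (x - a • e)) (-D) a0 := by
  have h1 : HasDerivAt (fun a : ℝ => a0 - a) (-1) a0 := by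
    simpa using (hasDerivAt_id a0).const_sub a0
  have h0 : HasDerivAt (fun a : ℝ => f (x - a0 • e + a • e)) D (a0 - a0) := by
    rw [sub_self]
    exact h
  have h2 := h0.comp a0 h1
  have h3 : ((fun a : ℝ => f (x - a0 • e + a • e)) ∘ fun a : ℝ => a0 - a) = fun a : ℝ => f (x - a • e) := by
    funext a
    simp only [Function.comp]
    congr 1
    rw [sub_smul]
    abel
  rw [h3] at h2
  refine h2.congr_deriv ?_
  ring

/-- MODULE md. Mean value theorem twice: if `t ‖e‖ < ‖x - y‖` (so `x - α e ≠ y - β e` for `α, β ∈ [0,t]`), then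
`dkab (t e) x y = t^2 mix (x - α e) (y - β e)` for some `α, β ∈ [0,t]`. Proof: `F(a,b) = kab (x - a e) (y - b e)`,
`G(a) = F(a,t) - F(a,0)`, `dkab = G(t) - G(0) = t G'(α)` (`exists_hasDerivAt_eq_slope`), then again in `b`
(`kab_d1`, `kab_d2` at shifted points; the two minus signs cancel). -/
theorem dkab_mvt {d : ℕ} {s : ℝ} {A B : E d → ℝ} (hA : ContDiff ℝ 2 A) (hB : ContDiff ℝ 2 B) (e : E d) {x y : E d}
    {t : ℝ} (ht : 0 < t) (hxy : t * ‖e‖ < ‖x - y‖) :
    ∃ α ∈ Icc (0 : ℝ) t, ∃ β ∈ Icc (0 : ℝ) t,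
      dkab d s A B (t • e) x y = t ^ 2 * mix d s A B e (x - α • e) (y - β • e) := by
  set D1 : E d → E d → ℝ := fun x y =>
    fderiv ℝ A x e * (B x - B y) * K d s (x - y) + (A x - A y) * fderiv ℝ B x e * K d s (x - y)
        - (A x - A y) * (B x - B y) * (((d : ℝ) + 2 * s) * inner ℝ (x - y) e * (K d s (x - y) / ‖x - y‖ ^ 2)) with hD1
  have ht0 : (0 : ℝ) ∈ Icc (0 : ℝ) t := ⟨le_rfl, ht.le⟩
  have htt : t ∈ Icc (0 : ℝ) t := ⟨ht.le, le_rfl⟩
  have hF : ∀ a ∈ Icc (0 : ℝ) t, ∀ b ∈ Icc (0 : ℝ) t,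
      HasDerivAt (fun a : ℝ => kab d s A B (x - a • e) (y - b • e)) (-D1 (x - a • e) (y - b • e)) a := by
    intro a ha b hb
    exact md_sh (fun z => kab d s A B z (y - b • e)) e x a _ (kab_d1 hA hB e (md_ne hxy ha hb))
  have hH : ∀ a ∈ Icc (0 : ℝ) t, ∀ b ∈ Icc (0 : ℝ) t,
      HasDerivAt (fun b : ℝ => D1 (x - a • e) (y - b • e)) (-mix d s A B e (x - a • e) (y - b • e)) b := by
    intro a ha b hb
    exact md_sh (fun z => D1 (x - a • e) z) e y b _ (kab_d2 hA hB e (md_ne hxy ha hb))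
  have hG : ∀ a ∈ Icc (0 : ℝ) t, HasDerivAt (fun a : ℝ => kab d s A B (x - a • e) (y - t • e) -
      kab d s A B (x - a • e) (y - (0 : ℝ) • e)) (-D1 (x - a • e) (y - t • e) - -D1 (x - a • e) (y - (0 : ℝ) • e)) a := by
    intro a ha
    exact (hF a ha t htt).sub (hF a ha 0 ht0)
  obtain ⟨α, hα, hα'⟩ := exists_hasDerivAt_eq_slope _ _ ht
    (fun a ha => (hG a ha).continuousAt.continuousWithinAt) (fun a ha => hG a ⟨ha.1.le, ha.2.le⟩)
  have hα1 : α ∈ Icc (0 : ℝ) t := ⟨hα.1.le, hα.2.le⟩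
  obtain ⟨β, hβ, hβ'⟩ := exists_hasDerivAt_eq_slope _ _ ht
    (fun b hb => (hH α hα1 b hb).continuousAt.continuousWithinAt) (fun b hb => hH α hα1 b ⟨hb.1.le, hb.2.le⟩)
  refine ⟨α, hα1, β, ⟨hβ.1.le, hβ.2.le⟩, ?_⟩
  have htn : t ≠ 0 := ht.ne'
  simp only [sub_zero] at hα' hβ'
  rw [eq_div_iff htn] at hα' hβ'
  have e0 : dkab d s A B (t • e) x y = kab d s A B (x - t • e) (y - t • e) - kab d s A B (x - t • e) (y - (0 : ℝ) • e) -
      (kab d s A B (x - (0 : ℝ) • e) (y - t • e) - kab d s A B (x - (0 : ℝ) • e) (y - (0 : ℝ) • e)) := by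
    unfold dkab
    simp only [zero_smul, sub_zero]
    ring
  rw [e0, ← hα']
  have e1 : (-D1 (x - α • e) (y - t • e) - -D1 (x - α • e) (y - (0 : ℝ) • e)) =
      mix d s A B e (x - α • e) (y - β • e) * t := by
    linarith [hβ']
  rw [e1]
  ring

private theorem me_fd {d : ℕ} {A : E d → ℝ} (hA : ContDiff ℝ 2 A) (e : E d) :
    Continuous (fun x => fderiv ℝ A x e) :=
  (hA.continuous_fderiv (by norm_num)).clm_apply continuous_const

/-- MODULE me. `mix` is continuous off the diagonal. -/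
theorem mix_cont {d : ℕ} {s : ℝ} {A B : E d → ℝ} (hA : ContDiff ℝ 2 A) (hB : ContDiff ℝ 2 B) (e : E d) {x y : E d}
    (hxy : x ≠ y) : ContinuousAt (fun p : E d × E d => mix d s A B e p.1 p.2) (x, y) := by
  have hne : x - y ≠ 0 := sub_ne_zero.mpr hxy
  have c1 : ContinuousAt (fun p : E d × E d => p.1 - p.2) (x, y) := by fun_prop
  have cK : ContinuousAt (fun p : E d × E d => K d s (p.1 - p.2)) (x, y) :=
    ContinuousAt.comp (g := K d s) (f := fun p : E d × E d => p.1 - p.2) (NDG.K_continuousAt hne) c1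
  have cA1 : ContinuousAt (fun p : E d × E d => fderiv ℝ A p.1 e) (x, y) :=
    ((me_fd hA e).comp continuous_fst).continuousAt
  have cA2 : ContinuousAt (fun p : E d × E d => fderiv ℝ A p.2 e) (x, y) :=
    ((me_fd hA e).comp continuous_snd).continuousAt
  have cB1 : ContinuousAt (fun p : E d × E d => fderiv ℝ B p.1 e) (x, y) :=
    ((me_fd hB e).comp continuous_fst).continuousAt
  have cB2 : ContinuousAt (fun p : E d × E d => fderiv ℝ B p.2 e) (x, y) :=
    ((me_fd hB e).comp continuous_snd).continuousAt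
  have cA : ContinuousAt (fun p : E d × E d => A p.1 - A p.2) (x, y) :=
    ((hA.continuous.comp continuous_fst).sub (hA.continuous.comp continuous_snd)).continuousAt
  have cB : ContinuousAt (fun p : E d × E d => B p.1 - B p.2) (x, y) :=
    ((hB.continuous.comp continuous_fst).sub (hB.continuous.comp continuous_snd)).continuousAt
  have cn : ContinuousAt (fun p : E d × E d => ‖p.1 - p.2‖) (x, y) := c1.norm
  have ci : ContinuousAt (fun p : E d × E d => (inner ℝ (p.1 - p.2) e : ℝ)) (x, y) :=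
    c1.inner continuousAt_const
  have hn : ‖x - y‖ ≠ 0 := norm_ne_zero_iff.mpr hne
  have cK2 : ContinuousAt (fun p : E d × E d => K d s (p.1 - p.2) / ‖p.1 - p.2‖ ^ 2) (x, y) :=
    cK.div (cn.pow 2) (pow_ne_zero 2 hn)
  have cK4 : ContinuousAt (fun p : E d × E d => K d s (p.1 - p.2) / ‖p.1 - p.2‖ ^ 4) (x, y) :=
    cK.div (cn.pow 4) (pow_ne_zero 4 hn)
  unfold mix
  exact ((((cA1.mul cB2).add (cA2.mul cB1)).neg.mul cK).add
    ((((cA1.add cA2).mul cB).add (cA.mul (cB1.add cB2))).mul ((continuousAt_const.mul ci).mul cK2))).sub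
    ((cA.mul cB).mul (((continuousAt_const.mul (ci.pow 2)).mul cK4).sub (continuousAt_const.mul cK2)))

/-- MODULE mf. Pointwise limit (`dkab_mvt`, `mix_cont`). -/
theorem dkab_lim {d : ℕ} {s : ℝ} {A B : E d → ℝ} (hA : ContDiff ℝ 2 A) (hB : ContDiff ℝ 2 B) (e : E d) {x y : E d}
    (hxy : x ≠ y) :
    Tendsto (fun t : ℝ => dkab d s A B (t • e) x y / t ^ 2) (𝓝[>] 0) (𝓝 (mix d s A B e x y)) := by
  rw [Metric.tendsto_nhds]
  intro ε hε
  have h1 := (Metric.continuousAt_iff.mp (mix_cont (s := s) hA hB e hxy)) ε hε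
  obtain ⟨δ, hδ, h1⟩ := h1
  have hpos : 0 < ‖x - y‖ := norm_pos_iff.mpr (sub_ne_zero.mpr hxy)
  have hT : Tendsto (fun t : ℝ => t * ‖e‖) (𝓝[>] 0) (𝓝 0) := by
    have : Tendsto (fun t : ℝ => t * ‖e‖) (𝓝 0) (𝓝 (0 * ‖e‖)) := (continuous_id.mul continuous_const).tendsto 0
    rw [zero_mul] at this
    exact this.mono_left nhdsWithin_le_nhds
  have e1 : ∀ᶠ t : ℝ in 𝓝[>] 0, t * ‖e‖ < min δ ‖x - y‖ := hT.eventually (gt_mem_nhds (lt_min hδ hpos))
  have e2 : ∀ᶠ t : ℝ in 𝓝[>] 0, 0 < t := self_mem_nhdsWithin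
  filter_upwards [e1, e2] with t ht1 ht2
  obtain ⟨α, hα, β, hβ, hab⟩ := dkab_mvt (s := s) hA hB e ht2 (lt_of_lt_of_le ht1 (min_le_right _ _))
  have ht0 : t ^ 2 ≠ 0 := pow_ne_zero 2 ht2.ne'
  rw [hab, mul_div_cancel_left₀ _ ht0]
  refine h1 (x := (x - α • e, y - β • e)) ?_
  have hd : ∀ (z : E d) (a : ℝ), a ∈ Icc (0 : ℝ) t → dist (z - a • e) z < δ := by
    intro z a ha
    rw [dist_eq_norm, sub_sub_cancel_left, norm_neg, norm_smul, Real.norm_eq_abs, abs_of_nonneg ha.1]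
    exact lt_of_le_of_lt (mul_le_mul_of_nonneg_right ha.2 (norm_nonneg e)) (lt_of_lt_of_le ht1 (min_le_left _ _))
  rw [Prod.dist_eq]
  exact max_lt (hd x α hα) (hd y β hβ)

/-- The bracket that bounds `mix`. -/
noncomputable def brk (d : ℕ) (s : ℝ) (A B : E d → ℝ) (x y : E d) : ℝ :=
  (‖fderiv ℝ A x‖ * ‖fderiv ℝ B y‖ + ‖fderiv ℝ A y‖ * ‖fderiv ℝ B x‖)
  + ((d : ℝ) + 2 * s) * (((‖fderiv ℝ A x‖ + ‖fderiv ℝ A y‖) * |B x - B y| +
      |A x - A y| * (‖fderiv ℝ B x‖ + ‖fderiv ℝ B y‖)) / ‖x - y‖)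
  + ((d : ℝ) + 2 * s) * ((d : ℝ) + 2 * s + 3) * (|A x - A y| * |B x - B y| / ‖x - y‖ ^ 2)

private theorem mg_ap {d : ℕ} (A : E d → ℝ) {e : E d} (he : ‖e‖ ≤ 1) (x : E d) : |fderiv ℝ A x e| ≤ ‖fderiv ℝ A x‖ := by
  have h1 := (fderiv ℝ A x).le_opNorm e
  rw [Real.norm_eq_abs] at h1
  exact h1.trans (mul_le_of_le_one_right (norm_nonneg _) he)

/-- MODULE mg. Pointwise bound for `‖e‖ ≤ 1` (`|⟪h,e⟫| ≤ ‖h‖`). -/
theorem mix_le {d : ℕ} {s : ℝ} (hs : 0 < s) (A B : E d → ℝ) {e : E d} (he : ‖e‖ ≤ 1) (x y : E d) :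
    |mix d s A B e x y| ≤ brk d s A B x y * K d s (x - y) := by
  have hK := ker_nonneg (s := s) (x - y)
  by_cases hxy : x = y
  · subst hxy
    have h0 : K d s (x - x) = 0 := by
      unfold K
      rw [sub_self, norm_zero, Real.zero_rpow]
      have : (0 : ℝ) < (d : ℝ) + 2 * s := by positivity
      linarith
    unfold mix
    rw [h0]
    simp
  have hn : 0 < ‖x - y‖ := norm_pos_iff.mpr (sub_ne_zero.mpr hxy)
  have hi : |(inner ℝ (x - y) e : ℝ)| ≤ ‖x - y‖ := by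
    have h1 := abs_real_inner_le_norm (x - y) e
    exact h1.trans (mul_le_of_le_one_right (norm_nonneg _) he)
  have hc : (0 : ℝ) < (d : ℝ) + 2 * s := by positivity
  have a1 := mg_ap A he x
  have a2 := mg_ap A he y
  have b1 := mg_ap B he x
  have b2 := mg_ap B he y
  have n1 := norm_nonneg (fderiv ℝ A x)
  have n2 := norm_nonneg (fderiv ℝ A y)
  have n3 := norm_nonneg (fderiv ℝ B x)
  have n4 := norm_nonneg (fderiv ℝ B y)
  -- first term
  have t1 : |-(fderiv ℝ A x e * fderiv ℝ B y e + fderiv ℝ A y e * fderiv ℝ B x e) * K d s (x - y)| ≤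
      (‖fderiv ℝ A x‖ * ‖fderiv ℝ B y‖ + ‖fderiv ℝ A y‖ * ‖fderiv ℝ B x‖) * K d s (x - y) := by
    rw [abs_mul, abs_neg, abs_of_nonneg hK]
    refine mul_le_mul_of_nonneg_right ((abs_add_le _ _).trans ?_) hK
    rw [abs_mul, abs_mul]
    exact add_le_add (mul_le_mul a1 b2 (abs_nonneg _) n1) (mul_le_mul a2 b1 (abs_nonneg _) n2)
  -- second term
  have t2 : |((fderiv ℝ A x e + fderiv ℝ A y e) * (B x - B y) + (A x - A y) * (fderiv ℝ B x e + fderiv ℝ B y e)) *
      (((d : ℝ) + 2 * s) * inner ℝ (x - y) e * (K d s (x - y) / ‖x - y‖ ^ 2))| ≤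
      ((d : ℝ) + 2 * s) * (((‖fderiv ℝ A x‖ + ‖fderiv ℝ A y‖) * |B x - B y| +
      |A x - A y| * (‖fderiv ℝ B x‖ + ‖fderiv ℝ B y‖)) / ‖x - y‖) * K d s (x - y) := by
    have h1 : |((fderiv ℝ A x e + fderiv ℝ A y e) * (B x - B y) + (A x - A y) * (fderiv ℝ B x e + fderiv ℝ B y e))| ≤
        (‖fderiv ℝ A x‖ + ‖fderiv ℝ A y‖) * |B x - B y| + |A x - A y| * (‖fderiv ℝ B x‖ + ‖fderiv ℝ B y‖) := by
      refine (abs_add_le _ _).trans ?_
      rw [abs_mul, abs_mul]
      refine add_le_add ?_ ?_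
      · exact mul_le_mul_of_nonneg_right ((abs_add_le _ _).trans (add_le_add a1 a2)) (abs_nonneg _)
      · exact mul_le_mul_of_nonneg_left ((abs_add_le _ _).trans (add_le_add b1 b2)) (abs_nonneg _)
    have h2 : |((d : ℝ) + 2 * s) * inner ℝ (x - y) e * (K d s (x - y) / ‖x - y‖ ^ 2)| ≤
        ((d : ℝ) + 2 * s) * ‖x - y‖ * (K d s (x - y) / ‖x - y‖ ^ 2) := by
      rw [abs_mul, abs_mul, abs_of_pos hc, abs_of_nonneg (div_nonneg hK (by positivity))]
      exact mul_le_mul_of_nonneg_right (mul_le_mul_of_nonneg_left hi hc.le) (div_nonneg hK (by positivity))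
    rw [abs_mul]
    refine (mul_le_mul h1 h2 (abs_nonneg _) (by positivity)).trans (le_of_eq ?_)
    field_simp
  -- third term
  have t3 : |(A x - A y) * (B x - B y) *
      (((d : ℝ) + 2 * s) * ((d : ℝ) + 2 * s + 2) * inner ℝ (x - y) e ^ 2 * (K d s (x - y) / ‖x - y‖ ^ 4)
        - ((d : ℝ) + 2 * s) * ‖e‖ ^ 2 * (K d s (x - y) / ‖x - y‖ ^ 2))| ≤
      ((d : ℝ) + 2 * s) * ((d : ℝ) + 2 * s + 3) * (|A x - A y| * |B x - B y| / ‖x - y‖ ^ 2) * K d s (x - y) := by
    have he2 : ‖e‖ ^ 2 ≤ 1 := pow_le_one₀ (norm_nonneg _) he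
    have hi2 : (inner ℝ (x - y) e : ℝ) ^ 2 ≤ ‖x - y‖ ^ 2 := by
      rw [← sq_abs]
      exact pow_le_pow_left₀ (abs_nonneg _) hi 2
    have h1 : |((d : ℝ) + 2 * s) * ((d : ℝ) + 2 * s + 2) * inner ℝ (x - y) e ^ 2 * (K d s (x - y) / ‖x - y‖ ^ 4)
        - ((d : ℝ) + 2 * s) * ‖e‖ ^ 2 * (K d s (x - y) / ‖x - y‖ ^ 2)| ≤
        ((d : ℝ) + 2 * s) * ((d : ℝ) + 2 * s + 2) * ‖x - y‖ ^ 2 * (K d s (x - y) / ‖x - y‖ ^ 4)
        + ((d : ℝ) + 2 * s) * 1 * (K d s (x - y) / ‖x - y‖ ^ 2) := by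
      refine (abs_sub _ _).trans (add_le_add ?_ ?_)
      · rw [abs_of_nonneg (by positivity)]
        gcongr
      · rw [abs_of_nonneg (by positivity)]
        gcongr
    rw [abs_mul, abs_mul]
    refine (mul_le_mul_of_nonneg_left h1 (by positivity)).trans (le_of_eq ?_)
    field_simp
    ring
  unfold mix brk
  refine (abs_sub _ _).trans ?_
  refine (add_le_add ((abs_add_le _ _).trans (add_le_add t1 t2)) t3).trans (le_of_eq ?_)
  ring

private theorem mh_lip {d : ℕ} {A : E d → ℝ} (hA : ContDiff ℝ 2 A) (hAs : HasCompactSupport A) :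
    ∃ L : ℝ, 0 ≤ L ∧ (∀ x, ‖fderiv ℝ A x‖ ≤ L) ∧ ∀ x y, |A x - A y| ≤ L * ‖x - y‖ := by
  have hc : Continuous (fderiv ℝ A) := hA.continuous_fderiv two_ne_zero
  obtain ⟨L, hL⟩ := hc.bounded_above_of_compact_support (hAs.fderiv (𝕜 := ℝ))
  have hL0 : 0 ≤ L := (norm_nonneg _).trans (hL 0)
  refine ⟨L, hL0, hL, fun x y => ?_⟩
  have := Convex.norm_image_sub_le_of_norm_fderiv_le (𝕜 := ℝ) (f := A) (s := univ) (x := y) (y := x)
    (fun z _ => (hA.differentiable two_ne_zero) z) (fun z _ => hL z) convex_univ (mem_univ _) (mem_univ _)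
  rwa [Real.norm_eq_abs] at this

private theorem mh_supp {d : ℕ} {A : E d → ℝ} (hAs : HasCompactSupport A) :
    ∃ ρ : ℝ, 0 ≤ ρ ∧ ∀ x, ρ < ‖x‖ → A x = 0 ∧ fderiv ℝ A x = 0 := by
  obtain ⟨ρ, hρ⟩ := hAs.isCompact.isBounded.subset_closedBall (0 : E d)
  refine ⟨max ρ 0, le_max_right _ _, fun x hx => ?_⟩
  have hx' : x ∉ tsupport A := by
    intro h
    have := hρ h
    rw [mem_closedBall_zero_iff] at this
    exact absurd (lt_of_le_of_lt (le_max_left ρ 0) hx) (not_lt.mpr this)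
  exact ⟨image_eq_zero_of_notMem_tsupport hx', fderiv_of_notMem_tsupport ℝ hx'⟩

/-- MODULE mh. For `C^2` functions with compact support the bracket is bounded and vanishes off a ball. -/
theorem brk_bd {d : ℕ} {s : ℝ} (hs : 0 < s) {A B : E d → ℝ} (hA : ContDiff ℝ 2 A) (hB : ContDiff ℝ 2 B)
    (hAs : HasCompactSupport A) (hBs : HasCompactSupport B) :
    ∃ C ρ : ℝ, 0 ≤ C ∧ 0 ≤ ρ ∧ (∀ x y, brk d s A B x y ≤ C) ∧ ∀ x y, ρ < ‖x‖ → ρ < ‖y‖ → brk d s A B x y = 0 := by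
  obtain ⟨L, hL0, hL1, hL2⟩ := mh_lip hA hAs
  obtain ⟨M, hM0, hM1, hM2⟩ := mh_lip hB hBs
  obtain ⟨ρ, hρ0, hρ⟩ := mh_supp hAs
  obtain ⟨σ, hσ0, hσ⟩ := mh_supp hBs
  have hc : (0 : ℝ) < (d : ℝ) + 2 * s := by positivity
  refine ⟨(L * M + L * M) + ((d : ℝ) + 2 * s) * ((L + L) * M + L * (M + M)) +
    ((d : ℝ) + 2 * s) * ((d : ℝ) + 2 * s + 3) * (L * M), max ρ σ, by positivity, le_max_of_le_left hρ0, ?_, ?_⟩
  · intro x y
    unfold brk
    have hn := norm_nonneg (x - y)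
    refine add_le_add (add_le_add ?_ ?_) ?_
    · exact add_le_add (mul_le_mul (hL1 x) (hM1 y) (norm_nonneg _) hL0) (mul_le_mul (hL1 y) (hM1 x) (norm_nonneg _) hL0)
    · refine mul_le_mul_of_nonneg_left (div_le_of_le_mul₀ hn (by positivity) ?_) hc.le
      have h1 : (‖fderiv ℝ A x‖ + ‖fderiv ℝ A y‖) * |B x - B y| ≤ (L + L) * (M * ‖x - y‖) :=
        mul_le_mul (add_le_add (hL1 x) (hL1 y)) (hM2 x y) (abs_nonneg _) (by positivity)
      have h2 : |A x - A y| * (‖fderiv ℝ B x‖ + ‖fderiv ℝ B y‖) ≤ (L * ‖x - y‖) * (M + M) :=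
        mul_le_mul (hL2 x y) (add_le_add (hM1 x) (hM1 y)) (by positivity) (by positivity)
      nlinarith
    · refine mul_le_mul_of_nonneg_left (div_le_of_le_mul₀ (by positivity) (by positivity) ?_) (by positivity)
      have h1 : |A x - A y| * |B x - B y| ≤ (L * ‖x - y‖) * (M * ‖x - y‖) :=
        mul_le_mul (hL2 x y) (hM2 x y) (abs_nonneg _) (by positivity)
      nlinarith
  · intro x y hx hy
    have x1 := hρ x (lt_of_le_of_lt (le_max_left ρ σ) hx)
    have y1 := hρ y (lt_of_le_of_lt (le_max_left ρ σ) hy)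
    have x2 := hσ x (lt_of_le_of_lt (le_max_right ρ σ) hx)
    have y2 := hσ y (lt_of_le_of_lt (le_max_right ρ σ) hy)
    unfold brk
    rw [x1.1, x1.2, y1.1, y1.2, x2.1, x2.2, y2.1, y2.2]
    simp

private theorem mi_ker {d : ℕ} {s : ℝ} (hs : 0 < s) {z z' : E d} (hz : z ≠ 0) (h : 3 / 4 * ‖z‖ ≤ ‖z'‖) :
    K d s z' ≤ (3 / 4 : ℝ) ^ (-((d : ℝ) + 2 * s)) * K d s z := by
  have h1 : K d s ((3 / 4 : ℝ) • z) = (3 / 4 : ℝ) ^ (-((d : ℝ) + 2 * s)) * K d s z := by
    unfold K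
    rw [norm_smul, Real.norm_of_nonneg (by norm_num), Real.mul_rpow (by norm_num) (norm_nonneg _)]
  rw [← h1]
  refine ker_anti hs (smul_ne_zero (by norm_num) hz) ?_
  rw [norm_smul, Real.norm_of_nonneg (by norm_num)]
  exact h

/-- MODULE mi. Domination off the diagonal, uniform in `t ∈ (0,1]`: for `4 t ≤ ‖x - y‖`,
`|dkab (t e) x y| ≤ C t^2 K(x-y) (1_ρ x + 1_ρ y)` (`dkab_mvt`, `mix_le`, `brk_bd`; the shifted points are at distance
`≥ (3/4)‖x-y‖`, so `K` of their difference is at most `(4/3)^(d+2s) K(x-y)`; take `ρ + 1`). -/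
theorem dkab_far {d : ℕ} {s : ℝ} (hs : 0 < s) {A B : E d → ℝ} (hA : ContDiff ℝ 2 A) (hB : ContDiff ℝ 2 B)
    (hAs : HasCompactSupport A) (hBs : HasCompactSupport B) {e : E d} (he : ‖e‖ ≤ 1) :
    ∃ C ρ : ℝ, 0 ≤ C ∧ 0 ≤ ρ ∧ ∀ t : ℝ, 0 < t → t ≤ 1 → ∀ x y : E d, 4 * t ≤ ‖x - y‖ → x ≠ y →
      |dkab d s A B (t • e) x y| ≤ C * t ^ 2 * K d s (x - y) *
        ((Metric.closedBall (0 : E d) ρ).indicator (fun _ => (1 : ℝ)) x +
         (Metric.closedBall (0 : E d) ρ).indicator (fun _ => (1 : ℝ)) y) := by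
  obtain ⟨C, ρ, hC, hρ, h1, h2⟩ := brk_bd hs hA hB hAs hBs
  refine ⟨C * (3 / 4 : ℝ) ^ (-((d : ℝ) + 2 * s)), ρ + 1, by positivity, by positivity, ?_⟩
  intro t ht ht1 x y hxy hne
  have hz : x - y ≠ 0 := sub_ne_zero.2 hne
  have h3 : t * ‖e‖ < ‖x - y‖ := by nlinarith [norm_nonneg e]
  obtain ⟨α, hα, β, hβ, h4⟩ := dkab_mvt hA hB e ht h3
  have hαe : ‖α • e‖ ≤ t := by
    rw [norm_smul, Real.norm_of_nonneg hα.1]
    nlinarith [hα.1, hα.2, norm_nonneg e]
  have hβe : ‖β • e‖ ≤ t := by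
    rw [norm_smul, Real.norm_of_nonneg hβ.1]
    nlinarith [hβ.1, hβ.2, norm_nonneg e]
  have hαβ : ‖(α - β) • e‖ ≤ t := by
    rw [norm_smul, Real.norm_eq_abs]
    have h5 : |α - β| ≤ t := by
      rw [abs_le]
      constructor <;> linarith [hα.1, hα.2, hβ.1, hβ.2]
    nlinarith [norm_nonneg e, abs_nonneg (α - β)]
  have h5 : 3 / 4 * ‖x - y‖ ≤ ‖(x - α • e) - (y - β • e)‖ := by
    have h6 : (x - α • e) - (y - β • e) = (x - y) - (α - β) • e := by
      rw [sub_smul]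
      abel
    rw [h6]
    have h7 := norm_sub_norm_le (x - y) ((α - β) • e)
    linarith
  have h6 : |mix d s A B e (x - α • e) (y - β • e)| ≤
      brk d s A B (x - α • e) (y - β • e) * K d s ((x - α • e) - (y - β • e)) :=
    mix_le hs A B he _ _
  have hK := mi_ker hs hz h5
  have hK0 : 0 ≤ K d s (x - y) := ker_nonneg _
  have hK1 : 0 ≤ K d s ((x - α • e) - (y - β • e)) := ker_nonneg _
  rw [h4, abs_mul, abs_of_nonneg (sq_nonneg t)]
  by_cases hout : ρ < ‖x - α • e‖ ∧ ρ < ‖y - β • e‖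
  · rw [h2 _ _ hout.1 hout.2, zero_mul] at h6
    have h7 : |mix d s A B e (x - α • e) (y - β • e)| = 0 := le_antisymm h6 (abs_nonneg _)
    rw [h7, mul_zero]
    have h8 : ∀ z : E d, (0 : ℝ) ≤ (Metric.closedBall (0 : E d) (ρ + 1)).indicator (fun _ => (1 : ℝ)) z :=
      fun z => indicator_nonneg (fun _ _ => zero_le_one) z
    exact mul_nonneg (by positivity) (add_nonneg (h8 x) (h8 y))
  · have h8 : ∀ z : E d, (0 : ℝ) ≤ (Metric.closedBall (0 : E d) (ρ + 1)).indicator (fun _ => (1 : ℝ)) z :=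
      fun z => indicator_nonneg (fun _ _ => zero_le_one) z
    have h9 : (1 : ℝ) ≤ (Metric.closedBall (0 : E d) (ρ + 1)).indicator (fun _ => (1 : ℝ)) x +
        (Metric.closedBall (0 : E d) (ρ + 1)).indicator (fun _ => (1 : ℝ)) y := by
      rcases not_and_or.1 hout with h | h
      · have hx : x ∈ Metric.closedBall (0 : E d) (ρ + 1) := by
          rw [mem_closedBall_zero_iff]
          have h10 := norm_sub_norm_le x (α • e)
          linarith
        rw [indicator_of_mem hx]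
        linarith [h8 y]
      · have hx : y ∈ Metric.closedBall (0 : E d) (ρ + 1) := by
          rw [mem_closedBall_zero_iff]
          have h10 := norm_sub_norm_le y (β • e)
          linarith
        rw [indicator_of_mem hx]
        linarith [h8 x]
    have h10 : |mix d s A B e (x - α • e) (y - β • e)| ≤
        C * ((3 / 4 : ℝ) ^ (-((d : ℝ) + 2 * s)) * K d s (x - y)) :=
      h6.trans (mul_le_mul (h1 _ _) hK hK1 hC)
    calc t ^ 2 * |mix d s A B e (x - α • e) (y - β • e)|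
        ≤ t ^ 2 * (C * ((3 / 4 : ℝ) ^ (-((d : ℝ) + 2 * s)) * K d s (x - y))) :=
          mul_le_mul_of_nonneg_left h10 (sq_nonneg t)
      _ = (C * (3 / 4 : ℝ) ^ (-((d : ℝ) + 2 * s)) * t ^ 2 * K d s (x - y)) * 1 := by ring
      _ ≤ _ := mul_le_mul_of_nonneg_left h9 (by positivity)

private theorem mj_test {d : ℕ} {A : E d → ℝ} (hA : ContDiff ℝ 2 A) (hAs : HasCompactSupport A) :
    Test A := by
  obtain ⟨C, hC⟩ := hA.lipschitzWith_of_hasCompactSupport hAs (by norm_num)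
  exact ⟨⟨C, hC⟩, hAs⟩

private theorem mj_kab {d : ℕ} {s : ℝ} {A B : E d → ℝ} (hA : Test A) (hB : Test B) :
    ∃ L ρ : ℝ, 0 ≤ L ∧ 0 ≤ ρ ∧ (∀ x y, |kab d s A B x y| ≤ L * (‖x - y‖ ^ 2 * K d s (x - y))) ∧
      ∀ x y, ρ < ‖x‖ → ρ < ‖y‖ → kab d s A B x y = 0 := by
  obtain ⟨ρ1, L1, h11, h12, h13, h14, h15⟩ := hA.bd
  obtain ⟨ρ2, L2, h21, h22, h23, h24, h25⟩ := hB.bd
  refine ⟨L1 * L2, ρ1, by positivity, h11, fun x y => ?_, fun x y hx hy => ?_⟩
  · have h1 : |A x - A y| ≤ L1 * ‖x - y‖ :=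
      (h15 x y).trans (mul_le_mul_of_nonneg_left (min_le_right _ _) h12)
    have h2 : |B x - B y| ≤ L2 * ‖x - y‖ :=
      (h25 x y).trans (mul_le_mul_of_nonneg_left (min_le_right _ _) h22)
    have h3 : 0 ≤ K d s (x - y) := ker_nonneg _
    unfold kab
    rw [abs_mul, abs_mul, abs_of_nonneg h3]
    calc |A x - A y| * |B x - B y| * K d s (x - y)
        ≤ (L1 * ‖x - y‖) * (L2 * ‖x - y‖) * K d s (x - y) := by
          refine mul_le_mul_of_nonneg_right ?_ h3
          exact mul_le_mul h1 h2 (abs_nonneg _) (by positivity)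
      _ = _ := by ring
  · unfold kab
    rw [h13 x hx, h13 y hy]
    ring

private theorem mj_Q {d : ℕ} (hd : 1 ≤ d) {s : ℝ} (hs0 : 0 < s) (hs1 : s < 1) :
    ∃ C : ℝ, 0 < C ∧ ∀ r : ℝ, 0 < r →
      Integrable ({z : E d | ‖z‖ ≤ r}.indicator (fun z => ‖z‖ ^ 2 * K d s z)) ∧
      ∫ z, {z : E d | ‖z‖ ≤ r}.indicator (fun z => ‖z‖ ^ 2 * K d s z) z = C * r ^ (2 - 2 * s) := by
  obtain ⟨C, hC, h⟩ := ker_small hd hs0 hs1
  have hm : ∀ r : ℝ, MeasurableSet {z : E d | ‖z‖ ≤ r} := fun r =>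
    (isClosed_le continuous_norm continuous_const).measurableSet
  refine ⟨C, hC, fun r hr => ⟨?_, ?_⟩⟩
  · rw [integrable_indicator_iff (hm r)]
    exact (h r hr).1
  · rw [integral_indicator (hm r)]
    exact (h r hr).2

private theorem mj_conv {d : ℕ} {W g : E d → ℝ} (hW : Integrable W) (hg : Integrable g) :
    Integrable (fun p : E d × E d => W p.1 * g (p.1 - p.2)) ∧
    ∫ p : E d × E d, W p.1 * g (p.1 - p.2) = (∫ x, W x) * ∫ z, g z := by
  refine ⟨(prod_int hW hg).1, ?_⟩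
  rw [(shear (fun p : E d × E d => W p.1 * g (p.1 - p.2))).2]
  have h1 : (fun q : E d × E d => W q.1 * g (q.1 - (q.1 + q.2))) =
      fun q : E d × E d => W q.1 * (fun z => g (-z)) q.2 := by
    funext q
    rw [show q.1 - (q.1 + q.2) = -q.2 by abel]
  have h2 := integral_prod_mul (μ := (volume : Measure (E d))) (ν := (volume : Measure (E d)))
    W (fun z => g (-z))
  rw [← Measure.volume_eq_prod] at h2
  rw [h1, h2, integral_neg_eq_self]

/-- MODULE mj. Near the diagonal: `∫_{‖x-y‖ < 4t} (u x - u y)^2 |dkab (t e) x y| ≤ C t^(4-2s)` for `t ∈ (0,1]`. Proof: on the region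
where `dkab ≠ 0` one of the points is in a ball `B_ρ`; there `(u x - u y)^2 ≤ L (4t)^2`; each of the four terms of `dkab` is at most
`L' ‖z‖^2 K z` with `z` = difference of its two arguments, `‖z‖ ≤ 5 t`, so its integral over `x ∈ B_ρ` (or `y ∈ B_ρ`) and
`‖x-y‖ < 4t` is at most `C ∫_{‖z‖ ≤ 5t} ‖z‖^2 K = C t^(2-2s)` (`ker_small`, `shear`, `shear'`). -/
theorem dkab_near {d : ℕ} {s : ℝ} (hd : 1 ≤ d) (hs0 : 0 < s) (hs1 : s < 1) {u : E d → ℝ} (hu : LocLip u)
    (hB1 : ∀ x, |u x| ≤ 1) {A B : E d → ℝ} (hA : ContDiff ℝ 2 A) (hB : ContDiff ℝ 2 B)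
    (hAs : HasCompactSupport A) (hBs : HasCompactSupport B) {e : E d} (he : ‖e‖ ≤ 1) :
    ∃ C : ℝ, 0 ≤ C ∧ ∀ t : ℝ, 0 < t → t ≤ 1 →
      ∫ p in {p : E d × E d | ‖p.1 - p.2‖ < 4 * t}, (u p.1 - u p.2) ^ 2 * |dkab d s A B (t • e) p.1 p.2| ≤
        C * t ^ (4 - 2 * s) := by
  have hTA := mj_test hA hAs
  have hTB := mj_test hB hBs
  obtain ⟨L, ρ, hL, hρ, h1, h2⟩ := mj_kab (s := s) hTA hTB
  obtain ⟨Lu, hLu, h3⟩ := hu (ρ + 5)
  obtain ⟨C, hC, hQ⟩ := mj_Q hd hs0 hs1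
  set W : E d → ℝ := (Metric.closedBall (0 : E d) (ρ + 5)).indicator (fun _ => (1 : ℝ)) with hW
  have hWm : MeasurableSet (Metric.closedBall (0 : E d) (ρ + 5)) := Metric.isClosed_closedBall.measurableSet
  have hWi : Integrable W := by
    rw [hW, integrable_indicator_iff hWm]
    exact integrableOn_const (by
      exact (isCompact_closedBall (0 : E d) (ρ + 5)).measure_lt_top.ne) (by simp)
  have hW0 : ∀ x, 0 ≤ W x := fun x => indicator_nonneg (fun _ _ => zero_le_one) x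
  have hWI : 0 ≤ ∫ x, W x := integral_nonneg hW0
  refine ⟨16 * Lu ^ 2 * L * (∫ x, W x) * (4 * (C * 5 ^ (2 - 2 * s))), by positivity, ?_⟩
  intro t ht ht1
  obtain ⟨hQ1, hQ2⟩ := hQ (5 * t) (by positivity)
  set Q : E d → ℝ := {z : E d | ‖z‖ ≤ 5 * t}.indicator (fun z => ‖z‖ ^ 2 * K d s z) with hQdef
  have hQ0 : ∀ z, 0 ≤ Q z := fun z =>
    indicator_nonneg (fun w _ => mul_nonneg (sq_nonneg _) (ker_nonneg w)) z
  set g : E d → ℝ := fun z => Q z + Q (z - t • e) + Q (z + t • e) + Q z with hg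
  have hgi : Integrable g :=
    ((hQ1.add (hQ1.comp_sub_right (t • e))).add (hQ1.comp_add_right (t • e))).add hQ1
  have hgI : ∫ z, g z = 4 * (C * (5 * t) ^ (2 - 2 * s)) := by
    have e1 : ∫ z, Q (z - t • e) = ∫ z, Q z := integral_sub_right_eq_self Q (t • e)
    have e2 : ∫ z, Q (z + t • e) = ∫ z, Q z := integral_add_right_eq_self Q (t • e)
    have e3 : ∫ z, g z = (∫ z, Q z) + (∫ z, Q (z - t • e)) + (∫ z, Q (z + t • e)) + ∫ z, Q z := by
      have i1 : Integrable (fun z => Q (z - t • e)) := hQ1.comp_sub_right (t • e)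
      have i2 : Integrable (fun z => Q (z + t • e)) := hQ1.comp_add_right (t • e)
      have i3 : Integrable (fun z => Q z + Q (z - t • e)) := hQ1.add i1
      have i4 : Integrable (fun z => Q z + Q (z - t • e) + Q (z + t • e)) := i3.add i2
      change ∫ z, (Q z + Q (z - t • e) + Q (z + t • e) + Q z) = _
      rw [integral_add i4 hQ1, integral_add i3 i2, integral_add hQ1 i1]
    rw [e3, e1, e2, hQ2]
    ring
  obtain ⟨hc1, hc2⟩ := mj_conv hWi hgi
  have hte : ‖t • e‖ ≤ t := by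
    rw [norm_smul, Real.norm_of_nonneg ht.le]
    nlinarith [norm_nonneg e]
  have hS : MeasurableSet {p : E d × E d | ‖p.1 - p.2‖ < 4 * t} :=
    (isOpen_lt ((continuous_fst.sub continuous_snd).norm) continuous_const).measurableSet
  have hpt : ∀ p ∈ {p : E d × E d | ‖p.1 - p.2‖ < 4 * t},
      (u p.1 - u p.2) ^ 2 * |dkab d s A B (t • e) p.1 p.2| ≤
        (16 * Lu ^ 2 * t ^ 2 * L) * (W p.1 * g (p.1 - p.2)) := by
    rintro ⟨x, y⟩ hp
    have hp' : ‖x - y‖ < 4 * t := hp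
    change (u x - u y) ^ 2 * |dkab d s A B (t • e) x y| ≤ (16 * Lu ^ 2 * t ^ 2 * L) * (W x * g (x - y))
    have hg0 : 0 ≤ g (x - y) := by
      rw [hg]
      have := hQ0 (x - y)
      have := hQ0 (x - y - t • e)
      have := hQ0 (x - y + t • e)
      positivity
    by_cases hx : ‖x‖ ≤ ρ + 5
    · have hWx : W x = 1 := by
        rw [hW, indicator_of_mem]
        rw [mem_closedBall_zero_iff]
        exact hx
      -- dkab bound
      have hQe : ∀ z : E d, ‖z‖ ≤ 5 * t → ‖z‖ ^ 2 * K d s z = Q z := by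
        intro z hz
        rw [hQdef, indicator_of_mem]
        exact hz
      have b1 : |kab d s A B (x - t • e) (y - t • e)| ≤ L * Q (x - y) := by
        have := h1 (x - t • e) (y - t • e)
        rw [show x - t • e - (y - t • e) = x - y by abel, hQe _ (by linarith)] at this
        exact this
      have b2 : |kab d s A B (x - t • e) y| ≤ L * Q (x - y - t • e) := by
        have h4 : ‖x - y - t • e‖ ≤ 5 * t := (norm_sub_le _ _).trans (by linarith)
        have := h1 (x - t • e) y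
        rw [show x - t • e - y = x - y - t • e by abel, hQe _ h4] at this
        exact this
      have b3 : |kab d s A B x (y - t • e)| ≤ L * Q (x - y + t • e) := by
        have h4 : ‖x - y + t • e‖ ≤ 5 * t := (norm_add_le _ _).trans (by linarith)
        have := h1 x (y - t • e)
        rw [show x - (y - t • e) = x - y + t • e by abel, hQe _ h4] at this
        exact this
      have b4 : |kab d s A B x y| ≤ L * Q (x - y) := by
        have := h1 x y
        rw [hQe _ (by linarith)] at this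
        exact this
      have b5 : |dkab d s A B (t • e) x y| ≤ L * g (x - y) := by
        unfold dkab
        have e1 : |kab d s A B (x - t • e) (y - t • e) - kab d s A B (x - t • e) y -
            kab d s A B x (y - t • e) + kab d s A B x y| ≤
            |kab d s A B (x - t • e) (y - t • e)| + |kab d s A B (x - t • e) y| +
            |kab d s A B x (y - t • e)| + |kab d s A B x y| := by
          refine (abs_add_le _ _).trans (add_le_add_left ?_ _)
          refine (abs_sub _ _).trans (add_le_add_left ?_ _)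
          exact abs_sub _ _
        refine e1.trans ?_
        rw [hg]
        linarith
      have b6 : (u x - u y) ^ 2 * |dkab d s A B (t • e) x y| ≤ (16 * Lu ^ 2 * t ^ 2) * (L * g (x - y)) := by
        by_cases hz : dkab d s A B (t • e) x y = 0
        · rw [hz, abs_zero, mul_zero]
          positivity
        · -- both points are in the ball
          have hy : ‖y‖ ≤ ρ + 5 := by
            by_contra hy
            apply hz
            have hx' : ρ + 1 < ‖x‖ := by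
              have := norm_sub_norm_le y x
              rw [norm_sub_rev] at this
              linarith
            have c1 : ρ < ‖x - t • e‖ := by
              have := norm_sub_norm_le x (t • e)
              linarith
            have c2 : ρ < ‖y - t • e‖ := by
              have := norm_sub_norm_le y (t • e)
              linarith
            have c3 : ρ < ‖x‖ := by linarith
            have c4 : ρ < ‖y‖ := by linarith
            unfold dkab
            rw [h2 _ _ c1 c2, h2 _ _ c1 c4, h2 _ _ c3 c2, h2 _ _ c3 c4]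
            ring
          have h4 := h3 x y hx hy
          have h5 : (u x - u y) ^ 2 ≤ 16 * Lu ^ 2 * t ^ 2 := by
            have h6 : |u x - u y| ≤ Lu * (4 * t) := h4.trans (mul_le_mul_of_nonneg_left hp'.le hLu)
            have h7 := sq_le_sq' (by linarith [abs_nonneg (u x - u y), neg_abs_le (u x - u y)] : -(Lu * (4 * t)) ≤ |u x - u y|) h6
            rw [sq_abs] at h7
            nlinarith
          exact mul_le_mul h5 b5 (abs_nonneg _) (by positivity)
      rw [hWx, one_mul]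
      calc _ ≤ (16 * Lu ^ 2 * t ^ 2) * (L * g (x - y)) := b6
        _ = _ := by ring
    · have hz : dkab d s A B (t • e) x y = 0 := by
        push Not at hx
        have hy' : ρ + 1 < ‖y‖ := by
          have := norm_sub_norm_le x y
          linarith
        have c1 : ρ < ‖x - t • e‖ := by
          have := norm_sub_norm_le x (t • e)
          linarith
        have c2 : ρ < ‖y - t • e‖ := by
          have := norm_sub_norm_le y (t • e)
          linarith
        have c3 : ρ < ‖x‖ := by linarith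
        have c4 : ρ < ‖y‖ := by linarith
        unfold dkab
        rw [h2 _ _ c1 c2, h2 _ _ c1 c4, h2 _ _ c3 c2, h2 _ _ c3 c4]
        ring
      rw [hz, abs_zero, mul_zero]
      have := hW0 x
      positivity
  have hR : Integrable (fun p : E d × E d => (16 * Lu ^ 2 * t ^ 2 * L) * (W p.1 * g (p.1 - p.2))) :=
    hc1.const_mul _
  have hR0 : ∀ p : E d × E d, 0 ≤ (16 * Lu ^ 2 * t ^ 2 * L) * (W p.1 * g (p.1 - p.2)) := by
    intro p
    have := hW0 p.1
    have hg0 : 0 ≤ g (p.1 - p.2) := by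
      rw [hg]
      have := hQ0 (p.1 - p.2)
      have := hQ0 (p.1 - p.2 - t • e)
      have := hQ0 (p.1 - p.2 + t • e)
      positivity
    positivity
  calc ∫ p in {p : E d × E d | ‖p.1 - p.2‖ < 4 * t}, (u p.1 - u p.2) ^ 2 * |dkab d s A B (t • e) p.1 p.2|
      ≤ ∫ p in {p : E d × E d | ‖p.1 - p.2‖ < 4 * t}, (16 * Lu ^ 2 * t ^ 2 * L) * (W p.1 * g (p.1 - p.2)) := by
        refine integral_mono_of_nonneg (Eventually.of_forall fun p => ?_) hR.integrableOn
          (ae_restrict_of_forall_mem hS hpt)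
        exact mul_nonneg (sq_nonneg _) (abs_nonneg _)
    _ ≤ ∫ p : E d × E d, (16 * Lu ^ 2 * t ^ 2 * L) * (W p.1 * g (p.1 - p.2)) :=
        setIntegral_le_integral hR (Eventually.of_forall hR0)
    _ = (16 * Lu ^ 2 * t ^ 2 * L) * ((∫ x, W x) * (4 * (C * (5 * t) ^ (2 - 2 * s)))) := by
        rw [integral_const_mul, hc2, hgI]
    _ = 16 * Lu ^ 2 * L * (∫ x, W x) * (4 * (C * 5 ^ (2 - 2 * s))) * (t ^ 2 * t ^ (2 - 2 * s)) := by
        rw [Real.mul_rpow (by norm_num) ht.le]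
        ring
    _ = _ := by
        have h6 : t ^ 2 * t ^ (2 - 2 * s) = t ^ (4 - 2 * s) := by
          rw [← Real.rpow_natCast, ← Real.rpow_add ht]
          congr 1
          push_cast
          ring
        rw [h6]

private theorem mk_sq {d : ℕ} {u : E d → ℝ} (hu : LocLip u) (hB1 : ∀ x, |u x| ≤ 1) (ρ : ℝ) :
    ∃ L : ℝ, 0 ≤ L ∧ ∀ x y, (‖x‖ ≤ ρ ∨ ‖y‖ ≤ ρ) → (u x - u y) ^ 2 ≤ L * min 1 (‖x - y‖ ^ 2) := by
  obtain ⟨L, hL, h⟩ := hu.bd hB1 ρ
  have key : ∀ x y, ‖x‖ ≤ ρ → (u x - u y) ^ 2 ≤ L ^ 2 * min 1 (‖x - y‖ ^ 2) := by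
    intro x y hx
    have h1 := h x y hx
    have h2 : 0 ≤ min 1 ‖x - y‖ := le_min zero_le_one (norm_nonneg _)
    have h3 : (u x - u y) ^ 2 ≤ (L * min 1 ‖x - y‖) ^ 2 := by
      rw [← sq_abs (u x - u y)]
      exact pow_le_pow_left₀ (abs_nonneg _) h1 2
    refine h3.trans ?_
    rw [mul_pow]
    refine mul_le_mul_of_nonneg_left (le_min ?_ ?_) (sq_nonneg L)
    · exact pow_le_one₀ h2 (min_le_left _ _)
    · exact pow_le_pow_left₀ h2 (min_le_right _ _) 2
  refine ⟨L ^ 2, sq_nonneg L, fun x y hxy => ?_⟩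
  rcases hxy with hx | hy
  · exact key x y hx
  · have h1 := key y x hy
    rw [norm_sub_rev y x] at h1
    have h2 : (u x - u y) ^ 2 = (u y - u x) ^ 2 := by ring
    rw [h2]
    exact h1

private theorem mk_ball (d : ℕ) (ρ : ℝ) :
    Integrable ((Metric.closedBall (0 : E d) ρ).indicator (fun _ => (1 : ℝ))) := by
  rw [integrable_indicator_iff Metric.isClosed_closedBall.measurableSet]
  exact integrableOn_const (isCompact_closedBall (0 : E d) ρ).measure_lt_top.ne (by simp)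

private theorem mk_dom {d : ℕ} {s : ℝ} (hd : 1 ≤ d) (hs0 : 0 < s) (hs1 : s < 1) {u : E d → ℝ} (hu : LocLip u)
    (hB1 : ∀ x, |u x| ≤ 1) (ρ : ℝ) : ∃ g : E d × E d → ℝ, Integrable g ∧
      ∀ p : E d × E d, (u p.1 - u p.2) ^ 2 * (K d s (p.1 - p.2) *
        ((Metric.closedBall (0 : E d) ρ).indicator (fun _ => (1 : ℝ)) p.1 +
         (Metric.closedBall (0 : E d) ρ).indicator (fun _ => (1 : ℝ)) p.2)) ≤ g p := by
  obtain ⟨L, hL, h⟩ := mk_sq hu hB1 ρ
  refine ⟨_, (dom_int hd hs0 hs1 (mk_ball d ρ)).const_mul L, fun p => ?_⟩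
  have h0 : ∀ z : E d, (0 : ℝ) ≤ (Metric.closedBall (0 : E d) ρ).indicator (fun _ => (1 : ℝ)) z :=
    fun z => indicator_nonneg (fun _ _ => zero_le_one) z
  have hK : 0 ≤ K d s (p.1 - p.2) := ker_nonneg _
  by_cases hp : ‖p.1‖ ≤ ρ ∨ ‖p.2‖ ≤ ρ
  · have h1 := h p.1 p.2 hp
    calc _ ≤ (L * min 1 (‖p.1 - p.2‖ ^ 2)) * (K d s (p.1 - p.2) *
        ((Metric.closedBall (0 : E d) ρ).indicator (fun _ => (1 : ℝ)) p.1 +
         (Metric.closedBall (0 : E d) ρ).indicator (fun _ => (1 : ℝ)) p.2)) :=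
          mul_le_mul_of_nonneg_right h1 (mul_nonneg hK (add_nonneg (h0 _) (h0 _)))
      _ = _ := by ring
  · push Not at hp
    rw [indicator_of_notMem (by rw [mem_closedBall_zero_iff]; exact not_le.2 hp.1),
      indicator_of_notMem (by rw [mem_closedBall_zero_iff]; exact not_le.2 hp.2)]
    simp

private theorem mk_meas {d : ℕ} {s : ℝ} {A B : E d → ℝ} (hA : ContDiff ℝ 2 A) (hB : ContDiff ℝ 2 B) (e : E d) :
    Measurable (fun p : E d × E d => mix d s A B e p.1 p.2) := by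
  have gen : ∀ a1 a2 b1 b2 a b k n i : E d × E d → ℝ, Measurable a1 → Measurable a2 → Measurable b1 →
      Measurable b2 → Measurable a → Measurable b → Measurable k → Measurable n → Measurable i →
      ∀ c : ℝ, Measurable (fun p : E d × E d => -(a1 p * b2 p + a2 p * b1 p) * k p
        + ((a1 p + a2 p) * b p + a p * (b1 p + b2 p)) *
            (((d : ℝ) + 2 * s) * i p * (k p / n p ^ 2))
        - a p * b p *
            (((d : ℝ) + 2 * s) * ((d : ℝ) + 2 * s + 2) * i p ^ 2 * (k p / n p ^ 4)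
              - ((d : ℝ) + 2 * s) * c ^ 2 * (k p / n p ^ 2))) := by
    intro a1 a2 b1 b2 a b k n i h1 h2 h3 h4 h5 h6 h7 h8 h9 c
    fun_prop
  have hfA : Continuous (fun x => fderiv ℝ A x e) :=
    (hA.continuous_fderiv (by norm_num)).clm_apply continuous_const
  have hfB : Continuous (fun x => fderiv ℝ B x e) :=
    (hB.continuous_fderiv (by norm_num)).clm_apply continuous_const
  have hcA := hA.continuous
  have hcB := hB.continuous
  exact gen (fun p => fderiv ℝ A p.1 e) (fun p => fderiv ℝ A p.2 e) (fun p => fderiv ℝ B p.1 e)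
    (fun p => fderiv ℝ B p.2 e) (fun p => A p.1 - A p.2) (fun p => B p.1 - B p.2)
    (fun p => K d s (p.1 - p.2)) (fun p => ‖p.1 - p.2‖) (fun p => inner ℝ (p.1 - p.2) e)
    (hfA.comp continuous_fst).measurable (hfA.comp continuous_snd).measurable
    (hfB.comp continuous_fst).measurable (hfB.comp continuous_snd).measurable
    ((hcA.comp continuous_fst).sub (hcA.comp continuous_snd)).measurable
    ((hcB.comp continuous_fst).sub (hcB.comp continuous_snd)).measurable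
    (measurable_ker.comp (measurable_fst.sub measurable_snd))
    (continuous_fst.sub continuous_snd).norm.measurable
    ((continuous_fst.sub continuous_snd).inner continuous_const).measurable ‖e‖

/-- MODULE mk. Integrability of `(u x - u y)^2 mix` (`mix_le`, `brk_bd`, `LocLip.bd`, `int_dom`; measurability: `mix` is
continuous off the diagonal, which is a null set, or measurable by composition). -/
theorem mix_int {d : ℕ} {s : ℝ} (hd : 1 ≤ d) (hs0 : 0 < s) (hs1 : s < 1) {u : E d → ℝ} (hu : LocLip u)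
    (hB1 : ∀ x, |u x| ≤ 1) {A B : E d → ℝ} (hA : ContDiff ℝ 2 A) (hB : ContDiff ℝ 2 B)
    (hAs : HasCompactSupport A) (hBs : HasCompactSupport B) {e : E d} (he : ‖e‖ ≤ 1) :
    Integrable (fun p : E d × E d => (u p.1 - u p.2) ^ 2 * mix d s A B e p.1 p.2) := by
  obtain ⟨C, ρ, hC, hρ, h1, h2⟩ := brk_bd hs0 hA hB hAs hBs
  obtain ⟨g, hg, hgb⟩ := mk_dom hd hs0 hs1 hu hB1 ρ
  have hm : Measurable (fun p : E d × E d => (u p.1 - u p.2) ^ 2 * mix d s A B e p.1 p.2) :=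
    (((hu.continuous.comp continuous_fst).sub (hu.continuous.comp continuous_snd)).pow 2).measurable.mul
      (mk_meas hA hB e)
  refine Integrable.mono' (hg.const_mul C) hm.aestronglyMeasurable (Eventually.of_forall fun p => ?_)
  have h3 := mix_le (s := s) hs0 A B he p.1 p.2
  have hK : 0 ≤ K d s (p.1 - p.2) := ker_nonneg _
  have h0 : ∀ z : E d, (0 : ℝ) ≤ (Metric.closedBall (0 : E d) ρ).indicator (fun _ => (1 : ℝ)) z :=
    fun z => indicator_nonneg (fun _ _ => zero_le_one) z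
  rw [Real.norm_eq_abs, abs_mul, abs_of_nonneg (sq_nonneg _)]
  have h4 : |mix d s A B e p.1 p.2| ≤ C * (K d s (p.1 - p.2) *
        ((Metric.closedBall (0 : E d) ρ).indicator (fun _ => (1 : ℝ)) p.1 +
         (Metric.closedBall (0 : E d) ρ).indicator (fun _ => (1 : ℝ)) p.2)) := by
    by_cases hp : ρ < ‖p.1‖ ∧ ρ < ‖p.2‖
    · rw [h2 _ _ hp.1 hp.2, zero_mul] at h3
      exact h3.trans (mul_nonneg hC (mul_nonneg hK (add_nonneg (h0 _) (h0 _))))
    · have h5 : (1 : ℝ) ≤ (Metric.closedBall (0 : E d) ρ).indicator (fun _ => (1 : ℝ)) p.1 +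
          (Metric.closedBall (0 : E d) ρ).indicator (fun _ => (1 : ℝ)) p.2 := by
        rcases not_and_or.1 hp with h | h
        · rw [indicator_of_mem (show p.1 ∈ Metric.closedBall (0 : E d) ρ by
            rw [mem_closedBall_zero_iff]; exact not_lt.1 h)]
          linarith [h0 p.2]
        · rw [indicator_of_mem (show p.2 ∈ Metric.closedBall (0 : E d) ρ by
            rw [mem_closedBall_zero_iff]; exact not_lt.1 h)]
          linarith [h0 p.1]
      calc |mix d s A B e p.1 p.2| ≤ brk d s A B p.1 p.2 * K d s (p.1 - p.2) := h3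
        _ ≤ C * K d s (p.1 - p.2) := mul_le_mul_of_nonneg_right (h1 _ _) hK
        _ = (C * K d s (p.1 - p.2)) * 1 := by ring
        _ ≤ (C * K d s (p.1 - p.2)) * _ := mul_le_mul_of_nonneg_left h5 (mul_nonneg hC hK)
        _ = _ := by ring
  calc (u p.1 - u p.2) ^ 2 * |mix d s A B e p.1 p.2| ≤ (u p.1 - u p.2) ^ 2 * _ :=
        mul_le_mul_of_nonneg_left h4 (sq_nonneg _)
    _ = C * ((u p.1 - u p.2) ^ 2 * (K d s (p.1 - p.2) *
        ((Metric.closedBall (0 : E d) ρ).indicator (fun _ => (1 : ℝ)) p.1 +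
         (Metric.closedBall (0 : E d) ρ).indicator (fun _ => (1 : ℝ)) p.2))) := by ring
    _ ≤ C * g p := mul_le_mul_of_nonneg_left (hgb p) hC

/-- MODULE ml. LIMIT of the cost: split at `‖x-y‖ = 4t`; far part by dominated convergence (`dkab_far`, `dkab_lim`,
`(u x - u y)^2 ≤ C min(1,‖x-y‖^2)` near the ball, `int_dom`/`NDG.dom_int`), near part `≤ C t^(2-2s)` (`dkab_near`). -/
theorem cost_lim {d : ℕ} {s : ℝ} (hd : 1 ≤ d) (hs0 : 0 < s) (hs1 : s < 1) {u : E d → ℝ} (hu : LocLip u)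
    (hB1 : ∀ x, |u x| ≤ 1) {A B : E d → ℝ} (hA : ContDiff ℝ 2 A) (hB : ContDiff ℝ 2 B)
    (hAs : HasCompactSupport A) (hBs : HasCompactSupport B) {e : E d} (he : ‖e‖ ≤ 1) :
    Tendsto (fun t : ℝ => (∫ p : E d × E d, (u p.1 - u p.2) ^ 2 * dkab d s A B (t • e) p.1 p.2) / t ^ 2) (𝓝[>] 0)
      (𝓝 (∫ p : E d × E d, (u p.1 - u p.2) ^ 2 * mix d s A B e p.1 p.2)) := by
  obtain ⟨C1, ρ, hC1, hρ, hfar⟩ := dkab_far hs0 hA hB hAs hBs he
  obtain ⟨C2, hC2, hnear⟩ := dkab_near hd hs0 hs1 hu hB1 hA hB hAs hBs he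
  obtain ⟨g, hg, hgb⟩ := mk_dom hd hs0 hs1 hu hB1 ρ
  have hFi : ∀ t : ℝ, Integrable (fun p : E d × E d =>
      (u p.1 - u p.2) ^ 2 * dkab d s A B (t • e) p.1 p.2) := fun t =>
    (cost_ab hd hs0 hs1 hu.continuous hB1 (mj_test hA hAs) (mj_test hB hBs) (t • e)).2.1
  have hS : ∀ t : ℝ, MeasurableSet {p : E d × E d | ‖p.1 - p.2‖ < 4 * t} := fun t =>
    (isOpen_lt ((continuous_fst.sub continuous_snd).norm) continuous_const).measurableSet
  have hev : ∀ᶠ t : ℝ in 𝓝[>] 0, t ∈ Ioc (0 : ℝ) 1 := Ioc_mem_nhdsGT one_pos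
  have lim1 : Tendsto (fun t : ℝ => ∫ p : E d × E d, ({p : E d × E d | ‖p.1 - p.2‖ < 4 * t}ᶜ).indicator
      (fun p => (u p.1 - u p.2) ^ 2 * dkab d s A B (t • e) p.1 p.2 / t ^ 2) p) (𝓝[>] 0)
      (𝓝 (∫ p : E d × E d, (u p.1 - u p.2) ^ 2 * mix d s A B e p.1 p.2)) := by
    refine tendsto_integral_filter_of_dominated_convergence (fun p => C1 * g p) ?_ ?_ (hg.const_mul C1) ?_
    · refine Eventually.of_forall fun t => ?_
      exact ((hFi t).div_const (t ^ 2)).aestronglyMeasurable.indicator (hS t).compl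
    · filter_upwards [hev] with t ht
      refine Eventually.of_forall fun p => ?_
      by_cases hp : ‖p.1 - p.2‖ < 4 * t
      · rw [indicator_of_notMem (by simpa using hp), norm_zero]
        refine mul_nonneg hC1 (le_trans ?_ (hgb p))
        have h0 : ∀ z : E d, (0 : ℝ) ≤ (Metric.closedBall (0 : E d) ρ).indicator (fun _ => (1 : ℝ)) z :=
          fun z => indicator_nonneg (fun _ _ => zero_le_one) z
        exact mul_nonneg (sq_nonneg _) (mul_nonneg (ker_nonneg _) (add_nonneg (h0 _) (h0 _)))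
      · rw [indicator_of_mem (by simpa using hp)]
        have hp' : 4 * t ≤ ‖p.1 - p.2‖ := not_lt.1 hp
        have hne : p.1 ≠ p.2 := by
          intro h
          rw [h, sub_self, norm_zero] at hp'
          linarith [ht.1]
        have h1 := hfar t ht.1 ht.2 p.1 p.2 hp' hne
        have ht2 : 0 < t ^ 2 := pow_pos ht.1 2
        rw [Real.norm_eq_abs, abs_div, abs_mul, abs_of_nonneg (sq_nonneg (u p.1 - u p.2)),
          abs_of_pos ht2, div_le_iff₀ ht2]
        calc (u p.1 - u p.2) ^ 2 * |dkab d s A B (t • e) p.1 p.2|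
            ≤ (u p.1 - u p.2) ^ 2 * _ := mul_le_mul_of_nonneg_left h1 (sq_nonneg _)
          _ = C1 * ((u p.1 - u p.2) ^ 2 * (K d s (p.1 - p.2) *
              ((Metric.closedBall (0 : E d) ρ).indicator (fun _ => (1 : ℝ)) p.1 +
              (Metric.closedBall (0 : E d) ρ).indicator (fun _ => (1 : ℝ)) p.2))) * t ^ 2 := by ring
          _ ≤ C1 * g p * t ^ 2 :=
            mul_le_mul_of_nonneg_right (mul_le_mul_of_nonneg_left (hgb p) hC1) ht2.le
    · refine Eventually.of_forall fun p => ?_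
      by_cases hne : p.1 = p.2
      · have h1 : ∀ t : ℝ, ({p : E d × E d | ‖p.1 - p.2‖ < 4 * t}ᶜ).indicator
            (fun p => (u p.1 - u p.2) ^ 2 * dkab d s A B (t • e) p.1 p.2 / t ^ 2) p = 0 := by
          intro t
          by_cases hp : p ∈ {p : E d × E d | ‖p.1 - p.2‖ < 4 * t}ᶜ
          · rw [indicator_of_mem hp, hne]
            simp
          · rw [indicator_of_notMem hp]
        simp only [h1]
        rw [hne, sub_self]
        simp
      · have h1 := (dkab_lim (s := s) hA hB e hne).const_mul ((u p.1 - u p.2) ^ 2)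
        refine h1.congr' ?_
        have h0 : 0 < ‖p.1 - p.2‖ := norm_pos_iff.2 (sub_ne_zero.2 hne)
        have h2 : ∀ᶠ t : ℝ in 𝓝[>] 0, t < ‖p.1 - p.2‖ / 4 :=
          nhdsWithin_le_nhds (eventually_lt_nhds (by positivity))
        filter_upwards [h2] with t ht
        rw [indicator_of_mem (by
          rw [mem_compl_iff, mem_ofPred_eq, not_lt]
          linarith)]
        ring
  have lim2 : Tendsto (fun t : ℝ => (∫ p in {p : E d × E d | ‖p.1 - p.2‖ < 4 * t},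
      (u p.1 - u p.2) ^ 2 * dkab d s A B (t • e) p.1 p.2) / t ^ 2) (𝓝[>] 0) (𝓝 0) := by
    have h1 : Tendsto (fun t : ℝ => C2 * t ^ (2 - 2 * s)) (𝓝[>] 0) (𝓝 0) := by
      have h2 : Tendsto (fun t : ℝ => t ^ (2 - 2 * s)) (𝓝 0) (𝓝 ((0 : ℝ) ^ (2 - 2 * s))) :=
        (Real.continuousAt_rpow_const _ _ (Or.inr (by linarith))).tendsto
      rw [Real.zero_rpow (by linarith)] at h2
      have h3 := (h2.mono_left (nhdsWithin_le_nhds (s := Ioi 0))).const_mul C2
      rw [mul_zero] at h3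
      exact h3
    refine squeeze_zero_norm' ?_ h1
    filter_upwards [hev] with t ht
    have ht2 : 0 < t ^ 2 := pow_pos ht.1 2
    rw [Real.norm_eq_abs, abs_div, abs_of_pos ht2, div_le_iff₀ ht2]
    have h4 : |∫ p in {p : E d × E d | ‖p.1 - p.2‖ < 4 * t},
        (u p.1 - u p.2) ^ 2 * dkab d s A B (t • e) p.1 p.2| ≤
        ∫ p in {p : E d × E d | ‖p.1 - p.2‖ < 4 * t},
          (u p.1 - u p.2) ^ 2 * |dkab d s A B (t • e) p.1 p.2| := by
      refine (abs_integral_le_integral_abs).trans (le_of_eq ?_)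
      refine integral_congr_ae (Eventually.of_forall fun p => ?_)
      change |(u p.1 - u p.2) ^ 2 * dkab d s A B (t • e) p.1 p.2| = _
      rw [abs_mul, abs_of_nonneg (sq_nonneg _)]
    refine h4.trans ((hnear t ht.1 ht.2).trans (le_of_eq ?_))
    have h5 : t ^ (4 - 2 * s) = t ^ (2 - 2 * s) * t ^ 2 := by
      rw [← Real.rpow_natCast t 2, ← Real.rpow_add ht.1]
      congr 1
      push_cast
      ring
    rw [h5]
    ring
  have lim := lim1.add lim2
  rw [add_zero] at lim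
  refine lim.congr' ?_
  filter_upwards [hev] with t ht
  have h1 := integral_add_compl (hS t) (hFi t)
  rw [integral_indicator (hS t).compl, integral_div, ← h1]
  ring

/-- The vector of the directional derivatives of `u`. -/
noncomputable def wv {d n : ℕ} (ν : Fin n → E d) (u : E d → ℝ) (x : E d) : EuclideanSpace ℝ (Fin n) :=
  WithLp.toLp 2 (fun i => fderiv ℝ u x (ν i))

/-- MODULE mm. Difference quotients of a `C^2` function are uniformly bounded and uniformly Lipschitz on balls. -/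
theorem dq_lip {d : ℕ} {u : E d → ℝ} (hu : ContDiff ℝ 2 u) {e : E d} (he : ‖e‖ ≤ 1) (ρ : ℝ) :
    ∃ M : ℝ, 0 ≤ M ∧ ∀ t : ℝ, 0 < t → t ≤ 1 → ∀ x y : E d, ‖x‖ ≤ ρ → ‖y‖ ≤ ρ →
      |(u (x + t • e) - u x) / t| ≤ M ∧
      |(u (x + t • e) - u x) / t - (u (y + t • e) - u y) / t| ≤ M * ‖x - y‖ ∧
      |fderiv ℝ u x e| ≤ M ∧ |fderiv ℝ u x e - fderiv ℝ u y e| ≤ M * ‖x - y‖ := by
  have hu1 : Differentiable ℝ u := hu.differentiable two_ne_zero
  have hc1 : Continuous (fderiv ℝ u) := hu.continuous_fderiv two_ne_zero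
  have hd2 : ContDiff ℝ 1 (fderiv ℝ u) := hu.fderiv_right (m := 1) (by norm_num)
  have hu2 : Differentiable ℝ (fderiv ℝ u) := hd2.differentiable one_ne_zero
  have hc2 : Continuous (fun z => ‖fderiv ℝ (fderiv ℝ u) z‖) := continuous_norm.comp (hd2.continuous_fderiv one_ne_zero)
  have hcomp : IsCompact (Metric.closedBall (0 : E d) (ρ + 1)) := isCompact_closedBall _ _
  obtain ⟨M1, hM1⟩ := hcomp.exists_bound_of_continuousOn hc1.continuousOn
  obtain ⟨M2, hM2''⟩ := hcomp.exists_bound_of_continuousOn (f := fun z => ‖fderiv ℝ (fderiv ℝ u) z‖) hc2.continuousOn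
  have hM2 : ∀ z ∈ Metric.closedBall (0 : E d) (ρ + 1), ‖fderiv ℝ (fderiv ℝ u) z‖ ≤ M2 := fun z hz => by
    have := hM2'' z hz
    rw [Real.norm_eq_abs] at this
    exact (le_abs_self _).trans this
  have hconv : Convex ℝ (Metric.closedBall (0 : E d) (ρ + 1)) := convex_closedBall _ _
  have hconv0 : Convex ℝ (Metric.closedBall (0 : E d) ρ) := convex_closedBall _ _
  have hM1' : ∀ z : E d, ‖z‖ ≤ ρ + 1 → ‖fderiv ℝ u z‖ ≤ max (max M1 M2) 0 := fun z hz =>
    (hM1 z (mem_closedBall_zero_iff.mpr hz)).trans ((le_max_left _ _).trans (le_max_left _ _))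
  have hM2' : ∀ z : E d, ‖z‖ ≤ ρ + 1 → ‖fderiv ℝ (fderiv ℝ u) z‖ ≤ max (max M1 M2) 0 := fun z hz =>
    (hM2 z (mem_closedBall_zero_iff.mpr hz)).trans ((le_max_right _ _).trans (le_max_left _ _))
  set M : ℝ := max (max M1 M2) 0 with hM
  have hM0 : 0 ≤ M := le_max_right _ _
  have hLip : ∀ z w : E d, ‖z‖ ≤ ρ + 1 → ‖w‖ ≤ ρ + 1 → ‖fderiv ℝ u z - fderiv ℝ u w‖ ≤ M * ‖z - w‖ := by
    intro z w hz hw
    exact Convex.norm_image_sub_le_of_norm_fderiv_le (𝕜 := ℝ) (f := fderiv ℝ u) (fun v _ => hu2 v)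
      (fun v hv => hM2' v (mem_closedBall_zero_iff.mp hv)) hconv (mem_closedBall_zero_iff.mpr hw)
      (mem_closedBall_zero_iff.mpr hz)
  refine ⟨M, hM0, fun t ht ht1 x y hx hy => ?_⟩
  have hte : ‖t • e‖ ≤ t := by
    rw [norm_smul, Real.norm_of_nonneg ht.le]
    exact mul_le_of_le_one_right ht.le he
  have hsh : ∀ z : E d, ‖z‖ ≤ ρ → ‖z + t • e‖ ≤ ρ + 1 := fun z hz =>
    (norm_add_le _ _).trans (by linarith)
  refine ⟨?_, ?_, ?_, ?_⟩
  · have h1 := Convex.norm_image_sub_le_of_norm_fderiv_le (𝕜 := ℝ) (f := u) (fun v _ => hu1 v)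
      (fun v hv => hM1' v (mem_closedBall_zero_iff.mp hv)) hconv (mem_closedBall_zero_iff.mpr (by linarith : ‖x‖ ≤ ρ + 1))
      (mem_closedBall_zero_iff.mpr (hsh x hx))
    rw [add_sub_cancel_left, Real.norm_eq_abs] at h1
    rw [abs_div, abs_of_pos ht, div_le_iff₀ ht]
    exact h1.trans (mul_le_mul_of_nonneg_left hte hM0)
  · have hg : ∀ z : E d, HasFDerivAt (fun z => u (z + t • e) - u z) (fderiv ℝ u (z + t • e) - fderiv ℝ u z) z := by
      intro z
      have h1 : HasFDerivAt (fun z : E d => u (z + t • e)) (fderiv ℝ u (z + t • e)) z :=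
        (hasFDerivAt_comp_add_right (t • e)).mpr (hu1 (z + t • e)).hasFDerivAt
      exact h1.sub (hu1 z).hasFDerivAt
    have h1 := Convex.norm_image_sub_le_of_norm_hasFDerivWithin_le (𝕜 := ℝ) (f := fun z => u (z + t • e) - u z)
      (C := M * t) (s := Metric.closedBall (0 : E d) ρ) (fun z _ => (hg z).hasFDerivWithinAt)
      (fun z hz => by
        have hz' := mem_closedBall_zero_iff.mp hz
        refine (hLip _ _ (hsh z hz') (by linarith)).trans ?_
        rw [add_sub_cancel_left]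
        exact mul_le_mul_of_nonneg_left hte hM0) hconv0 (mem_closedBall_zero_iff.mpr hy) (mem_closedBall_zero_iff.mpr hx)
    rw [Real.norm_eq_abs] at h1
    rw [← sub_div, abs_div, abs_of_pos ht, div_le_iff₀ ht]
    refine h1.trans (le_of_eq ?_)
    ring
  · exact (mg_ap u he x).trans (hM1' x (by linarith))
  · have h1 := hLip x y (by linarith) (by linarith)
    have h2 := (fderiv ℝ u x - fderiv ℝ u y).le_opNorm e
    rw [sub_apply, Real.norm_eq_abs] at h2
    exact (h2.trans (mul_le_of_le_one_right (norm_nonneg _) he)).trans h1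

private theorem mn_wt {d n : ℕ} {u : E d → ℝ} (hu : ContDiff ℝ 2 u) (ν : Fin n → E d) (x : E d) :
    Tendsto (fun t : ℝ => t⁻¹ • Dv u (fun i => t • ν i) x) (𝓝[>] 0) (𝓝 (wv ν u x)) := by
  have h1 : Tendsto (fun t : ℝ => fun i : Fin n => t⁻¹ * (u (x + t • ν i) - u x)) (𝓝[>] 0)
      (𝓝 (fun i => fderiv ℝ u x (ν i))) := by
    rw [tendsto_pi_nhds]
    intro i
    have hdiff : HasFDerivAt u (fderiv ℝ u x) x :=
      (hu.differentiable (by norm_num)).differentiableAt.hasFDerivAt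
    have h2 : HasDerivAt (fun t : ℝ => u (x + t • ν i)) (fderiv ℝ u x (ν i)) 0 := by
      have h3 : HasDerivAt (fun t : ℝ => x + t • ν i) (ν i) 0 := by
        have := ((hasDerivAt_id (0 : ℝ)).smul_const (ν i)).const_add x
        simpa using this
      have h4 : HasFDerivAt u (fderiv ℝ u x) (x + (0 : ℝ) • ν i) := by simpa using hdiff
      exact h4.comp_hasDerivAt (0 : ℝ) h3
    have h5 := h2.tendsto_slope_zero_right
    simpa using h5
  have h6 : Continuous (fun f : Fin n → ℝ => (WithLp.toLp 2 f : EuclideanSpace ℝ (Fin n))) :=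
    PiLp.continuous_toLp 2 _
  have h7 := (h6.tendsto (fun i => fderiv ℝ u x (ν i))).comp h1
  refine h7.congr fun t => ?_
  ext i
  simp [Dv]

private theorem mn_gen {d n : ℕ} {s : ℝ} (hd : 1 ≤ d) (hs0 : 0 < s) (hs1 : s < 1) {u : E d → ℝ}
    (hu : ContDiff ℝ 2 u) (ν : Fin n → E d)
    (Φ : EuclideanSpace ℝ (Fin n) → EuclideanSpace ℝ (Fin n) → ℝ)
    (hΦc : Continuous (fun p : EuclideanSpace ℝ (Fin n) × EuclideanSpace ℝ (Fin n) => Φ p.1 p.2))
    (hΦh : ∀ (t : ℝ) a b, Φ (t • a) (t • b) = t ^ 2 * Φ a b)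
    (g : E d × E d → ℝ) (hg : Continuous g) (C ρ : ℝ)
    (hb : ∀ t : ℝ, 0 < t → t ≤ 1 → ∀ p : E d × E d,
      |Φ (t⁻¹ • Dv u (fun i => t • ν i) p.1) (t⁻¹ • Dv u (fun i => t • ν i) p.2) * g p| ≤
        C * (((Metric.closedBall (0 : E d) ρ).indicator (fun _ => (1 : ℝ)) p.1 +
          (Metric.closedBall (0 : E d) ρ).indicator (fun _ => (1 : ℝ)) p.2) *
          min 1 (‖p.1 - p.2‖ ^ 2))) :
    Integrable (fun p : E d × E d => Φ (wv ν u p.1) (wv ν u p.2) * g p * K d s (p.1 - p.2)) ∧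
    Tendsto (fun t : ℝ => (∫ p : E d × E d, Φ (Dv u (fun i => t • ν i) p.1)
        (Dv u (fun i => t • ν i) p.2) * g p * K d s (p.1 - p.2)) / t ^ 2) (𝓝[>] 0)
      (𝓝 (∫ p : E d × E d, Φ (wv ν u p.1) (wv ν u p.2) * g p * K d s (p.1 - p.2))) := by
  have hW : Integrable ((Metric.closedBall (0 : E d) ρ).indicator (fun _ => (1 : ℝ))) := by
    rw [integrable_indicator_iff measurableSet_closedBall]
    exact integrableOn_const (isCompact_closedBall _ _).measure_lt_top.ne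
  have hbd : Integrable (fun p : E d × E d => C *
      (((Metric.closedBall (0 : E d) ρ).indicator (fun _ => (1 : ℝ)) p.1 +
        (Metric.closedBall (0 : E d) ρ).indicator (fun _ => (1 : ℝ)) p.2) *
        (min 1 (‖p.1 - p.2‖ ^ 2) * K d s (p.1 - p.2)))) :=
    (NDG.dom_int hd hs0 hs1 hW).const_mul C
  have hKm : Measurable (fun p : E d × E d => K d s (p.1 - p.2)) :=
    NDG.K_meas.comp (measurable_fst.sub measurable_snd)
  have huc : Continuous u := hu.continuous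
  have hwc : Continuous (wv ν u) := by
    have h1 : Continuous (fun x : E d => fun i : Fin n => fderiv ℝ u x (ν i)) :=
      continuous_pi fun i => (hu.continuous_fderiv (by norm_num)).clm_apply continuous_const
    exact (PiLp.continuous_toLp 2 _).comp h1
  have hDc : ∀ t : ℝ, Continuous (fun x : E d => Dv u (fun i => t • ν i) x) := by
    intro t
    have h1 : Continuous (fun x : E d => fun i : Fin n => u (x + t • ν i) - u x) :=
      continuous_pi fun i => (huc.comp (continuous_id.add continuous_const)).sub huc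
    exact (PiLp.continuous_toLp 2 _).comp h1
  -- pointwise limit
  have hpt : ∀ p : E d × E d, Tendsto (fun t : ℝ =>
      Φ (t⁻¹ • Dv u (fun i => t • ν i) p.1) (t⁻¹ • Dv u (fun i => t • ν i) p.2))
      (𝓝[>] 0) (𝓝 (Φ (wv ν u p.1) (wv ν u p.2))) := by
    intro p
    exact (hΦc.tendsto (wv ν u p.1, wv ν u p.2)).comp
      ((mn_wt hu ν p.1).prodMk_nhds (mn_wt hu ν p.2))
  have hev : ∀ᶠ t : ℝ in 𝓝[>] 0, 0 < t ∧ t ≤ 1 := by
    filter_upwards [Ioc_mem_nhdsGT (zero_lt_one' ℝ)] with t ht using ht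
  -- bound in the limit
  have hlim_b : ∀ p : E d × E d, |Φ (wv ν u p.1) (wv ν u p.2) * g p| ≤
        C * (((Metric.closedBall (0 : E d) ρ).indicator (fun _ => (1 : ℝ)) p.1 +
          (Metric.closedBall (0 : E d) ρ).indicator (fun _ => (1 : ℝ)) p.2) *
          min 1 (‖p.1 - p.2‖ ^ 2)) := by
    intro p
    have h1 := (((hpt p).mul_const (g p)).abs)
    exact le_of_tendsto h1 (hev.mono fun t ht => hb t ht.1 ht.2 p)
  have hK0 : ∀ z : E d, 0 ≤ K d s z := fun z => NDG.K_nonneg z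
  refine ⟨?_, ?_⟩
  · refine Integrable.mono' hbd ?_ ?_
    · refine AEStronglyMeasurable.mul ?_ hKm.aestronglyMeasurable
      exact ((hΦc.comp ((hwc.comp continuous_fst).prodMk (hwc.comp continuous_snd))).mul
        hg).aestronglyMeasurable
    · refine Eventually.of_forall fun p => ?_
      rw [Real.norm_eq_abs, abs_mul, abs_of_nonneg (hK0 _)]
      calc |Φ (wv ν u p.1) (wv ν u p.2) * g p| * K d s (p.1 - p.2)
          ≤ C * (((Metric.closedBall (0 : E d) ρ).indicator (fun _ => (1 : ℝ)) p.1 +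
            (Metric.closedBall (0 : E d) ρ).indicator (fun _ => (1 : ℝ)) p.2) *
            min 1 (‖p.1 - p.2‖ ^ 2)) * K d s (p.1 - p.2) :=
            mul_le_mul_of_nonneg_right (hlim_b p) (hK0 _)
        _ = _ := by ring
  · have hT : Tendsto (fun t : ℝ => ∫ p : E d × E d,
        Φ (t⁻¹ • Dv u (fun i => t • ν i) p.1) (t⁻¹ • Dv u (fun i => t • ν i) p.2) * g p *
          K d s (p.1 - p.2)) (𝓝[>] 0)
        (𝓝 (∫ p : E d × E d, Φ (wv ν u p.1) (wv ν u p.2) * g p * K d s (p.1 - p.2))) := by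
      refine tendsto_integral_filter_of_dominated_convergence _ ?_ ?_ hbd ?_
      · refine Eventually.of_forall fun t => ?_
        refine AEStronglyMeasurable.mul ?_ hKm.aestronglyMeasurable
        exact ((hΦc.comp ((((hDc t).const_smul t⁻¹).comp continuous_fst).prodMk
          (((hDc t).const_smul t⁻¹).comp continuous_snd))).mul hg).aestronglyMeasurable
      · filter_upwards [hev] with t ht
        refine Eventually.of_forall fun p => ?_
        rw [Real.norm_eq_abs, abs_mul, abs_of_nonneg (hK0 _)]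
        calc _ ≤ C * (((Metric.closedBall (0 : E d) ρ).indicator (fun _ => (1 : ℝ)) p.1 +
            (Metric.closedBall (0 : E d) ρ).indicator (fun _ => (1 : ℝ)) p.2) *
            min 1 (‖p.1 - p.2‖ ^ 2)) * K d s (p.1 - p.2) :=
            mul_le_mul_of_nonneg_right (hb t ht.1 ht.2 p) (hK0 _)
          _ = _ := by ring
      · refine Eventually.of_forall fun p => ?_
        exact ((hpt p).mul_const (g p)).mul_const _
    refine hT.congr' ?_
    filter_upwards [hev] with t ht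
    rw [← integral_div]
    refine integral_congr_ae (Eventually.of_forall fun p => ?_)
    simp only
    rw [hΦh]
    have : t ≠ 0 := ht.1.ne'
    field_simp

private theorem mn_bd {d n : ℕ} {u : E d → ℝ} (hu : ContDiff ℝ 2 u) {ν : Fin n → E d}
    (hν : ∀ i, ‖ν i‖ ≤ 1) (ρ : ℝ) :
    ∃ M : ℝ, 0 ≤ M ∧ ∀ t : ℝ, 0 < t → t ≤ 1 → ∀ x y : E d, ‖x‖ ≤ ρ → ‖y‖ ≤ ρ →
      ‖t⁻¹ • Dv u (fun i => t • ν i) x‖ ≤ M ∧
      ‖t⁻¹ • Dv u (fun i => t • ν i) x - t⁻¹ • Dv u (fun i => t • ν i) y‖ ≤ M * ‖x - y‖ := by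
  choose M0 hM0 hM using fun i => dq_lip hu (hν i) ρ
  have hsq : ∀ (a : EuclideanSpace ℝ (Fin n)) (c : ℝ), 0 ≤ c → (∀ i, |a i| ≤ M0 i * c) →
      ‖a‖ ≤ (∑ i, M0 i) * c := by
    intro a c hc ha
    have h1 : ‖a‖ ≤ ∑ i, |a i| := by
      have h0 : 0 ≤ ∑ i, |a i| := Finset.sum_nonneg fun i _ => abs_nonneg _
      rw [← Real.sqrt_sq (norm_nonneg a)]
      refine Real.sqrt_le_iff.2 ⟨h0, ?_⟩
      rw [EuclideanSpace.norm_sq_eq]
      simp only [Real.norm_eq_abs]
      exact Finset.sum_sq_le_sq_sum_of_nonneg (fun i _ => abs_nonneg _)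
    refine h1.trans ?_
    rw [Finset.sum_mul]
    exact Finset.sum_le_sum fun i _ => ha i
  refine ⟨∑ i, M0 i, Finset.sum_nonneg fun i _ => hM0 i, ?_⟩
  intro t ht0 ht1 x y hx hy
  refine ⟨?_, ?_⟩
  · have := hsq (t⁻¹ • Dv u (fun i => t • ν i) x) 1 zero_le_one (fun i => by
      have h := (hM i t ht0 ht1 x y hx hy).1
      rw [div_eq_inv_mul] at h
      simpa [Dv] using h)
    simpa using this
  · refine hsq _ _ (norm_nonneg _) (fun i => ?_)
    have h := (hM i t ht0 ht1 x y hx hy).2.1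
    rw [div_eq_inv_mul, div_eq_inv_mul] at h
    simpa [Dv] using h

/-- MODULE mn. Limit of the left side of `NDG.dir_ineq` (divided by `t^2`), dominated convergence (`dq_lip`, `NDG.gap_le`;
`χ` has compact support, so the integrand lives on a ball in BOTH variables), and integrability of the limit. -/
theorem lhs_lim {d n : ℕ} {s : ℝ} (hd : 1 ≤ d) (hs0 : 0 < s) (hs1 : s < 1) {u : E d → ℝ} (hu : ContDiff ℝ 2 u)
    {ν : Fin n → E d} (hν : ∀ i, ‖ν i‖ ≤ 1) {χ : E d → ℝ} (hχ : Test χ) :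
    Integrable (fun p : E d × E d =>
      (‖wv ν u p.1‖ * ‖wv ν u p.2‖ - inner ℝ (wv ν u p.1) (wv ν u p.2)) * (χ p.1 * χ p.2) * K d s (p.1 - p.2)) ∧
    Tendsto (fun t : ℝ => (∫ p : E d × E d,
      (‖Dv u (fun i => t • ν i) p.1‖ * ‖Dv u (fun i => t • ν i) p.2‖ -
        inner ℝ (Dv u (fun i => t • ν i) p.1) (Dv u (fun i => t • ν i) p.2)) * (χ p.1 * χ p.2) * K d s (p.1 - p.2)) / t ^ 2)
      (𝓝[>] 0)
      (𝓝 (∫ p : E d × E d,
      (‖wv ν u p.1‖ * ‖wv ν u p.2‖ - inner ℝ (wv ν u p.1) (wv ν u p.2)) * (χ p.1 * χ p.2) * K d s (p.1 - p.2))) := by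
  obtain ⟨ρ, L, hρ, hL, hz, hLb, -⟩ := hχ.bd
  obtain ⟨M, hM0, hM⟩ := mn_bd hu hν ρ
  refine mn_gen hd hs0 hs1 hu ν (fun a b => ‖a‖ * ‖b‖ - inner ℝ a b) ?_ ?_
    (fun p => χ p.1 * χ p.2) ?_ (2 * M ^ 2 * L ^ 2) ρ ?_
  · fun_prop
  · intro t a b
    simp only [norm_smul, Real.norm_eq_abs, inner_smul_left, inner_smul_right, RCLike.conj_to_real]
    rw [show |t| * ‖a‖ * (|t| * ‖b‖) = |t| ^ 2 * (‖a‖ * ‖b‖) by ring, sq_abs]
    ring
  · have hc : Continuous χ := hχ.locLip.continuous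
    exact (hc.comp continuous_fst).mul (hc.comp continuous_snd)
  · intro t ht0 ht1 p
    have hR : 0 ≤ 2 * M ^ 2 * L ^ 2 *
        (((Metric.closedBall (0 : E d) ρ).indicator (fun _ => (1 : ℝ)) p.1 +
          (Metric.closedBall (0 : E d) ρ).indicator (fun _ => (1 : ℝ)) p.2) *
          min 1 (‖p.1 - p.2‖ ^ 2)) := by
      have i1 : 0 ≤ (Metric.closedBall (0 : E d) ρ).indicator (fun _ => (1 : ℝ)) p.1 :=
        indicator_nonneg (fun _ _ => zero_le_one) _
      have i2 : 0 ≤ (Metric.closedBall (0 : E d) ρ).indicator (fun _ => (1 : ℝ)) p.2 :=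
        indicator_nonneg (fun _ _ => zero_le_one) _
      have i3 : 0 ≤ min 1 (‖p.1 - p.2‖ ^ 2) := le_min zero_le_one (sq_nonneg _)
      positivity
    by_cases hx : ‖p.1‖ ≤ ρ
    · by_cases hy : ‖p.2‖ ≤ ρ
      · obtain ⟨h1, h2⟩ := hM t ht0 ht1 p.1 p.2 hx hy
        have h3 := (hM t ht0 ht1 p.2 p.1 hy hx).1
        have hm1 : p.1 ∈ Metric.closedBall (0 : E d) ρ := by simpa using hx
        have hm2 : p.2 ∈ Metric.closedBall (0 : E d) ρ := by simpa using hy
        rw [indicator_of_mem hm1, indicator_of_mem hm2]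
        obtain ⟨a, ha⟩ : ∃ a, a = t⁻¹ • Dv u (fun i => t • ν i) p.1 := ⟨_, rfl⟩
        obtain ⟨b, hb⟩ : ∃ b, b = t⁻¹ • Dv u (fun i => t • ν i) p.2 := ⟨_, rfl⟩
        rw [← ha] at h1 h2
        rw [← hb] at h2 h3
        rw [← ha, ← hb]
        obtain ⟨g1, g2⟩ := NDG.gap_le a b
        have g3 : ‖a‖ * ‖b‖ - inner ℝ a b ≤ 2 * M ^ 2 * min 1 (‖p.1 - p.2‖ ^ 2) := by
          rw [mul_min_of_nonneg _ _ (by positivity)]
          refine le_min ?_ ?_
          · have k1 : - (‖a‖ * ‖b‖) ≤ inner ℝ a b := (abs_le.1 (abs_real_inner_le_norm a b)).1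
            have k2 : ‖a‖ * ‖b‖ ≤ M * M := mul_le_mul h1 h3 (norm_nonneg _) hM0
            nlinarith
          · have k1 : ‖a - b‖ ^ 2 ≤ (M * ‖p.1 - p.2‖) ^ 2 := by gcongr
            nlinarith [sq_nonneg (M * ‖p.1 - p.2‖)]
        rw [abs_mul, abs_mul, abs_of_nonneg g1]
        have hc1 : |χ p.1| * |χ p.2| ≤ L ^ 2 := by
          rw [pow_two]
          exact mul_le_mul (hLb _) (hLb _) (abs_nonneg _) hL
        have i3 : 0 ≤ min 1 (‖p.1 - p.2‖ ^ 2) := le_min zero_le_one (sq_nonneg _)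
        calc (‖a‖ * ‖b‖ - inner ℝ a b) * (|χ p.1| * |χ p.2|)
            ≤ (2 * M ^ 2 * min 1 (‖p.1 - p.2‖ ^ 2)) * L ^ 2 :=
              mul_le_mul g3 hc1 (by positivity) (by positivity)
          _ ≤ 2 * M ^ 2 * L ^ 2 * ((1 + 1) * min 1 (‖p.1 - p.2‖ ^ 2)) := by
              nlinarith [show 0 ≤ M ^ 2 * L ^ 2 * min 1 (‖p.1 - p.2‖ ^ 2) by positivity]
      · rw [hz p.2 (not_le.1 hy)]
        simpa using hR
    · rw [hz p.1 (not_le.1 hx)]
      simpa using hR

/-- MODULE mo. Limit of the compactly supported part of the right side, dominated convergence (`dq_lip`;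
`|ξ x - ξ y| ≤ C min(1,‖x-y‖)` on the support of `θ`). -/
theorem rhs_lim {d n : ℕ} {s : ℝ} (hd : 1 ≤ d) (hs0 : 0 < s) (hs1 : s < 1) {u : E d → ℝ} (hu : ContDiff ℝ 2 u)
    {ν : Fin n → E d} (hν : ∀ i, ‖ν i‖ ≤ 1) {ξ θ : E d → ℝ} (hξ : ContDiff ℝ 2 ξ) (hθ : Test θ) :
    Integrable (fun p : E d × E d =>
      inner ℝ (wv ν u p.1) (wv ν u p.2) * (θ p.1 * θ p.2 * (ξ p.1 - ξ p.2) ^ 2) * K d s (p.1 - p.2)) ∧
    Tendsto (fun t : ℝ => (∫ p : E d × E d,
      inner ℝ (Dv u (fun i => t • ν i) p.1) (Dv u (fun i => t • ν i) p.2) *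
        (θ p.1 * θ p.2 * (ξ p.1 - ξ p.2) ^ 2) * K d s (p.1 - p.2)) / t ^ 2)
      (𝓝[>] 0)
      (𝓝 (∫ p : E d × E d,
      inner ℝ (wv ν u p.1) (wv ν u p.2) * (θ p.1 * θ p.2 * (ξ p.1 - ξ p.2) ^ 2) * K d s (p.1 - p.2))) := by
  obtain ⟨ρ, L, hρ, hL, hz, hLb, -⟩ := hθ.bd
  obtain ⟨M, hM0, hM⟩ := mn_bd hu hν ρ
  obtain ⟨Λ, hΛ0, hΛ⟩ := NDG.LocLip.of_contDiff (hξ.of_le (by norm_num)) ρ
  have hθc : Continuous θ := hθ.locLip.continuous
  have hξc : Continuous ξ := hξ.continuous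
  refine mn_gen hd hs0 hs1 hu ν (fun a b => inner ℝ a b) ?_ ?_
    (fun p => θ p.1 * θ p.2 * (ξ p.1 - ξ p.2) ^ 2) ?_
    (M ^ 2 * L ^ 2 * (Λ ^ 2 * (1 + 4 * ρ ^ 2))) ρ ?_
  · fun_prop
  · intro t a b
    simp only [inner_smul_left, inner_smul_right, RCLike.conj_to_real]
    ring
  · fun_prop
  · intro t ht0 ht1 p
    have hR : 0 ≤ M ^ 2 * L ^ 2 * (Λ ^ 2 * (1 + 4 * ρ ^ 2)) *
        (((Metric.closedBall (0 : E d) ρ).indicator (fun _ => (1 : ℝ)) p.1 +
          (Metric.closedBall (0 : E d) ρ).indicator (fun _ => (1 : ℝ)) p.2) *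
          min 1 (‖p.1 - p.2‖ ^ 2)) := by
      have i1 : 0 ≤ (Metric.closedBall (0 : E d) ρ).indicator (fun _ => (1 : ℝ)) p.1 :=
        indicator_nonneg (fun _ _ => zero_le_one) _
      have i2 : 0 ≤ (Metric.closedBall (0 : E d) ρ).indicator (fun _ => (1 : ℝ)) p.2 :=
        indicator_nonneg (fun _ _ => zero_le_one) _
      have i3 : 0 ≤ min 1 (‖p.1 - p.2‖ ^ 2) := le_min zero_le_one (sq_nonneg _)
      positivity
    by_cases hx : ‖p.1‖ ≤ ρ
    · by_cases hy : ‖p.2‖ ≤ ρ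
      · obtain ⟨h1, h2⟩ := hM t ht0 ht1 p.1 p.2 hx hy
        have h3 := (hM t ht0 ht1 p.2 p.1 hy hx).1
        have hm1 : p.1 ∈ Metric.closedBall (0 : E d) ρ := by simpa using hx
        have hm2 : p.2 ∈ Metric.closedBall (0 : E d) ρ := by simpa using hy
        rw [indicator_of_mem hm1, indicator_of_mem hm2]
        obtain ⟨a, ha⟩ : ∃ a, a = t⁻¹ • Dv u (fun i => t • ν i) p.1 := ⟨_, rfl⟩
        obtain ⟨b, hb⟩ : ∃ b, b = t⁻¹ • Dv u (fun i => t • ν i) p.2 := ⟨_, rfl⟩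
        rw [← ha] at h1
        rw [← hb] at h3
        rw [← ha, ← hb]
        have g1 : |inner ℝ a b| ≤ M ^ 2 := by
          refine (abs_real_inner_le_norm a b).trans ?_
          rw [pow_two]
          exact mul_le_mul h1 h3 (norm_nonneg _) hM0
        have hc1 : |θ p.1| * |θ p.2| ≤ L ^ 2 := by
          rw [pow_two]
          exact mul_le_mul (hLb _) (hLb _) (abs_nonneg _) hL
        have i3 : 0 ≤ min 1 (‖p.1 - p.2‖ ^ 2) := le_min zero_le_one (sq_nonneg _)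
        have hd2 : ‖p.1 - p.2‖ ^ 2 ≤ (1 + 4 * ρ ^ 2) * min 1 (‖p.1 - p.2‖ ^ 2) := by
          have hdd : ‖p.1 - p.2‖ ≤ 2 * ρ := (norm_sub_le _ _).trans (by linarith)
          have hdd2 : ‖p.1 - p.2‖ ^ 2 ≤ (2 * ρ) ^ 2 := by gcongr
          rcases le_total 1 (‖p.1 - p.2‖ ^ 2) with h | h
          · rw [min_eq_left h]
            nlinarith
          · rw [min_eq_right h]
            nlinarith [sq_nonneg ‖p.1 - p.2‖, sq_nonneg ρ,
              mul_nonneg (sq_nonneg ρ) (sq_nonneg ‖p.1 - p.2‖)]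
        have hξ2 : |(ξ p.1 - ξ p.2) ^ 2| ≤ Λ ^ 2 * ((1 + 4 * ρ ^ 2) *
            min 1 (‖p.1 - p.2‖ ^ 2)) := by
          rw [abs_pow]
          have k1 := hΛ p.1 p.2 hx hy
          have k2 : |ξ p.1 - ξ p.2| ^ 2 ≤ (Λ * ‖p.1 - p.2‖) ^ 2 := by gcongr
          refine k2.trans ?_
          rw [mul_pow]
          gcongr
        rw [abs_mul, abs_mul, abs_mul]
        calc |inner ℝ a b| * (|θ p.1| * |θ p.2| * |(ξ p.1 - ξ p.2) ^ 2|)
            ≤ M ^ 2 * (L ^ 2 * (Λ ^ 2 * ((1 + 4 * ρ ^ 2) * min 1 (‖p.1 - p.2‖ ^ 2)))) := by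
              gcongr
          _ ≤ M ^ 2 * L ^ 2 * (Λ ^ 2 * (1 + 4 * ρ ^ 2)) *
              ((1 + 1) * min 1 (‖p.1 - p.2‖ ^ 2)) := by
              nlinarith [show 0 ≤ M ^ 2 * L ^ 2 * (Λ ^ 2 * (1 + 4 * ρ ^ 2)) *
                min 1 (‖p.1 - p.2‖ ^ 2) by positivity]
      · rw [hz p.2 (not_le.1 hy)]
        simpa using hR
    · rw [hz p.1 (not_le.1 hx)]
      simpa using hR

/-- MODULE mp. The cubic error term: `(∑ ∫ |u(x + tν_i) - u x|^3 χ^2) / t^2 → 0`. -/
theorem err_lim {d n : ℕ} {u : E d → ℝ} (hu : ContDiff ℝ 2 u)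
    {ν : Fin n → E d} (hν : ∀ i, ‖ν i‖ ≤ 1) {χ : E d → ℝ} (hχ : Test χ) :
    Tendsto (fun t : ℝ => (∑ i, ∫ x, |u (x + t • ν i) - u x| ^ 3 * χ x ^ 2) / t ^ 2) (𝓝[>] 0) (𝓝 0) := by
  obtain ⟨Lc, hL⟩ := hχ.lip
  have hχc : Continuous χ := hL.continuous
  obtain ⟨ρ, hρ⟩ := hχ.supp.isCompact.isBounded.subset_closedBall (0 : E d)
  have hz : ∀ x, ρ < ‖x‖ → χ x = 0 := by
    intro x hx
    by_contra h
    have : x ∈ Metric.closedBall (0 : E d) ρ := hρ (subset_tsupport χ h)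
    rw [mem_closedBall_zero_iff] at this
    exact absurd this (not_le.mpr hx)
  choose M hM0 hM using fun i => dq_lip hu (hν i) ρ
  have hI2 : Integrable (fun x => χ x ^ 2) := by
    have hs : HasCompactSupport (fun x => χ x ^ 2) := hχ.supp.comp_left (g := fun r : ℝ => r ^ 2) (by norm_num)
    exact (hχc.pow 2).integrable_of_hasCompactSupport hs
  have hI0 : 0 ≤ ∫ x, χ x ^ 2 := integral_nonneg (fun x => sq_nonneg _)
  set C : ℝ := ∑ i, M i ^ 3 * ∫ x, χ x ^ 2 with hC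
  have hb : ∀ t : ℝ, 0 < t → t ≤ 1 → (∑ i, ∫ x, |u (x + t • ν i) - u x| ^ 3 * χ x ^ 2) ≤ C * t ^ 3 := by
    intro t ht ht1
    rw [hC, Finset.sum_mul]
    refine Finset.sum_le_sum (fun i _ => ?_)
    have hle : ∀ x, |u (x + t • ν i) - u x| ^ 3 * χ x ^ 2 ≤ (M i ^ 3 * t ^ 3) * χ x ^ 2 := by
      intro x
      by_cases hx : ‖x‖ ≤ ρ
      · have h1 := (hM i t ht ht1 x x hx hx).1
        rw [abs_div, abs_of_pos ht, div_le_iff₀ ht] at h1
        have h2 : |u (x + t • ν i) - u x| ^ 3 ≤ (M i * t) ^ 3 := pow_le_pow_left₀ (abs_nonneg _) h1 3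
        rw [mul_pow] at h2
        exact mul_le_mul_of_nonneg_right h2 (sq_nonneg _)
      · rw [hz x (not_le.mp hx)]; simp
    calc ∫ x, |u (x + t • ν i) - u x| ^ 3 * χ x ^ 2 ≤ ∫ x, (M i ^ 3 * t ^ 3) * χ x ^ 2 := by
          refine integral_mono_of_nonneg (Eventually.of_forall (fun x => by positivity)) (hI2.const_mul _)
            (Eventually.of_forall hle)
      _ = M i ^ 3 * (∫ x, χ x ^ 2) * t ^ 3 := by rw [integral_const_mul]; ring
  have h0 : ∀ t : ℝ, 0 ≤ (∑ i, ∫ x, |u (x + t • ν i) - u x| ^ 3 * χ x ^ 2) := fun t =>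
    Finset.sum_nonneg (fun i _ => integral_nonneg (fun x => by positivity))
  have hT : Tendsto (fun t : ℝ => C * t) (𝓝[>] 0) (𝓝 0) := by
    have : Tendsto (fun t : ℝ => C * t) (𝓝 0) (𝓝 (C * 0)) := (continuous_const.mul continuous_id).tendsto 0
    rw [mul_zero] at this
    exact this.mono_left nhdsWithin_le_nhds
  have e2 : ∀ᶠ t : ℝ in 𝓝[>] 0, 0 < t := self_mem_nhdsWithin
  have e3 : ∀ᶠ t : ℝ in 𝓝[>] 0, t < 1 := nhdsWithin_le_nhds (gt_mem_nhds one_pos)
  refine tendsto_of_tendsto_of_tendsto_of_le_of_le' tendsto_const_nhds hT ?_ ?_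
  · filter_upwards with t
    exact div_nonneg (h0 t) (sq_nonneg t)
  · filter_upwards [e2, e3] with t ht ht1
    rw [div_le_iff₀ (by positivity)]
    calc _ ≤ C * t ^ 3 := hb t ht ht1.le
      _ = C * t * t ^ 2 := by ring

private theorem mq_test {d : ℕ} {θ : E d → ℝ} (hθ : ContDiff ℝ 2 θ) (hθs : HasCompactSupport θ) : Test θ := by
  refine ⟨?_, hθs⟩
  exact ContDiff.lipschitzWith_of_hasCompactSupport hθs hθ (by norm_num)

/-- MODULE mq. Algebra: `(ξθ - ξ'θ')^2 = θθ'(ξ-ξ')^2 + (ξ^2θ - ξ'^2θ')(θ-θ')`, integrated against `⟪D,D'⟫ K` at the level of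
finite differences (all terms integrable: `form_int2`, `cost_ab`, compact support), then `cost_ab` for every direction. -/
theorem split_t {d n : ℕ} {s : ℝ} (hd : 1 ≤ d) (hs0 : 0 < s) (hs1 : s < 1) {u : E d → ℝ} (hu : ContDiff ℝ 2 u)
    (hB1 : ∀ x, |u x| ≤ 1) (h : Fin n → E d) {ξ θ : E d → ℝ} (hξ : ContDiff ℝ 2 ξ) (hθ : ContDiff ℝ 2 θ)
    (hθs : HasCompactSupport θ) :
    ∫ p : E d × E d, inner ℝ (Dv u h p.1) (Dv u h p.2) * (ξ p.1 * θ p.1 - ξ p.2 * θ p.2) ^ 2 * K d s (p.1 - p.2) =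
      (∫ p : E d × E d, inner ℝ (Dv u h p.1) (Dv u h p.2) * (θ p.1 * θ p.2 * (ξ p.1 - ξ p.2) ^ 2) * K d s (p.1 - p.2))
      - (1 / 2) * ∑ i, ∫ p : E d × E d, (u p.1 - u p.2) ^ 2 * dkab d s (fun x => ξ x ^ 2 * θ x) θ (h i) p.1 p.2 := by
  have hθt : Test θ := mq_test hθ hθs
  have hξl : LocLip ξ := LocLip.of_contDiff (hξ.of_le (by norm_num))
  have hξ2 : LocLip (fun x => ξ x ^ 2) := LocLip.of_contDiff ((hξ.pow 2).of_le (by norm_num))
  have hA : Test (fun x => ξ x ^ 2 * θ x) := Test.mul_left hξ2 hθt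
  have hχ : Test (fun x => ξ x * θ x) := Test.mul_left hξl hθt
  have hin : ∀ p : E d × E d, inner ℝ (Dv u h p.1) (Dv u h p.2) =
      ∑ i, (u (p.1 + h i) - u p.1) * (u (p.2 + h i) - u p.2) := by
    intro p
    rw [PiLp.inner_apply]
    refine Finset.sum_congr rfl fun i _ => ?_
    simp only [Dv, RCLike.inner_apply, conj_trivial]
    ring
  have hinc : Continuous (fun p : E d × E d => (inner ℝ (Dv u h p.1) (Dv u h p.2) : ℝ)) := by
    simp only [hin]
    have := hu.continuous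
    fun_prop
  have hinb : ∀ p : E d × E d, |(inner ℝ (Dv u h p.1) (Dv u h p.2) : ℝ)| ≤ n * 4 := by
    intro p
    rw [hin]
    refine (Finset.abs_sum_le_sum_abs _ _).trans ?_
    have h5 : ∀ i ∈ (Finset.univ : Finset (Fin n)),
        |(u (p.1 + h i) - u p.1) * (u (p.2 + h i) - u p.2)| ≤ 4 := by
      intro i _
      rw [abs_mul]
      have e1 : |u (p.1 + h i) - u p.1| ≤ 2 := by
        have := abs_sub (u (p.1 + h i)) (u p.1)
        have a1 := hB1 (p.1 + h i)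
        have a2 := hB1 p.1
        linarith
      have e2 : |u (p.2 + h i) - u p.2| ≤ 2 := by
        have := abs_sub (u (p.2 + h i)) (u p.2)
        have a1 := hB1 (p.2 + h i)
        have a2 := hB1 p.2
        linarith
      calc _ ≤ (2 : ℝ) * 2 := mul_le_mul e1 e2 (abs_nonneg _) (by norm_num)
        _ = 4 := by norm_num
    refine (Finset.sum_le_sum h5).trans ?_
    simp
  have hI1 := form_int2 hd hs0 hs1 hχ hinc hinb
  have hc : ∀ i : Fin n, _ := fun i => cost_ab hd hs0 hs1 hu.continuous hB1 hA hθt (h i)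
  have hI2 : Integrable (fun p : E d × E d => ∑ i, (u (p.1 + h i) - u p.1) * (u (p.2 + h i) - u p.2) *
      kab d s (fun x => ξ x ^ 2 * θ x) θ p.1 p.2) := integrable_finsetSum _ fun i _ => (hc i).1
  have hpt : ∀ p : E d × E d, inner ℝ (Dv u h p.1) (Dv u h p.2) *
      (θ p.1 * θ p.2 * (ξ p.1 - ξ p.2) ^ 2) * K d s (p.1 - p.2) =
      inner ℝ (Dv u h p.1) (Dv u h p.2) * (ξ p.1 * θ p.1 - ξ p.2 * θ p.2) ^ 2 * K d s (p.1 - p.2) -
      ∑ i, (u (p.1 + h i) - u p.1) * (u (p.2 + h i) - u p.2) *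
      kab d s (fun x => ξ x ^ 2 * θ x) θ p.1 p.2 := by
    intro p
    rw [← Finset.sum_mul, ← hin]
    simp only [kab]
    ring
  rw [integral_congr_ae (Eventually.of_forall hpt), integral_sub hI1 hI2,
    integral_finsetSum _ fun i _ => (hc i).1]
  simp only [fun i => (hc i).2.2]
  rw [← Finset.mul_sum]
  ring

/-- MODULE mr. THE STABILITY INEQUALITY with both derivatives on the kernel. Proof: `NDG.dir_ineq` with `h i = t • ν i`,
`χ = ξ θ`, `split_t`, divide by `t^2`, `t → 0`: `lhs_lim`, `rhs_lim`, `cost_lim` (for each `i`), `err_lim`. -/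
theorem sz {d n : ℕ} {s c : ℝ} (hd : 1 ≤ d) (hs0 : 0 < s) (hs1 : s < 1) (hc : 0 < c) {u : E d → ℝ}
    (hu : Entire d s c u) (hst : Stable d s c u) {ν : Fin n → E d} (hν : ∀ i, ‖ν i‖ ≤ 1) {ξ θ : E d → ℝ}
    (hξ : ContDiff ℝ 2 ξ) (hθ : ContDiff ℝ 2 θ) (hθs : HasCompactSupport θ) :
    ∫ p : E d × E d, (‖wv ν u p.1‖ * ‖wv ν u p.2‖ - inner ℝ (wv ν u p.1) (wv ν u p.2)) *
        (ξ p.1 * θ p.1 * (ξ p.2 * θ p.2)) * K d s (p.1 - p.2) ≤
      (1 / 2) * (∫ p : E d × E d, inner ℝ (wv ν u p.1) (wv ν u p.2) *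
        (θ p.1 * θ p.2 * (ξ p.1 - ξ p.2) ^ 2) * K d s (p.1 - p.2))
      - (1 / 4) * ∑ i, ∫ p : E d × E d, (u p.1 - u p.2) ^ 2 * mix d s (fun x => ξ x ^ 2 * θ x) θ (ν i) p.1 p.2 := by
  have hχc : ContDiff ℝ 2 (fun x => ξ x * θ x) := hξ.mul hθ
  have hχs : HasCompactSupport (fun x => ξ x * θ x) := hθs.mul_left
  have hχ : Test (fun x => ξ x * θ x) :=
    ⟨hχc.lipschitzWith_of_hasCompactSupport hχs (by norm_num), hχs⟩
  have hθt : Test θ := ⟨hθ.lipschitzWith_of_hasCompactSupport hθs (by norm_num), hθs⟩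
  have hA : ContDiff ℝ 2 (fun x => ξ x ^ 2 * θ x) := (hξ.pow 2).mul hθ
  have hAs : HasCompactSupport (fun x => ξ x ^ 2 * θ x) := hθs.mul_left
  have hB1 : ∀ x, |u x| ≤ 1 := fun x => (hu.bound x).le
  have l1 := (lhs_lim hd hs0 hs1 hu.smooth hν hχ).2
  have l2 := (rhs_lim hd hs0 hs1 hu.smooth hν hξ hθt).2
  have l3 := fun i => cost_lim hd hs0 hs1 hu.locLip hB1 hA hθ hAs hθs (hν i)
  have l4 := err_lim hu.smooth hν hχ
  have l5 := ((l2.const_mul (1 / 2)).sub ((tendsto_finsetSum Finset.univ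
    fun i _ => l3 i).const_mul (1 / 4))).add (l4.const_mul (3 / c))
  rw [mul_zero, add_zero] at l5
  refine le_of_tendsto_of_tendsto l1 l5 ?_
  filter_upwards [self_mem_nhdsWithin] with t ht
  have ht0 : (0 : ℝ) < t := ht
  have h := NDG.dir_ineq hd hs0 hs1 hc hu hst (fun i => t • ν i) hχ
  rw [split_t hd hs0 hs1 hu.smooth hB1 (fun i => t • ν i) hξ hθ hθs] at h
  have ht2 : 0 < t ^ 2 := by positivity
  rw [← Finset.sum_div, div_le_iff₀ ht2]
  refine h.trans (le_of_eq ?_)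
  field_simp
  ring

end Pool.Agent.Frd
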