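import Pool.Agent.Frd.Fin

/-!
# One-dimensional symmetry when at most two variables remain
-/

open MeasureTheory Set Filter Topology NDG

namespace Pool.Agent.Frd

/-- MODULE oa. If the partial gradient vanishes, the whole gradient is invariant under translations in `ℝ^k`. -/
theorem grad_trans {d k : ℕ} {u : E d → ℝ} (hu : ContDiff ℝ 1 u) (h : ∀ x, gW k u x = 0) {τ : E d} (hτ : pr k τ = τ)
    (x : E d) : fderiv ℝ u (x + τ) = fderiv ℝ u x := by
  have h1 : (fun z => u (z + τ)) = u := by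
    funext z
    refine indep (k := k) hu h fun i hi => ?_
    rw [PiLp.add_apply, ← hτ, pr_apply, if_neg (not_lt.2 hi), add_zero]
  have h2 : fderiv ℝ (fun z => u (z + τ)) x = fderiv ℝ u (x + τ) := fderiv_comp_add_right τ
  rw [← h2, h1]

private noncomputable def ob_t {d k : ℕ} (hk : k ≤ d) {M : ℕ} (f : Fin k → Fin M) : E d :=
  ∑ i : Fin k, ((2 : ℝ) * ((f i : ℕ) : ℝ)) • (bv (Fin.castLE hk i) : E d)

private theorem ob_bv {d : ℕ} (i j : Fin d) : (bv i : E d) j = if j = i then 1 else 0 := by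
  unfold bv
  rw [EuclideanSpace.ofLp_single, Pi.single_apply]

private theorem ob_apply {d k : ℕ} (hk : k ≤ d) {M : ℕ} (f : Fin k → Fin M) (j : Fin d) :
    (ob_t hk f) j = ∑ i : Fin k, ((2 : ℝ) * ((f i : ℕ) : ℝ)) * (if j = Fin.castLE hk i then 1 else 0) := by
  unfold ob_t
  simp only [WithLp.ofLp_sum, WithLp.ofLp_smul, Finset.sum_apply, Pi.smul_apply, smul_eq_mul, ob_bv]

private theorem ob_coord {d k : ℕ} (hk : k ≤ d) {M : ℕ} (f : Fin k → Fin M) (i : Fin k) :
    (ob_t hk f) (Fin.castLE hk i) = 2 * ((f i : ℕ) : ℝ) := by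
  rw [ob_apply, Finset.sum_eq_single i]
  · rw [if_pos rfl, mul_one]
  · intro i' _ hne
    rw [if_neg, mul_zero]
    intro h
    exact hne (Fin.castLE_injective hk h).symm
  · intro h
    exact absurd (Finset.mem_univ i) h

private theorem ob_pr {d k : ℕ} (hk : k ≤ d) {M : ℕ} (f : Fin k → Fin M) :
    pr k (ob_t hk f) = ob_t hk f := by
  ext j
  rw [pr_apply]
  split_ifs with h
  · rfl
  · rw [ob_apply]
    refine (Finset.sum_eq_zero fun i _ => ?_).symm
    rw [if_neg, mul_zero]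
    intro h1
    apply h
    rw [h1]
    exact i.2

private theorem ob_norm {d k : ℕ} (hk : k ≤ d) {M : ℕ} (f : Fin k → Fin M) :
    ‖ob_t hk f‖ ≤ 2 * k * M := by
  unfold ob_t
  refine (norm_sum_le _ _).trans ?_
  have h1 : ∀ i : Fin k, ‖((2 : ℝ) * ((f i : ℕ) : ℝ)) • (bv (Fin.castLE hk i) : E d)‖ ≤ 2 * M := by
    intro i
    have h2 : ‖(bv (Fin.castLE hk i) : E d)‖ = 1 := by
      unfold bv
      rw [EuclideanSpace.norm_single, norm_one]
    rw [norm_smul, h2, mul_one, Real.norm_of_nonneg (by positivity)]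
    have h3 : ((f i : ℕ) : ℝ) ≤ M := by exact_mod_cast (f i).2.le
    linarith
  refine (Finset.sum_le_sum fun i _ => h1 i).trans ?_
  rw [Finset.sum_const, Finset.card_univ, Fintype.card_fin, nsmul_eq_mul]
  linarith

private theorem ob_sep {d k : ℕ} (hk : k ≤ d) {M : ℕ} {f g : Fin k → Fin M} (h : f ≠ g) :
    2 ≤ ‖ob_t hk f - ob_t hk g‖ := by
  obtain ⟨i, hi⟩ := Function.ne_iff.1 h
  have h1 := PiLp.norm_apply_le (ob_t hk f - ob_t hk g) (Fin.castLE hk i)
  refine le_trans ?_ h1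
  rw [PiLp.sub_apply, ob_coord, ob_coord, ← mul_sub, Real.norm_eq_abs, abs_mul, abs_two]
  have h2 : ((f i : ℕ) : ℤ) ≠ ((g i : ℕ) : ℤ) := by
    intro h3
    apply hi
    apply Fin.ext
    exact_mod_cast h3
  have h3 : (1 : ℝ) ≤ |((f i : ℕ) : ℝ) - ((g i : ℕ) : ℝ)| := by
    have h4 : (1 : ℤ) ≤ |((f i : ℕ) : ℤ) - ((g i : ℕ) : ℤ)| := Int.one_le_abs (sub_ne_zero.2 h2)
    exact_mod_cast h4
  linarith

/-- MODULE ob. Many disjoint translated pairs of balls. If `w` is continuous, `w (x+τ) = w x` for `τ ∈ ℝ^k`, `w x₀ > 0`, `w y₀ < 0`, then for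
some `c > 0`, `m`, and all `M : ℕ`: `c M^k ≤ ∫ (|w||w'| - ww') θ_R θ_R' K` with `R = (2k+1) M + m`. Proof: `w ≥ δ` on `B_ρ(x₀)`,
`w ≤ -δ` on `B_ρ(y₀)`, `ρ ≤ 1/2`; for `f : Fin k → Fin M` let `τ_f = ∑ 2 f_i e_i` (norm `≤ 2kM`); the sets `B_ρ(x₀+τ_f) × B_ρ(y₀+τ_f)` are
pairwise disjoint, contained in `B_R × B_R` (`m = ‖x₀‖ + ‖y₀‖ + 1`), and on each of them the integrand is at least
`2 δ^2 (‖x₀-y₀‖ + 2ρ)^(-(d+2s))` off the diagonal. The integrand is nonnegative everywhere. -/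
theorem many {d k : ℕ} {s : ℝ} (hd : 1 ≤ d) (hk : k ≤ d) (hs0 : 0 < s) {w : E d → ℝ} (hw : Continuous w)
    (ht : ∀ τ x : E d, pr k τ = τ → w (x + τ) = w x) {x₀ y₀ : E d} (hx : 0 < w x₀) (hy : w y₀ < 0) :
    ∃ c m : ℝ, 0 < c ∧ 1 ≤ m ∧ ∀ M : ℕ,
      Integrable (fun p : E d × E d => (|w p.1| * |w p.2| - w p.1 * w p.2) *
        (th ((2 * k + 1) * M + m) p.1 * th ((2 * k + 1) * M + m) p.2) * K d s (p.1 - p.2)) →
      c * (M : ℝ) ^ k ≤ ∫ p : E d × E d, (|w p.1| * |w p.2| - w p.1 * w p.2) *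
        (th ((2 * k + 1) * M + m) p.1 * th ((2 * k + 1) * M + m) p.2) * K d s (p.1 - p.2) := by
  obtain ⟨δ, hδ, ρ, hρ, hρ2, hwx, hwy⟩ : ∃ δ > 0, ∃ ρ > 0, ρ ≤ 1 / 2 ∧
      (∀ z, ‖z - x₀‖ < ρ → δ ≤ w z) ∧ ∀ z, ‖z - y₀‖ < ρ → w z ≤ -δ := by
    have h1 := Metric.continuousAt_iff.1 (hw.continuousAt (x := x₀)) (w x₀ / 2) (by linarith)
    have h2 := Metric.continuousAt_iff.1 (hw.continuousAt (x := y₀)) (-(w y₀) / 2) (by linarith)
    obtain ⟨r1, hr1, h1⟩ := h1
    obtain ⟨r2, hr2, h2⟩ := h2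
    refine ⟨min (w x₀ / 2) (-(w y₀) / 2), lt_min (by linarith) (by linarith),
      min (1 / 2) (min r1 r2), by positivity, min_le_left _ _, fun z hz => ?_, fun z hz => ?_⟩
    · have h3 := h1 (x := z) (by
        rw [dist_eq_norm]
        exact hz.trans_le ((min_le_right _ _).trans (min_le_left _ _)))
      rw [Real.dist_eq, abs_lt] at h3
      exact (min_le_left _ _).trans (by linarith)
    · have h3 := h2 (x := z) (by
        rw [dist_eq_norm]
        exact hz.trans_le ((min_le_right _ _).trans (min_le_right _ _)))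
      rw [Real.dist_eq, abs_lt] at h3
      have h4 := min_le_right (w x₀ / 2) (-(w y₀) / 2)
      linarith
  set r : ℝ := ‖x₀ - y₀‖ + 2 * ρ with hr
  have hrpos : 0 < r := by positivity
  set c0 : ℝ := 2 * δ ^ 2 * r ^ (-((d : ℝ) + 2 * s)) with hc0
  have hc0pos : 0 < c0 := by positivity
  set v : ℝ := (volume (Metric.ball (0 : E d) ρ)).toReal with hv
  have hvpos : 0 < v := ENNReal.toReal_pos (Metric.measure_ball_pos volume _ hρ).ne'
    measure_ball_lt_top.ne
  refine ⟨c0 * v ^ 2, ‖x₀‖ + ‖y₀‖ + 1, by positivity, by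
    have := norm_nonneg x₀; have := norm_nonneg y₀; linarith, fun M hint => ?_⟩
  set R : ℝ := (2 * k + 1) * M + (‖x₀‖ + ‖y₀‖ + 1) with hR
  have hRpos : 0 < R := by positivity
  set S : (Fin k → Fin M) → Set (E d × E d) := fun f =>
    Metric.ball (x₀ + ob_t hk f) ρ ×ˢ Metric.ball (y₀ + ob_t hk f) ρ with hS
  have hSm : ∀ f, MeasurableSet (S f) := fun f => measurableSet_ball.prod measurableSet_ball
  have hSv : ∀ f, (volume (S f)).toReal = v ^ 2 := by
    intro f
    have h1 : volume (S f) = volume (Metric.ball (0 : E d) ρ) * volume (Metric.ball (0 : E d) ρ) := by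
      rw [hS, Measure.volume_eq_prod, Measure.prod_prod,
        Measure.addHaar_ball_center volume (x₀ + ob_t hk f) ρ,
        Measure.addHaar_ball_center volume (y₀ + ob_t hk f) ρ]
    rw [h1, ENNReal.toReal_mul, sq]
  have hSf : ∀ f, volume (S f) ≠ ⊤ := by
    intro f
    have h1 : volume (S f) = volume (Metric.ball (0 : E d) ρ) * volume (Metric.ball (0 : E d) ρ) := by
      rw [hS, Measure.volume_eq_prod, Measure.prod_prod,
        Measure.addHaar_ball_center volume (x₀ + ob_t hk f) ρ,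
        Measure.addHaar_ball_center volume (y₀ + ob_t hk f) ρ]
    rw [h1]
    exact ENNReal.mul_ne_top measure_ball_lt_top.ne measure_ball_lt_top.ne
  have hdisj : ∀ f g p, p ∈ S f → p ∈ S g → f = g := by
    intro f g p hf hg
    by_contra hne
    have h1 := ob_sep hk hne
    have h2 : ‖p.1 - (x₀ + ob_t hk f)‖ < ρ := mem_ball_iff_norm.1 hf.1
    have h3 : ‖p.1 - (x₀ + ob_t hk g)‖ < ρ := mem_ball_iff_norm.1 hg.1
    have h4 : ob_t hk f - ob_t hk g = (p.1 - (x₀ + ob_t hk g)) - (p.1 - (x₀ + ob_t hk f)) := by abel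
    have h5 := norm_sub_le (p.1 - (x₀ + ob_t hk g)) (p.1 - (x₀ + ob_t hk f))
    rw [← h4] at h5
    linarith
  set F : E d × E d → ℝ := fun p => (|w p.1| * |w p.2| - w p.1 * w p.2) *
        (th R p.1 * th R p.2) * K d s (p.1 - p.2) with hF
  have hth := th_facts (d := d) hRpos
  have hF0 : ∀ p, 0 ≤ F p := by
    intro p
    have h1 : 0 ≤ |w p.1| * |w p.2| - w p.1 * w p.2 := by
      rw [← abs_mul]
      linarith [le_abs_self (w p.1 * w p.2)]
    exact mul_nonneg (mul_nonneg h1 (mul_nonneg (hth.2.2.1 _).1 (hth.2.2.1 _).1)) (K_nonneg _)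
  have hFS : ∀ f p, p ∈ S f → c0 ≤ F p := by
    intro f p hp
    have h1 : ‖p.1 - (x₀ + ob_t hk f)‖ < ρ := mem_ball_iff_norm.1 hp.1
    have h2 : ‖p.2 - (y₀ + ob_t hk f)‖ < ρ := mem_ball_iff_norm.1 hp.2
    have h3 : δ ≤ w p.1 := by
      have h4 := ht (ob_t hk f) (p.1 - ob_t hk f) (ob_pr hk f)
      rw [sub_add_cancel] at h4
      rw [h4]
      refine hwx _ ?_
      have h5 : p.1 - ob_t hk f - x₀ = p.1 - (x₀ + ob_t hk f) := by abel
      rw [h5]
      exact h1
    have h4 : w p.2 ≤ -δ := by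
      have h4 := ht (ob_t hk f) (p.2 - ob_t hk f) (ob_pr hk f)
      rw [sub_add_cancel] at h4
      rw [h4]
      refine hwy _ ?_
      have h5 : p.2 - ob_t hk f - y₀ = p.2 - (y₀ + ob_t hk f) := by abel
      rw [h5]
      exact h2
    have hne : p.1 - p.2 ≠ 0 := by
      intro h5
      rw [sub_eq_zero] at h5
      rw [h5] at h3
      linarith
    have hnt := ob_norm hk f
    have hMk : (0 : ℝ) ≤ M := Nat.cast_nonneg M
    have hn1 : ‖p.1‖ ≤ R := by
      have h5 : p.1 = (p.1 - (x₀ + ob_t hk f)) + (x₀ + ob_t hk f) := by abel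
      have h6 : ‖p.1‖ ≤ ‖p.1 - (x₀ + ob_t hk f)‖ + (‖x₀‖ + ‖ob_t hk f‖) := by
        conv_lhs => rw [h5]
        exact (norm_add_le _ _).trans (add_le_add_right (norm_add_le _ _) _)
      have h7 := norm_nonneg y₀
      rw [hR]
      nlinarith
    have hn2 : ‖p.2‖ ≤ R := by
      have h5 : p.2 = (p.2 - (y₀ + ob_t hk f)) + (y₀ + ob_t hk f) := by abel
      have h6 : ‖p.2‖ ≤ ‖p.2 - (y₀ + ob_t hk f)‖ + (‖y₀‖ + ‖ob_t hk f‖) := by
        conv_lhs => rw [h5]
        exact (norm_add_le _ _).trans (add_le_add_right (norm_add_le _ _) _)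
      have h7 := norm_nonneg x₀
      rw [hR]
      nlinarith
    have hK : r ^ (-((d : ℝ) + 2 * s)) ≤ K d s (p.1 - p.2) := by
      refine K_anti hs0 hne ?_
      have h5 : p.1 - p.2 = (p.1 - (x₀ + ob_t hk f)) - (p.2 - (y₀ + ob_t hk f)) + (x₀ - y₀) := by
        abel
      rw [h5, hr]
      have h6 := norm_add_le ((p.1 - (x₀ + ob_t hk f)) - (p.2 - (y₀ + ob_t hk f))) (x₀ - y₀)
      have h7 := norm_sub_le (p.1 - (x₀ + ob_t hk f)) (p.2 - (y₀ + ob_t hk f))
      linarith
    have hww : 2 * δ ^ 2 ≤ |w p.1| * |w p.2| - w p.1 * w p.2 := by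
      rw [abs_of_nonneg (hδ.le.trans h3), abs_of_nonpos (by linarith)]
      nlinarith
    show c0 ≤ (|w p.1| * |w p.2| - w p.1 * w p.2) * (th R p.1 * th R p.2) * K d s (p.1 - p.2)
    rw [hth.2.2.2.1 _ hn1, hth.2.2.2.1 _ hn2, mul_one, mul_one, hc0]
    exact mul_le_mul hww hK (by positivity) (by nlinarith [sq_nonneg δ])
  have hle : ∀ p, ∑ f : Fin k → Fin M, (S f).indicator (fun _ => c0) p ≤ F p := by
    intro p
    by_cases h : ∃ f, p ∈ S f
    · obtain ⟨f, hf⟩ := h
      rw [Finset.sum_eq_single f]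
      · rw [Set.indicator_of_mem hf]
        exact hFS f p hf
      · intro g _ hg
        exact Set.indicator_of_notMem (fun hpg => hg (hdisj g f p hpg hf)) _
      · intro h1
        exact absurd (Finset.mem_univ f) h1
    · push Not at h
      rw [Finset.sum_eq_zero fun f _ => Set.indicator_of_notMem (h f) _]
      exact hF0 p
  have hind : ∀ f, Integrable ((S f).indicator fun _ : E d × E d => c0) := by
    intro f
    rw [integrable_indicator_iff (hSm f)]
    exact integrableOn_const (hSf f)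
  have hfin : ∫ p : E d × E d, ∑ f : Fin k → Fin M, (S f).indicator (fun _ => c0) p =
      c0 * v ^ 2 * (M : ℝ) ^ k := by
    rw [integral_finsetSum _ fun f _ => hind f]
    have h1 : ∀ f : Fin k → Fin M, ∫ p : E d × E d, (S f).indicator (fun _ => c0) p = v ^ 2 * c0 := by
      intro f
      rw [integral_indicator (hSm f), setIntegral_const, Measure.real, hSv f, smul_eq_mul]
    rw [Finset.sum_congr rfl fun f _ => h1 f, Finset.sum_const, Finset.card_univ, nsmul_eq_mul,
      Fintype.card_fun, Fintype.card_fin, Fintype.card_fin]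
    push_cast
    ring
  rw [← hfin]
  exact integral_mono (integrable_finsetSum _ fun f _ => hind f) hint hle

/-- MODULE oc. Every directional derivative has a constant sign. Proof: otherwise `many` (`w = D_e u`, `grad_trans`), `one_dir` and `energy`
with some `0 < ε < min(2s,2-2s)` give `c M^k ≤ C R^(d-2-ε)`, `R = (2k+1) M + m`; contradiction as `M → ∞` since `k ≥ d-2`. -/
theorem sign {d k : ℕ} {s c : ℝ} (hk : k ≤ d) (hd : 1 ≤ d) (hdk : d ≤ k + 2) (hs0 : 0 < s) (hs1 : s < 1) (hc : 0 < c)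
    {u : E d → ℝ} (hu : Entire d s c u) (hst : Stable d s c u) (hH : HolU s u) (h0 : ∀ x, gW k u x = 0) {e : E d}
    (he : ‖e‖ ≤ 1) : (∀ x, 0 ≤ fderiv ℝ u x e) ∨ (∀ x, fderiv ℝ u x e ≤ 0) := by
  by_contra hcon
  push Not at hcon
  obtain ⟨⟨y₀, hy⟩, x₀, hx⟩ := hcon
  have hu1 : ContDiff ℝ 1 u := hu.smooth.of_le (by norm_num)
  have hw : Continuous (fun x => fderiv ℝ u x e) :=
    (hu1.continuous_fderiv (by norm_num)).clm_apply continuous_const
  have ht : ∀ τ x : E d, pr k τ = τ → fderiv ℝ u (x + τ) e = fderiv ℝ u x e := by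
    intro τ x hτ
    rw [grad_trans hu1 h0 hτ]
  obtain ⟨c1, m, hc1, hm, hM⟩ := many (s := s) hd hk hs0 hw ht hx hy
  obtain ⟨C2, hC2, h2⟩ := one_dir (d := d) hd hs0 hs1 hc
  set ε : ℝ := min s (1 - s) with hε
  have hεpos : 0 < ε := lt_min hs0 (by linarith)
  obtain ⟨C3, hC3, h3⟩ := energy hd hs0 hs1 hc hu hst hH (e := ε)
    (by have := min_le_left s (1 - s); linarith) (by have := min_le_right s (1 - s); linarith)
  set A : ℝ := 2 * k + 1 + m with hA
  have hApos : 0 < A := by positivity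
  set C4 : ℝ := C2 * C3 * 2 ^ ((d : ℝ) - ε) * A ^ k with hC4
  have hC4n : 0 ≤ C4 := by positivity
  have key : ∀ M : ℕ, 1 ≤ M → c1 ≤ C4 * (M : ℝ) ^ (-ε) := by
    intro M hM1
    have hMr : (1 : ℝ) ≤ M := by exact_mod_cast hM1
    have hMpos : (0 : ℝ) < M := by linarith
    set R : ℝ := (2 * k + 1) * M + m with hR
    have hk0 : (0 : ℝ) ≤ k := Nat.cast_nonneg k
    have hRM : (M : ℝ) ≤ R := by
      rw [hR]
      nlinarith
    have hR1 : 1 ≤ R := hMr.trans hRM
    have hRpos : 0 < R := by linarith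
    have hRA : R ≤ A * M := by
      rw [hR, hA]
      nlinarith
    have h4 := h2 u hu hst e he R hRpos
    have h5 := (hM M h4.1).trans h4.2
    have h6 := h3 (2 * R) (by linarith)
    have h7 : c1 * (M : ℝ) ^ k ≤ C2 * R ^ (-(2 : ℝ)) * (C3 * (2 * R) ^ ((d : ℝ) - ε)) :=
      h5.trans (mul_le_mul_of_nonneg_left h6 (by positivity))
    have h8 : C2 * R ^ (-(2 : ℝ)) * (C3 * (2 * R) ^ ((d : ℝ) - ε)) =
        C2 * C3 * 2 ^ ((d : ℝ) - ε) * (R ^ k * R ^ ((d : ℝ) - ε - 2 - k)) := by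
      rw [Real.mul_rpow (by norm_num) hRpos.le, ← Real.rpow_natCast R k, ← Real.rpow_add hRpos]
      have h9 : (k : ℝ) + ((d : ℝ) - ε - 2 - k) = -2 + ((d : ℝ) - ε) := by ring
      rw [h9, Real.rpow_add hRpos]
      ring
    have h10 : R ^ ((d : ℝ) - ε - 2 - k) ≤ (M : ℝ) ^ (-ε) := by
      have hdk' : (d : ℝ) ≤ k + 2 := by exact_mod_cast hdk
      have h11 : R ^ ((d : ℝ) - ε - 2 - k) ≤ R ^ (-ε) :=
        Real.rpow_le_rpow_of_exponent_le hR1 (by linarith)
      refine h11.trans ?_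
      rw [Real.rpow_neg hRpos.le, Real.rpow_neg hMpos.le]
      exact inv_anti₀ (by positivity) (Real.rpow_le_rpow hMpos.le hRM hεpos.le)
    have h12 : R ^ k ≤ A ^ k * (M : ℝ) ^ k := by
      rw [← mul_pow]
      exact pow_le_pow_left₀ hRpos.le hRA k
    have h13 : c1 * (M : ℝ) ^ k ≤ (C4 * (M : ℝ) ^ (-ε)) * (M : ℝ) ^ k := by
      refine h7.trans ?_
      rw [h8, hC4]
      have h14 : R ^ k * R ^ ((d : ℝ) - ε - 2 - k) ≤ (A ^ k * (M : ℝ) ^ k) * (M : ℝ) ^ (-ε) :=
        mul_le_mul h12 h10 (by positivity) (by positivity)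
      calc C2 * C3 * 2 ^ ((d : ℝ) - ε) * (R ^ k * R ^ ((d : ℝ) - ε - 2 - k))
          ≤ C2 * C3 * 2 ^ ((d : ℝ) - ε) * ((A ^ k * (M : ℝ) ^ k) * (M : ℝ) ^ (-ε)) :=
            mul_le_mul_of_nonneg_left h14 (by positivity)
        _ = _ := by ring
    exact le_of_mul_le_mul_right h13 (by positivity)
  have hlim : Tendsto (fun M : ℕ => C4 * (M : ℝ) ^ (-ε)) atTop (𝓝 (C4 * 0)) :=
    (((tendsto_rpow_neg_atTop hεpos).comp tendsto_natCast_atTop_atTop)).const_mul C4
  rw [mul_zero] at hlim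
  have h15 : c1 ≤ 0 := ge_of_tendsto hlim (eventually_atTop.2 ⟨1, fun M hM1 => key M hM1⟩)
  linarith

/-- MODULE od. A `C^1` function all of whose directional derivatives have a constant sign is one-dimensional. Proof: if `∇u x`, `∇u y` are
nonzero, and `e = ∇u x/|∇u x| - ∇u y/|∇u y| ≠ 0`, then `D_e u x > 0 > D_e u y` (scale `e` to norm `≤ 1`). So all nonzero gradients have
one direction `a`; `D_v u = 0` for `v ⊥ a`; `u x = u (⟪a,x⟫ a)`. (If `∇u = 0` everywhere, any unit vector works; `d ≥ 1`.) -/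
theorem oneDim_of_sign {d : ℕ} (hd : 1 ≤ d) {u : E d → ℝ} (hu : ContDiff ℝ 1 u)
    (h : ∀ e : E d, ‖e‖ ≤ 1 → (∀ x, 0 ≤ fderiv ℝ u x e) ∨ (∀ x, fderiv ℝ u x e ≤ 0)) : OneDim u := by
  have hdu : Differentiable ℝ u := hu.differentiable (by norm_num)
  let G : E d → E d := fun x => (InnerProductSpace.toDual ℝ (E d)).symm (fderiv ℝ u x)
  have hG : ∀ x v, inner ℝ (G x) v = fderiv ℝ u x v := fun x v =>
    InnerProductSpace.toDual_symm_apply
  have hline : ∀ x y : E d, (∀ z, fderiv ℝ u z (y - x) = 0) → u x = u y := by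
    intro x y hz
    have hder : ∀ t : ℝ, HasDerivAt (fun t : ℝ => u (x + t • (y - x))) 0 t := by
      intro t
      have h1 : HasDerivAt (fun t : ℝ => x + t • (y - x)) (y - x) t := by
        have h2 := ((hasDerivAt_id t).smul_const (y - x)).const_add x
        simpa using h2
      have h3 := (hdu (x + t • (y - x))).hasFDerivAt.comp_hasDerivAt t h1
      rw [hz] at h3
      exact h3
    have h4 := is_const_of_deriv_eq_zero (fun t => (hder t).differentiableAt)
      (fun t => (hder t).deriv) 0 1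
    simpa using h4
  by_cases hall : ∀ x, G x = 0
  · refine ⟨bv ⟨0, hd⟩, ?_, fun _ => u 0, fun x => ?_⟩
    · unfold bv
      rw [EuclideanSpace.norm_single, norm_one]
    · refine (hline 0 x fun z => ?_).symm
      rw [← hG, hall, inner_zero_left]
  · push Not at hall
    obtain ⟨x₀, hx₀⟩ := hall
    have hn0 : 0 < ‖G x₀‖ := norm_pos_iff.2 hx₀
    set a : E d := (‖G x₀‖)⁻¹ • G x₀ with ha
    have ha1 : ‖a‖ = 1 := by
      rw [ha, norm_smul, norm_inv, norm_norm, inv_mul_cancel₀ hn0.ne']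
    have haG : G x₀ = ‖G x₀‖ • a := by
      rw [ha, smul_smul, mul_inv_cancel₀ hn0.ne', one_smul]
    have hpar : ∀ y, G y = ‖G y‖ • a := by
      intro y
      by_cases hy : G y = 0
      · rw [hy, norm_zero, zero_smul]
      · have hny : 0 < ‖G y‖ := norm_pos_iff.2 hy
        set b : E d := (‖G y‖)⁻¹ • G y with hb
        have hb1 : ‖b‖ = 1 := by
          rw [hb, norm_smul, norm_inv, norm_norm, inv_mul_cancel₀ hny.ne']
        have hbG : G y = ‖G y‖ • b := by
          rw [hb, smul_smul, mul_inv_cancel₀ hny.ne', one_smul]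
        by_cases hab : a = b
        · rw [hab]
          exact hbG
        · exfalso
          have hlt : inner ℝ a b < 1 := by
            have h1 := (inner_lt_one_iff_real_of_norm_eq_one ha1 hb1).2 hab
            exact h1
          have hen : ‖(1 / 2 : ℝ) • (a - b)‖ ≤ 1 := by
            rw [norm_smul]
            have h1 := norm_sub_le a b
            rw [ha1, hb1] at h1
            norm_num
            linarith
          have h1 : 0 < fderiv ℝ u x₀ ((1 / 2 : ℝ) • (a - b)) := by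
            rw [← hG, haG, inner_smul_left, inner_smul_right, inner_sub_right,
              real_inner_self_eq_norm_sq, ha1]
            have : 0 < ‖G x₀‖ * (1 / 2 * (1 - inner ℝ a b)) := by
              have : 0 < 1 - inner ℝ a b := by linarith
              positivity
            simpa using this
          have h2 : fderiv ℝ u y ((1 / 2 : ℝ) • (a - b)) < 0 := by
            rw [← hG, hbG, inner_smul_left, inner_smul_right, inner_sub_right,
              real_inner_self_eq_norm_sq, hb1, real_inner_comm]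
            have : 0 < ‖G y‖ * (1 / 2 * (1 - inner ℝ a b)) := by
              have : 0 < 1 - inner ℝ a b := by linarith
              positivity
            simp only [one_pow, conj_trivial]
            nlinarith
          rcases h _ hen with h3 | h3
          · exact absurd (h3 y) (not_le.2 h2)
          · exact absurd (h3 x₀) (not_le.2 h1)
    refine ⟨a, ha1, fun t => u (t • a), fun x => ?_⟩
    refine hline x (inner ℝ a x • a) fun z => ?_
    rw [← hG, hpar z, inner_smul_left, inner_sub_right, inner_smul_right,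
      real_inner_self_eq_norm_sq, ha1]
    simp

/-- MODULE oe. THE THEOREM for stable solutions. -/
theorem rot_stable {d k : ℕ} {s c : ℝ} (h2 : 2 ≤ k) (hk : k ≤ d) (hs0 : 0 < s) (hs1 : s < 1) (hc : 0 < c)
    {u : E d → ℝ} (hu : Entire d s c u) (hst : Stable d s c u) (hH : HolU s u) (hr : Rot k u)
    (hcond : (d : ℝ) - 2 - min (2 * s) (2 - 2 * s) < 2 * √((k : ℝ) - 1)) :
    (∀ x y : E d, (∀ i : Fin d, k ≤ (i : ℕ) → x i = y i) → u x = u y) ∧ (d ≤ k + 2 → OneDim u) := by
  have h0 := gW_zero h2 hk hs0 hs1 hc hu hst hH hr hcond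
  have hu1 : ContDiff ℝ 1 u := hu.smooth.of_le (by norm_num)
  refine ⟨fun x y hxy => indep hu1 h0 hxy, fun hdk => ?_⟩
  exact oneDim_of_sign (by omega) hu1 fun e he =>
    sign hk (by omega) hdk hs0 hs1 hc hu hst hH h0 he

end Pool.Agent.Frd
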