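import Pool.Agent.Frd.Res
import Pool.Agent.Frd.Geo
import Pool.Agent.Frd.Kern

/-!
# The positivity lemma
-/

open MeasureTheory Set Filter Topology NDG
open scoped SchwartzMap LineDeriv Laplacian FourierTransform ContDiff

namespace Pool.Agent.Frd

/-- The integrand of the positivity lemma:
`ζ ζ' |V| |V'| - (1/2)(ζ^2 + ζ'^2) V·V'`, `ζ = (1+|x|^2)^(-b/2)`. -/
noncomputable def Ph {d : ℕ} (b : ℝ) (V : E d → E d) (p : E d × E d) : ℝ :=
  zt b p.1 * zt b p.2 * (‖V p.1‖ * ‖V p.2‖) -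
    (1 / 2) * (zt b p.1 ^ 2 + zt b p.2 ^ 2) * inner ℝ (V p.1) (V p.2)

/-- MODULE zc. From `pd_zt`: `∑ (∂_i ζ)^2 = b^2 |x|^2 (1+|x|^2)^(-b-2) ≤ b^2 ζ^2/|x|^2 ≤ b^2 ζ^2/|pr x|^2`. -/
theorem zt_grad {d k : ℕ} (b : ℝ) {x : E d} (hx : pr k x ≠ 0) :
    ∑ i : Fin d, (pd i (zt b) x) ^ 2 ≤ b ^ 2 * (zt b x ^ 2 / ‖pr k x‖ ^ 2) := by
  have hr : 0 < ‖pr k x‖ := norm_pos_iff.2 hx
  have hle : ‖pr k x‖ ≤ ‖x‖ := norm_pr_le x
  have hx0 : 0 < ‖x‖ := hr.trans_le hle
  have ha : (0 : ℝ) < 1 + ‖x‖ ^ 2 := by positivity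
  have h1 : (1 + ‖x‖ ^ 2) ^ (-(b / 2) - 1) = zt b x / (1 + ‖x‖ ^ 2) := by
    unfold zt
    rw [Real.rpow_sub ha, Real.rpow_one]
  have h2 : ∑ i : Fin d, (pd i (zt b) x) ^ 2 =
      b ^ 2 * (zt b x ^ 2 * (‖x‖ ^ 2 / (1 + ‖x‖ ^ 2) ^ 2)) := by
    have h3 : ‖x‖ ^ 2 = ∑ i : Fin d, x i ^ 2 := by
      rw [EuclideanSpace.norm_sq_eq]
      exact Finset.sum_congr rfl fun i _ => by rw [Real.norm_eq_abs, sq_abs]
    have h4 : ∀ i : Fin d, (pd i (zt b) x) ^ 2 =
        x i ^ 2 * (b ^ 2 * (zt b x ^ 2 / (1 + ‖x‖ ^ 2) ^ 2)) := by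
      intro i
      rw [pd_zt, h1, mul_pow, mul_pow, div_pow, neg_sq]
      ring
    rw [Finset.sum_congr rfl fun i _ => h4 i, ← Finset.sum_mul, ← h3]
    ring
  rw [h2]
  refine mul_le_mul_of_nonneg_left ?_ (sq_nonneg b)
  rw [div_eq_mul_inv (zt b x ^ 2)]
  refine mul_le_mul_of_nonneg_left ?_ (sq_nonneg _)
  rw [div_le_iff₀ (by positivity), inv_mul_eq_div, le_div_iff₀ (by positivity)]
  have h5 : ‖pr k x‖ ^ 2 ≤ ‖x‖ ^ 2 := pow_le_pow_left₀ hr.le hle 2
  nlinarith [mul_le_mul_of_nonneg_left h5 (sq_nonneg ‖x‖), sq_nonneg ‖x‖]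

/-- MODULE pa. `W = G_l * V` is equivariant if `V` is. Proof: `W x = ∫ G_l(x-y) • V y` (vector valued; components), for `g` in
`O(k)`: substitute `y = g z` (`g` preserves volume), `G_l(g x - g z) = G_l(x-z)` (`Gl_congr`), `V (g z) = g (V z)`, and
`g` commutes with the integral; `pr k (W x) = W x` componentwise (`V y j = 0` for `k ≤ j`). -/
theorem equi_conv {d k : ℕ} {l : ℝ} (hl : 0 < l) {V W : E d → E d} (hc : Continuous V) (hs : HasCompactSupport V)
    (hV : Equi k V) (hW : ∀ x j, W x j = ∫ y : E d, Gl d l (x - y) * V y j) : Equi k W := by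
  have hint : ∀ x, Integrable (fun y : E d => Gl d l (x - y) • V y) := by
    intro x
    obtain ⟨C, hC⟩ := hs.exists_bound_of_continuous hc
    have h1 : Integrable (fun y : E d => Gl d l (x - y)) := (Gl_int d hl).1.comp_sub_left x
    refine (h1.mul_const C).mono' (h1.aestronglyMeasurable.smul hc.aestronglyMeasurable) ?_
    refine Filter.Eventually.of_forall fun y => ?_
    rw [norm_smul, Real.norm_of_nonneg (Gl_nonneg d l _)]
    exact mul_le_mul_of_nonneg_left (hC y) (Gl_nonneg d l _)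
  have hvec : ∀ x, W x = ∫ y : E d, Gl d l (x - y) • V y := by
    intro x
    ext j
    rw [hW x j]
    have h1 := (EuclideanSpace.proj (𝕜 := ℝ) j : E d →L[ℝ] ℝ).integral_comp_comm (hint x)
    exact h1
  refine ⟨fun g hg x => ?_, fun x => ?_⟩
  · rw [hvec, hvec]
    have h1 : ∫ y : E d, Gl d l (g x - y) • V y =
        ∫ z : E d, Gl d l (g x - g z) • V (g z) :=
      (g.measurePreserving.integral_comp g.toHomeomorph.measurableEmbedding
        (fun y => Gl d l (g x - y) • V y)).symm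
    rw [h1]
    have h2 : ∀ z : E d, Gl d l (g x - g z) • V (g z) = g (Gl d l (x - z) • V z) := by
      intro z
      rw [hV.1 g hg z, map_smul, Gl_congr (h := g x - g z) (h' := x - z)]
      rw [← map_sub, LinearIsometryEquiv.norm_map]
    rw [integral_congr_ae (Filter.Eventually.of_forall h2)]
    exact g.toContinuousLinearEquiv.integral_comp_comm (fun z => Gl d l (x - z) • V z)
  · ext j
    rw [pr_apply]
    split_ifs with h
    · rfl
    · rw [hW x j]
      have h1 : ∀ y : E d, Gl d l (x - y) * V y j = 0 := by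
        intro y
        rw [← hV.2 y, pr_apply, if_neg h, mul_zero]
      rw [integral_congr_ae (Filter.Eventually.of_forall h1), integral_zero]

/-- MODULE pb. Fubini (`int_Gl`) and symmetrisation (`x ↔ y`, `G_l` even). -/
theorem A_ker {d : ℕ} {l b : ℝ} (hl : 0 < l) (hb : 0 ≤ b) {V W : E d → E d} (hc : Continuous V)
    (hs : HasCompactSupport V) (hW : ∀ x j, W x j = ∫ y : E d, Gl d l (x - y) * V y j) :
    ∫ x, zt b x ^ 2 * inner ℝ (V x) (W x) =
      ∫ p : E d × E d, Gl d l (p.1 - p.2) *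
        ((1 / 2) * (zt b p.1 ^ 2 + zt b p.2 ^ 2) * inner ℝ (V p.1) (V p.2)) := by
  obtain ⟨C, hC⟩ := hs.exists_bound_of_continuous hc
  have hC0 : 0 ≤ C := (norm_nonneg _).trans (hC 0)
  have hz : Continuous (zt b : E d → ℝ) := (contDiff_zt b 0).continuous
  have hVi : Integrable (fun x => C * ‖V x‖) :=
    ((hc.integrable_of_hasCompactSupport hs).norm).const_mul C
  have hj : ∀ j, Continuous (fun x => V x j) := fun j => by fun_prop
  have e1 : ∀ x, inner ℝ (V x) (W x) = ∫ y : E d, Gl d l (x - y) * inner ℝ (V x) (V y) := by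
    intro x
    have hG : Integrable (fun y : E d => Gl d l (x - y)) := (Gl_int d hl).1.comp_sub_left x
    have hGj : ∀ j, Integrable (fun y : E d => Gl d l (x - y) * V y j) := fun j =>
      hG.mul_bdd (c := C) (hj j).aestronglyMeasurable
        (Filter.Eventually.of_forall fun y => (PiLp.norm_apply_le (V y) j).trans (hC y))
    rw [PiLp.inner_apply]
    have h2 : ∀ y, Gl d l (x - y) * inner ℝ (V x) (V y) =
        ∑ j : Fin d, V x j * (Gl d l (x - y) * V y j) := by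
      intro y
      rw [PiLp.inner_apply, Finset.mul_sum]
      refine Finset.sum_congr rfl fun j _ => ?_
      simp only [RCLike.inner_apply, conj_trivial]
      ring
    simp_rw [h2]
    rw [integral_finsetSum _ fun j _ => (hGj j).const_mul _]
    refine Finset.sum_congr rfl fun j _ => ?_
    rw [integral_const_mul, ← hW]
    simp only [RCLike.inner_apply, conj_trivial]
    ring
  have i1 : Integrable (fun p : E d × E d => Gl d l (p.1 - p.2) *
      (zt b p.1 ^ 2 * inner ℝ (V p.1) (V p.2))) := by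
    refine int_Gl d hl _ ?_ _ hVi fun p => ?_
    · exact Continuous.aestronglyMeasurable (by fun_prop)
    · have z1 := zt_le_one hb p.1
      have z3 := (zt_pos b p.1).le
      rw [abs_mul, abs_of_nonneg (by positivity)]
      calc zt b p.1 ^ 2 * |inner ℝ (V p.1) (V p.2)|
          ≤ 1 ^ 2 * (‖V p.1‖ * ‖V p.2‖) := by
            gcongr
            exact abs_real_inner_le_norm _ _
        _ ≤ 1 ^ 2 * (‖V p.1‖ * C) := by
            gcongr
            exact hC _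
        _ = C * ‖V p.1‖ := by ring
  have e2 : ∫ x, zt b x ^ 2 * inner ℝ (V x) (W x) =
      ∫ p : E d × E d, Gl d l (p.1 - p.2) * (zt b p.1 ^ 2 * inner ℝ (V p.1) (V p.2)) := by
    rw [Measure.volume_eq_prod] at i1 ⊢
    rw [integral_prod _ i1]
    refine integral_congr_ae (Filter.Eventually.of_forall fun x => ?_)
    simp only
    rw [e1, ← integral_const_mul]
    refine integral_congr_ae (Filter.Eventually.of_forall fun y => ?_)
    simp only
    ring
  have hsw : ∀ p : E d × E d, Gl d l (p.1 - p.2) * (zt b p.2 ^ 2 * inner ℝ (V p.1) (V p.2)) =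
      (fun p : E d × E d => Gl d l (p.1 - p.2) * (zt b p.1 ^ 2 * inner ℝ (V p.1) (V p.2))) p.swap := by
    intro p
    simp only [Prod.fst_swap, Prod.snd_swap]
    rw [Gl_congr (norm_sub_rev p.1 p.2), real_inner_comm]
  have e3 : ∫ p : E d × E d, Gl d l (p.1 - p.2) * (zt b p.2 ^ 2 * inner ℝ (V p.1) (V p.2)) =
      ∫ p : E d × E d, Gl d l (p.1 - p.2) * (zt b p.1 ^ 2 * inner ℝ (V p.1) (V p.2)) := by
    simp_rw [hsw]
    rw [Measure.volume_eq_prod]
    exact integral_prod_swap (μ := (volume : Measure (E d))) (ν := (volume : Measure (E d)))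
      (fun p : E d × E d => Gl d l (p.1 - p.2) * (zt b p.1 ^ 2 * inner ℝ (V p.1) (V p.2)))
  have i2 : Integrable (fun p : E d × E d => Gl d l (p.1 - p.2) *
      (zt b p.2 ^ 2 * inner ℝ (V p.1) (V p.2))) := by
    simp_rw [hsw]
    rw [Measure.volume_eq_prod] at i1 ⊢
    exact i1.swap
  have e4 : ∫ p : E d × E d, Gl d l (p.1 - p.2) *
        ((1 / 2) * (zt b p.1 ^ 2 + zt b p.2 ^ 2) * inner ℝ (V p.1) (V p.2)) =
      1 / 2 * (∫ p : E d × E d, Gl d l (p.1 - p.2) * (zt b p.1 ^ 2 * inner ℝ (V p.1) (V p.2))) +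
      1 / 2 * ∫ p : E d × E d, Gl d l (p.1 - p.2) * (zt b p.2 ^ 2 * inner ℝ (V p.1) (V p.2)) := by
    rw [← integral_const_mul, ← integral_const_mul, ← integral_add (i1.const_mul _) (i2.const_mul _)]
    refine integral_congr_ae (Filter.Eventually.of_forall fun p => ?_)
    simp only
    ring
  rw [e4, e3, e2]
  ring

/-- The full gradient square of `ζ W` minus the angular part. -/
noncomputable def Dd {d : ℕ} (k : ℕ) (b : ℝ) (W : E d → E d) (x : E d) : ℝ :=
  (∑ i : Fin d, ∑ j : Fin d, (pd i (fun z => zt b z * W z j) x) ^ 2) -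
    ((k : ℝ) - 1) * (‖zt b x • W x‖ ^ 2 / ‖pr k x‖ ^ 2)

/-- MODULE pc. For Schwartz `W` with `W ∥ pr k x`, `2 ≤ k`: `Dd` is integrable (the angular part is dominated a.e. by the
full gradient, `par_id`, and `pr_null`), and it is a.e. equal to `∑ (∂_i y)^2`, hence a.e. nonnegative. -/
theorem Dd_int {d k : ℕ} (h2 : 2 ≤ k) (hk : k ≤ d) {b : ℝ} (w : Fin d → 𝓢(E d, ℝ)) {W : E d → E d}
    (hw : ∀ x j, W x j = w j x) (hp : ∀ z, ∃ q : ℝ, W z = q • pr k z) :
    Integrable (Dd k b W) ∧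
    (∀ x, pr k x ≠ 0 → Dd k b W x =
      ∑ i : Fin d, (pd i (fun z => inner ℝ (zt b z • W z) (pr k z) / ‖pr k z‖) x) ^ 2) := by
  have hzd : Differentiable ℝ (zt b : E d → ℝ) := (contDiff_zt b 1).differentiable (by norm_num)
  have hWd : Differentiable ℝ W := by
    rw [differentiable_euclidean]
    intro j
    have h1 : (fun x => W x j) = (w j : E d → ℝ) := funext fun x => hw x j
    rw [h1]
    exact (w j).differentiable
  have hYd : Differentiable ℝ (fun z => zt b z • W z) := hzd.smul hWd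
  have hYp : ∀ z, ∃ q : ℝ, zt b z • W z = q • pr k z := by
    intro z
    obtain ⟨q, hq⟩ := hp z
    exact ⟨zt b z * q, by rw [hq, smul_smul]⟩
  have hid : ∀ x, pr k x ≠ 0 → Dd k b W x =
      ∑ i : Fin d, (pd i (fun z => inner ℝ (zt b z • W z) (pr k z) / ‖pr k z‖) x) ^ 2 := by
    intro x hx
    have h1 := (par_id hk hYd hYp hx).2
    have h2 : ∑ i : Fin d, ∑ j : Fin d, (pd i (fun z => zt b z * W z j) x) ^ 2 =
        ∑ i : Fin d, ∑ j : Fin d, (pd i (fun z => (zt b z • W z) j) x) ^ 2 := rfl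
    unfold Dd
    rw [h2, h1]
    ring
  refine ⟨?_, hid⟩
  let u : Fin d → 𝓢(E d, ℝ) := fun j => SchwartzMap.smulLeftCLM ℝ (zt b) (w j)
  have hu : ∀ j, (fun z => zt b z * W z j) = (u j : E d → ℝ) := by
    intro j
    funext z
    show _ = SchwartzMap.smulLeftCLM ℝ (zt b) (w j) z
    rw [SchwartzMap.smulLeftCLM_apply_apply (zt_temp b), hw z j, smul_eq_mul]
  have hF : ∀ i j : Fin d, Integrable (fun x => (pd i (fun z => zt b z * W z j) x) ^ 2) := by
    intro i j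
    rw [hu j]
    have h1 : pd i (u j : E d → ℝ) = ((∂_{bv i} (u j) : 𝓢(E d, ℝ)) : E d → ℝ) := pd_coe i (u j)
    rw [h1]
    exact ((∂_{bv i} (u j) : 𝓢(E d, ℝ)).memLp 2 volume).integrable_sq
  have hFi : Integrable (fun x => ∑ i : Fin d, ∑ j : Fin d,
      (pd i (fun z => zt b z * W z j) x) ^ 2) :=
    integrable_finsetSum _ fun i _ => integrable_finsetSum _ fun j _ => hF i j
  have hcp : Continuous (pr k : E d → E d) := (contDiff_pr (k := k) (d := d) 0).continuous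
  have hcY : Continuous (fun z => zt b z • W z) := hYd.continuous
  have hmeas : AEStronglyMeasurable (Dd k b W) volume := by
    unfold Dd
    refine hFi.aestronglyMeasurable.sub ?_
    have h1 : Measurable (fun x : E d => ((k : ℝ) - 1) * (‖zt b x • W x‖ ^ 2 / ‖pr k x‖ ^ 2)) :=
      ((hcY.norm.pow 2).measurable.div (hcp.norm.pow 2).measurable).const_mul _
    exact h1.aestronglyMeasurable
  refine hFi.mono' hmeas ?_
  have hnull : volume {x : E d | pr k x = 0} = 0 := pr_null (by omega) (by omega)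
  have hae : ∀ᵐ x : E d, pr k x ≠ 0 := by
    rw [ae_iff]
    simpa using hnull
  filter_upwards [hae] with x hx
  have h0 : 0 ≤ Dd k b W x := by
    rw [hid x hx]
    exact Finset.sum_nonneg fun i _ => sq_nonneg _
  rw [Real.norm_of_nonneg h0]
  unfold Dd
  have h1 : (0 : ℝ) ≤ ((k : ℝ) - 1) * (‖zt b x • W x‖ ^ 2 / ‖pr k x‖ ^ 2) := by
    have h2' : (2 : ℝ) ≤ k := by exact_mod_cast h2
    have : (0 : ℝ) ≤ (k : ℝ) - 1 := by linarith
    positivity
  linarith

/-- MODULE pd. Lower bound: `A := ∫ ζ^2 V·W ≥ ∫ Dd + l ∫ |ζ W|^2`, for `l W - Δ W = V`. Proof: sum `zt_ibp` over `j`;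
a.e. (`pr_null`) `(∑ (∂_i ζ)^2) |W|^2 ≤ b^2 |ζ W|^2/|pr x|^2 ≤ (k-1)|ζ W|^2/|pr x|^2` (`zt_grad`, `b^2 ≤ k-1`). -/
theorem A_lower {d k : ℕ} (h2 : 2 ≤ k) (hk : k ≤ d) {l b : ℝ} (hl : 0 < l) (hb : b ^ 2 ≤ (k : ℝ) - 1)
    (w : Fin d → 𝓢(E d, ℝ)) {V W : E d → E d} (hw : ∀ x j, W x j = w j x)
    (hp : ∀ z, ∃ q : ℝ, W z = q • pr k z)
    (hV : ∀ x j, V x j = l * w j x - ∑ i, pd i (pd i (w j : E d → ℝ)) x) :
    (∫ x, Dd k b W x) + l * (∫ x, ‖zt b x • W x‖ ^ 2) ≤ ∫ x, zt b x ^ 2 * inner ℝ (V x) (W x) := by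
  have hzd : ∀ x : E d, DifferentiableAt ℝ (zt b : E d → ℝ) x := fun x =>
    (contDiff_zt b 1).differentiable (by norm_num) x
  -- products of Schwartz functions
  have hprod : ∀ f g : 𝓢(E d, ℝ), Integrable (fun x => f x * g x) := by
    intro f g
    obtain ⟨C, hC⟩ : ∃ C, ∀ x, ‖f x‖ ≤ C := ⟨‖f.toBoundedContinuousFunction‖, fun x =>
      f.toBoundedContinuousFunction.norm_coe_le_norm x⟩
    exact (g.integrable).bdd_mul (c := C) f.continuous.aestronglyMeasurable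
      (Filter.Eventually.of_forall hC)
  set zw : Fin d → 𝓢(E d, ℝ) := fun j => SchwartzMap.smulLeftCLM ℝ (zt b) (w j) with hzw
  have hzw' : ∀ j x, zw j x = zt b x * w j x := by
    intro j x
    rw [hzw]
    simp only [SchwartzMap.smulLeftCLM_apply_apply (zt_temp b), smul_eq_mul]
  have hzwf : ∀ j, (fun x => zt b x * w j x) = (zw j : E d → ℝ) := fun j =>
    funext fun x => (hzw' j x).symm
  -- ∂_i ζ * w is Schwartz
  have hpz : ∀ i j, ∃ g : 𝓢(E d, ℝ), ∀ x, pd i (zt b) x * w j x = g x := by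
    intro i j
    refine ⟨(∂_{bv i} (zw j) : 𝓢(E d, ℝ)) - SchwartzMap.smulLeftCLM ℝ (zt b) (∂_{bv i} (w j) : 𝓢(E d, ℝ)), fun x => ?_⟩
    rw [sub_apply, SchwartzMap.smulLeftCLM_apply_apply (zt_temp b), smul_eq_mul]
    have e1 := congrFun (pd_coe i (zw j)) x
    have e2 := congrFun (pd_coe i (w j)) x
    rw [← e1, ← e2, ← hzwf]
    unfold pd
    rw [fderiv_fun_mul (hzd x) (w j).differentiableAt]
    simp only [FunLike.coe_add, Pi.add_apply, FunLike.coe_smul, Pi.smul_apply, smul_eq_mul]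
    ring
  have hi1 : ∀ i j, Integrable (fun x => (pd i (fun z => zt b z * w j z) x) ^ 2) := by
    intro i j
    rw [hzwf, pd_coe]
    simpa only [sq] using hprod (∂_{bv i} (zw j)) (∂_{bv i} (zw j))
  have hi2 : ∀ i j, Integrable (fun x => (pd i (zt b) x) ^ 2 * w j x ^ 2) := by
    intro i j
    obtain ⟨g, hg⟩ := hpz i j
    have := hprod g g
    refine this.congr (Filter.Eventually.of_forall fun x => ?_)
    simp only
    rw [← hg]
    ring
  have hi3 : ∀ j, Integrable (fun x => zt b x ^ 2 * w j x ^ 2) := by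
    intro j
    refine (hprod (zw j) (zw j)).congr (Filter.Eventually.of_forall fun x => ?_)
    simp only
    rw [hzw']
    ring
  have hi4 : ∀ j, Integrable (fun x => (∑ i, (pd i (fun z => zt b z * w j z) x) ^ 2) -
      (∑ i, (pd i (zt b) x) ^ 2) * w j x ^ 2 + l * (zt b x ^ 2 * w j x ^ 2)) := by
    intro j
    refine ((integrable_finsetSum _ fun i _ => hi1 i j).sub ?_).add ((hi3 j).const_mul l)
    simp_rw [Finset.sum_mul]
    exact integrable_finsetSum _ fun i _ => hi2 i j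
  have hi5 : ∀ j, Integrable (fun x => zt b x ^ 2 * w j x *
      (l * w j x - ∑ i, pd i (pd i (w j : E d → ℝ)) x)) := by
    intro j
    have e0 : ∀ x, ∑ i, pd i (pd i (w j : E d → ℝ)) x =
        (∑ i : Fin d, (∂_{bv i} (∂_{bv i} (w j)) : 𝓢(E d, ℝ)) : 𝓢(E d, ℝ)) x := by
      intro x
      rw [sum_apply]
      refine Finset.sum_congr rfl fun i _ => ?_
      rw [pd_coe i (w j), pd_coe]
    have := hprod (zw j) (SchwartzMap.smulLeftCLM ℝ (zt b)
      (l • w j - ∑ i : Fin d, (∂_{bv i} (∂_{bv i} (w j)) : 𝓢(E d, ℝ))))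
    refine this.congr (Filter.Eventually.of_forall fun x => ?_)
    simp only
    rw [e0, hzw', SchwartzMap.smulLeftCLM_apply_apply (zt_temp b), sub_apply,
      smul_apply]
    simp only [smul_eq_mul]
    ring
  have hnW : ∀ x, ‖W x‖ ^ 2 = ∑ j, w j x ^ 2 := by
    intro x
    rw [EuclideanSpace.norm_sq_eq]
    refine Finset.sum_congr rfl fun j _ => ?_
    rw [← hw, Real.norm_eq_abs, sq_abs]
  have hnzW : ∀ x, ‖zt b x • W x‖ ^ 2 = ∑ j, zt b x ^ 2 * w j x ^ 2 := by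
    intro x
    rw [norm_smul, mul_pow, hnW, Finset.mul_sum, Real.norm_eq_abs, sq_abs]
  have hA : ∫ x, zt b x ^ 2 * inner ℝ (V x) (W x) =
      ∫ x, ∑ j, ((∑ i, (pd i (fun z => zt b z * w j z) x) ^ 2) -
      (∑ i, (pd i (zt b) x) ^ 2) * w j x ^ 2 + l * (zt b x ^ 2 * w j x ^ 2)) := by
    rw [integral_finsetSum _ fun j _ => hi4 j]
    simp_rw [← zt_ibp]
    rw [← integral_finsetSum _ fun j _ => hi5 j]
    refine integral_congr_ae (Filter.Eventually.of_forall fun x => ?_)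
    simp only
    rw [PiLp.inner_apply, Finset.mul_sum]
    refine Finset.sum_congr rfl fun j _ => ?_
    rw [hV, hw]
    simp only [RCLike.inner_apply, conj_trivial]
    ring
  obtain ⟨hD1, -⟩ := Dd_int h2 hk w hw hp (b := b)
  have hi6 : Integrable (fun x => ‖zt b x • W x‖ ^ 2) := by
    simp_rw [hnzW]
    exact integrable_finsetSum _ fun j _ => hi3 j
  rw [hA, ← integral_const_mul, ← integral_add hD1 (hi6.const_mul l)]
  refine integral_mono_ae (hD1.add (hi6.const_mul l)) (integrable_finsetSum _ fun j _ => hi4 j) ?_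
  have hn := pr_null (d := d) (k := k) (by omega) (by omega)
  have hae : ∀ᵐ x : E d, pr k x ≠ 0 := by
    rw [ae_iff]
    simpa using hn
  filter_upwards [hae] with x hx
  have g1 := zt_grad b hx
  have hr : 0 < ‖pr k x‖ ^ 2 := by positivity
  simp only [Dd]
  rw [Finset.sum_add_distrib, Finset.sum_sub_distrib, ← Finset.mul_sum, ← Finset.mul_sum, ← hnzW, ← hnW,
    Finset.sum_comm]
  have g2 : (∑ i, pd i (zt b) x ^ 2) * ‖W x‖ ^ 2 ≤
      ((k : ℝ) - 1) * (‖zt b x • W x‖ ^ 2 / ‖pr k x‖ ^ 2) := by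
    calc (∑ i, pd i (zt b) x ^ 2) * ‖W x‖ ^ 2
        ≤ b ^ 2 * (zt b x ^ 2 / ‖pr k x‖ ^ 2) * ‖W x‖ ^ 2 := by gcongr
      _ ≤ ((k : ℝ) - 1) * (zt b x ^ 2 / ‖pr k x‖ ^ 2) * ‖W x‖ ^ 2 := by gcongr
      _ = ((k : ℝ) - 1) * (‖zt b x • W x‖ ^ 2 / ‖pr k x‖ ^ 2) := by
          rw [norm_smul, mul_pow, Real.norm_eq_abs, sq_abs]
          ring
  have g3 : ∀ i j : Fin d, pd i (fun z => zt b z * W z j) x = pd i (fun z => zt b z * w j z) x :=
    fun i j => by simp_rw [hw]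
  simp_rw [g3]
  linarith

private theorem pe_sqrt {r δ : ℝ} (hδ : 0 < δ) :
    δ⁻¹ * (1 + (δ⁻¹ * r) ^ 2) ^ (-(1 / 2) : ℝ) = (√(r ^ 2 + δ ^ 2))⁻¹ := by
  have h1 : r ^ 2 + δ ^ 2 = δ ^ 2 * (1 + (δ⁻¹ * r) ^ 2) := by
    field_simp
    ring
  rw [h1, Real.sqrt_mul (by positivity), Real.sqrt_sq hδ.le, Real.rpow_neg (by positivity),
    ← Real.sqrt_eq_rpow, mul_inv]

private theorem pe_schw {d : ℕ} (k : ℕ) (b : ℝ) (v : Fin d → 𝓢(E d, ℝ)) {V : E d → E d}
    (hv : ∀ x j, V x j = v j x) {δ : ℝ} (hδ : 0 < δ) :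
    ∃ h : 𝓢(E d, ℝ), (h : E d → ℝ) =
      fun x => inner ℝ (zt b x • V x) (pr k x) / √(‖pr k x‖ ^ 2 + δ ^ 2) := by
  obtain ⟨L, hL⟩ := exists_prL d k
  have hg : ∀ j : Fin d, Function.HasTemperateGrowth
      (fun x : E d => zt b x * inner ℝ (L x) (bv j) * (δ⁻¹ * (1 + ‖(δ⁻¹ • L) x‖ ^ 2) ^ (-(1 / 2) : ℝ))) := by
    intro j
    have h1 : Function.HasTemperateGrowth (fun x : E d => inner ℝ (L x) (bv j)) :=
      (Function.hasTemperateGrowth_inner_left (bv j)).comp L.hasTemperateGrowth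
    have h2 : Function.HasTemperateGrowth (fun x : E d => (1 + ‖(δ⁻¹ • L) x‖ ^ 2) ^ (-(1 / 2) : ℝ)) :=
      (Function.hasTemperateGrowth_one_add_norm_sq_rpow (E d) (-(1 / 2))).comp
        (δ⁻¹ • L).hasTemperateGrowth
    exact ((zt_temp b).fun_mul h1).fun_mul
      ((Function.HasTemperateGrowth.const δ⁻¹).fun_mul h2)
  refine ⟨∑ j, SchwartzMap.smulLeftCLM ℝ (fun x : E d => zt b x * inner ℝ (L x) (bv j) *
    (δ⁻¹ * (1 + ‖(δ⁻¹ • L) x‖ ^ 2) ^ (-(1 / 2) : ℝ))) (v j), ?_⟩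
  funext x
  rw [_root_.sum_apply]
  have h3 : ∀ j, SchwartzMap.smulLeftCLM ℝ (fun x : E d => zt b x * inner ℝ (L x) (bv j) *
    (δ⁻¹ * (1 + ‖(δ⁻¹ • L) x‖ ^ 2) ^ (-(1 / 2) : ℝ))) (v j) x =
      (zt b x * pr k x j * (√(‖pr k x‖ ^ 2 + δ ^ 2))⁻¹) * V x j := by
    intro j
    rw [SchwartzMap.smulLeftCLM_apply_apply (hg j), smul_eq_mul, hv]
    have h4 : inner ℝ (L x) (bv j) = pr k x j := by
      rw [hL, bv, EuclideanSpace.inner_single_right]
      simp
    have h5 : ‖(δ⁻¹ • L) x‖ = δ⁻¹ * ‖pr k x‖ := by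
      rw [_root_.smul_apply, norm_smul, hL, Real.norm_of_nonneg (by positivity)]
    rw [h4, h5, pe_sqrt hδ]
  rw [Finset.sum_congr rfl fun j _ => h3 j, div_eq_mul_inv, inner_smul_left]
  simp only [PiLp.inner_apply, RCLike.inner_apply, conj_trivial, Finset.mul_sum, Finset.sum_mul]
  exact Finset.sum_congr rfl fun j _ => by ring

/-- MODULE pe. Legendre for the regularised scalars. Both `h_δ = ⟪ζ V, pr⟫/√(‖pr‖^2+δ^2)` and `g_δ` (same with `W`) are Schwartz
(`SchwartzMap.smulLeftCLM` with the temperate growth factors `ζ x_j (‖pr x‖^2+δ^2)^(-1/2)`, which is a composition of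
`hasTemperateGrowth_one_add_norm_sq_rpow` with a linear map), apply `legendre`. -/
theorem leg_delta {d k : ℕ} {l b : ℝ} (hl : 0 < l) (v w : Fin d → 𝓢(E d, ℝ)) {V W : E d → E d}
    (hv : ∀ x j, V x j = v j x) (hw : ∀ x j, W x j = w j x) {δ : ℝ} (hδ : 0 < δ) :
    2 * (∫ x, (inner ℝ (zt b x • V x) (pr k x) / √(‖pr k x‖ ^ 2 + δ ^ 2)) *
        (inner ℝ (zt b x • W x) (pr k x) / √(‖pr k x‖ ^ 2 + δ ^ 2)))
      - (∫ x, ∑ i, (pd i (fun z => inner ℝ (zt b z • W z) (pr k z) / √(‖pr k z‖ ^ 2 + δ ^ 2)) x) ^ 2)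
      - l * (∫ x, (inner ℝ (zt b x • W x) (pr k x) / √(‖pr k x‖ ^ 2 + δ ^ 2)) ^ 2) ≤
    ∫ p : E d × E d, Gl d l (p.1 - p.2) *
      ((inner ℝ (zt b p.1 • V p.1) (pr k p.1) / √(‖pr k p.1‖ ^ 2 + δ ^ 2)) *
       (inner ℝ (zt b p.2 • V p.2) (pr k p.2) / √(‖pr k p.2‖ ^ 2 + δ ^ 2))) := by
  obtain ⟨h, hh⟩ := pe_schw k b v hv hδ
  obtain ⟨g, hg⟩ := pe_schw k b w hw hδ
  have := legendre d hl h g
  rw [hg, hh] at this
  exact this

private theorem pf_cont {d : ℕ} (v : Fin d → 𝓢(E d, ℝ)) {V : E d → E d}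
    (hv : ∀ x j, V x j = v j x) : Continuous V := by
  have h1 : V = fun x => WithLp.toLp 2 (fun j => v j x) := by
    funext x
    ext j
    exact hv x j
  rw [h1]
  exact (PiLp.continuous_toLp 2 _).comp (continuous_pi fun j => (v j).continuous)

private theorem pf_le {d : ℕ} (v : Fin d → 𝓢(E d, ℝ)) {V : E d → E d}
    (hv : ∀ x j, V x j = v j x) (x : E d) : ‖V x‖ ≤ ∑ j, ‖v j x‖ := by
  have h1 : V x = ∑ j, v j x • (bv j : E d) := by
    ext i
    rw [hv]
    simp [bv, Pi.single_apply]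
  rw [h1]
  refine (norm_sum_le _ _).trans (Finset.sum_le_sum fun j _ => ?_)
  rw [norm_smul, bv, PiLp.norm_single]
  simp

private theorem pf_int {d : ℕ} (v : Fin d → 𝓢(E d, ℝ)) {V : E d → E d}
    (hv : ∀ x j, V x j = v j x) : Integrable (fun x => ‖V x‖) := by
  refine Integrable.mono' (g := fun x => ∑ j, ‖v j x‖)
    (integrable_finsetSum _ fun j _ => (v j).integrable.norm)
    (pf_cont v hv).norm.aestronglyMeasurable (Eventually.of_forall fun x => ?_)
  rw [norm_norm]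
  exact pf_le v hv x

private theorem pf_bd {d : ℕ} (v : Fin d → 𝓢(E d, ℝ)) {V : E d → E d}
    (hv : ∀ x j, V x j = v j x) : ∃ C : ℝ, ∀ x, ‖V x‖ ≤ C :=
  ⟨∑ j, SchwartzMap.seminorm ℝ 0 0 (v j), fun x => (pf_le v hv x).trans
    (Finset.sum_le_sum fun j _ => SchwartzMap.norm_le_seminorm ℝ (v j) x)⟩

private theorem pf_abs {d k : ℕ} (b : ℝ) (V : E d → E d) {δ : ℝ} (hδ : 0 < δ) (x : E d) :
    |inner ℝ (zt b x • V x) (pr k x) / √(‖pr k x‖ ^ 2 + δ ^ 2)| ≤ zt b x * ‖V x‖ := by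
  have h0 : 0 < √(‖pr k x‖ ^ 2 + δ ^ 2) := Real.sqrt_pos.2 (by positivity)
  rw [abs_div, abs_of_pos h0, div_le_iff₀ h0]
  refine (abs_real_inner_le_norm _ _).trans ?_
  rw [norm_smul, Real.norm_of_nonneg (zt_pos b x).le]
  refine mul_le_mul_of_nonneg_left ?_ (mul_nonneg (zt_pos b x).le (norm_nonneg _))
  exact Real.le_sqrt_of_sq_le (by nlinarith [sq_nonneg δ])

/-- MODULE pf. The right side of `leg_delta` is at most the integral of `G_l |ζV| |ζ'V'|`
(`|⟪a, pr⟫| ≤ ‖a‖ ‖pr‖ ≤ ‖a‖ √(..)`; integrability by `int_Gl`). -/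
theorem leg_rhs {d k : ℕ} {l b : ℝ} (hl : 0 < l) (v : Fin d → 𝓢(E d, ℝ)) {V : E d → E d}
    (hv : ∀ x j, V x j = v j x) (hb : 0 ≤ b) {δ : ℝ} (hδ : 0 < δ) :
    ∫ p : E d × E d, Gl d l (p.1 - p.2) *
      ((inner ℝ (zt b p.1 • V p.1) (pr k p.1) / √(‖pr k p.1‖ ^ 2 + δ ^ 2)) *
       (inner ℝ (zt b p.2 • V p.2) (pr k p.2) / √(‖pr k p.2‖ ^ 2 + δ ^ 2))) ≤
    ∫ p : E d × E d, Gl d l (p.1 - p.2) * (zt b p.1 * zt b p.2 * (‖V p.1‖ * ‖V p.2‖)) := by
  have hc := pf_cont v hv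
  have hz : Continuous (zt b : E d → ℝ) := (contDiff_zt b 0).continuous
  obtain ⟨C, hC⟩ := pf_bd v hv
  have hI : Integrable (fun p : E d × E d =>
      Gl d l (p.1 - p.2) * (zt b p.1 * zt b p.2 * (‖V p.1‖ * ‖V p.2‖))) := by
    refine int_Gl d hl (fun p => zt b p.1 * zt b p.2 * (‖V p.1‖ * ‖V p.2‖)) ?_
      (fun x => ‖V x‖ * C) ((pf_int v hv).mul_const C) ?_
    · exact (((hz.comp continuous_fst).mul (hz.comp continuous_snd)).mul
        ((hc.comp continuous_fst).norm.mul (hc.comp continuous_snd).norm)).aestronglyMeasurable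
    · intro p
      have h1 := zt_pos b p.1
      have h2 := zt_pos b p.2
      have h3 := zt_le_one hb p.1
      have h4 := zt_le_one hb p.2
      rw [abs_of_nonneg (by positivity)]
      have h5 : zt b p.1 * zt b p.2 ≤ 1 := mul_le_one₀ h3 h2.le h4
      calc zt b p.1 * zt b p.2 * (‖V p.1‖ * ‖V p.2‖) ≤ 1 * (‖V p.1‖ * ‖V p.2‖) :=
            mul_le_mul_of_nonneg_right h5 (by positivity)
        _ ≤ ‖V p.1‖ * C := by
            rw [one_mul]
            exact mul_le_mul_of_nonneg_left (hC p.2) (norm_nonneg _)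
  by_cases hJ : Integrable (fun p : E d × E d => Gl d l (p.1 - p.2) *
      ((inner ℝ (zt b p.1 • V p.1) (pr k p.1) / √(‖pr k p.1‖ ^ 2 + δ ^ 2)) *
       (inner ℝ (zt b p.2 • V p.2) (pr k p.2) / √(‖pr k p.2‖ ^ 2 + δ ^ 2))))
  · refine integral_mono hJ hI fun p => ?_
    refine mul_le_mul_of_nonneg_left ?_ (Gl_nonneg d l _)
    refine (le_abs_self _).trans ?_
    rw [abs_mul]
    calc _ ≤ (zt b p.1 * ‖V p.1‖) * (zt b p.2 * ‖V p.2‖) :=
          mul_le_mul (pf_abs b V hδ p.1) (pf_abs b V hδ p.2) (abs_nonneg _)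
            (mul_nonneg (zt_pos b _).le (norm_nonneg _))
      _ = _ := by ring
  · rw [integral_undef hJ]
    refine integral_nonneg fun p => mul_nonneg (Gl_nonneg d l _) ?_
    have h1 := zt_pos b p.1
    have h2 := zt_pos b p.2
    positivity

private theorem pg_schw {d : ℕ} (b : ℝ) (w : Fin d → 𝓢(E d, ℝ)) {W : E d → E d}
    (hw : ∀ x j, W x j = w j x) (j : Fin d) :
    ∃ u : 𝓢(E d, ℝ), (u : E d → ℝ) = fun z => zt b z * W z j := by
  refine ⟨SchwartzMap.smulLeftCLM ℝ (zt b) (w j), ?_⟩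
  rw [SchwartzMap.smulLeftCLM_apply (zt_temp b)]
  funext x
  rw [hw, smul_eq_mul]

private theorem pg_int {d : ℕ} (b : ℝ) (w : Fin d → 𝓢(E d, ℝ)) {W : E d → E d}
    (hw : ∀ x j, W x j = w j x) :
    Integrable (fun x => 4 * ∑ i : Fin d, ∑ j : Fin d, (pd i (fun z => zt b z * W z j) x) ^ 2) := by
  refine Integrable.const_mul (integrable_finsetSum _ fun i _ => integrable_finsetSum _ fun j _ => ?_) 4
  obtain ⟨u, hu⟩ := pg_schw b w hw j
  rw [← hu, pd_coe]
  exact ((∂_{bv i} u : 𝓢(E d, ℝ)).memLp 2 volume).integrable_sq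

private theorem pg_diff {d : ℕ} (b : ℝ) (w : Fin d → 𝓢(E d, ℝ)) {W : E d → E d}
    (hw : ∀ x j, W x j = w j x) : Differentiable ℝ (fun z => zt b z • W z) := by
  have h1 : W = fun x => WithLp.toLp 2 (fun j => w j x) := by
    funext x
    ext j
    exact hw x j
  have h2 : Differentiable ℝ W := by
    rw [h1]
    rw [differentiable_euclidean]
    exact fun j => (w j).differentiable
  exact ((contDiff_zt b 1).differentiable one_ne_zero).fun_smul h2

private theorem pg_tend {d k : ℕ} (b : ℝ) (V : E d → E d) {x : E d} (hx : pr k x ≠ 0) :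
    Tendsto (fun δ : ℝ => inner ℝ (zt b x • V x) (pr k x) / √(‖pr k x‖ ^ 2 + δ ^ 2)) (𝓝[>] 0)
      (𝓝 (inner ℝ (zt b x • V x) (pr k x) / ‖pr k x‖)) := by
  have h0 : 0 < ‖pr k x‖ := norm_pos_iff.2 hx
  have h1 : Tendsto (fun δ : ℝ => √(‖pr k x‖ ^ 2 + δ ^ 2)) (𝓝[>] 0) (𝓝 ‖pr k x‖) := by
    have h2 : Continuous (fun δ : ℝ => √(‖pr k x‖ ^ 2 + δ ^ 2)) := by fun_prop
    have h3 := h2.tendsto 0
    simp only [ne_eq, OfNat.ofNat_ne_zero, not_false_eq_true, zero_pow, add_zero,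
      Real.sqrt_sq h0.le] at h3
    exact h3.mono_left nhdsWithin_le_nhds
  exact tendsto_const_nhds.div h1 h0.ne'

private theorem pg_one {d k : ℕ} (h2 : 2 ≤ k) (hk : k ≤ d) {b : ℝ} (hb : 0 ≤ b) (v w : Fin d → 𝓢(E d, ℝ))
    {V W : E d → E d} (hv : ∀ x j, V x j = v j x) (hw : ∀ x j, W x j = w j x)
    (hpV : ∀ z, ∃ q : ℝ, V z = q • pr k z) (hpW : ∀ z, ∃ q : ℝ, W z = q • pr k z) :
    Tendsto (fun δ : ℝ => ∫ x, (inner ℝ (zt b x • V x) (pr k x) / √(‖pr k x‖ ^ 2 + δ ^ 2)) *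
        (inner ℝ (zt b x • W x) (pr k x) / √(‖pr k x‖ ^ 2 + δ ^ 2))) (𝓝[>] 0)
        (𝓝 (∫ x, zt b x ^ 2 * inner ℝ (V x) (W x))) := by
  obtain ⟨C, hC⟩ := pf_bd w hw
  refine tendsto_integral_filter_of_dominated_convergence (fun x => ‖V x‖ * C) ?_ ?_
    ((pf_int v hv).mul_const C) ?_
  · filter_upwards [self_mem_nhdsWithin] with δ hδ
    obtain ⟨h, hh⟩ := pe_schw k b v hv (show 0 < δ from hδ)
    obtain ⟨g, hg⟩ := pe_schw k b w hw (show 0 < δ from hδ)
    have h3 : Continuous (fun x => (h : E d → ℝ) x * g x) := h.continuous.mul g.continuous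
    rw [hh, hg] at h3
    exact h3.aestronglyMeasurable
  · filter_upwards [self_mem_nhdsWithin] with δ hδ
    refine Eventually.of_forall fun x => ?_
    rw [Real.norm_eq_abs, abs_mul]
    have h3 := zt_pos b x
    have h4 := zt_le_one hb x
    refine mul_le_mul ((pf_abs b V hδ x).trans ?_) ((pf_abs b W hδ x).trans ?_) (abs_nonneg _)
      (norm_nonneg _)
    · exact mul_le_of_le_one_left (norm_nonneg _) h4
    · exact (mul_le_of_le_one_left (norm_nonneg _) h4).trans (hC x)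
  · have h3 : ∀ᵐ x : E d, pr k x ≠ 0 := by
      rw [ae_iff]
      simpa using pr_null (d := d) (k := k) (by omega) (by omega)
    filter_upwards [h3] with x hx
    have h4 := (pg_tend b V hx).mul (pg_tend b W hx)
    have h5 : inner ℝ (zt b x • V x) (pr k x) / ‖pr k x‖ *
        (inner ℝ (zt b x • W x) (pr k x) / ‖pr k x‖) = zt b x ^ 2 * inner ℝ (V x) (W x) := by
      have h6 := (par_inner (hpV x) (hpW x) hx).1
      have h0 : ‖pr k x‖ ≠ 0 := (norm_pos_iff.2 hx).ne'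
      rw [real_inner_smul_left, real_inner_smul_left]
      field_simp
      linear_combination (zt b x ^ 2) * h6
    rw [h5] at h4
    exact h4

/-- MODULE pg. Limits `δ → 0` (along `𝓝[>] 0`) of the three integrals on the left of `leg_delta`, by dominated convergence
(`par_inner`, `reg_lim`, `reg_bound`, `Dd_int`, `pr_null`; bounds `‖ζV‖‖ζW‖`, `‖ζW‖^2`, `4∑∑(∂_i(ζW_j))^2`). -/
theorem leg_lim {d k : ℕ} (h2 : 2 ≤ k) (hk : k ≤ d) {b : ℝ} (hb : 0 ≤ b) (v w : Fin d → 𝓢(E d, ℝ))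
    {V W : E d → E d} (hv : ∀ x j, V x j = v j x) (hw : ∀ x j, W x j = w j x)
    (hpV : ∀ z, ∃ q : ℝ, V z = q • pr k z) (hpW : ∀ z, ∃ q : ℝ, W z = q • pr k z) :
    Tendsto (fun δ : ℝ => ∫ x, (inner ℝ (zt b x • V x) (pr k x) / √(‖pr k x‖ ^ 2 + δ ^ 2)) *
        (inner ℝ (zt b x • W x) (pr k x) / √(‖pr k x‖ ^ 2 + δ ^ 2))) (𝓝[>] 0)
        (𝓝 (∫ x, zt b x ^ 2 * inner ℝ (V x) (W x))) ∧
    Tendsto (fun δ : ℝ => ∫ x, ∑ i, (pd i (fun z => inner ℝ (zt b z • W z) (pr k z) / √(‖pr k z‖ ^ 2 + δ ^ 2)) x) ^ 2)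
        (𝓝[>] 0) (𝓝 (∫ x, Dd k b W x)) ∧
    Tendsto (fun δ : ℝ => ∫ x, (inner ℝ (zt b x • W x) (pr k x) / √(‖pr k x‖ ^ 2 + δ ^ 2)) ^ 2) (𝓝[>] 0)
        (𝓝 (∫ x, ‖zt b x • W x‖ ^ 2)) := by
  refine ⟨pg_one h2 hk hb v w hv hw hpV hpW, ?_, ?_⟩
  · have hY := pg_diff b w hw
    have hpY : ∀ z, ∃ q : ℝ, zt b z • W z = q • pr k z := by
      intro z
      obtain ⟨q, hq⟩ := hpW z
      exact ⟨zt b z * q, by rw [hq, smul_smul]⟩
    have h3 : ∀ᵐ x : E d, pr k x ≠ 0 := by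
      rw [ae_iff]
      simpa using pr_null (d := d) (k := k) (by omega) (by omega)
    refine tendsto_integral_filter_of_dominated_convergence
      (fun x => 4 * ∑ i : Fin d, ∑ j : Fin d, (pd i (fun z => zt b z * W z j) x) ^ 2) ?_ ?_
      (pg_int b w hw) ?_
    · filter_upwards [self_mem_nhdsWithin] with δ hδ
      obtain ⟨g, hg⟩ := pe_schw k b w hw (show 0 < δ from hδ)
      have h4 : Continuous (fun x => ∑ i : Fin d, (pd i (g : E d → ℝ) x) ^ 2) := by
        refine continuous_finsetSum _ fun i _ => ?_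
        rw [pd_coe]
        exact (∂_{bv i} g : 𝓢(E d, ℝ)).continuous.pow 2
      rw [hg] at h4
      exact h4.aestronglyMeasurable
    · filter_upwards [self_mem_nhdsWithin] with δ hδ
      filter_upwards [h3] with x hx
      rw [Real.norm_of_nonneg (Finset.sum_nonneg fun i _ => sq_nonneg _)]
      exact reg_bound h2 hk hY hpY hx hδ
    · filter_upwards [h3] with x hx
      rw [(Dd_int h2 hk w hw hpW (b := b)).2 x hx]
      exact tendsto_finsetSum _ fun i _ => (reg_lim hk hY hpY hx i).pow 2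
  · have h4 := pg_one h2 hk hb w w hw hw hpW hpW
    have h5 : (fun x : E d => zt b x ^ 2 * inner ℝ (W x) (W x)) = fun x => ‖zt b x • W x‖ ^ 2 := by
      funext x
      rw [real_inner_self_eq_norm_sq, norm_smul, Real.norm_of_nonneg (zt_pos b x).le, mul_pow]
    rw [h5] at h4
    refine h4.congr fun δ => ?_
    simp only [pow_two]

/-- MODULE ph. (P_l) for smooth `V`. Proof: `exists_res` for each component gives `w`, `W`; `equi_conv`, `equi_par`;
`A ≥ ∫ Dd + l ∫ |ζW|^2` (`A_lower`), `2A - ∫ Dd - l ∫ |ζW|^2 ≤ ∫ G_l ζζ'|V||V'|` (`leg_delta`, `leg_rhs`, `leg_lim`); `A_ker`. -/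
theorem posl_smooth {d k : ℕ} (h2 : 2 ≤ k) (hk : k ≤ d) {l b : ℝ} (hl : 0 < l) (hb0 : 0 ≤ b)
    (hb : b ^ 2 ≤ (k : ℝ) - 1) {V : E d → E d} (hV : ContDiff ℝ ∞ V) (hs : HasCompactSupport V) (he : Equi k V) :
    0 ≤ ∫ p : E d × E d, Gl d l (p.1 - p.2) * Ph b V p := by
  have hcj : ∀ j, ContDiff ℝ ∞ (fun x => V x j) := fun j =>
    (EuclideanSpace.proj (𝕜 := ℝ) j).contDiff.comp hV
  have hsj : ∀ j, HasCompactSupport (fun x => V x j) := fun j =>
    hs.comp_left (g := fun v : E d => v j) rfl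
  set v : Fin d → 𝓢(E d, ℝ) := fun j => (hsj j).toSchwartzMap (hcj j) with hvdef
  have hv : ∀ x j, V x j = v j x := fun x j => rfl
  choose w hw1 hw2 using fun j => exists_res d hl (v j)
  set W : E d → E d := fun x => WithLp.toLp 2 (fun j => w j x) with hWdef
  have hw : ∀ x j, W x j = w j x := fun x j => rfl
  have hWk : ∀ x j, W x j = ∫ y : E d, Gl d l (x - y) * V y j := fun x j => by
    rw [hw, hw2]; rfl
  have hEW : Equi k W := equi_conv hl hV.continuous hs he hWk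
  have hpV := equi_par he
  have hpW := equi_par hEW
  have h1 := A_lower h2 hk hl hb w hw hpW (V := V) (fun x j => by rw [hw1 j x]; rfl)
  have h3 : 2 * (∫ x, zt b x ^ 2 * inner ℝ (V x) (W x)) - (∫ x, Dd k b W x)
      - l * (∫ x, ‖zt b x • W x‖ ^ 2) ≤
      ∫ p : E d × E d, Gl d l (p.1 - p.2) * (zt b p.1 * zt b p.2 * (‖V p.1‖ * ‖V p.2‖)) := by
    obtain ⟨l1, l2, l3⟩ := leg_lim h2 hk hb0 v w hv hw hpV hpW
    refine le_of_tendsto (((l1.const_mul 2).sub l2).sub (l3.const_mul l)) ?_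
    filter_upwards [self_mem_nhdsWithin] with δ hδ
    exact (leg_delta hl v w hv hw hδ).trans (leg_rhs hl v hv hb0 hδ)
  have h4 := A_ker hl hb0 hV.continuous hs hWk
  obtain ⟨C, hC⟩ := hs.exists_bound_of_continuous hV.continuous
  have hC0 : 0 ≤ C := (norm_nonneg _).trans (hC 0)
  have hVi : Integrable (fun x => C * ‖V x‖) :=
    ((hV.continuous.integrable_of_hasCompactSupport hs).norm).const_mul C
  have hz : Continuous (zt b : E d → ℝ) := (contDiff_zt b 0).continuous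
  have hc := hV.continuous
  have i1 : Integrable (fun p : E d × E d => Gl d l (p.1 - p.2) *
      (zt b p.1 * zt b p.2 * (‖V p.1‖ * ‖V p.2‖))) := by
    refine int_Gl d hl _ ?_ _ hVi fun p => ?_
    · exact Continuous.aestronglyMeasurable (by fun_prop)
    · have z1 := zt_le_one hb0 p.1
      have z2 := zt_le_one hb0 p.2
      have z3 := (zt_pos b p.1).le
      have z4 := (zt_pos b p.2).le
      rw [abs_of_nonneg (by positivity)]
      calc zt b p.1 * zt b p.2 * (‖V p.1‖ * ‖V p.2‖) ≤ 1 * 1 * (‖V p.1‖ * C) := by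
            gcongr
            exact hC _
        _ = C * ‖V p.1‖ := by ring
  have i2 : Integrable (fun p : E d × E d => Gl d l (p.1 - p.2) *
      ((1 / 2) * (zt b p.1 ^ 2 + zt b p.2 ^ 2) * inner ℝ (V p.1) (V p.2))) := by
    refine int_Gl d hl _ ?_ _ hVi fun p => ?_
    · exact Continuous.aestronglyMeasurable (by fun_prop)
    · have z1 := zt_le_one hb0 p.1
      have z2 := zt_le_one hb0 p.2
      have z3 := (zt_pos b p.1).le
      have z4 := (zt_pos b p.2).le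
      rw [abs_mul, abs_of_nonneg (by positivity)]
      calc 1 / 2 * (zt b p.1 ^ 2 + zt b p.2 ^ 2) * |inner ℝ (V p.1) (V p.2)|
          ≤ 1 / 2 * (1 ^ 2 + 1 ^ 2) * (‖V p.1‖ * ‖V p.2‖) := by
            gcongr
            exact abs_real_inner_le_norm _ _
        _ ≤ 1 / 2 * (1 ^ 2 + 1 ^ 2) * (‖V p.1‖ * C) := by
            gcongr
            exact hC _
        _ = C * ‖V p.1‖ := by ring
  have h5 : ∫ p : E d × E d, Gl d l (p.1 - p.2) * Ph b V p =
      (∫ p : E d × E d, Gl d l (p.1 - p.2) * (zt b p.1 * zt b p.2 * (‖V p.1‖ * ‖V p.2‖))) -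
      ∫ p : E d × E d, Gl d l (p.1 - p.2) *
        ((1 / 2) * (zt b p.1 ^ 2 + zt b p.2 ^ 2) * inner ℝ (V p.1) (V p.2)) := by
    rw [← integral_sub i1 i2]
    refine integral_congr_ae (Filter.Eventually.of_forall fun p => ?_)
    simp only [Ph]
    ring
  rw [h5, ← h4]
  linarith

private theorem pi_phi0 (d n : ℕ) : ∃ φ : E d → ℝ, ContDiff ℝ ∞ φ ∧ (∀ z, 0 ≤ φ z) ∧
    (∀ z, φ z ≠ 0 → ‖z‖ < 1 / ((n : ℝ) + 1)) ∧ (∀ z z', ‖z‖ = ‖z'‖ → φ z = φ z') ∧
    HasCompactSupport φ ∧ φ 0 ≠ 0 := by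
  have hn : (0 : ℝ) < (n : ℝ) + 1 := by positivity
  have h3 : ∀ z : E d, Real.smoothTransition (1 - ‖((n : ℝ) + 1) • z‖ ^ 2) ≠ 0 →
      ‖z‖ < 1 / ((n : ℝ) + 1) := by
    intro z hz
    by_contra hc
    apply hz
    apply Real.smoothTransition.zero_of_nonpos
    rw [not_lt, div_le_iff₀ hn] at hc
    have h4 : ‖((n : ℝ) + 1) • z‖ = ‖z‖ * ((n : ℝ) + 1) := by
      rw [norm_smul, Real.norm_of_nonneg hn.le, mul_comm]
    rw [h4]
    nlinarith
  refine ⟨fun z => Real.smoothTransition (1 - ‖((n : ℝ) + 1) • z‖ ^ 2), ?_, ?_, h3, ?_, ?_, ?_⟩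
  · refine Real.smoothTransition.contDiff.comp ?_
    exact contDiff_const.sub ((contDiff_const_smul _).norm_sq ℝ)
  · exact fun z => Real.smoothTransition.nonneg _
  · intro z z' h
    simp only [norm_smul, h]
  · refine HasCompactSupport.intro (isCompact_closedBall (0 : E d) 1) fun z hz => ?_
    by_contra hc
    apply hz
    rw [mem_closedBall_zero_iff]
    refine (h3 z hc).le.trans ?_
    rw [div_le_one hn]
    linarith [(Nat.cast_nonneg n : (0 : ℝ) ≤ n)]
  · refine (Real.smoothTransition.pos_of_pos ?_).ne'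
    simp

private theorem pi_phi (d n : ℕ) : ∃ φ : E d → ℝ, ContDiff ℝ ∞ φ ∧ (∀ z, 0 ≤ φ z) ∧
    (∀ z, φ z ≠ 0 → ‖z‖ < 1 / ((n : ℝ) + 1)) ∧ (∀ z z', ‖z‖ = ‖z'‖ → φ z = φ z') ∧
    HasCompactSupport φ ∧ ∫ z, φ z = 1 := by
  obtain ⟨φ, h1, h2, h3, h5, h4, h0⟩ := pi_phi0 d n
  have h6 : 0 < ∫ z, φ z :=
    Continuous.integral_pos_of_hasCompactSupport_nonneg_nonzero h1.continuous h4 h2 h0
  refine ⟨fun z => (∫ z, φ z)⁻¹ * φ z, contDiff_const.mul h1,
    fun z => mul_nonneg (inv_nonneg.2 h6.le) (h2 z), ?_, ?_, ?_, ?_⟩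
  · intro z hz
    exact h3 z (right_ne_zero_of_mul hz)
  · intro z z' h
    simp only [h5 z z' h]
  · exact h4.mul_left
  · rw [integral_const_mul, inv_mul_cancel₀ h6.ne']

/-- MODULE pi. Mollification. `V_n x = ∫ φ(z) • V (x - z/(n+1)) dz / ∫ φ`, `φ z = Real.smoothTransition (1 - ‖z‖^2)`
(radial, supported in the unit ball): smooth (`V_n x = c_n ∫ φ((n+1)(x-y)) V y dy`,
`HasCompactSupport.contDiff_convolution_left` or similar), equivariant (substitute `z ↦ g z`), bounded by `sup ‖V‖`,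
supported in a ball of radius `ρ + 1`, pointwise convergence. -/
theorem exists_moll {d k : ℕ} {V : E d → E d} (hc : Continuous V) (hs : HasCompactSupport V) (he : Equi k V) :
    ∃ Vn : ℕ → E d → E d, (∀ n, ContDiff ℝ ∞ (Vn n)) ∧ (∀ n, HasCompactSupport (Vn n)) ∧ (∀ n, Equi k (Vn n)) ∧
      (∃ C ρ : ℝ, ∀ n x, ‖Vn n x‖ ≤ C ∧ (ρ ≤ ‖x‖ → Vn n x = 0)) ∧
      ∀ x, Tendsto (fun n => Vn n x) atTop (𝓝 (V x)) := by
  choose φ h1 h2 h3 h4 h5 h6 using pi_phi d
  have hI : ∀ n x, Integrable (fun z => φ n z • V (x - z)) := by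
    intro n x
    refine Continuous.integrable_of_hasCompactSupport ?_ (h5 n).smul_right
    exact (h1 n).continuous.smul (hc.comp (continuous_const.sub continuous_id))
  have hφI : ∀ n, Integrable (φ n) := fun n =>
    (h1 n).continuous.integrable_of_hasCompactSupport (h5 n)
  refine ⟨fun n => convolution (φ n) V (ContinuousLinearMap.lsmul ℝ ℝ) volume, ?_, ?_, ?_, ?_, ?_⟩
  · intro n
    exact (h5 n).contDiff_convolution_left _ (h1 n) hc.locallyIntegrable
  · intro n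
    exact (h5 n).convolution _ hs
  · intro n
    refine ⟨fun g hg x => ?_, fun x => ?_⟩
    · change (∫ z, φ n z • V (g x - z)) = g (∫ z, φ n z • V (x - z))
      have e3 : ∫ z, φ n (g z) • V (g x - g z) = ∫ z, φ n z • V (g x - z) :=
        (g.measurePreserving).integral_comp g.toMeasurableEquiv.measurableEmbedding
          (fun z => φ n z • V (g x - z))
      rw [← e3]
      have e4 : ∀ z, φ n (g z) • V (g x - g z) = g (φ n z • V (x - z)) := by
        intro z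
        rw [h4 n (g z) z (g.norm_map z), ← map_sub, he.1 g hg, map_smul]
      simp only [e4]
      exact ContinuousLinearMap.integral_comp_comm (g.toContinuousLinearEquiv : E d →L[ℝ] E d) (hI n x)
    · obtain ⟨L, hL⟩ := exists_prL d k
      change pr k (∫ z, φ n z • V (x - z)) = ∫ z, φ n z • V (x - z)
      rw [← hL, ← L.integral_comp_comm (hI n x)]
      congr 1
      funext z
      rw [map_smul, hL, he.2]
  · obtain ⟨C, hC⟩ := hs.exists_bound_of_continuous hc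
    obtain ⟨ρ, hρ⟩ := hs.isCompact.isBounded.exists_norm_le
    refine ⟨C, ρ + 2, fun n x => ⟨?_, fun hx => ?_⟩⟩
    · change ‖∫ z, φ n z • V (x - z)‖ ≤ C
      calc ‖∫ z, φ n z • V (x - z)‖ ≤ ∫ z, φ n z * C := by
            refine norm_integral_le_of_norm_le ((hφI n).mul_const C) (Eventually.of_forall fun z => ?_)
            rw [norm_smul, Real.norm_of_nonneg (h2 n z)]
            exact mul_le_mul_of_nonneg_left (hC _) (h2 n z)
        _ = C := by rw [integral_mul_const, h6 n, one_mul]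
    · change (∫ z, φ n z • V (x - z)) = 0
      have e3 : ∀ z, φ n z • V (x - z) = 0 := by
        intro z
        by_cases hz : φ n z = 0
        · rw [hz, zero_smul]
        · have e4 : ‖z‖ < 1 / ((n : ℝ) + 1) := h3 n z hz
          have e5 : (1 : ℝ) / ((n : ℝ) + 1) ≤ 1 := by
            rw [div_le_one (by positivity)]
            linarith [(Nat.cast_nonneg n : (0 : ℝ) ≤ n)]
          have e6 : V (x - z) = 0 := by
            by_contra hne
            have e7 := hρ (x - z) (subset_tsupport _ hne)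
            have e8 := norm_sub_norm_le x z
            linarith
          rw [e6, smul_zero]
      simp only [e3, integral_zero]
  · intro x
    refine convolution_tendsto_right (g := fun _ => V) (k := fun _ => x) (x₀ := x)
      (Eventually.of_forall h2) (Eventually.of_forall h6) ?_
      (Eventually.of_forall fun _ => hc.aestronglyMeasurable) ?_ tendsto_const_nhds
    · rw [tendsto_smallSets_iff]
      intro t ht
      obtain ⟨ε, hε, hεt⟩ := Metric.mem_nhds_iff.1 ht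
      have e1 : ∀ᶠ n : ℕ in atTop, 1 / ((n : ℝ) + 1) < ε :=
        (tendsto_one_div_add_atTop_nhds_zero_nat (𝕜 := ℝ)).eventually_lt_const hε
      filter_upwards [e1] with n hn z hz
      apply hεt
      rw [mem_ball_zero_iff]
      exact (h3 n z hz).trans hn
    · exact (hc.tendsto x).comp tendsto_snd

/-- MODULE pj. (P_l) for continuous `V`: dominated convergence, `int_Gl` with the bound `2 C^2 1_{|x| ≤ ρ}`. -/
theorem posl {d k : ℕ} (h2 : 2 ≤ k) (hk : k ≤ d) {l b : ℝ} (hl : 0 < l) (hb0 : 0 ≤ b)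
    (hb : b ^ 2 ≤ (k : ℝ) - 1) {V : E d → E d} (hV : Continuous V) (hs : HasCompactSupport V) (he : Equi k V) :
    0 ≤ ∫ p : E d × E d, Gl d l (p.1 - p.2) * Ph b V p := by
  obtain ⟨Vn, hn1, hn2, hn3, ⟨C, ρ, hCρ⟩, hlim⟩ := exists_moll hV hs he
  have hC0 : 0 ≤ C := (norm_nonneg _).trans (hCρ 0 0).1
  have hz : Continuous (zt b : E d → ℝ) := (contDiff_zt b 0).continuous
  have hmG : Measurable (fun p : E d × E d => Gl d l (p.1 - p.2)) :=
    (measurable_Gl2 d).comp (measurable_const.prodMk (measurable_fst.sub measurable_snd))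
  have hbd : Integrable (fun p : E d × E d => Gl d l (p.1 - p.2) *
      ((Metric.ball (0 : E d) ρ).indicator (fun _ => 2 * C ^ 2) p.1)) := by
    refine int_Gl d hl (fun p => (Metric.ball (0 : E d) ρ).indicator (fun _ => 2 * C ^ 2) p.1) ?_
      ((Metric.ball (0 : E d) ρ).indicator (fun _ => 2 * C ^ 2)) ?_ ?_
    · exact ((measurable_const.indicator Metric.isOpen_ball.measurableSet).comp
        measurable_fst).aestronglyMeasurable
    · exact (integrable_indicator_iff Metric.isOpen_ball.measurableSet).2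
        (integrableOn_const measure_ball_lt_top.ne enorm_ne_top)
    · intro p
      rw [abs_of_nonneg]
      exact Set.indicator_nonneg (fun _ _ => by positivity) _
  have hT : Tendsto (fun n => ∫ p : E d × E d, Gl d l (p.1 - p.2) * Ph b (Vn n) p) atTop
      (𝓝 (∫ p : E d × E d, Gl d l (p.1 - p.2) * Ph b V p)) := by
    refine tendsto_integral_of_dominated_convergence _ (fun n => ?_) hbd (fun n => ?_) ?_
    · have hc := (hn1 n).continuous
      refine hmG.aestronglyMeasurable.mul (Continuous.aestronglyMeasurable ?_)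
      unfold Ph
      fun_prop
    · refine Filter.Eventually.of_forall fun p => ?_
      rw [norm_mul, Real.norm_of_nonneg (Gl_nonneg d l _), Real.norm_eq_abs]
      refine mul_le_mul_of_nonneg_left ?_ (Gl_nonneg d l _)
      by_cases hp : p.1 ∈ Metric.ball (0 : E d) ρ
      · rw [Set.indicator_of_mem hp]
        have z1 := zt_le_one hb0 p.1
        have z2 := zt_le_one hb0 p.2
        have z3 := (zt_pos b p.1).le
        have z4 := (zt_pos b p.2).le
        have c1 := (hCρ n p.1).1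
        have c2 := (hCρ n p.2).1
        unfold Ph
        refine (abs_sub _ _).trans ?_
        rw [abs_mul (1 / 2 * _), abs_of_nonneg (show 0 ≤ zt b p.1 * zt b p.2 * (‖Vn n p.1‖ * ‖Vn n p.2‖) by positivity),
          abs_of_nonneg (show 0 ≤ 1 / 2 * (zt b p.1 ^ 2 + zt b p.2 ^ 2) by positivity)]
        calc zt b p.1 * zt b p.2 * (‖Vn n p.1‖ * ‖Vn n p.2‖) +
            1 / 2 * (zt b p.1 ^ 2 + zt b p.2 ^ 2) * |inner ℝ (Vn n p.1) (Vn n p.2)|
            ≤ 1 * 1 * (C * C) + 1 / 2 * (1 ^ 2 + 1 ^ 2) * (C * C) := by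
              gcongr
              exact (abs_real_inner_le_norm _ _).trans (mul_le_mul c1 c2 (norm_nonneg _) hC0)
          _ = 2 * C ^ 2 := by ring
      · have h0 : Vn n p.1 = 0 := (hCρ n p.1).2 (by simpa using hp)
        rw [Set.indicator_of_notMem hp]
        simp [Ph, h0]
    · refine Filter.Eventually.of_forall fun p => ?_
      refine Tendsto.const_mul _ ?_
      unfold Ph
      have t1 := hlim p.1
      have t2 := hlim p.2
      exact ((t1.norm.mul t2.norm).const_mul _).sub ((t1.inner t2).const_mul _)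
  exact ge_of_tendsto' hT fun n => posl_smooth h2 hk hl hb0 hb (hn1 n) (hn2 n) (hn3 n)

private theorem pk_zt_pos {d : ℕ} (b : ℝ) (x : E d) : 0 < zt b x := by
  unfold zt; positivity

private theorem pk_zt_le {d : ℕ} {b : ℝ} (hb : 0 ≤ b) (x : E d) : zt b x ≤ 1 := by
  unfold zt
  exact Real.rpow_le_one_of_one_le_of_nonpos (by nlinarith [sq_nonneg ‖x‖]) (by linarith)

private theorem pk_lip {b : ℝ} (hb : 0 ≤ b) (r t : ℝ) :
    |(1 + r ^ 2) ^ (-(b / 2)) - (1 + t ^ 2) ^ (-(b / 2))| ≤ b * |r - t| := by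
  have hd : ∀ x : ℝ, HasDerivAt (fun r : ℝ => (1 + r ^ 2) ^ (-(b / 2)))
      ((2 * x) * (-(b / 2)) * (1 + x ^ 2) ^ (-(b / 2) - 1)) x := by
    intro x
    have h1 : HasDerivAt (fun r : ℝ => 1 + r ^ 2) (2 * x) x := by
      have := (hasDerivAt_pow 2 x).const_add 1
      simpa using this
    have h2 := h1.rpow_const (p := -(b / 2)) (Or.inl (by positivity))
    exact h2
  have hbd : ∀ x ∈ (univ : Set ℝ), ‖(2 * x) * (-(b / 2)) * (1 + x ^ 2) ^ (-(b / 2) - 1)‖ ≤ b := by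
    intro x _
    rw [Real.norm_eq_abs, abs_mul, abs_mul, abs_neg, abs_of_nonneg (by positivity : 0 ≤ b / 2),
      abs_of_nonneg (by positivity : 0 ≤ (1 + x ^ 2) ^ (-(b / 2) - 1))]
    have h1 : (1 + x ^ 2) ^ (-(b / 2) - 1) ≤ (1 + x ^ 2)⁻¹ := by
      rw [← Real.rpow_neg_one]
      exact Real.rpow_le_rpow_of_exponent_le (by nlinarith [sq_nonneg x]) (by linarith)
    have h2 : |2 * x| * (1 + x ^ 2)⁻¹ ≤ 1 := by
      rw [← div_eq_mul_inv, div_le_one (by positivity), abs_mul, abs_of_pos (by norm_num : (0:ℝ) < 2)]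
      nlinarith [sq_nonneg (|x| - 1), sq_abs x]
    have h3 : 0 ≤ |2 * x| := abs_nonneg _
    calc |2 * x| * (b / 2) * (1 + x ^ 2) ^ (-(b / 2) - 1)
        ≤ |2 * x| * (b / 2) * (1 + x ^ 2)⁻¹ := by
          apply mul_le_mul_of_nonneg_left h1 (by positivity)
      _ = (|2 * x| * (1 + x ^ 2)⁻¹) * (b / 2) := by ring
      _ ≤ 1 * (b / 2) := by apply mul_le_mul_of_nonneg_right h2 (by positivity)
      _ ≤ b := by linarith
  have := (convex_univ (𝕜 := ℝ) (E := ℝ)).norm_image_sub_le_of_norm_hasDerivWithin_le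
    (f := fun r : ℝ => (1 + r ^ 2) ^ (-(b / 2))) (fun x hx => (hd x).hasDerivWithinAt) hbd
    (mem_univ t) (mem_univ r)
  simpa [Real.norm_eq_abs] using this

private theorem pk_zt_lip {d : ℕ} {b : ℝ} (hb : 0 ≤ b) (x y : E d) :
    |zt b x - zt b y| ≤ b * ‖x - y‖ := by
  unfold zt
  exact (pk_lip hb ‖x‖ ‖y‖).trans (mul_le_mul_of_nonneg_left (abs_norm_sub_norm_le x y) hb)

/-- MODULE pk. For Lipschitz `V` with compact support, `Ph` is `O(min(1,|x-y|^2))`: write
`Ph = ζζ'(|V||V'| - V·V') - (1/2)(ζ-ζ')^2 V·V'` and `|V||V'| - V·V' = (1/2)(|V-V'|^2 - (|V|-|V'|)^2) ≤ (1/2)|V-V'|^2`. -/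
theorem Ph_bound {d : ℕ} {b : ℝ} (hb0 : 0 ≤ b) {V : E d → E d} (hL : ∃ L, LipschitzWith L V)
    (hs : HasCompactSupport V) :
    ∃ C ρ : ℝ, 0 ≤ C ∧ ∀ p : E d × E d, |Ph b V p| ≤ C * min 1 (‖p.1 - p.2‖ ^ 2) *
      ((Metric.closedBall (0 : E d) ρ).indicator (fun _ => (1 : ℝ)) p.1 +
       (Metric.closedBall (0 : E d) ρ).indicator (fun _ => (1 : ℝ)) p.2) := by
  obtain ⟨L, hL⟩ := hL
  obtain ⟨M, hM⟩ := hs.exists_bound_of_continuous hL.continuous
  have hM0 : 0 ≤ M := (norm_nonneg _).trans (hM 0)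
  obtain ⟨ρ, hρ⟩ := hs.isCompact.isBounded.subset_closedBall (0 : E d)
  have hV0 : ∀ x, x ∉ Metric.closedBall (0 : E d) ρ → V x = 0 := by
    intro x hx
    by_contra h
    exact hx (hρ (subset_tsupport V h))
  set C : ℝ := (1 / 2) * (L : ℝ) ^ 2 + (1 / 2) * b ^ 2 * M ^ 2 + 2 * M ^ 2 with hC
  have hC0 : 0 ≤ C := by positivity
  refine ⟨C, ρ, hC0, fun p => ?_⟩
  by_cases h1 : p.1 ∈ Metric.closedBall (0 : E d) ρ
  swap
  · have : Ph b V p = 0 := by simp [Ph, hV0 _ h1]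
    rw [this, abs_zero]
    have hi : ∀ q : E d, 0 ≤ (Metric.closedBall (0 : E d) ρ).indicator (fun _ => (1 : ℝ)) q :=
      fun q => indicator_nonneg (fun _ _ => zero_le_one) q
    have := hi p.1
    have := hi p.2
    positivity
  by_cases h2 : p.2 ∈ Metric.closedBall (0 : E d) ρ
  swap
  · have : Ph b V p = 0 := by simp [Ph, hV0 _ h2]
    rw [this, abs_zero]
    have hi : ∀ q : E d, 0 ≤ (Metric.closedBall (0 : E d) ρ).indicator (fun _ => (1 : ℝ)) q :=
      fun q => indicator_nonneg (fun _ _ => zero_le_one) q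
    have := hi p.1
    have := hi p.2
    positivity
  rw [indicator_of_mem h1, indicator_of_mem h2]
  have hz1 := pk_zt_pos b p.1
  have hz2 := pk_zt_pos b p.2
  have hz1' := pk_zt_le hb0 p.1
  have hz2' := pk_zt_le hb0 p.2
  have hzl := pk_zt_lip hb0 p.1 p.2
  have hI : |inner ℝ (V p.1) (V p.2)| ≤ ‖V p.1‖ * ‖V p.2‖ := abs_real_inner_le_norm _ _
  have hV1 := hM p.1
  have hV2 := hM p.2
  have hV1' := norm_nonneg (V p.1)
  have hV2' := norm_nonneg (V p.2)
  have hVV : ‖V p.1‖ * ‖V p.2‖ ≤ M ^ 2 := by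
    rw [sq]; exact mul_le_mul hV1 hV2 hV2' hM0
  have hVV0 : 0 ≤ ‖V p.1‖ * ‖V p.2‖ := by positivity
  have hlip : ‖V p.1 - V p.2‖ ≤ L * ‖p.1 - p.2‖ := by
    simpa [dist_eq_norm] using hL.dist_le_mul p.1 p.2
  -- the first factor
  have hsq : ‖V p.1 - V p.2‖ ^ 2 = ‖V p.1‖ ^ 2 - 2 * inner ℝ (V p.1) (V p.2) + ‖V p.2‖ ^ 2 :=
    norm_sub_sq_real _ _
  have hA0 : 0 ≤ ‖V p.1‖ * ‖V p.2‖ - inner ℝ (V p.1) (V p.2) := by
    have := le_abs_self (inner ℝ (V p.1) (V p.2)); linarith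
  have hA : ‖V p.1‖ * ‖V p.2‖ - inner ℝ (V p.1) (V p.2) ≤ (1 / 2) * ‖V p.1 - V p.2‖ ^ 2 := by
    rw [hsq]; nlinarith [sq_nonneg (‖V p.1‖ - ‖V p.2‖)]
  have hid : Ph b V p = zt b p.1 * zt b p.2 * (‖V p.1‖ * ‖V p.2‖ - inner ℝ (V p.1) (V p.2)) -
      (1 / 2) * (zt b p.1 - zt b p.2) ^ 2 * inner ℝ (V p.1) (V p.2) := by
    unfold Ph; ring
  have hzz : zt b p.1 * zt b p.2 ≤ 1 := by nlinarith
  have hzz0 : 0 ≤ zt b p.1 * zt b p.2 := by positivity
  have hb1 : |Ph b V p| ≤ ((1 / 2) * (L : ℝ) ^ 2 + (1 / 2) * b ^ 2 * M ^ 2) * ‖p.1 - p.2‖ ^ 2 := by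
    rw [hid]
    refine (abs_sub _ _).trans ?_
    have e1 : |zt b p.1 * zt b p.2 * (‖V p.1‖ * ‖V p.2‖ - inner ℝ (V p.1) (V p.2))| ≤
        (1 / 2) * (L : ℝ) ^ 2 * ‖p.1 - p.2‖ ^ 2 := by
      rw [abs_of_nonneg (by positivity)]
      calc zt b p.1 * zt b p.2 * (‖V p.1‖ * ‖V p.2‖ - inner ℝ (V p.1) (V p.2))
          ≤ 1 * ((1 / 2) * ‖V p.1 - V p.2‖ ^ 2) := by
            apply mul_le_mul hzz hA hA0 (by norm_num)
        _ ≤ 1 * ((1 / 2) * (L * ‖p.1 - p.2‖) ^ 2) := by gcongr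
        _ = (1 / 2) * (L : ℝ) ^ 2 * ‖p.1 - p.2‖ ^ 2 := by ring
    have e2 : |(1 / 2) * (zt b p.1 - zt b p.2) ^ 2 * inner ℝ (V p.1) (V p.2)| ≤
        (1 / 2) * b ^ 2 * M ^ 2 * ‖p.1 - p.2‖ ^ 2 := by
      rw [abs_mul, abs_of_nonneg (by positivity : 0 ≤ (1 / 2) * (zt b p.1 - zt b p.2) ^ 2)]
      have hz : (zt b p.1 - zt b p.2) ^ 2 ≤ (b * ‖p.1 - p.2‖) ^ 2 := by
        rw [← sq_abs (zt b p.1 - zt b p.2)]
        gcongr
      calc (1 / 2) * (zt b p.1 - zt b p.2) ^ 2 * |inner ℝ (V p.1) (V p.2)|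
          ≤ (1 / 2) * (b * ‖p.1 - p.2‖) ^ 2 * M ^ 2 := by
            gcongr
            exact hI.trans hVV
        _ = (1 / 2) * b ^ 2 * M ^ 2 * ‖p.1 - p.2‖ ^ 2 := by ring
    linarith
  have hb2 : |Ph b V p| ≤ 2 * M ^ 2 := by
    unfold Ph
    refine (abs_sub _ _).trans ?_
    have e1 : |zt b p.1 * zt b p.2 * (‖V p.1‖ * ‖V p.2‖)| ≤ M ^ 2 := by
      rw [abs_of_nonneg (by positivity)]
      calc zt b p.1 * zt b p.2 * (‖V p.1‖ * ‖V p.2‖) ≤ 1 * M ^ 2 := by gcongr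
        _ = M ^ 2 := one_mul _
    have e2 : |(1 / 2) * (zt b p.1 ^ 2 + zt b p.2 ^ 2) * inner ℝ (V p.1) (V p.2)| ≤ M ^ 2 := by
      rw [abs_mul, abs_of_nonneg (by positivity : 0 ≤ (1 / 2) * (zt b p.1 ^ 2 + zt b p.2 ^ 2))]
      have : (1 / 2) * (zt b p.1 ^ 2 + zt b p.2 ^ 2) ≤ 1 := by nlinarith
      calc (1 / 2) * (zt b p.1 ^ 2 + zt b p.2 ^ 2) * |inner ℝ (V p.1) (V p.2)|
          ≤ 1 * M ^ 2 := by
            apply mul_le_mul this (hI.trans hVV) (abs_nonneg _) (by norm_num)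
        _ = M ^ 2 := one_mul _
    linarith
  have hn : 0 ≤ ‖p.1 - p.2‖ ^ 2 := by positivity
  have hfin : |Ph b V p| ≤ C * min 1 (‖p.1 - p.2‖ ^ 2) := by
    rcases le_total 1 (‖p.1 - p.2‖ ^ 2) with h | h
    · rw [min_eq_left h, mul_one]
      refine hb2.trans ?_
      rw [hC]
      have : 0 ≤ (1 / 2) * (L : ℝ) ^ 2 + (1 / 2) * b ^ 2 * M ^ 2 := by positivity
      linarith
    · rw [min_eq_right h]
      refine hb1.trans ?_
      gcongr
      rw [hC]
      have : 0 ≤ 2 * M ^ 2 := by positivity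
      linarith
  have hmin : 0 ≤ min 1 (‖p.1 - p.2‖ ^ 2) := le_min zero_le_one hn
  have hnn : 0 ≤ C * min 1 (‖p.1 - p.2‖ ^ 2) := by positivity
  linarith


private theorem pl_diag {d : ℕ} (hd : 1 ≤ d) : ∀ᵐ p : E d × E d, p.1 - p.2 ≠ 0 := by
  have hne : Nonempty (Fin d) := ⟨⟨0, hd⟩⟩
  have : Nontrivial (E d) := by
    refine ⟨⟨0, EuclideanSpace.single hne.some (1 : ℝ), fun h => ?_⟩⟩
    have := congrArg (fun v : E d => v hne.some) h
    simp at this
  have hm : MeasurableSet {p : E d × E d | p.1 - p.2 = 0} :=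
    (measurableSet_singleton (0 : E d)).preimage (measurable_fst.sub measurable_snd)
  have h0 : volume {p : E d × E d | p.1 - p.2 = 0} = 0 := by
    rw [Measure.volume_eq_prod, Measure.measure_prod_null hm]
    refine Filter.Eventually.of_forall fun x => ?_
    have : Prod.mk x ⁻¹' {p : E d × E d | p.1 - p.2 = 0} = {x} := by
      ext y
      simp [sub_eq_zero, eq_comm]
    show volume (Prod.mk x ⁻¹' {p : E d × E d | p.1 - p.2 = 0}) = 0
    rw [this]
    simp
  rw [ae_iff]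
  simpa using h0

private theorem pl_cont_Ph {d : ℕ} {b : ℝ} {V : E d → E d} (hV : Continuous V) : Continuous (Ph b V) := by
  have hz : Continuous (fun x : E d => zt b x) := by
    unfold zt
    exact (continuous_const.add (continuous_norm.pow 2)).rpow_const
      (fun x => Or.inl (by have := sq_nonneg ‖x‖; show (1 : ℝ) + ‖x‖ ^ 2 ≠ 0; positivity))
  unfold Ph
  have h1 := hz.comp (continuous_fst (X := E d) (Y := E d))
  have h2 := hz.comp (continuous_snd (X := E d) (Y := E d))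
  have v1 := hV.comp (continuous_fst (X := E d) (Y := E d))
  have v2 := hV.comp (continuous_snd (X := E d) (Y := E d))
  simp only [Function.comp_def] at h1 h2 v1 v2
  exact ((h1.mul h2).mul (v1.norm.mul v2.norm)).sub
    ((continuous_const.mul ((h1.pow 2).add (h2.pow 2))).mul (v1.inner v2))

/-- MODULE pl. (P): the POSITIVITY LEMMA. Proof: integrable by `int_dom` and `Ph_bound`. By `ker_superp` and Fubini
(on `(0,∞) × E × E`; absolutely integrable because `∫∫ |Ph| ker < ∞`; the diagonal is null),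
`C ∫ Ph ker = ∫ l^s (∫ G_l Ph) dl ≥ 0` by `posl`. -/
theorem pos {d k : ℕ} (h2 : 2 ≤ k) (hk : k ≤ d) {s b : ℝ} (hs0 : 0 < s) (hs1 : s < 1) (hb0 : 0 ≤ b)
    (hb : b ^ 2 ≤ (k : ℝ) - 1) {V : E d → E d} (hL : ∃ L, LipschitzWith L V) (hs : HasCompactSupport V)
    (he : Equi k V) :
    Integrable (fun p : E d × E d => Ph b V p * K d s (p.1 - p.2)) ∧
    0 ≤ ∫ p : E d × E d, Ph b V p * K d s (p.1 - p.2) := by
  have hd : 1 ≤ d := by omega
  have hVc : Continuous V := by obtain ⟨L, hL⟩ := hL; exact hL.continuous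
  have hPc : Continuous (Ph b V) := pl_cont_Ph hVc
  obtain ⟨C, ρ, hC0, hC⟩ := Ph_bound hb0 hL hs
  have hint : Integrable (fun p : E d × E d => Ph b V p * K d s (p.1 - p.2)) := by
    refine int_dom hd hs0 hs1 _ hPc.aestronglyMeasurable C
      ((Metric.closedBall (0 : E d) ρ).indicator (fun _ => (1 : ℝ))) ?_ hC
    rw [integrable_indicator_iff Metric.isClosed_closedBall.measurableSet]
    exact integrableOn_const (by exact measure_closedBall_lt_top.ne)
  refine ⟨hint, ?_⟩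
  obtain ⟨c, hc, hsup⟩ := ker_superp d hs0
  set μ : Measure ℝ := volume.restrict (Ioi (0 : ℝ)) with hμ
  set F : (E d × E d) × ℝ → ℝ := fun q => q.2 ^ s * Gl d q.2 (q.1.1 - q.1.2) * Ph b V q.1 with hF
  have hFm : AEStronglyMeasurable F ((volume : Measure (E d × E d)).prod μ) := by
    have h1 : Measurable (fun q : (E d × E d) × ℝ => q.2 ^ s) := measurable_snd.pow_const s
    have h2 : Measurable (fun q : (E d × E d) × ℝ => Gl d q.2 (q.1.1 - q.1.2)) :=
      (measurable_Gl2 d).comp (measurable_snd.prodMk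
        ((measurable_fst.comp measurable_fst).sub (measurable_snd.comp measurable_fst)))
    have h3 : Measurable (fun q : (E d × E d) × ℝ => Ph b V q.1) := hPc.measurable.comp measurable_fst
    exact ((h1.mul h2).mul h3).aestronglyMeasurable
  have hdiag := pl_diag (d := d) hd
  have hFi : Integrable F ((volume : Measure (E d × E d)).prod μ) := by
    rw [integrable_prod_iff hFm]
    constructor
    · filter_upwards [hdiag] with p hp
      exact (hsup _ hp).1.mul_const (Ph b V p)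
    · have hnorm : ∀ᵐ p : E d × E d, (∫ l, ‖F (p, l)‖ ∂μ) = ‖Ph b V p * K d s (p.1 - p.2)‖ * c := by
        filter_upwards [hdiag] with p hp
        have h1 : ∀ᵐ l ∂μ, ‖F (p, l)‖ = l ^ s * Gl d l (p.1 - p.2) * ‖Ph b V p‖ := by
          rw [hμ]
          filter_upwards [ae_restrict_mem measurableSet_Ioi] with l hl
          have hl' : 0 < l := hl
          simp only [hF, norm_mul]
          rw [Real.norm_of_nonneg (Real.rpow_nonneg hl'.le s), Real.norm_of_nonneg (Gl_nonneg d l _)]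
        rw [integral_congr_ae h1, integral_mul_const, (hsup _ hp).2, norm_mul,
          Real.norm_of_nonneg (ker_nonneg (p.1 - p.2))]
        ring
      exact (hint.norm.mul_const c).congr (hnorm.mono fun p hp => hp.symm)
  have hswap : ∫ p : E d × E d, (∫ l, F (p, l) ∂μ) = ∫ l, (∫ p : E d × E d, F (p, l)) ∂μ :=
    integral_integral_swap (f := fun p l => F (p, l)) hFi
  have hleft : ∫ p : E d × E d, (∫ l, F (p, l) ∂μ) =
      c * ∫ p : E d × E d, Ph b V p * K d s (p.1 - p.2) := by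
    rw [← integral_const_mul]
    refine integral_congr_ae ?_
    filter_upwards [hdiag] with p hp
    simp only [hF]
    rw [integral_mul_const, (hsup _ hp).2]
    ring
  have hright : 0 ≤ ∫ l, (∫ p : E d × E d, F (p, l)) ∂μ := by
    rw [hμ]
    refine setIntegral_nonneg measurableSet_Ioi fun l hl => ?_
    have hl' : 0 < l := hl
    have h1 : ∫ p : E d × E d, F (p, l) = l ^ s * ∫ p : E d × E d, Gl d l (p.1 - p.2) * Ph b V p := by
      rw [← integral_const_mul]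
      refine integral_congr_ae (Filter.Eventually.of_forall fun p => ?_)
      simp only [hF]
      ring
    rw [h1]
    exact mul_nonneg (Real.rpow_nonneg hl'.le s) (posl h2 hk hl' hb0 hb hVc hs he)
  rw [← hswap, hleft] at hright
  exact (mul_nonneg_iff_of_pos_left hc).1 hright

end Pool.Agent.Frd
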